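import Pool.Agent.H56.ES.Rand

/-!
MP_6045a2_an. Sequences which decay at most like a power: the condition on the gaps is sharp for all
similar copies.
-/

set_option autoImplicit false

open MeasureTheory Set Filter Topology Metric
open scoped ENNReal

namespace Pool.Agent.H56.ES.Gap

/-- a sequence with small steps does not jump over an interval -/
theorem crossing {y : ℕ → ℝ} {t u : ℝ} {N : ℕ} (hstep : ∀ n, N ≤ n → y n - y (n + 1) < t) (hN : u + t ≤ y N)
    (hm : ∃ m, N ≤ m ∧ y m < u + t) : ∃ n, y n ∈ Ioo u (u + t) := by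
  classical
  set n := Nat.find hm with hn
  obtain ⟨h1, h2⟩ := Nat.find_spec hm
  rw [← hn] at h1 h2
  have h3 : N < n := by
    rcases h1.lt_or_eq with h | h
    · exact h
    · rw [← h] at h2
      exact absurd h2 (not_lt.2 hN)
  have h4 : u + t ≤ y (n - 1) := by
    by_contra h
    exact Nat.find_min hm (m := n - 1) (by omega) ⟨by omega, not_le.1 h⟩
  have h5 := hstep (n - 1) (by omega)
  rw [show n - 1 + 1 = n by omega] at h5
  exact ⟨n, by linarith, h2⟩

/-- the measure of the neighbourhood of a decreasing sequence -/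
theorem vol_slow {x : ℕ → ℝ} (hx : ∀ n, 0 < x n) (hanti : Antitone x) (N : ℕ) {t : ℝ} (ht : 0 < t) :
    volume (thickening t (range x)) ≤ ENNReal.ofReal (N * (2 * t) + (x N + 2 * t)) := by
  have h1 : thickening t (range x) ⊆ (⋃ n ∈ Finset.range N, Ioo (x n - t) (x n + t)) ∪ Ioo (-t) (x N + t) := by
    intro y hy
    obtain ⟨_, ⟨n, rfl⟩, hn⟩ := mem_thickening_iff.1 hy
    rw [Real.dist_eq, abs_lt] at hn
    rcases lt_or_ge n N with h | h
    · left
      simp only [mem_iUnion]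
      exact ⟨n, Finset.mem_range.2 h, by linarith, by linarith⟩
    · right
      have h2 := hanti h
      have h3 := hx n
      constructor <;> linarith
  refine (measure_mono h1).trans ((measure_union_le _ _).trans ?_)
  have hxN := hx N
  rw [ENNReal.ofReal_add (by positivity) (by positivity)]
  refine add_le_add ?_ ?_
  · refine (measure_biUnion_finset_le _ _).trans ?_
    have h2 : ∀ n ∈ Finset.range N, volume (Ioo (x n - t) (x n + t)) ≤ ENNReal.ofReal (2 * t) := by
      intro n _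
      rw [Real.volume_Ioo]
      exact ENNReal.ofReal_le_ofReal (by linarith)
    refine (Finset.sum_le_sum h2).trans (le_of_eq ?_)
    rw [Finset.sum_const, Finset.card_range, nsmul_eq_mul, ENNReal.ofReal_mul (Nat.cast_nonneg N),
      ENNReal.ofReal_natCast]
  · rw [Real.volume_Ioo]
    exact ENNReal.ofReal_le_ofReal (by linarith)

/-- one stage, for all parameters of a range -/
theorem stage_all {x : ℕ → ℝ} {C : ℝ} (hx : ∀ n, 0 < x n) (hanti : Antitone x) (hlim : Tendsto x atTop (𝓝 0))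
    (hC : ∀ n : ℕ, (n + 1) * (x n - x (n + 1)) ≤ C * x n) {L : ℝ → ℝ≥0∞}
    (hL : ∀ δ : ℝ, 0 < δ → ∃ᶠ t in 𝓝[>] (0 : ℝ),
      ENNReal.ofReal t * L t ≤ ENNReal.ofReal δ * volume (thickening t (range x)))
    {K : ℕ} (hK : 0 < K) {η : ℝ} (hη : 0 < η) :
    ∃ (l : ℝ) (M : ℕ) (c : Fin M → ℝ), 0 < l ∧ 0 < M ∧ M * l ≤ η ∧
      (M : ℝ≥0∞) * (ENNReal.ofReal l * L l) ≤ ENNReal.ofReal η ∧
      ∀ a b : ℝ, |b| ≤ K → 1 ≤ K * |b| → (∀ n, a + b * x n ∈ Icc (0 : ℝ) 1) →
        ∃ n j, a + b * x n ∈ Ioo (c j) (c j + l) := by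
  have hK' : (1 : ℝ) ≤ K := by exact_mod_cast hK
  have hC0 : 0 ≤ C := by
    have h1 := hC 0
    have h2 := hanti (Nat.zero_le 1)
    have h3 := hx 0
    simp only [Nat.cast_zero, zero_add, one_mul] at h1
    by_contra h
    nlinarith
  -- the differences are positive infinitely often
  have hpos : ∀ N₀ : ℕ, ∃ m, N₀ ≤ m ∧ 0 < x m - x (m + 1) := by
    intro N₀
    by_contra h
    push Not at h
    have h1 : ∀ m, x N₀ ≤ x (N₀ + m) := by
      intro m
      induction m with
      | zero => exact le_rfl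
      | succ m ih =>
        have := h (N₀ + m) (by omega)
        rw [← add_assoc]
        linarith
    have h2 : Tendsto (fun m => x (N₀ + m)) atTop (𝓝 0) := by
      have := (tendsto_add_atTop_iff_nat N₀).2 hlim
      simpa only [add_comm] using this
    have h3 : x N₀ ≤ 0 := ge_of_tendsto' h2 h1
    linarith [hx N₀]
  set δ : ℝ := η / (6 * K * (8 * K * C + 1)) with hδ
  have hδ0 : 0 < δ := by positivity
  obtain ⟨N₀, hN₀⟩ := exists_nat_gt (max (max (2 * C) (8 * K ^ 2 * C)) (12 * K ^ 2 * C / η))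
  -- the choice of `t`
  obtain ⟨N₁, hN₁⟩ : ∃ N₁, ∀ n, N₁ ≤ n → x n < 2 := by
    obtain ⟨N₁, h⟩ := eventually_atTop.1 (hlim.eventually_lt_const (show (0 : ℝ) < 2 by norm_num))
    exact ⟨N₁, h⟩
  obtain ⟨m, hm1, hm2⟩ := hpos (max N₀ N₁)
  have e1 : ∀ᶠ t : ℝ in 𝓝[>] 0, t ∈ Ioo (0 : ℝ) (K * (x m - x (m + 1))) := Ioo_mem_nhdsGT (by positivity)
  obtain ⟨t, htL, ht0, htm⟩ := ((hL δ hδ0).and_eventually e1).exists
  -- the choice of `N`
  have hex : ∃ N, ∀ n, N ≤ n → K * (x n - x (n + 1)) < t := by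
    have h1 : Tendsto (fun n => K * (x n - x (n + 1))) atTop (𝓝 0) := by
      have h2 := (hlim.sub ((tendsto_add_atTop_iff_nat 1).2 hlim)).const_mul (K : ℝ)
      simpa using h2
    obtain ⟨N, h⟩ := eventually_atTop.1 (h1.eventually_lt_const ht0)
    exact ⟨N, h⟩
  classical
  obtain ⟨N, hNdef⟩ : ∃ N, N = Nat.find hex := ⟨_, rfl⟩
  have hN : ∀ n, N ≤ n → K * (x n - x (n + 1)) < t := by rw [hNdef]; exact Nat.find_spec hex
  have hNm : m < N := by
    by_contra h
    have := hN m (not_lt.1 h)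
    linarith
  have hN1 : t ≤ K * (x (N - 1) - x N) := by
    by_contra h
    refine Nat.find_min hex (m := N - 1) (by omega) fun n hn => ?_
    rcases hn.lt_or_eq with h1 | h1
    · exact hN n (by omega)
    · rw [← h1, show N - 1 + 1 = N by omega]
      exact not_le.1 h
  have hNpos : (0 : ℝ) < N := by exact_mod_cast (by omega : 0 < N)
  have hNN₀ : (N₀ : ℝ) ≤ N := by
    have : N₀ ≤ N := by have := le_max_left N₀ N₁; omega
    exact_mod_cast this
  have hb1 : 2 * C ≤ N := ((le_max_left _ _).trans (le_max_left _ _)).trans (hN₀.le.trans hNN₀)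
  have hb2 : 8 * K ^ 2 * C < N := ((le_max_right _ _).trans (le_max_left _ _)).trans_lt (hN₀.trans_le hNN₀)
  have hb3 : 12 * K ^ 2 * C / η ≤ N := (le_max_right _ _).trans (hN₀.le.trans hNN₀)
  have hd : N * (x (N - 1) - x N) ≤ C * x (N - 1) := by
    have h1 := hC (N - 1)
    rw [show N - 1 + 1 = N by omega] at h1
    have h2 : ((N - 1 : ℕ) : ℝ) + 1 = N := by
      have : N - 1 + 1 = N := by omega
      exact_mod_cast this
    rwa [h2] at h1
  have hxN := hx N
  have hxN1 := hx (N - 1)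
  have hhalf : x (N - 1) ≤ 2 * x N := by
    have h1 : 2 * C * (x (N - 1) - x N) ≤ N * (x (N - 1) - x N) :=
      mul_le_mul_of_nonneg_right hb1 (sub_nonneg.2 (hanti (by omega)))
    rcases hC0.eq_or_lt with h | h
    · rw [← h, zero_mul] at hd
      have h2 : x (N - 1) - x N ≤ 0 := by
        by_contra h3
        have := mul_pos hNpos (not_le.1 h3)
        linarith
      linarith
    · have h2 : C * (2 * (x (N - 1) - x N)) ≤ C * x (N - 1) := by linarith
      have := le_of_mul_le_mul_left h2 h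
      linarith
  have htN : t * N ≤ 2 * K * C * x N := by
    calc t * N ≤ K * (x (N - 1) - x N) * N := mul_le_mul_of_nonneg_right hN1 hNpos.le
      _ = K * (N * (x (N - 1) - x N)) := by ring
      _ ≤ K * (C * x (N - 1)) := mul_le_mul_of_nonneg_left hd (by positivity)
      _ ≤ K * (C * (2 * x N)) := by
          exact mul_le_mul_of_nonneg_left (mul_le_mul_of_nonneg_left hhalf hC0) (by positivity)
      _ = 2 * K * C * x N := by ring
  obtain ⟨P, hP⟩ : ∃ P : ℝ, P = x N / (2 * K) := ⟨_, rfl⟩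
  have hP0 : 0 < P := by rw [hP]; positivity
  have hPK : 2 * K * P = x N := by rw [hP]; field_simp
  have hxN2 : x N < 2 := hN₁ N (by have := le_max_right N₀ N₁; omega)
  have hP1 : P ≤ 1 := by
    rw [hP, div_le_one (by positivity)]
    linarith
  have htP : t < P := by
    have h1 : t * (8 * K ^ 2 * C) ≤ 2 * K * C * x N ∧ t * (8 * K ^ 2 * C) < t * N :=
      ⟨(mul_le_mul_of_nonneg_left hb2.le ht0.le).trans htN, mul_lt_mul_of_pos_left hb2 ht0⟩
    rcases hC0.eq_or_lt with h | h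
    · rw [← h] at htN
      have := mul_pos ht0 hNpos
      nlinarith
    · have h2 : 2 * K * C * (4 * K * t) ≤ 2 * K * C * x N := by
        calc 2 * K * C * (4 * K * t) = t * (8 * K ^ 2 * C) := by ring
          _ ≤ _ := h1.1
      have h3 := le_of_mul_le_mul_left h2 (by positivity)
      rw [hP, lt_div_iff₀ (by positivity)]
      have : 0 < K * t := by positivity
      nlinarith
  obtain ⟨M, hM⟩ : ∃ M : ℕ, M = ⌈1 / P⌉₊ + 1 := ⟨_, rfl⟩
  have hMP : (M : ℝ) * P ≤ 3 := by
    have h1 : ((⌈1 / P⌉₊ : ℕ) : ℝ) < 1 / P + 1 := Nat.ceil_lt_add_one (by positivity)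
    have h2 : (M : ℝ) ≤ 1 / P + 2 := by rw [hM]; push_cast; linarith
    calc (M : ℝ) * P ≤ (1 / P + 2) * P := mul_le_mul_of_nonneg_right h2 hP0.le
      _ = 1 + 2 * P := by field_simp
      _ ≤ 3 := by linarith
  have hMx : (M : ℝ) * x N ≤ 6 * K := by
    rw [← hPK]
    nlinarith
  refine ⟨t, M, fun j => (j : ℕ) * P, ht0, by omega, ?_, ?_, ?_⟩
  · have h1 : (M : ℝ) * t * N ≤ η * N := by
      calc (M : ℝ) * t * N = M * (t * N) := by ring
        _ ≤ M * (2 * K * C * x N) := mul_le_mul_of_nonneg_left htN (Nat.cast_nonneg _)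
        _ = 2 * K * C * (M * x N) := by ring
        _ ≤ 2 * K * C * (6 * K) := mul_le_mul_of_nonneg_left hMx (by positivity)
        _ = 12 * K ^ 2 * C := by ring
        _ ≤ η * N := by
            rw [div_le_iff₀ hη] at hb3
            linarith
    exact le_of_mul_le_mul_right h1 hNpos
  · have h1 : volume (thickening t (range x)) ≤ ENNReal.ofReal ((8 * K * C + 1) * x N) := by
      refine (vol_slow hx hanti N ht0).trans (ENNReal.ofReal_le_ofReal ?_)
      have h2 : 2 * t ≤ 2 * (t * N) := by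
        have : (1 : ℝ) ≤ N := by exact_mod_cast (by omega : 1 ≤ N)
        nlinarith
      calc N * (2 * t) + (x N + 2 * t) ≤ N * (2 * t) + (x N + 2 * (t * N)) := by linarith
        _ = 4 * (t * N) + x N := by ring
        _ ≤ 4 * (2 * K * C * x N) + x N := by linarith
        _ = (8 * K * C + 1) * x N := by ring
    calc (M : ℝ≥0∞) * (ENNReal.ofReal t * L t) ≤
          M * (ENNReal.ofReal δ * ENNReal.ofReal ((8 * K * C + 1) * x N)) :=
          mul_le_mul_right (htL.trans (mul_le_mul_right h1 _)) _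
      _ = ENNReal.ofReal (M * (δ * ((8 * K * C + 1) * x N))) := by
          rw [← ENNReal.ofReal_natCast, ← ENNReal.ofReal_mul hδ0.le, ← ENNReal.ofReal_mul (Nat.cast_nonneg _)]
      _ ≤ ENNReal.ofReal η := by
          refine ENNReal.ofReal_le_ofReal ?_
          calc (M : ℝ) * (δ * ((8 * K * C + 1) * x N)) = δ * (8 * K * C + 1) * (M * x N) := by ring
            _ ≤ δ * (8 * K * C + 1) * (6 * K) := mul_le_mul_of_nonneg_left hMx (by positivity)
            _ = η := by rw [hδ]; field_simp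
  · intro a b hb1' hb2' hin
    have ha : Tendsto (fun n => a + b * x n) atTop (𝓝 a) := by
      have := (hlim.const_mul b).const_add a
      simpa using this
    have ha0 : 0 ≤ a := ge_of_tendsto' ha fun n => (hin n).1
    have ha1 : a ≤ 1 := le_of_tendsto' ha fun n => (hin n).2
    have hbx : 2 * P ≤ |b| * x N := by
      have h1 : (K : ℝ) * (2 * P) ≤ K * (|b| * x N) := by
        calc (K : ℝ) * (2 * P) = 1 * x N := by rw [← hPK]; ring
          _ ≤ K * |b| * x N := mul_le_mul_of_nonneg_right hb2' hxN.le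
          _ = K * (|b| * x N) := by ring
      exact le_of_mul_le_mul_left h1 (by positivity)
    have hstep : ∀ n, N ≤ n → |b| * (x n - x (n + 1)) < t := fun n hn =>
      (mul_le_mul_of_nonneg_right hb1' (sub_nonneg.2 (hanti (Nat.le_succ n)))).trans_lt (hN n hn)
    rcases le_or_gt 0 b with hb | hb
    · rw [abs_of_nonneg hb] at hbx hstep
      obtain ⟨j, hj⟩ : ∃ j : ℕ, j = ⌈a / P⌉₊ := ⟨_, rfl⟩
      have hj1 : a ≤ j * P := by
        have := Nat.le_ceil (a / P)
        rwa [← hj, div_le_iff₀ hP0] at this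
      have hj2 : j * P < a + P := by
        have := Nat.ceil_lt_add_one (show 0 ≤ a / P by positivity)
        rw [← hj] at this
        have h1 := mul_lt_mul_of_pos_right this hP0
        rw [add_mul, div_mul_cancel₀ _ hP0.ne', one_mul] at h1
        exact h1
      have hjM : j < M := by
        have : j ≤ ⌈1 / P⌉₊ := by
          rw [hj]
          exact Nat.ceil_le_ceil (div_le_div_of_nonneg_right ha1 hP0.le)
        omega
      obtain ⟨n, hn⟩ := crossing (y := fun n => a + b * x n) (t := t) (u := j * P) (N := N)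
        (fun n hn => by have := hstep n hn; linarith) (by show j * P + t ≤ a + b * x N; linarith)
        (by
          have h1 := ha.eventually_lt_const (show a < j * P + t by linarith)
          obtain ⟨m, h2, h3⟩ := (h1.and (eventually_ge_atTop N)).exists
          exact ⟨m, h3, h2⟩)
      exact ⟨n, ⟨j, hjM⟩, hn⟩
    · rw [abs_of_neg hb] at hbx hstep
      have haP : 2 * P ≤ a := by
        have := (hin N).1
        linarith
      obtain ⟨j, hj⟩ : ∃ j : ℕ, j = ⌊(a - t) / P⌋₊ := ⟨_, rfl⟩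
      have hat : 0 ≤ (a - t) / P := div_nonneg (by linarith) hP0.le
      have hj1 : j * P ≤ a - t := by
        have := Nat.floor_le hat
        rwa [← hj, le_div_iff₀ hP0] at this
      have hj2 : a - t < (j + 1) * P := by
        have := Nat.lt_floor_add_one ((a - t) / P)
        rwa [← hj, div_lt_iff₀ hP0] at this
      have hjM : j < M := by
        have h1 : (j : ℝ) ≤ 1 / P := by
          rw [le_div_iff₀ hP0]
          linarith
        have h2 : (j : ℝ) ≤ (⌈1 / P⌉₊ : ℕ) := h1.trans (Nat.le_ceil _)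
        have h3 : j ≤ ⌈1 / P⌉₊ := by exact_mod_cast h2
        omega
      obtain ⟨n, hn⟩ := crossing (y := fun n => -(a + b * x n)) (t := t) (u := -(j * P + t)) (N := N)
        (fun n hn => by have := hstep n hn; linarith)
        (by show -(j * P + t) + t ≤ -(a + b * x N); linarith)
        (by
          have h1 := ha.eventually_const_lt (show j * P < a by linarith)
          obtain ⟨m, h2, h3⟩ := (h1.and (eventually_ge_atTop N)).exists
          exact ⟨m, h3, by show -(a + b * x m) < -(j * P + t) + t; linarith⟩)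
      refine ⟨n, ⟨j, hjM⟩, ?_⟩
      have h1 := hn.1
      have h2 := hn.2
      exact ⟨by show (j : ℝ) * P < a + b * x n; linarith, by show a + b * x n < (j : ℝ) * P + t; linarith⟩

/-- putting the stages together -/
theorem assemble {L : ℝ → ℝ≥0∞} {ε : ℝ} (hε : 0 < ε) (l : ℕ → ℝ) (M : ℕ → ℕ) (c : ∀ k, Fin (M k) → ℝ)
    (hl : ∀ k, 0 < l k) (hM : ∀ k, 0 < M k) (hMl : ∀ k, M k * l k ≤ ε / 2 / 2 ^ k)
    (hML : ∀ k, (M k : ℝ≥0∞) * (ENNReal.ofReal (l k) * L (l k)) ≤ ENNReal.ofReal (ε / 2 / 2 ^ k)) :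
    ∃ c' l' : ℕ → ℝ, (∀ i, 0 < l' i) ∧ ∑' i, ENNReal.ofReal (l' i) ≤ ENNReal.ofReal ε ∧
      ∑' i, ENNReal.ofReal (l' i) * L (l' i) ≤ ENNReal.ofReal ε ∧
      ∀ k j, ∃ i, c' i = c k j ∧ l' i = l k := by
  have hsum : ∑' k : ℕ, ENNReal.ofReal (ε / 2 / 2 ^ k) = ENNReal.ofReal ε := by
    rw [← ENNReal.ofReal_tsum_of_nonneg (fun k => by positivity) (summable_geometric_two' _), tsum_geometric_two']
  have : Infinite (Σ k : ℕ, Fin (M k)) := by
    refine Infinite.of_injective (fun k : ℕ => (⟨k, ⟨0, hM k⟩⟩ : Σ k : ℕ, Fin (M k))) ?_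
    intro k k' h
    exact congrArg Sigma.fst h
  obtain ⟨hden⟩ := nonempty_denumerable (Σ k : ℕ, Fin (M k))
  set e : (Σ k : ℕ, Fin (M k)) ≃ ℕ := Denumerable.eqv _ with he
  have htsum : ∀ g : ℝ → ℝ≥0∞, ∑' i : ℕ, g (l (e.symm i).1) = ∑' k : ℕ, (M k : ℝ≥0∞) * g (l k) := by
    intro g
    rw [e.symm.tsum_eq (fun s : Σ k : ℕ, Fin (M k) => g (l s.1)),
      ENNReal.tsum_sigma fun (k : ℕ) (_ : Fin (M k)) => g (l k)]
    refine tsum_congr fun k => ?_
    rw [tsum_fintype, Finset.sum_const, Finset.card_univ, Fintype.card_fin, nsmul_eq_mul]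
  refine ⟨fun i => c (e.symm i).1 (e.symm i).2, fun i => l (e.symm i).1, fun i => hl _, ?_, ?_, ?_⟩
  · rw [htsum fun t => ENNReal.ofReal t, ← hsum]
    refine ENNReal.tsum_le_tsum fun k => ?_
    rw [← ENNReal.ofReal_natCast, ← ENNReal.ofReal_mul (Nat.cast_nonneg _)]
    exact ENNReal.ofReal_le_ofReal (hMl k)
  · rw [htsum fun t => ENNReal.ofReal t * L t, ← hsum]
    exact ENNReal.tsum_le_tsum fun k => hML k
  · intro k j
    refine ⟨e ⟨k, j⟩, ?_⟩
    have h := e.symm_apply_apply ⟨k, j⟩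
    show c (e.symm (e ⟨k, j⟩)).1 (e.symm (e ⟨k, j⟩)).2 = c k j ∧ l (e.symm (e ⟨k, j⟩)).1 = l k
    rw [h]
    exact ⟨rfl, rfl⟩

/-- sequences which decay at most like a power -/
theorem slow {x : ℕ → ℝ} {C : ℝ} (hx : ∀ n, 0 < x n) (hanti : Antitone x) (hlim : Tendsto x atTop (𝓝 0))
    (hC : ∀ n : ℕ, (n + 1) * (x n - x (n + 1)) ≤ C * x n) {L : ℝ → ℝ≥0∞}
    (hL : ∀ δ : ℝ, 0 < δ → ∃ᶠ t in 𝓝[>] (0 : ℝ),
      ENNReal.ofReal t * L t ≤ ENNReal.ofReal δ * volume (thickening t (range x)))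
    {ε : ℝ} (hε : 0 < ε) :
    ∃ c l : ℕ → ℝ, (∀ i, 0 < l i) ∧ ∑' i, ENNReal.ofReal (l i) ≤ ENNReal.ofReal ε ∧
      ∑' i, ENNReal.ofReal (l i) * L (l i) ≤ ENNReal.ofReal ε ∧
      ∀ a b : ℝ, b ≠ 0 → ∃ n, a + b * x n ∉ Icc (0 : ℝ) 1 \ ⋃ i, Ioo (c i) (c i + l i) := by
  have hst := fun k : ℕ => stage_all hx hanti hlim hC hL (Nat.succ_pos k)
    (show (0 : ℝ) < ε / 2 / 2 ^ k by positivity)
  choose l M c hl hM hMl hML hhit using hst
  obtain ⟨c', l', h1, h2, h3, h4⟩ := assemble hε l M c hl hM hMl hML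
  refine ⟨c', l', h1, h2, h3, fun a b hb => ?_⟩
  by_contra hcon
  push Not at hcon
  have hpos : 0 < |b| := abs_pos.2 hb
  obtain ⟨K, hK1⟩ := exists_nat_ge (max |b| (1 / |b|))
  have e1 := (le_max_left _ _).trans hK1
  have e2 := (le_max_right _ _).trans hK1
  rw [div_le_iff₀ hpos] at e2
  obtain ⟨n, j, hn⟩ := hhit K a b (by push_cast; linarith) (by push_cast; nlinarith) fun n => (hcon n).1
  obtain ⟨i, hi1, hi2⟩ := h4 K j
  refine (hcon n).2 (mem_iUnion.2 ⟨i, ?_⟩)
  rw [hi1, hi2]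
  exact hn

end Pool.Agent.H56.ES.Gap
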