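import Pool.Agent.H56.ES.Every
import Pool.Agent.H56.ES.Slow

/-!
MP_6045a2_an. Gaps of prescribed weight which are met by `a + b X` for every `b` and almost every `a`.
-/

set_option autoImplicit false

open MeasureTheory Set Filter Topology Metric
open scoped ENNReal

namespace Pool.Agent.H56.ES.Gap

/-- for every ratio almost no translate avoids the gaps -/
theorem every {X : Set ℝ} (hXb : Bornology.IsBounded X) (hX : X.Infinite) {L : ℝ → ℝ≥0∞}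
    (hL : ∀ δ : ℝ, 0 < δ → ∃ᶠ t in 𝓝[>] (0 : ℝ), ENNReal.ofReal t * L t ≤
      ENNReal.ofReal δ * min (volume (thickening t X)) (ENNReal.ofReal (1 / |Real.log t|)))
    {ε : ℝ} (hε : 0 < ε) :
    ∃ c l : ℕ → ℝ, (∀ i, 0 < l i) ∧ ∑' i, ENNReal.ofReal (l i) * (1 + L (l i)) ≤ ENNReal.ofReal ε ∧
      ∀ b : ℝ, b ≠ 0 → ∀ᵐ a, ∃ x ∈ X, a + b * x ∉ Icc (0 : ℝ) 1 \ ⋃ i, Ioo (c i) (c i + l i) := by
  classical
  have hst := fun k : ℕ => stageE hXb hX hL (Nat.succ_pos k) (show (0 : ℝ) < ε / 2 / 2 ^ k by positivity)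
  choose l M c hl hM hMl hP using hst
  have hsum : ∑' k : ℕ, ENNReal.ofReal (ε / 2 / 2 ^ k) = ENNReal.ofReal ε := by
    rw [← ENNReal.ofReal_tsum_of_nonneg (fun k => by positivity) (summable_geometric_two' _), tsum_geometric_two']
  have : Infinite (Σ k : ℕ, Fin (M k)) := by
    refine Infinite.of_injective (fun k : ℕ => (⟨k, ⟨0, hM k⟩⟩ : Σ k : ℕ, Fin (M k))) ?_
    intro k k' h
    exact congrArg Sigma.fst h
  obtain ⟨hden⟩ := nonempty_denumerable (Σ k : ℕ, Fin (M k))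
  set e : (Σ k : ℕ, Fin (M k)) ≃ ℕ := Denumerable.eqv _ with he
  refine ⟨fun i => c (e.symm i).1 (e.symm i).2, fun i => l (e.symm i).1, fun i => hl _, ?_, ?_⟩
  · rw [e.symm.tsum_eq (fun s : Σ k : ℕ, Fin (M k) => ENNReal.ofReal (l s.1) * (1 + L (l s.1))),
      ENNReal.tsum_sigma fun (k : ℕ) (_ : Fin (M k)) => ENNReal.ofReal (l k) * (1 + L (l k)), ← hsum]
    refine ENNReal.tsum_le_tsum fun k => ?_
    rw [tsum_fintype, Finset.sum_const, Finset.card_univ, Fintype.card_fin, nsmul_eq_mul]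
    exact hMl k
  · intro b hb
    have hpos : 0 < |b| := abs_pos.2 hb
    obtain ⟨K, hK⟩ := exists_nat_ge (max |b| (1 / |b|))
    rw [ae_iff]
    have h1 : ∀ k : ℕ, K ≤ k → volume {a | ¬ ∃ x ∈ X, a + b * x ∉ Icc (0 : ℝ) 1 \
        ⋃ i, Ioo (c (e.symm i).1 (e.symm i).2) (c (e.symm i).1 (e.symm i).2 + l (e.symm i).1)} ≤
        ENNReal.ofReal (ε / 2 / 2 ^ k) := by
      intro k hk
      have hkK : (K : ℝ) ≤ ((k + 1 : ℕ) : ℝ) := by exact_mod_cast hk.trans (Nat.le_succ k)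
      have e1 := (le_max_left _ _).trans (hK.trans hkK)
      have e2 := (le_max_right _ _).trans (hK.trans hkK)
      rw [div_le_iff₀ hpos] at e2
      refine (measure_mono ?_).trans (hP k b e1 e2)
      intro a ha x hx
      have h2 : a + b * x ∈ Icc (0 : ℝ) 1 \
          ⋃ i, Ioo (c (e.symm i).1 (e.symm i).2) (c (e.symm i).1 (e.symm i).2 + l (e.symm i).1) := by
        by_contra h3
        exact ha ⟨x, hx, h3⟩
      refine ⟨h2.1, fun j hj h3 => h2.2 (mem_iUnion.2 ⟨e ⟨k, ⟨j, hj⟩⟩, ?_⟩)⟩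
      rw [Equiv.symm_apply_apply]
      exact h3
    have h2 : Tendsto (fun k : ℕ => ENNReal.ofReal (ε / 2 / 2 ^ k)) atTop (𝓝 0) := by
      have h3 : Tendsto (fun k : ℕ => ε / 2 / 2 ^ k) atTop (𝓝 0) := by
        have h4 := (tendsto_pow_atTop_nhds_zero_of_lt_one (by norm_num : (0 : ℝ) ≤ 1 / 2) (by norm_num)).const_mul (ε / 2)
        rw [mul_zero] at h4
        refine h4.congr fun k => ?_
        rw [one_div, inv_pow, ← div_eq_mul_inv]
      have h5 := ENNReal.tendsto_ofReal h3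
      rwa [ENNReal.ofReal_zero] at h5
    exact le_antisymm (ge_of_tendsto h2 (eventually_atTop.2 ⟨K, h1⟩)) zero_le

/-- from every ratio to almost all pairs -/
theorem ae_pair {X E : Set ℝ} (hE : IsClosed E) (h : ∀ b : ℝ, b ≠ 0 → ∀ᵐ a, ∃ x ∈ X, a + b * x ∉ E) :
    ∀ᵐ p : ℝ × ℝ, ∃ x ∈ X, p.1 + p.2 * x ∉ E := by
  have h1 : {p : ℝ × ℝ | ¬ ∃ x ∈ X, p.1 + p.2 * x ∉ E} = ⋂ x ∈ X, {p : ℝ × ℝ | p.1 + p.2 * x ∈ E} := by
    ext p
    simp only [mem_ofPred_eq, not_exists, not_and, not_not, mem_iInter]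
  have hm : MeasurableSet {p : ℝ × ℝ | ¬ ∃ x ∈ X, p.1 + p.2 * x ∉ E} := by
    rw [h1]
    refine IsClosed.measurableSet (isClosed_biInter fun x _ => ?_)
    exact hE.preimage (f := fun p : ℝ × ℝ => p.1 + p.2 * x) (by fun_prop)
  rw [ae_iff, show (volume : Measure (ℝ × ℝ)) = (volume : Measure ℝ).prod volume from rfl, Measure.prod_apply_symm hm]
  have h2 : ∀ᵐ b : ℝ, b ≠ 0 := by
    rw [ae_iff]
    simp
  refine (lintegral_eq_zero_iff (measurable_measure_prodMk_right hm)).2 ?_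
  filter_upwards [h2] with b hb
  exact ae_iff.1 (h b hb)

/-- both conclusions -/
theorem sharp_all {X : Set ℝ} (hXb : Bornology.IsBounded X) (hX : X.Infinite) {L : ℝ → ℝ≥0∞}
    (hL : ∀ δ : ℝ, 0 < δ → ∃ᶠ t in 𝓝[>] (0 : ℝ), ENNReal.ofReal t * L t ≤ ENNReal.ofReal δ * volume (thickening t X))
    {ε : ℝ} (hε : 0 < ε) :
    ∃ c l : ℕ → ℝ, (∀ i, 0 < l i) ∧ ∑' i, ENNReal.ofReal (l i) * (1 + L (l i)) ≤ ENNReal.ofReal ε ∧
      (∀ᵐ p : ℝ × ℝ, ∃ x ∈ X, p.1 + p.2 * x ∉ Icc (0 : ℝ) 1 \ ⋃ i, Ioo (c i) (c i + l i)) ∧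
      ((∀ δ : ℝ, 0 < δ → ∃ᶠ t in 𝓝[>] (0 : ℝ), ENNReal.ofReal t * L t ≤
          ENNReal.ofReal δ * min (volume (thickening t X)) (ENNReal.ofReal (1 / |Real.log t|))) →
        ∀ b : ℝ, b ≠ 0 → ∀ᵐ a, ∃ x ∈ X, a + b * x ∉ Icc (0 : ℝ) 1 \ ⋃ i, Ioo (c i) (c i + l i)) := by
  by_cases h : ∀ δ : ℝ, 0 < δ → ∃ᶠ t in 𝓝[>] (0 : ℝ), ENNReal.ofReal t * L t ≤
      ENNReal.ofReal δ * min (volume (thickening t X)) (ENNReal.ofReal (1 / |Real.log t|))
  · obtain ⟨c, l, h1, h2, h3⟩ := every hXb hX h hε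
    refine ⟨c, l, h1, h2, ae_pair ?_ h3, fun _ => h3⟩
    exact isClosed_Icc.sdiff (isOpen_iUnion fun i => isOpen_Ioo)
  · obtain ⟨c, l, h1, h2, h3, h4⟩ := sharp hXb hX hL (half_pos hε)
    refine ⟨c, l, h1, ?_, h4, fun h' => absurd h' h⟩
    simp only [mul_add, mul_one]
    rw [ENNReal.tsum_add]
    refine (add_le_add h2 h3).trans (le_of_eq ?_)
    rw [← ENNReal.ofReal_add (by positivity) (by positivity), add_halves]

end Pool.Agent.H56.ES.Gap
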