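import Pool.Agent.H56.ES.Dust

/-!
MP_6045a2_an. Symmetric Cantor sets of positive measure contain similar copies of lacunary sets.
-/

set_option autoImplicit false

open MeasureTheory Set Filter Topology
open scoped ENNReal

namespace Pool.Agent.H56.ES

/-- the length of the intervals of stage `k` -/
noncomputable def len (κ : ℕ → ℝ) (k : ℕ) : ℝ := ∏ i ∈ Finset.range k, (1 - κ i) / 2

/-- the left end points of the intervals of stage `k` -/
noncomputable def left (κ : ℕ → ℝ) : ℕ → Set ℝ
  | 0 => {0}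
  | k + 1 => {v | v ∈ left κ k ∨ v - (len κ k - len κ (k + 1)) ∈ left κ k}

/-- the symmetric Cantor set -/
def cantor (κ : ℕ → ℝ) : Set ℝ := {y | ∀ k, ∃ u ∈ left κ k, u ≤ y ∧ y ≤ u + len κ k}

section

variable {κ : ℕ → ℝ} (hκ : ∀ k, 0 < κ k ∧ κ k < 1)

include hκ

theorem len_pos (k : ℕ) : 0 < len κ k := by
  unfold len
  exact Finset.prod_pos fun i _ => by linarith [(hκ i).2]

omit hκ in
theorem len_succ (k : ℕ) : len κ (k + 1) = len κ k * ((1 - κ k) / 2) := by
  unfold len
  rw [Finset.prod_range_succ]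

theorem len_succ_le (k : ℕ) : len κ (k + 1) ≤ len κ k / 2 := by
  rw [len_succ]
  nlinarith [len_pos hκ k, (hκ k).1]

theorem len_anti (k i : ℕ) : len κ (k + i) ≤ len κ k := by
  induction i with
  | zero => rfl
  | succ i ih =>
    have h1 := len_succ_le hκ (k + i)
    have h2 := len_pos hκ (k + i)
    rw [← add_assoc]
    linarith

omit hκ in
theorem left_mono (k i : ℕ) {u : ℝ} (hu : u ∈ left κ k) : u ∈ left κ (k + i) := by
  induction i with
  | zero => exact hu
  | succ i ih => exact Or.inl ih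

theorem left_sep (k : ℕ) : Sep (left κ k) (len κ k) := by
  induction k with
  | zero =>
    intro s hs s' hs' hne
    exact absurd (hs.trans hs'.symm) hne
  | succ k ih =>
    have h1 := len_succ_le hκ k
    have h2 := len_pos hκ (k + 1)
    intro s hs s' hs' hne
    rcases hs with hs | hs <;> rcases hs' with hs' | hs'
    · have := ih s hs s' hs' hne
      linarith
    · by_cases h3 : s = s' - (len κ k - len κ (k + 1))
      · rw [h3, show s' - (len κ k - len κ (k + 1)) - s' = -(len κ k - len κ (k + 1)) by ring, abs_neg]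
        exact le_trans (by linarith) (le_abs_self _)
      · have h4 := ih s hs _ hs' h3
        have h5 := abs_add_le (s - s') (len κ k - len κ (k + 1))
        rw [show s - s' + (len κ k - len κ (k + 1)) = s - (s' - (len κ k - len κ (k + 1))) by ring,
          abs_of_nonneg (show 0 ≤ len κ k - len κ (k + 1) by linarith)] at h5
        linarith
    · by_cases h3 : s - (len κ k - len κ (k + 1)) = s'
      · rw [← h3, show s - (s - (len κ k - len κ (k + 1))) = len κ k - len κ (k + 1) by ring]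
        exact le_trans (by linarith) (le_abs_self _)
      · have h4 := ih _ hs s' hs' h3
        have h5 := abs_sub (s - s') (len κ k - len κ (k + 1))
        rw [show s - s' - (len κ k - len κ (k + 1)) = s - (len κ k - len κ (k + 1)) - s' by ring,
          abs_of_nonneg (show 0 ≤ len κ k - len κ (k + 1) by linarith)] at h5
        linarith
    · have h4 := ih _ hs _ hs' (fun h5 => hne (by linarith))
      rw [show s - (len κ k - len κ (k + 1)) - (s' - (len κ k - len κ (k + 1))) = s - s' by ring] at h4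
      linarith

omit hκ in
/-- the gap of stage `k` lies in the middle of an interval of stage `k` -/
theorem next {k : ℕ} {u y : ℝ} (hu : u ∈ left κ k) (h1 : u ≤ y) (h2 : y ≤ u + len κ k)
    (h3 : κ k * len κ k / 2 ≤ |y - (u + len κ k / 2)|) :
    ∃ u' ∈ left κ (k + 1), u' ≤ y ∧ y ≤ u' + len κ (k + 1) := by
  have h4 := len_succ (κ := κ) k
  rcases le_abs.1 h3 with h5 | h5
  · refine ⟨u + (len κ k - len κ (k + 1)), Or.inr (by rw [add_sub_cancel_right]; exact hu), ?_, ?_⟩
    · rw [h4]; linarith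
    · linarith
  · refine ⟨u, Or.inl hu, h1, ?_⟩
    rw [h4]; linarith

theorem stage_down {k : ℕ} {u y : ℝ} (hu : u ∈ left κ (k + 1)) (h1 : u ≤ y) (h2 : y ≤ u + len κ (k + 1)) :
    ∃ u' ∈ left κ k, u' ≤ y ∧ y ≤ u' + len κ k := by
  have h3 := len_succ_le hκ k
  have h4 := len_pos hκ (k + 1)
  rcases hu with hu | hu
  · exact ⟨u, hu, h1, by linarith⟩
  · exact ⟨_, hu, by linarith, by linarith⟩

theorem stage_down' (k i : ℕ) {y : ℝ} (h : ∃ u ∈ left κ (k + i), u ≤ y ∧ y ≤ u + len κ (k + i)) :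
    ∃ u' ∈ left κ k, u' ≤ y ∧ y ≤ u' + len κ k := by
  induction i with
  | zero => exact h
  | succ i ih =>
    obtain ⟨u, hu, h1, h2⟩ := h
    exact ih (stage_down hκ hu h1 h2)

/-- points which avoid the later gaps -/
theorem mem_cantor {m : ℕ} {u y : ℝ} (hu : u ∈ left κ m) (h1 : u ≤ y) (h2 : y ≤ u + len κ m)
    (h3 : ∀ j, ∀ v ∈ left κ (m + j), κ (m + j) * len κ (m + j) / 2 ≤ |y - (v + len κ (m + j) / 2)|) :
    y ∈ cantor κ := by
  have h4 : ∀ j, ∃ u ∈ left κ (m + j), u ≤ y ∧ y ≤ u + len κ (m + j) := by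
    intro j
    induction j with
    | zero => exact ⟨u, hu, h1, h2⟩
    | succ j ih =>
      obtain ⟨v, hv, h5, h6⟩ := ih
      exact next hv h5 h6 (h3 j v hv)
  intro k
  rcases le_total m k with h5 | h5
  · obtain ⟨j, rfl⟩ := Nat.exists_eq_add_of_le h5
    exact h4 j
  · obtain ⟨j, rfl⟩ := Nat.exists_eq_add_of_le h5
    exact stage_down' hκ k j ⟨u, hu, h1, h2⟩

/-- symmetric Cantor sets contain similar copies of bounded sparse sets -/
theorem cantor_copy {δ : ℝ} (hδ0 : 0 < δ) (hδ1 : δ < 1) {M : ℕ → ℕ} (hM1 : ∀ k, 1 ≤ M k)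
    (hsum : Summable fun k => M k * κ k ^ (1 - δ)) {x : ℕ → ℝ} (hx : ∀ n, x n ≠ 0)
    (hM : ∀ k, ∀ t : ℝ, κ k * len κ k ≤ t → {n | t < |x n| ∧ |x n| ≤ 2 * t}.encard ≤ M k) {X : ℝ}
    (hX : ∀ n, |x n| ≤ X) (m : ℕ) {u : ℝ} (hu : u ∈ left κ m) :
    ∃ a b : ℝ, 0 < b ∧ ∀ n, a + b * x n ∈ cantor κ ∧ u ≤ a + b * x n ∧ a + b * x n ≤ u + len κ m := by
  obtain ⟨η, hη, hdust⟩ := dust δ hδ0 hδ1
  have hX0 : 0 ≤ X := (abs_nonneg _).trans (hX 0)
  -- the tail of the series
  have hsum' : Summable fun k => M k * (3 / 2 * κ k) ^ (1 - δ) := by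
    have h1 : (fun k => M k * (3 / 2 * κ k) ^ (1 - δ)) = fun k => (3 / 2 : ℝ) ^ (1 - δ) * (M k * κ k ^ (1 - δ)) := by
      funext k
      rw [Real.mul_rpow (by norm_num) (hκ k).1.le]
      ring
    rw [h1]
    exact hsum.mul_left _
  have htail := (tendsto_sum_nat_add fun k => M k * (3 / 2 * κ k) ^ (1 - δ)).eventually_lt_const hη
  obtain ⟨m', hm1, hm2⟩ := (htail.and (eventually_ge_atTop m)).exists
  obtain ⟨i, rfl⟩ := Nat.exists_eq_add_of_le hm2
  have hL := len_pos hκ (m + i)
  have hLm := len_anti hκ m i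
  have hL0 : len κ (m + i) ≤ 1 := by
    have h1 := len_anti hκ 0 (m + i)
    rw [zero_add] at h1
    have h2 : len κ 0 = 1 := by unfold len; simp
    rwa [h2] at h1
  have hB : 0 < len κ (m + i) / (6 * (X + 1)) := by positivity
  have hB6 : len κ (m + i) / (6 * (X + 1)) ≤ 1 / 6 := by
    rw [div_le_div_iff₀ (by positivity) (by norm_num)]
    nlinarith
  obtain ⟨a, b, ha1, ha2, hb1, hb2, hab⟩ := hdust x hx
    (fun j => {s | s - len κ (m + i + j) / 2 ∈ left κ (m + i + j)}) (fun j => len κ (m + i + j) / 3)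
    (fun j => 3 / 2 * κ (m + i + j)) (fun j => M (m + i + j)) (len κ (m + i) / 3) _ hB
    (fun j => ⟨by have := len_pos hκ (m + i + j); positivity, by have := len_anti hκ (m + i) j; linarith⟩)
    (fun j => by have := (hκ (m + i + j)).1; positivity)
    (fun j => hM1 _)
    (fun j t ht => hM (m + i + j) t (by
      have h1 : 0 < κ (m + i + j) * len κ (m + i + j) := mul_pos (hκ _).1 (len_pos hκ _)
      have ht0 : 0 < t := by
        by_contra hcon
        have : len κ (m + i) / (6 * (X + 1)) * t ≤ 0 := mul_nonpos_of_nonneg_of_nonpos hB.le (not_lt.1 hcon)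
        nlinarith
      have h2 : len κ (m + i) / (6 * (X + 1)) * t ≤ 1 / 6 * t := mul_le_mul_of_nonneg_right hB6 ht0.le
      nlinarith))
    (fun j s hs s' hs' hne => by
      have h1 := left_sep hκ (m + i + j) _ hs _ hs' (fun h2 => hne (by linarith))
      rw [sub_sub_sub_cancel_right] at h1
      have := len_pos hκ (m + i + j)
      linarith)
    (by
      have := (summable_nat_add_iff (m + i)).2 hsum'
      simpa only [add_comm] using this)
    (by
      refine le_trans (le_of_eq ?_) hm1.le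
      refine tsum_congr fun j => ?_
      rw [add_comm (m + i) j])
    (u + len κ (m + i) / 3)
  refine ⟨a, b, hB.trans_le hb1, fun n => ?_⟩
  have hbx : |b * x n| ≤ len κ (m + i) / 3 := by
    rw [abs_mul, abs_of_pos (hB.trans_le hb1)]
    calc b * |x n| ≤ 2 * (len κ (m + i) / (6 * (X + 1))) * (X + 1) := by
          refine mul_le_mul hb2 (by linarith [hX n]) (abs_nonneg _) (by positivity)
      _ = len κ (m + i) / 3 := by field_simp; ring
  have hbx' := abs_le.1 hbx
  have h1 : u ≤ a + b * x n := by linarith [hbx'.1]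
  have h2 : a + b * x n ≤ u + len κ (m + i) := by linarith [hbx'.2]
  refine ⟨mem_cantor hκ (left_mono m i hu) h1 h2 ?_, h1, by linarith⟩
  intro j v hv
  have h3 := hab n j (v + len κ (m + i + j) / 2) (by
    show v + len κ (m + i + j) / 2 - len κ (m + i + j) / 2 ∈ left κ (m + i + j)
    rw [add_sub_cancel_right]
    exact hv)
  refine le_trans (le_of_eq ?_) h3
  ring

end

end Pool.Agent.H56.ES
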