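import Pool.Agent.H56.ES.Game

/-!
MP_6045a2_an. Separated sets, counting lemmas, and copies of lacunary sets in the complement of
uniform dust.
-/

set_option autoImplicit false

open MeasureTheory Set Filter Topology
open scoped ENNReal

namespace Pool.Agent.H56.ES

/-- `S` is `h`-separated -/
def Sep (S : Set ℝ) (h : ℝ) : Prop := ∀ s ∈ S, ∀ s' ∈ S, s ≠ s' → h ≤ |s - s'|

theorem floor_inj {S : Set ℝ} {h : ℝ} (hh : 0 < h) (hS : Sep S h) (u : ℝ) {s s' : ℝ} (hs : s ∈ S) (hs' : s' ∈ S)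
    (hf : ⌊(s - u) / h⌋ = ⌊(s' - u) / h⌋) : s = s' := by
  by_contra hne
  have h1 := hS s hs s' hs' hne
  have h2 := Int.abs_sub_lt_one_of_floor_eq_floor hf
  rw [← sub_div, abs_div, abs_of_pos hh, div_lt_one hh, sub_sub_sub_cancel_right] at h2
  linarith

theorem Sep.countable {S : Set ℝ} {h : ℝ} (hh : 0 < h) (hS : Sep S h) : Countable S :=
  Function.Injective.countable (f := fun s : S => ⌊((s : ℝ) - 0) / h⌋) fun s s' hf =>
    Subtype.ext (floor_inj hh hS 0 s.2 s'.2 hf)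

open Classical in
/-- a separated set has few points in an interval -/
theorem tsum_sep {S : Set ℝ} {h : ℝ} (hh : 0 < h) (hS : Sep S h) (k : ℕ) {R y : ℝ} (hR : R ≤ k * h / 2) :
    ∑' s : S, (if |y - s| < R then (1 : ℝ≥0∞) else 0) ≤ k := by
  rw [ENNReal.tsum_eq_iSup_sum]
  refine iSup_le fun F => ?_
  rw [Finset.sum_boole]
  have h1 : (F.filter fun s : S => |y - s| < R).card ≤ (Finset.Ico (0 : ℤ) k).card := by
    refine Finset.card_le_card_of_injOn (fun s : S => ⌊((s : ℝ) - (y - k * h / 2)) / h⌋) ?_ ?_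
    · intro s hs
      have h2 := abs_lt.1 (Finset.mem_filter.1 hs).2
      simp only [Finset.coe_Ico, mem_Ico]
      constructor
      · refine Int.floor_nonneg.2 (div_nonneg ?_ hh.le)
        linarith
      · rw [Int.floor_lt, div_lt_iff₀ hh]
        push_cast
        linarith
    · intro s _ s' _ hf
      exact Subtype.ext (floor_inj hh hS _ s.2 s'.2 hf)
  rw [Int.card_Ico, sub_zero, Int.toNat_natCast] at h1
  exact_mod_cast h1

open Classical in
theorem measurable_tsum_sep {S : Set ℝ} {h : ℝ} (hh : 0 < h) (hS : Sep S h) (y t : ℝ) :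
    Measurable fun a : ℝ => ∑' s : S, (if |a + y - s| < t then (1 : ℝ≥0∞) else 0) := by
  have := hS.countable hh
  refine Measurable.tsum fun s => Measurable.ite ?_ measurable_const measurable_const
  exact measurableSet_Iio.preimage (f := fun a : ℝ => |a + y - s|) (by fun_prop)

open Classical in
/-- the average number of points of a separated set near `a + y` -/
theorem lint_sep {S : Set ℝ} {h : ℝ} (hh : 0 < h) (hh1 : h ≤ 1) (hS : Sep S h) {t : ℝ} (ht : 0 ≤ t)
    (ht2 : t ≤ 3 / 2 * h) (y : ℝ) :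
    ∫⁻ a in Icc (0 : ℝ) 1, ∑' s : S, (if |a + y - s| < t then (1 : ℝ≥0∞) else 0) ≤
      ENNReal.ofReal (10 * t / h) := by
  have := hS.countable hh
  have hm : ∀ s : S, MeasurableSet {a : ℝ | |a + y - s| < t} := fun s =>
    measurableSet_Iio.preimage (f := fun a : ℝ => |a + y - s|) (by fun_prop)
  rw [lintegral_tsum fun s => (Measurable.ite (hm s) measurable_const measurable_const).aemeasurable]
  have h1 : ∀ s : S, ∫⁻ a in Icc (0 : ℝ) 1, (if |a + y - s| < t then (1 : ℝ≥0∞) else 0) ≤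
      ENNReal.ofReal (2 * t) * (if |(1 / 2 + y) - s| < t + 1 / 2 then 1 else 0) := by
    intro s
    have e1 : (fun a : ℝ => if |a + y - s| < t then (1 : ℝ≥0∞) else 0) =
        ({a : ℝ | |a + y - s| < t}).indicator fun _ => 1 := by
      funext a
      by_cases h2 : |a + y - s| < t
      · rw [if_pos h2, indicator_of_mem (show a ∈ {a : ℝ | |a + y - s| < t} from h2)]
      · rw [if_neg h2, indicator_of_notMem (show a ∉ {a : ℝ | |a + y - s| < t} from h2)]
    rw [e1, lintegral_indicator_const (hm s), one_mul, Measure.restrict_apply (hm s)]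
    by_cases h2 : |(1 / 2 + y) - s| < t + 1 / 2
    · rw [if_pos h2, mul_one]
      have h3 : {a : ℝ | |a + y - s| < t} ∩ Icc 0 1 ⊆ Ioo (s - y - t) (s - y + t) := by
        rintro a ⟨ha, -⟩
        have := abs_lt.1 (show |a + y - s| < t from ha)
        constructor <;> linarith
      refine (measure_mono h3).trans (le_of_eq ?_)
      rw [Real.volume_Ioo]
      congr 1
      ring
    · rw [if_neg h2, mul_zero]
      have h3 : {a : ℝ | |a + y - s| < t} ∩ Icc 0 1 = ∅ := by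
        rw [eq_empty_iff_forall_notMem]
        rintro a ⟨ha, ha0, ha1⟩
        apply h2
        have := abs_lt.1 (show |a + y - s| < t from ha)
        rw [abs_lt]
        constructor <;> linarith
      rw [h3, measure_empty]
  refine (ENNReal.tsum_le_tsum h1).trans ?_
  rw [ENNReal.tsum_mul_left]
  set k : ℕ := ⌈(2 * t + 1) / h⌉₊ with hk
  have h2 : t + 1 / 2 ≤ k * h / 2 := by
    have := Nat.le_ceil ((2 * t + 1) / h)
    rw [div_le_iff₀ hh] at this
    linarith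
  refine (mul_le_mul_right (tsum_sep hh hS k h2) _).trans ?_
  rw [← ENNReal.ofReal_natCast, ← ENNReal.ofReal_mul (by positivity)]
  refine ENNReal.ofReal_le_ofReal ?_
  have h3 : (k : ℝ) < (2 * t + 1) / h + 1 := Nat.ceil_lt_add_one (by positivity)
  have h4 : (2 * t + 1) / h + 1 ≤ 5 / h := by
    rw [div_add_one hh.ne']
    exact div_le_div_of_nonneg_right (by linarith) hh.le
  calc 2 * t * k ≤ 2 * t * (5 / h) := mul_le_mul_of_nonneg_left (h3.le.trans h4) (by positivity)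
    _ = 10 * t / h := by ring

section count

variable {x : ℕ → ℝ} {M : ℕ}

open Classical in
theorem tsum_shell {t : ℝ} (hM : {n | t < |x n| ∧ |x n| ≤ 2 * t}.encard ≤ M) :
    ∑' n, (if t < |x n| ∧ |x n| ≤ 2 * t then (1 : ℝ≥0∞) else 0) ≤ M := by
  have h1 : (fun n => if t < |x n| ∧ |x n| ≤ 2 * t then (1 : ℝ≥0∞) else 0) =
      ({n | t < |x n| ∧ |x n| ≤ 2 * t}).indicator fun _ => 1 := by
    funext n
    by_cases h2 : t < |x n| ∧ |x n| ≤ 2 * t
    · rw [if_pos h2, indicator_of_mem (show n ∈ {n | t < |x n| ∧ |x n| ≤ 2 * t} from h2)]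
    · rw [if_neg h2, indicator_of_notMem (show n ∉ {n | t < |x n| ∧ |x n| ≤ 2 * t} from h2)]
  rw [h1, ← tsum_subtype, ENNReal.tsum_set_one]
  exact_mod_cast hM

open Classical in
theorem tsum_shells (p : ℕ) {t : ℝ} (ht : 0 < t)
    (hM : ∀ t' : ℝ, t ≤ t' → {n | t' < |x n| ∧ |x n| ≤ 2 * t'}.encard ≤ M) : ∑' n, (if t < |x n| ∧ |x n| ≤ 2 ^ p * t then (1 : ℝ≥0∞) else 0) ≤ p * M := by
  induction p with
  | zero =>
    have h1 : ∀ n, (if t < |x n| ∧ |x n| ≤ 2 ^ 0 * t then (1 : ℝ≥0∞) else 0) = 0 := by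
      intro n
      rw [if_neg]
      rintro ⟨h2, h3⟩
      rw [pow_zero, one_mul] at h3
      exact absurd h2 (not_lt.2 h3)
    simp only [h1, tsum_zero]
    exact zero_le
  | succ p ih =>
    have h1 : ∀ n, (if t < |x n| ∧ |x n| ≤ 2 ^ (p + 1) * t then (1 : ℝ≥0∞) else 0) ≤
        (if t < |x n| ∧ |x n| ≤ 2 ^ p * t then (1 : ℝ≥0∞) else 0) +
        (if 2 ^ p * t < |x n| ∧ |x n| ≤ 2 * (2 ^ p * t) then (1 : ℝ≥0∞) else 0) := by
      intro n
      by_cases h2 : t < |x n| ∧ |x n| ≤ 2 ^ (p + 1) * t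
      · rw [if_pos h2]
        by_cases h3 : |x n| ≤ 2 ^ p * t
        · rw [if_pos ⟨h2.1, h3⟩]
          exact le_self_add
        · rw [if_pos (show 2 ^ p * t < |x n| ∧ |x n| ≤ 2 * (2 ^ p * t) from ⟨not_le.1 h3, by
            rw [← mul_assoc, ← pow_succ']; exact h2.2⟩)]
          exact le_add_self
      · rw [if_neg h2]
        exact zero_le
    refine (ENNReal.tsum_le_tsum h1).trans ?_
    rw [ENNReal.tsum_add]
    refine (add_le_add ih (tsum_shell (hM _ ?_))).trans (le_of_eq ?_)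
    · exact le_mul_of_one_le_left ht.le (one_le_pow₀ one_le_two)
    · push_cast
      ring

open Classical in
/-- a geometric sum over the small terms -/
theorem geom {l : ℝ} (hl : 0 < l) (hM : ∀ t : ℝ, l ≤ 2 * t → {n | t < |x n| ∧ |x n| ≤ 2 * t}.encard ≤ M)
    {c : ℝ} (hc : c < 1) {H : ℝ} (hH : 0 < H) :
    ∑' n, (if l ≤ |x n| ∧ |x n| ≤ H then ENNReal.ofReal ((|x n| / H) ^ (1 - c)) else 0) ≤
      ENNReal.ofReal (M / (1 - (1 / 2 : ℝ) ^ (1 - c))) := by
  set γ : ℝ := (1 / 2 : ℝ) ^ (1 - c) with hγ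
  have hγ0 : 0 < γ := by positivity
  have hγ1 : γ < 1 := Real.rpow_lt_one (by norm_num) (by norm_num) (by linarith)
  have h1 : ∀ n, (if l ≤ |x n| ∧ |x n| ≤ H then ENNReal.ofReal ((|x n| / H) ^ (1 - c)) else 0) ≤
      ∑' k : ℕ, (ENNReal.ofReal γ) ^ k * (if l ≤ 2 * (H * (1 / 2) ^ (k + 1)) then
        (if H * (1 / 2) ^ (k + 1) < |x n| ∧ |x n| ≤ 2 * (H * (1 / 2) ^ (k + 1)) then (1 : ℝ≥0∞) else 0) else 0) := by
    intro n
    by_cases h2 : l ≤ |x n| ∧ |x n| ≤ H
    · rw [if_pos h2]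
      obtain ⟨k, hk1, hk2⟩ := exists_nat_pow_near_of_lt_one (show 0 < |x n| / H from div_pos (hl.trans_le h2.1) hH)
        ((div_le_one hH).2 h2.2) (show (0 : ℝ) < 1 / 2 by norm_num) (show (1 / 2 : ℝ) < 1 by norm_num)
      refine le_trans ?_ (ENNReal.le_tsum k)
      rw [lt_div_iff₀ hH] at hk1
      have hk3 := hk2
      rw [div_le_iff₀ hH] at hk3
      have hk4 : |x n| ≤ 2 * (H * (1 / 2) ^ (k + 1)) := by rw [pow_succ]; linarith
      rw [if_pos (h2.1.trans hk4), if_pos ⟨by linarith, hk4⟩, mul_one, ← ENNReal.ofReal_pow hγ0.le]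
      refine ENNReal.ofReal_le_ofReal ?_
      calc (|x n| / H) ^ (1 - c) ≤ ((1 / 2 : ℝ) ^ k) ^ (1 - c) :=
            Real.rpow_le_rpow (by positivity) hk2 (by linarith)
        _ = γ ^ k := by
            rw [hγ, ← Real.rpow_natCast, ← Real.rpow_natCast, ← Real.rpow_mul (by norm_num),
              ← Real.rpow_mul (by norm_num), mul_comm]
    · rw [if_neg h2]
      exact zero_le
  refine (ENNReal.tsum_le_tsum h1).trans ?_
  rw [ENNReal.tsum_comm]
  have h3 : ∀ k : ℕ, ∑' n, (ENNReal.ofReal γ) ^ k * (if l ≤ 2 * (H * (1 / 2) ^ (k + 1)) then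
      (if H * (1 / 2) ^ (k + 1) < |x n| ∧ |x n| ≤ 2 * (H * (1 / 2) ^ (k + 1)) then (1 : ℝ≥0∞) else 0) else 0) ≤
      (ENNReal.ofReal γ) ^ k * M := by
    intro k
    rw [ENNReal.tsum_mul_left]
    refine mul_le_mul_right ?_ _
    by_cases h4 : l ≤ 2 * (H * (1 / 2) ^ (k + 1))
    · simp only [if_pos h4]
      exact tsum_shell (hM _ h4)
    · simp only [if_neg h4, tsum_zero]
      exact zero_le
  refine (ENNReal.tsum_le_tsum h3).trans ?_
  rw [ENNReal.tsum_mul_right, ENNReal.tsum_geometric, div_eq_inv_mul, ENNReal.ofReal_mul (by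
    have : 0 < 1 - γ := by linarith
    positivity), ENNReal.ofReal_natCast, ENNReal.ofReal_inv_of_pos (by linarith),
    ENNReal.ofReal_sub 1 hγ0.le, ENNReal.ofReal_one]

end count

/-- the stage at which an interval is counted -/
noncomputable def ent (N : ℕ) (h X : ℝ) : ℕ := sInf {m : ℕ | X ≤ (N : ℝ) ^ m * h}

theorem ent_mem {N : ℕ} (hN : 1 < N) {h : ℝ} (hh : 0 < h) (X : ℝ) : X ≤ (N : ℝ) ^ ent N h X * h := by
  have h1 : Tendsto (fun m : ℕ => (N : ℝ) ^ m * h) atTop atTop :=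
    (tendsto_pow_atTop_atTop_of_one_lt (by exact_mod_cast hN)).atTop_mul_const hh
  obtain ⟨m, hm⟩ := (h1.eventually_ge_atTop X).exists
  exact Nat.sInf_mem (s := {m : ℕ | X ≤ (N : ℝ) ^ m * h}) ⟨m, hm⟩

theorem lt_of_ent {N : ℕ} {h X : ℝ} {m : ℕ} (he : ent N h X = m + 1) : (N : ℝ) ^ m * h < X := by
  by_contra hcon
  push Not at hcon
  have : ent N h X ≤ m := Nat.sInf_le hcon
  omega

open Classical in
/-- the intervals which enter at the stage `m + 1` -/
theorem enter {x : ℕ → ℝ} {M : ℕ} {c : ℝ} (hc : 0 < c) {p : ℕ} (hp : 0 < p) {S : Set ℝ} {h κ : ℝ} (hh : 0 < h)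
    (hM : ∀ t : ℝ, h ≤ t → {n | t < |x n| ∧ |x n| ≤ 2 * t}.encard ≤ M) (hκ : 0 < κ) (hκ2 : κ ≤ 1 / 2)
    (hS : Sep S h) (a v : ℝ) (m : ℕ) :
    ∑' n, ∑' s : S, (if κ * h ≤ |x n| ∧ ent (2 ^ p) h |x n| = m + 1 ∧
      Meets (2 ^ p) (m + 1) ((s - a) / x n) (κ * h / |x n|) v then wt (2 ^ p) c (m + 1) (κ * h / |x n|) else 0) ≤
      ENNReal.ofReal (2 * p * M * (2 ^ p) ^ c * κ ^ c) := by
  have hN : 1 < 2 ^ p := Nat.one_lt_two_pow hp.ne'
  have h1 : ∀ n, ∑' s : S, (if κ * h ≤ |x n| ∧ ent (2 ^ p) h |x n| = m + 1 ∧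
      Meets (2 ^ p) (m + 1) ((s - a) / x n) (κ * h / |x n|) v then wt (2 ^ p) c (m + 1) (κ * h / |x n|) else 0) ≤
      ENNReal.ofReal (2 * ((2 ^ p) ^ c * κ ^ c)) *
        (if (2 ^ p : ℝ) ^ m * h < |x n| ∧ |x n| ≤ 2 ^ p * ((2 ^ p : ℝ) ^ m * h) then (1 : ℝ≥0∞) else 0) := by
    intro n
    by_cases h2 : κ * h ≤ |x n| ∧ ent (2 ^ p) h |x n| = m + 1
    · have hx1 := ent_mem hN hh |x n|
      have hx2 := lt_of_ent h2.2
      rw [h2.2] at hx1
      push_cast at hx1 hx2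
      have hxpos : 0 < |x n| := (mul_pos hκ hh).trans_le h2.1
      have hx3 : |x n| ≤ 2 ^ p * ((2 ^ p : ℝ) ^ m * h) := by
        calc |x n| ≤ (2 ^ p : ℝ) ^ (m + 1) * h := hx1
          _ = 2 ^ p * ((2 ^ p : ℝ) ^ m * h) := by ring
      rw [if_pos ⟨hx2, hx3⟩, mul_one]
      have hw : wt (2 ^ p) c (m + 1) (κ * h / |x n|) ≤ ENNReal.ofReal ((2 ^ p) ^ c * κ ^ c) := by
        unfold wt
        refine ENNReal.ofReal_le_ofReal ?_
        rw [← Real.mul_rpow (by positivity) hκ.le]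
        refine Real.rpow_le_rpow (by positivity) ?_ hc.le
        push_cast
        rw [div_mul_eq_mul_div, div_le_iff₀ hxpos]
        calc κ * h * (2 ^ p : ℝ) ^ (m + 1) = 2 ^ p * κ * ((2 ^ p : ℝ) ^ m * h) := by ring
          _ ≤ 2 ^ p * κ * |x n| := mul_le_mul_of_nonneg_left hx2.le (by positivity)
      have h3 : ∀ s : S, (if κ * h ≤ |x n| ∧ ent (2 ^ p) h |x n| = m + 1 ∧
          Meets (2 ^ p) (m + 1) ((s - a) / x n) (κ * h / |x n|) v then wt (2 ^ p) c (m + 1) (κ * h / |x n|) else 0) ≤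
          ENNReal.ofReal ((2 ^ p) ^ c * κ ^ c) * (if |(a + v * x n) - s| < h then (1 : ℝ≥0∞) else 0) := by
        intro s
        by_cases h4 : κ * h ≤ |x n| ∧ ent (2 ^ p) h |x n| = m + 1 ∧
            Meets (2 ^ p) (m + 1) ((s - a) / x n) (κ * h / |x n|) v
        · have h5 := h4.2.2
          unfold Meets at h5
          have hxn : x n ≠ 0 := abs_pos.1 hxpos
          have e1 : v - ((s : ℝ) - a) / x n = (a + v * x n - s) / x n := by field_simp; ring
          rw [e1, abs_div, div_lt_iff₀ hxpos, add_mul, div_mul_cancel₀ _ hxpos.ne'] at h5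
          have h6 : (((2 ^ p : ℕ) : ℝ) ^ (m + 1))⁻¹ / 2 * |x n| ≤ h / 2 := by
            push_cast
            rw [div_mul_eq_mul_div, inv_mul_eq_div]
            refine div_le_div_of_nonneg_right ?_ (by norm_num)
            rw [div_le_iff₀ (by positivity), mul_comm h]
            exact hx1
          have h7 : κ * h ≤ h / 2 := by
            calc κ * h ≤ 1 / 2 * h := mul_le_mul_of_nonneg_right hκ2 hh.le
              _ = h / 2 := by ring
          rw [if_pos h4, if_pos (by linarith), mul_one]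
          exact hw
        · rw [if_neg h4]
          exact zero_le
      refine (ENNReal.tsum_le_tsum h3).trans ?_
      rw [ENNReal.tsum_mul_left]
      refine (mul_le_mul_right (tsum_sep hh hS 2 (by norm_num)) _).trans (le_of_eq ?_)
      rw [ENNReal.ofReal_mul (by norm_num : (0 : ℝ) ≤ 2), ENNReal.ofReal_ofNat, mul_comm]
      norm_num
    · have h3 : ∀ s : S, (if κ * h ≤ |x n| ∧ ent (2 ^ p) h |x n| = m + 1 ∧
          Meets (2 ^ p) (m + 1) ((s - a) / x n) (κ * h / |x n|) v then wt (2 ^ p) c (m + 1) (κ * h / |x n|) else 0) =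
          0 := fun s => if_neg fun h4 => h2 ⟨h4.1, h4.2.1⟩
      simp only [h3, tsum_zero]
      exact zero_le
  refine (ENNReal.tsum_le_tsum h1).trans ?_
  rw [ENNReal.tsum_mul_left]
  have hge : h ≤ (2 ^ p : ℝ) ^ m * h :=
    le_mul_of_one_le_left hh.le (one_le_pow₀ (one_le_pow₀ one_le_two))
  refine (mul_le_mul_right (tsum_shells p (show (0 : ℝ) < (2 ^ p) ^ m * h by positivity)
    fun t ht => hM t (hge.trans ht)) _).trans ?_
  rw [← ENNReal.ofReal_natCast, ← ENNReal.ofReal_natCast, ← ENNReal.ofReal_mul (by positivity),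
    ← ENNReal.ofReal_mul (by positivity)]
  refine ENNReal.ofReal_le_ofReal (le_of_eq ?_)
  ring

open Classical in
/-- the choice of the base point -/
theorem choose_base {x : ℕ → ℝ} {c : ℝ} (hc0 : 0 < c) (hc1 : c < 1) {S : ℕ → Set ℝ} {h κ : ℕ → ℝ} {M : ℕ → ℕ}
    (hh : ∀ j, 0 < h j ∧ h j ≤ 1) (hκ : ∀ j, 0 < κ j) (hκ2 : ∀ j, κ j ≤ 1 / 2) (hM1 : ∀ j, 1 ≤ M j)
    (hM : ∀ j, ∀ t : ℝ, κ j * h j ≤ 2 * t → {n | t < |x n| ∧ |x n| ≤ 2 * t}.encard ≤ M j)
    (hS : ∀ j, Sep (S j) (h j)) {A η : ℝ} (hA : 0 < A)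
    (hsum : ∑' j, ENNReal.ofReal (M j * κ j ^ c) ≤ ENNReal.ofReal η)
    (hsmall : (15 * A * (1 / (1 - (1 / 2 : ℝ) ^ (1 - c))) + 30) * η < 1) :
    ∃ a ∈ Icc (0 : ℝ) 1, (∀ j, ∀ s ∈ S j, 3 * (κ j * h j) ≤ |a - s|) ∧
      ∑' j, ∑' n, ∑' s : S j, (if κ j * h j ≤ |x n| ∧ |x n| ≤ h j ∧ |a + 3 / 2 * x n - s| < κ j * h j + |x n| / 2
        then ENNReal.ofReal ((κ j * h j / |x n|) ^ c) else 0) ≤ ENNReal.ofReal (1 / A) := by
  set K : ℝ := 1 / (1 - (1 / 2 : ℝ) ^ (1 - c)) with hK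
  have hγ1 : (1 / 2 : ℝ) ^ (1 - c) < 1 := Real.rpow_lt_one (by norm_num) (by norm_num) (by linarith)
  have hK0 : 0 ≤ K := div_nonneg zero_le_one (by linarith)
  set coef : ℕ → ℕ → ℝ≥0∞ := fun j n =>
    if κ j * h j ≤ |x n| ∧ |x n| ≤ h j then ENNReal.ofReal ((κ j * h j / |x n|) ^ c) else 0 with hcoef
  set cnt : ℕ → ℕ → ℝ → ℝ≥0∞ := fun j n a =>
    ∑' s : S j, (if |a + 3 / 2 * x n - s| < κ j * h j + |x n| / 2 then (1 : ℝ≥0∞) else 0) with hcnt
  have hcntm : ∀ j n, Measurable (cnt j n) := fun j n => measurable_tsum_sep (hh j).1 (hS j) _ _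
  set G : ℝ → ℝ≥0∞ := fun a => ∑' j, ∑' s : S j, (if |a + 0 - s| < 3 * (κ j * h j) then (1 : ℝ≥0∞) else 0) with hG
  set F : ℝ → ℝ≥0∞ := fun a => ∑' j, ∑' n, coef j n * cnt j n a with hF
  have hFm : Measurable F := Measurable.tsum fun j => Measurable.tsum fun n => (hcntm j n).const_mul _
  -- the integral of F
  have hintF : ∫⁻ a in Icc (0 : ℝ) 1, F a ≤ ENNReal.ofReal (15 * K * η) := by
    simp only [hF]
    rw [lintegral_tsum fun j => (Measurable.tsum fun n => (hcntm j n).const_mul _).aemeasurable]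
    have h1 : ∀ j, ∫⁻ a in Icc (0 : ℝ) 1, ∑' n, coef j n * cnt j n a ≤
        ENNReal.ofReal (15 * K) * ENNReal.ofReal (M j * κ j ^ c) := by
      intro j
      rw [lintegral_tsum fun n => ((hcntm j n).const_mul _).aemeasurable]
      have h2 : ∀ n, ∫⁻ a in Icc (0 : ℝ) 1, coef j n * cnt j n a ≤ ENNReal.ofReal (15 * κ j ^ c) *
          (if κ j * h j ≤ |x n| ∧ |x n| ≤ h j then ENNReal.ofReal ((|x n| / h j) ^ (1 - c)) else 0) := by
        intro n
        rw [lintegral_const_mul _ (hcntm j n)]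
        by_cases h3 : κ j * h j ≤ |x n| ∧ |x n| ≤ h j
        · have hxpos : 0 < |x n| := (mul_pos (hκ j) (hh j).1).trans_le h3.1
          have hκh : κ j * h j ≤ 1 / 2 * h j := mul_le_mul_of_nonneg_right (hκ2 j) (hh j).1.le
          have h4 : ∫⁻ a in Icc (0 : ℝ) 1, cnt j n a ≤ ENNReal.ofReal (15 * |x n| / h j) := by
            refine (lint_sep (hh j).1 (hh j).2 (hS j) (t := κ j * h j + |x n| / 2) ?_ ?_ (3 / 2 * x n)).trans ?_
            · have := mul_pos (hκ j) (hh j).1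
              positivity
            · linarith [h3.2, (hh j).1]
            · refine ENNReal.ofReal_le_ofReal (div_le_div_of_nonneg_right ?_ (hh j).1.le)
              linarith [h3.1]
          simp only [hcoef]
          rw [if_pos h3, if_pos h3]
          refine (mul_le_mul_right h4 _).trans ?_
          rw [← ENNReal.ofReal_mul (by have := (hκ j).le; have := (hh j).1.le; positivity),
            ← ENNReal.ofReal_mul (by have := (hκ j).le; positivity)]
          refine ENNReal.ofReal_le_ofReal (le_of_eq ?_)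
          have e1 : (κ j * h j / |x n|) ^ c = κ j ^ c * (|x n| / h j) ^ (-c) := by
            rw [Real.rpow_neg (div_nonneg hxpos.le (hh j).1.le), ← Real.inv_rpow (div_nonneg hxpos.le (hh j).1.le),
              inv_div, ← Real.mul_rpow (hκ j).le (div_nonneg (hh j).1.le hxpos.le), mul_div_assoc]
          have e2 : (|x n| / h j) ^ (1 - c) = (|x n| / h j) ^ (-c) * (|x n| / h j) := by
            rw [sub_eq_neg_add, Real.rpow_add (div_pos hxpos (hh j).1), Real.rpow_one]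
          rw [e1, e2]
          ring
        · simp only [hcoef]
          rw [if_neg h3, zero_mul]
          exact zero_le
      refine (ENNReal.tsum_le_tsum h2).trans ?_
      rw [ENNReal.tsum_mul_left]
      refine (mul_le_mul_right (geom (mul_pos (hκ j) (hh j).1) (hM j) hc1 (hh j).1) _).trans (le_of_eq ?_)
      rw [← ENNReal.ofReal_mul (by have := (hκ j).le; positivity), ← ENNReal.ofReal_mul (by positivity)]
      congr 1
      rw [hK]
      ring
    refine (ENNReal.tsum_le_tsum h1).trans ?_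
    rw [ENNReal.tsum_mul_left]
    refine (mul_le_mul_right hsum _).trans (le_of_eq ?_)
    rw [← ENNReal.ofReal_mul (by positivity)]
  -- the integral of G
  have hintG : ∫⁻ a in Icc (0 : ℝ) 1, G a ≤ ENNReal.ofReal (30 * η) := by
    simp only [hG]
    rw [lintegral_tsum fun j => (measurable_tsum_sep (hh j).1 (hS j) _ _).aemeasurable]
    have h1 : ∀ j, ∫⁻ a in Icc (0 : ℝ) 1, ∑' s : S j, (if |a + 0 - s| < 3 * (κ j * h j) then (1 : ℝ≥0∞) else 0) ≤
        ENNReal.ofReal 30 * ENNReal.ofReal (M j * κ j ^ c) := by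
      intro j
      have hκh : κ j * h j ≤ 1 / 2 * h j := mul_le_mul_of_nonneg_right (hκ2 j) (hh j).1.le
      refine (lint_sep (hh j).1 (hh j).2 (hS j) (t := 3 * (κ j * h j)) ?_ ?_ 0).trans ?_
      · have := mul_pos (hκ j) (hh j).1
        positivity
      · linarith
      · rw [← ENNReal.ofReal_mul (by norm_num)]
        refine ENNReal.ofReal_le_ofReal ?_
        have e1 : 10 * (3 * (κ j * h j)) / h j = 30 * κ j := by
          have := (hh j).1.ne'
          field_simp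
          ring
        rw [e1]
        have e2 : κ j ≤ κ j ^ c := by
          have := Real.rpow_le_rpow_of_exponent_ge (hκ j) (by linarith [hκ2 j]) hc1.le
          rwa [Real.rpow_one] at this
        have e3 : (1 : ℝ) ≤ M j := by exact_mod_cast hM1 j
        have e4 : κ j ^ c ≤ M j * κ j ^ c := le_mul_of_one_le_left (by have := (hκ j).le; positivity) e3
        linarith
    refine (ENNReal.tsum_le_tsum h1).trans ?_
    rw [ENNReal.tsum_mul_left]
    refine (mul_le_mul_right hsum _).trans (le_of_eq ?_)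
    rw [← ENNReal.ofReal_mul (by norm_num)]
  -- the mean is less than one
  have hint : ∫⁻ a in Icc (0 : ℝ) 1, (ENNReal.ofReal A * F a + G a) < 1 := by
    rw [lintegral_add_left (hFm.const_mul _), lintegral_const_mul _ hFm]
    refine (add_le_add (mul_le_mul_right hintF _) hintG).trans_lt ?_
    rcases le_or_gt 0 η with hη | hη
    · rw [← ENNReal.ofReal_mul hA.le, ← ENNReal.ofReal_add (by positivity) (by positivity),
        ENNReal.ofReal_lt_one]
      calc A * (15 * K * η) + 30 * η = (15 * A * K + 30) * η := by ring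
        _ < 1 := hsmall
    · rw [ENNReal.ofReal_of_nonpos (show 15 * K * η ≤ 0 from mul_nonpos_of_nonneg_of_nonpos (by positivity) hη.le),
        ENNReal.ofReal_of_nonpos (show 30 * η ≤ 0 by linarith), mul_zero, add_zero]
      exact one_pos
  obtain ⟨a, ha, hlt⟩ : ∃ a ∈ Icc (0 : ℝ) 1, ENNReal.ofReal A * F a + G a < 1 := by
    by_contra hcon
    push Not at hcon
    have h1 : ∫⁻ _ in Icc (0 : ℝ) 1, (1 : ℝ≥0∞) ≤ ∫⁻ a in Icc (0 : ℝ) 1, (ENNReal.ofReal A * F a + G a) :=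
      setLIntegral_mono' measurableSet_Icc hcon
    rw [setLIntegral_one, Real.volume_Icc, sub_zero, ENNReal.ofReal_one] at h1
    exact absurd hint (not_lt.2 h1)
  refine ⟨a, ha, ?_, ?_⟩
  · intro j s hs
    by_contra hcon
    push Not at hcon
    have h1 : (1 : ℝ≥0∞) ≤ G a := by
      simp only [hG]
      refine le_trans ?_ (ENNReal.le_tsum j)
      refine le_trans ?_ (ENNReal.le_tsum (⟨s, hs⟩ : S j))
      rw [if_pos (by simpa using hcon)]
    exact absurd hlt (not_lt.2 (h1.trans le_add_self))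
  · have h1 : ∑' j, ∑' n, ∑' s : S j, (if κ j * h j ≤ |x n| ∧ |x n| ≤ h j ∧
        |a + 3 / 2 * x n - s| < κ j * h j + |x n| / 2
        then ENNReal.ofReal ((κ j * h j / |x n|) ^ c) else 0) = F a := by
      simp only [hF]
      refine tsum_congr fun j => tsum_congr fun n => ?_
      simp only [hcnt]
      rw [← ENNReal.tsum_mul_left]
      refine tsum_congr fun s => ?_
      simp only [hcoef]
      by_cases h2 : κ j * h j ≤ |x n| ∧ |x n| ≤ h j
      · by_cases h3 : |a + 3 / 2 * x n - s| < κ j * h j + |x n| / 2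
        · rw [if_pos ⟨h2.1, h2.2, h3⟩, if_pos h2, if_pos h3, mul_one]
        · rw [if_neg (fun h4 => h3 h4.2.2), if_neg h3, mul_zero]
      · rw [if_neg (fun h4 => h2 ⟨h4.1, h4.2.1⟩), if_neg h2, zero_mul]
    rw [h1]
    have h2 : ENNReal.ofReal A * F a ≤ 1 := le_self_add.trans hlt.le
    rw [one_div, ENNReal.ofReal_inv_of_pos hA, ENNReal.le_inv_iff_mul_le, mul_comm]
    exact h2

open Classical in
theorem tsum_subtype_le (S : ℕ → Set ℝ) (P : ℕ → ℕ → Prop) (f : (j : ℕ) → ℕ → S j → ℝ≥0∞) :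
    ∑' τ : {τ : (Σ j : ℕ, ℕ × S j) | P τ.1 τ.2.1}, f τ.1.1 τ.1.2.1 τ.1.2.2 ≤
      ∑' j, ∑' n, ∑' s : S j, (if P j n then f j n s else 0) := by
  rw [tsum_subtype {τ : (Σ j : ℕ, ℕ × S j) | P τ.1 τ.2.1} fun τ => f τ.1 τ.2.1 τ.2.2]
  rw [ENNReal.tsum_sigma']
  refine ENNReal.tsum_le_tsum fun j => ?_
  rw [ENNReal.tsum_prod']
  refine ENNReal.tsum_le_tsum fun n => ENNReal.tsum_le_tsum fun s => ?_
  by_cases h : P j n
  · rw [if_pos h]
    exact indicator_le (fun _ _ => le_rfl) _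
  · rw [if_neg h, indicator_of_notMem]
    exact h

/-- the constants -/
theorem exists_const (c : ℝ) (hc1 : c < 1) : ∃ (p : ℕ) (η : ℝ), 0 < p ∧ 0 < η ∧
    6 ≤ ((2 : ℝ) ^ p) ^ (1 - c) ∧ η ≤ (1 / 2 : ℝ) ^ c ∧
    (15 * ((2 : ℝ) ^ p) ^ c * (1 / (1 - (1 / 2 : ℝ) ^ (1 - c))) + 30) * η < 1 ∧
    2 * p * ((2 : ℝ) ^ p) ^ c * η ≤ ((2 : ℝ) ^ p) ^ (-c) / 2 := by
  have h2 : (1 : ℝ) < (2 : ℝ) ^ (1 - c) := Real.one_lt_rpow (by norm_num) (by linarith)
  obtain ⟨p, hp⟩ := pow_unbounded_of_one_lt 6 h2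
  have hp6 : 6 ≤ ((2 : ℝ) ^ p) ^ (1 - c) := by
    have : ((2 : ℝ) ^ p) ^ (1 - c) = ((2 : ℝ) ^ (1 - c)) ^ p := by
      rw [← Real.rpow_natCast, ← Real.rpow_natCast, ← Real.rpow_mul (by norm_num),
        ← Real.rpow_mul (by norm_num), mul_comm]
    rw [this]
    exact hp.le
  have hp0 : 0 < p := by
    rcases Nat.eq_zero_or_pos p with h | h
    · rw [h, pow_zero, Real.one_rpow] at hp6
      norm_num at hp6
    · exact h
  have hγ1 : (1 / 2 : ℝ) ^ (1 - c) < 1 := Real.rpow_lt_one (by norm_num) (by norm_num) (by linarith)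
  have hK0 : 0 ≤ (1 : ℝ) / (1 - (1 / 2 : ℝ) ^ (1 - c)) := div_nonneg zero_le_one (by linarith)
  set A : ℝ := 15 * ((2 : ℝ) ^ p) ^ c * (1 / (1 - (1 / 2 : ℝ) ^ (1 - c))) + 30 with hA
  have hA0 : 0 < A := by positivity
  set B : ℝ := 2 * p * ((2 : ℝ) ^ p) ^ c + 1 with hB
  have hB0 : 0 < B := by positivity
  have hD0 : (0 : ℝ) < ((2 : ℝ) ^ p) ^ (-c) / 2 := by positivity
  refine ⟨p, min ((1 / 2 : ℝ) ^ c) (min (1 / (2 * A)) (((2 : ℝ) ^ p) ^ (-c) / 2 / B)), hp0, ?_, hp6,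
    min_le_left _ _, ?_, ?_⟩
  · exact lt_min (by positivity) (lt_min (by positivity) (by positivity))
  · have h3 : min ((1 / 2 : ℝ) ^ c) (min (1 / (2 * A)) (((2 : ℝ) ^ p) ^ (-c) / 2 / B)) ≤ 1 / (2 * A) :=
      (min_le_right _ _).trans (min_le_left _ _)
    calc A * _ ≤ A * (1 / (2 * A)) := mul_le_mul_of_nonneg_left h3 hA0.le
      _ = 1 / 2 := by field_simp
      _ < 1 := by norm_num
  · have h3 : min ((1 / 2 : ℝ) ^ c) (min (1 / (2 * A)) (((2 : ℝ) ^ p) ^ (-c) / 2 / B)) ≤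
        ((2 : ℝ) ^ p) ^ (-c) / 2 / B := (min_le_right _ _).trans (min_le_right _ _)
    calc 2 * p * ((2 : ℝ) ^ p) ^ c * _ ≤ B * (((2 : ℝ) ^ p) ^ (-c) / 2 / B) := by
          refine mul_le_mul (by rw [hB]; linarith) h3 ?_ hB0.le
          exact (lt_min (by positivity) (lt_min (by positivity) (by positivity))).le
      _ = ((2 : ℝ) ^ p) ^ (-c) / 2 := by field_simp

open Classical in
/-- copies in the complement of dust: the normalised form -/
theorem dust_unit (c : ℝ) (hc0 : 0 < c) (hc1 : c < 1) : ∃ η : ℝ, 0 < η ∧ ∀ x : ℕ → ℝ, (∀ n, x n ≠ 0) →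
    ∀ (S : ℕ → Set ℝ) (h κ : ℕ → ℝ) (M : ℕ → ℕ), (∀ j, 0 < h j ∧ h j ≤ 1) → (∀ j, 0 < κ j) → (∀ j, 1 ≤ M j) →
      (∀ j, ∀ t : ℝ, κ j * h j ≤ 2 * t → {n | t < |x n| ∧ |x n| ≤ 2 * t}.encard ≤ M j) →
      (∀ j, Sep (S j) (h j)) →
      ∑' j, ENNReal.ofReal (M j * κ j ^ c) ≤ ENNReal.ofReal η →
      ∃ a ∈ Icc (0 : ℝ) 1, ∃ b ∈ Icc (1 : ℝ) 2, ∀ n j, ∀ s ∈ S j, κ j * h j ≤ |a + b * x n - s| := by
  obtain ⟨p, η, hp, hη, h6, hη2, hηA, hηB⟩ := exists_const c hc1
  refine ⟨η, hη, fun x hx S h κ M hh hκ hM1 hM hS hsum => ?_⟩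
  have hκη : ∀ j, κ j ^ c ≤ η := by
    intro j
    have h1 := (ENNReal.le_tsum j).trans hsum
    have h2 := (ENNReal.ofReal_le_ofReal_iff hη.le).1 h1
    have e3 : (1 : ℝ) ≤ M j := by exact_mod_cast hM1 j
    have e4 : κ j ^ c ≤ M j * κ j ^ c := le_mul_of_one_le_left (by have := (hκ j).le; positivity) e3
    exact e4.trans h2
  have hκ2 : ∀ j, κ j ≤ 1 / 2 := fun j =>
    (Real.rpow_le_rpow_iff (hκ j).le (by norm_num) hc0).1 ((hκη j).trans hη2)
  obtain ⟨a, ha, ha1, ha2⟩ := choose_base hc0 hc1 hh hκ hκ2 hM1 hM hS (A := ((2 : ℝ) ^ p) ^ c) (by positivity)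
    hsum hηA
  have hN : 1 < 2 ^ p := Nat.one_lt_two_pow hp.ne'
  have hcast : ((2 ^ p : ℕ) : ℝ) = (2 : ℝ) ^ p := by push_cast; rfl
  have key : ∃ b, |b - 3 / 2| ≤ 1 / 2 ∧ ∀ τ : {τ : (Σ j : ℕ, ℕ × S j) | κ τ.1 * h τ.1 ≤ |x τ.2.1|},
      κ τ.1.1 * h τ.1.1 / |x τ.1.2.1| ≤ |b - ((τ.1.2.2 : ℝ) - a) / x τ.1.2.1| := by
    refine avoid
      (T := {τ : (Σ j : ℕ, ℕ × S j) | κ τ.1 * h τ.1 ≤ |x τ.2.1|}) hN hc0 (by rw [hcast]; exact h6)
      (fun τ => ((τ.1.2.2 : ℝ) - a) / x τ.1.2.1) (fun τ => κ τ.1.1 * h τ.1.1 / |x τ.1.2.1|)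
      (fun τ => div_pos (mul_pos (hκ _) (hh _).1) (abs_pos.2 (hx _)))
      (fun τ => ent (2 ^ p) (h τ.1.1) |x τ.1.2.1|) (3 / 2) ?_ ?_
    · -- the first stage
      refine (tsum_subtype_le S (fun j n => κ j * h j ≤ |x n|) (fun j n s =>
        if ent (2 ^ p) (h j) |x n| = 0 ∧ Meets (2 ^ p) 0 (((s : ℝ) - a) / x n) (κ j * h j / |x n|) (3 / 2) then
          wt (2 ^ p) c 0 (κ j * h j / |x n|) else 0)).trans ?_
      have h1 : ENNReal.ofReal (1 / ((2 : ℝ) ^ p) ^ c) = ENNReal.ofReal (((2 ^ p : ℕ) : ℝ) ^ (-c)) := by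
        rw [hcast, Real.rpow_neg (by positivity), one_div]
      rw [← h1]
      refine le_trans ?_ ha2
      refine ENNReal.tsum_le_tsum fun j => ENNReal.tsum_le_tsum fun n => ENNReal.tsum_le_tsum fun s => ?_
      by_cases h2 : κ j * h j ≤ |x n|
      · rw [if_pos h2]
        by_cases h3 : ent (2 ^ p) (h j) |x n| = 0 ∧
            Meets (2 ^ p) 0 (((s : ℝ) - a) / x n) (κ j * h j / |x n|) (3 / 2)
        · have h4 := ent_mem hN (hh j).1 |x n|
          rw [h3.1, pow_zero, one_mul] at h4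
          have h5 := h3.2
          unfold Meets at h5
          have hxpos : 0 < |x n| := abs_pos.2 (hx n)
          have e1 : 3 / 2 - ((s : ℝ) - a) / x n = (a + 3 / 2 * x n - s) / x n := by
            have := hx n
            field_simp
            ring
          rw [e1, abs_div, div_lt_iff₀ hxpos, add_mul, div_mul_cancel₀ _ hxpos.ne', pow_zero, inv_one] at h5
          rw [if_pos h3, if_pos ⟨h2, h4, by linarith⟩]
          unfold wt
          rw [pow_zero, mul_one]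
        · rw [if_neg h3]
          exact zero_le
      · rw [if_neg h2]
        exact zero_le
    · -- the later stages
      intro m v
      refine (tsum_subtype_le S (fun j n => κ j * h j ≤ |x n|) (fun j n s =>
        if ent (2 ^ p) (h j) |x n| = m + 1 ∧
          Meets (2 ^ p) (m + 1) (((s : ℝ) - a) / x n) (κ j * h j / |x n|) v then
          wt (2 ^ p) c (m + 1) (κ j * h j / |x n|) else 0)).trans ?_
      have h1 : ∀ j, ∑' n, ∑' s : S j, (if κ j * h j ≤ |x n| then (if ent (2 ^ p) (h j) |x n| = m + 1 ∧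
          Meets (2 ^ p) (m + 1) (((s : ℝ) - a) / x n) (κ j * h j / |x n|) v then
          wt (2 ^ p) c (m + 1) (κ j * h j / |x n|) else 0) else 0) ≤
          ENNReal.ofReal (2 * p * (2 ^ p) ^ c) * ENNReal.ofReal (M j * κ j ^ c) := by
        intro j
        have hκh : κ j * h j ≤ 1 / 2 * h j := mul_le_mul_of_nonneg_right (hκ2 j) (hh j).1.le
        rw [← ENNReal.ofReal_mul (by positivity),
          show 2 * (p : ℝ) * (2 ^ p) ^ c * (M j * κ j ^ c) = 2 * p * M j * (2 ^ p) ^ c * κ j ^ c by ring]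
        refine le_trans (le_of_eq ?_) (enter hc0 hp (hh j).1
          (fun t ht => hM j t (by linarith [(hh j).1])) (hκ j) (hκ2 j) (hS j) a v m)
        refine tsum_congr fun n => tsum_congr fun s => ?_
        by_cases h2 : κ j * h j ≤ |x n|
        · rw [if_pos h2]
          by_cases h3 : ent (2 ^ p) (h j) |x n| = m + 1 ∧
            Meets (2 ^ p) (m + 1) (((s : ℝ) - a) / x n) (κ j * h j / |x n|) v
          · rw [if_pos h3, if_pos ⟨h2, h3⟩]
          · rw [if_neg h3, if_neg fun h4 => h3 h4.2]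
        · rw [if_neg h2, if_neg fun h4 => h2 h4.1]
      refine (ENNReal.tsum_le_tsum h1).trans ?_
      rw [ENNReal.tsum_mul_left]
      refine (mul_le_mul_right hsum _).trans ?_
      rw [← ENNReal.ofReal_mul (by positivity), hcast]
      exact ENNReal.ofReal_le_ofReal hηB
  obtain ⟨b, hb1, hb2⟩ := key
  refine ⟨a, ha, b, ?_, ?_⟩
  · have := abs_le.1 hb1
    constructor <;> linarith
  · intro n j s hs
    by_cases hcase : κ j * h j ≤ |x n|
    · have h1 := hb2 ⟨⟨j, n, ⟨s, hs⟩⟩, hcase⟩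
      have hxpos : 0 < |x n| := abs_pos.2 (hx n)
      simp only at h1
      have e1 : b - (s - a) / x n = (a + b * x n - s) / x n := by
        have := hx n
        field_simp
        ring
      rw [e1, abs_div] at h1
      exact (div_le_div_iff_of_pos_right hxpos).1 h1
    · push Not at hcase
      have h1 := ha1 j s hs
      have h2 := abs_le.1 hb1
      have hb0 : |b| ≤ 2 := by
        rw [abs_le]
        constructor <;> linarith
      have h3 : |b * x n| ≤ 2 * (κ j * h j) := by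
        rw [abs_mul]
        exact mul_le_mul hb0 hcase.le (abs_nonneg _) (by norm_num)
      have h4 : |a - s| ≤ |a + b * x n - s| + |b * x n| := by
        have := abs_sub (a + b * x n - s) (b * x n)
        rwa [show a + b * x n - s - b * x n = a - s by ring] at this
      linarith

/-- copies in the complement of dust -/
theorem dust (δ : ℝ) (hδ0 : 0 < δ) (hδ1 : δ < 1) : ∃ η : ℝ, 0 < η ∧ ∀ x : ℕ → ℝ, (∀ n, x n ≠ 0) →
    ∀ (S : ℕ → Set ℝ) (h κ : ℕ → ℝ) (M : ℕ → ℕ) (w B : ℝ), 0 < B → (∀ j, 0 < h j ∧ h j ≤ w) → (∀ j, 0 < κ j) →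
      (∀ j, 1 ≤ M j) →
      (∀ j, ∀ t : ℝ, κ j * h j ≤ 2 * (B * t) → {n | t < |x n| ∧ |x n| ≤ 2 * t}.encard ≤ M j) →
      (∀ j, ∀ s ∈ S j, ∀ s' ∈ S j, s ≠ s' → h j ≤ |s - s'|) →
      Summable (fun j => M j * κ j ^ (1 - δ)) → ∑' j, M j * κ j ^ (1 - δ) ≤ η →
      ∀ a₀ : ℝ, ∃ a b : ℝ, a₀ ≤ a ∧ a ≤ a₀ + w ∧ B ≤ b ∧ b ≤ 2 * B ∧
        ∀ n j, ∀ s ∈ S j, κ j * h j ≤ |a + b * x n - s| := by
  obtain ⟨η, hη, hmain⟩ := dust_unit (1 - δ) (by linarith) (by linarith)
  refine ⟨η, hη, fun x hx S h κ M w B hB hh hκ hM1 hM hS hsum hle a₀ => ?_⟩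
  have hw : 0 < w := (hh 0).1.trans_le (hh 0).2
  have key : ∃ a ∈ Icc (0 : ℝ) 1, ∃ b ∈ Icc (1 : ℝ) 2, ∀ n j, ∀ s ∈ {s | a₀ + w * s ∈ S j},
      κ j * (h j / w) ≤ |a + b * (B * x n / w) - s| := by
    refine hmain (fun n => B * x n / w) (fun n => by
      have := hx n
      positivity) (fun j => {s | a₀ + w * s ∈ S j}) (fun j => h j / w) κ M ?_ hκ hM1 ?_ ?_ ?_
    · intro j
      exact ⟨div_pos (hh j).1 hw, (div_le_one hw).2 (hh j).2⟩
    · intro j t ht
      have h1 : {n | t < |B * x n / w| ∧ |B * x n / w| ≤ 2 * t} =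
          {n | t * w / B < |x n| ∧ |x n| ≤ 2 * (t * w / B)} := by
        ext n
        simp only [Set.mem_ofPred_eq, abs_div, abs_mul, abs_of_pos hB, abs_of_pos hw]
        rw [lt_div_iff₀ hw, div_le_iff₀ hw, div_lt_iff₀ hB, ← mul_div_assoc, le_div_iff₀ hB, mul_comm B,
          mul_assoc 2 t w]
      rw [h1]
      refine hM j _ ?_
      rw [mul_div_cancel₀ _ hB.ne']
      rw [← mul_div_assoc, div_le_iff₀ hw] at ht
      linarith
    · intro j s hs s' hs' hne
      have h1 := hS j _ hs _ hs' (fun h2 => hne (by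
        have h3 : w * s = w * s' := by linarith
        exact mul_left_cancel₀ hw.ne' h3))
      rw [show a₀ + w * s - (a₀ + w * s') = w * (s - s') by ring, abs_mul, abs_of_pos hw] at h1
      rw [div_le_iff₀ hw, mul_comm]
      exact h1
    · rw [← ENNReal.ofReal_tsum_of_nonneg (fun j => by have := (hκ j).le; positivity) hsum]
      exact ENNReal.ofReal_le_ofReal hle
  obtain ⟨a, ha, b, hb, hab⟩ := key
  refine ⟨a₀ + w * a, B * b, by nlinarith [ha.1], by nlinarith [ha.2], by nlinarith [hb.1], by nlinarith [hb.2], ?_⟩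
  intro n j s hs
  have h1 := hab n j ((s - a₀) / w) (by
    show a₀ + w * ((s - a₀) / w) ∈ S j
    rw [mul_div_cancel₀ _ hw.ne', add_sub_cancel]
    exact hs)
  have e1 : a + b * (B * x n / w) - (s - a₀) / w = (a₀ + w * a + B * b * x n - s) / w := by
    field_simp
    ring
  rw [e1, abs_div, abs_of_pos hw, ← mul_div_assoc, div_le_div_iff_of_pos_right hw] at h1
  exact h1

end Pool.Agent.H56.ES
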