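import Mathlib

/-!
MP_6045a2_an. Sets whose complement is small near the set contain similar copies of null sequences.
-/

set_option autoImplicit false

open MeasureTheory Set Filter Topology
open scoped ENNReal

namespace Pool.Agent.H56.ES

/-- the number of terms of the sequence which are at least `t` in absolute value -/
noncomputable def count (x : ℕ → ℝ) (t : ℝ) : ℝ≥0∞ := ∑' n, if t ≤ |x n| then 1 else 0

/-- the bad ratios at the point `a` -/
def bad (x : ℕ → ℝ) (E : Set ℝ) (r : ℝ) (n : ℕ) (a : ℝ) : Set ℝ := {b | |b| ≤ r ∧ a + b * x n ∉ E}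

theorem measurable_count (x : ℕ → ℝ) : Measurable (count x) := by
  unfold count
  exact Measurable.tsum fun n =>
    Measurable.ite measurableSet_Iic measurable_const measurable_const

theorem measurableSet_bad2 (x : ℕ → ℝ) {E : Set ℝ} (hE : MeasurableSet E) (r : ℝ) (n : ℕ) :
    MeasurableSet {p : ℝ × ℝ | |p.2| ≤ r ∧ p.1 + p.2 * x n ∉ E} := by
  apply MeasurableSet.inter
  · exact (measurableSet_Iic (a := r)).preimage (measurable_snd.norm : Measurable fun p : ℝ × ℝ => ‖p.2‖)
  · exact hE.compl.preimage (f := fun p : ℝ × ℝ => p.1 + p.2 * x n) (by fun_prop)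

theorem measurable_volume_bad (x : ℕ → ℝ) {E : Set ℝ} (hE : MeasurableSet E) (r : ℝ) (n : ℕ) :
    Measurable fun a => volume (bad x E r n a) :=
  measurable_measure_prodMk_left (measurableSet_bad2 x hE r n)

/-- one term -/
theorem one_term (x : ℕ → ℝ) {E J F : Set ℝ} (hE : MeasurableSet E) (hFE : F ⊆ E)
    {r : ℝ} (n : ℕ) (hJ : ∀ a ∈ F, ∀ b, |b| ≤ r → a + b * x n ∈ J) :
    ∫⁻ a in F, volume (bad x E r n a) ≤
      ENNReal.ofReal (2 * r) * volume {y | y ∈ J \ E ∧ Metric.infDist y E ≤ r * |x n|} := by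
  set S : Set ℝ := {y | y ∈ J \ E ∧ Metric.infDist y E ≤ r * |x n|} with hS
  have h1 : ∀ a, volume (bad x E r n a) = ∫⁻ b, (bad x E r n a).indicator (fun _ => (1 : ℝ≥0∞)) b := by
    intro a
    rw [lintegral_indicator_const]
    · simp
    · exact (measurableSet_bad2 x hE r n).preimage (measurable_prodMk_left (x := a))
  have hm : Measurable fun p : ℝ × ℝ => (bad x E r n p.1).indicator (fun _ => (1 : ℝ≥0∞)) p.2 := by
    have : (fun p : ℝ × ℝ => (bad x E r n p.1).indicator (fun _ => (1 : ℝ≥0∞)) p.2) =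
        ({p : ℝ × ℝ | |p.2| ≤ r ∧ p.1 + p.2 * x n ∉ E}).indicator fun _ => (1 : ℝ≥0∞) := by
      funext p
      by_cases hp : |p.2| ≤ r ∧ p.1 + p.2 * x n ∉ E
      · rw [Set.indicator_of_mem (show p.2 ∈ bad x E r n p.1 from hp),
          Set.indicator_of_mem (show p ∈ {p : ℝ × ℝ | |p.2| ≤ r ∧ p.1 + p.2 * x n ∉ E} from hp)]
      · rw [Set.indicator_of_notMem (show p.2 ∉ bad x E r n p.1 from hp),
          Set.indicator_of_notMem (show p ∉ {p : ℝ × ℝ | |p.2| ≤ r ∧ p.1 + p.2 * x n ∉ E} from hp)]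
    rw [this]
    exact measurable_const.indicator (measurableSet_bad2 x hE r n)
  simp only [h1]
  rw [lintegral_lintegral_swap hm.aemeasurable]
  have h2 : ∀ b : ℝ, ∫⁻ a in F, (bad x E r n a).indicator (fun _ => (1 : ℝ≥0∞)) b ≤
      (Icc (-r) r).indicator (fun _ => volume S) b := by
    intro b
    by_cases hb : |b| ≤ r
    · rw [Set.indicator_of_mem (show b ∈ Icc (-r) r from abs_le.1 hb)]
      have h3 : ∀ a, (bad x E r n a).indicator (fun _ => (1 : ℝ≥0∞)) b ≤
          ({a | a + b * x n ∉ E}).indicator (fun _ => (1 : ℝ≥0∞)) a := by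
        intro a
        by_cases ha : a + b * x n ∉ E
        · rw [Set.indicator_of_mem (show a ∈ {a | a + b * x n ∉ E} from ha)]
          exact Set.indicator_le (fun _ _ => le_rfl) b
        · rw [Set.indicator_of_notMem (show b ∉ bad x E r n a from fun h => ha h.2)]
          exact zero_le
      refine (lintegral_mono h3).trans ?_
      have hmS : MeasurableSet {a | a + b * x n ∉ E} :=
        hE.compl.preimage (f := fun a => a + b * x n) (by fun_prop)
      rw [lintegral_indicator_const hmS, one_mul, Measure.restrict_apply hmS]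
      have h4 : {a | a + b * x n ∉ E} ∩ F ⊆ (fun a => a + b * x n) ⁻¹' S := by
        rintro a ⟨ha, haF⟩
        refine ⟨⟨hJ a haF b hb, ha⟩, ?_⟩
        refine (Metric.infDist_le_dist_of_mem (hFE haF)).trans ?_
        rw [Real.dist_eq, show a + b * x n - a = b * x n by ring, abs_mul]
        exact mul_le_mul_of_nonneg_right hb (abs_nonneg _)
      refine (measure_mono h4).trans ?_
      rw [measure_preimage_add_right]
    · have h3 : ∀ a, (bad x E r n a).indicator (fun _ => (1 : ℝ≥0∞)) b = 0 := fun a =>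
        Set.indicator_of_notMem (fun h => hb h.1) _
      simp only [h3, lintegral_zero]
      exact zero_le
  refine (lintegral_mono h2).trans ?_
  rw [lintegral_indicator_const measurableSet_Icc, Real.volume_Icc, mul_comm]
  rw [show r - -r = 2 * r by ring]

/-- all terms -/
theorem all_terms (x : ℕ → ℝ) {E J F : Set ℝ} (hE : MeasurableSet E)
    (hFE : F ⊆ E) {r : ℝ} (hr : 0 < r)
    (hJ : ∀ n, ∀ a ∈ F, ∀ b, |b| ≤ r → a + b * x n ∈ J) :
    ∫⁻ a in F, ∑' n, volume (bad x E r n a) ≤
      ENNReal.ofReal (2 * r) * ∫⁻ y in J \ E, count x (Metric.infDist y E / r) := by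
  rw [lintegral_tsum fun n => (measurable_volume_bad x hE r n).aemeasurable]
  have h1 : ∫⁻ y in J \ E, count x (Metric.infDist y E / r) =
      ∑' n, volume {y | y ∈ J \ E ∧ Metric.infDist y E ≤ r * |x n|} := by
    unfold count
    rw [lintegral_tsum]
    · refine tsum_congr fun n => ?_
      have h2 : (fun y => if Metric.infDist y E / r ≤ |x n| then (1 : ℝ≥0∞) else 0) =
          ({y | Metric.infDist y E ≤ r * |x n|}).indicator fun _ => (1 : ℝ≥0∞) := by
        funext y
        have h3 : Metric.infDist y E / r ≤ |x n| ↔ Metric.infDist y E ≤ r * |x n| := by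
          rw [div_le_iff₀ hr, mul_comm]
        by_cases h : Metric.infDist y E ≤ r * |x n|
        · rw [if_pos (h3.2 h), Set.indicator_of_mem (show y ∈ {y | Metric.infDist y E ≤ r * |x n|} from h)]
        · rw [if_neg (fun h' => h (h3.1 h')),
            Set.indicator_of_notMem (show y ∉ {y | Metric.infDist y E ≤ r * |x n|} from h)]
      have hm : MeasurableSet {y | Metric.infDist y E ≤ r * |x n|} :=
        measurableSet_Iic.preimage (Metric.continuous_infDist_pt E).measurable
      rw [h2, lintegral_indicator_const hm, one_mul, Measure.restrict_apply hm]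
      congr 1
      ext y
      exact ⟨fun h => ⟨h.2, h.1⟩, fun h => ⟨h.2, h.1⟩⟩
    · intro n
      refine (Measurable.ite ?_ measurable_const measurable_const).aemeasurable
      exact measurableSet_Iic.preimage ((Metric.continuous_infDist_pt E).div_const r).measurable
  rw [h1, ← ENNReal.tsum_mul_left]
  exact ENNReal.tsum_le_tsum fun n => one_term x hE hFE n (hJ n)

/-- a null sequence is bounded -/
theorem bounded_of_tendsto {x : ℕ → ℝ} (hx : Tendsto x atTop (𝓝 0)) : ∃ M : ℝ, 0 < M ∧ ∀ n, |x n| ≤ M := by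
  obtain ⟨M, hM⟩ := (Metric.isBounded_range_of_tendsto x hx).exists_norm_le
  exact ⟨max M 1, lt_max_of_lt_right one_pos, fun n => (hM _ ⟨n, rfl⟩).trans (le_max_left _ _)⟩

/-- the integral of the number of terms tends to zero -/
theorem tendsto_count {x : ℕ → ℝ} (hx : Tendsto x atTop (𝓝 0)) {E J : Set ℝ}
    (h : ∫⁻ y in J \ E, count x (Metric.infDist y E) < ∞) :
    Tendsto (fun k : ℕ => ∫⁻ y in J \ E, count x (Metric.infDist y E / (1 / 2 : ℝ) ^ k)) atTop (𝓝 0) := by
  obtain ⟨M, hM, hxM⟩ := bounded_of_tendsto hx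
  have h0 : (0 : ℝ≥0∞) = ∫⁻ y in J \ E, (0 : ℝ≥0∞) := by simp
  rw [h0]
  have hmeas : ∀ k : ℕ, Measurable fun y => count x (Metric.infDist y E / (1 / 2 : ℝ) ^ k) := fun k =>
    (measurable_count x).comp ((Metric.continuous_infDist_pt E).div_const _).measurable
  refine lintegral_tendsto_of_tendsto_of_antitone (fun k => (hmeas k).aemeasurable) ?_ ?_ ?_
  · refine Eventually.of_forall fun y => antitone_nat_of_succ_le fun k => ?_
    unfold count
    refine ENNReal.tsum_le_tsum fun n => ?_
    by_cases h1 : Metric.infDist y E / (1 / 2 : ℝ) ^ (k + 1) ≤ |x n|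
    · have h2 : Metric.infDist y E / (1 / 2 : ℝ) ^ k ≤ |x n| := by
        refine le_trans ?_ h1
        refine div_le_div_of_nonneg_left Metric.infDist_nonneg (by positivity) ?_
        exact pow_le_pow_of_le_one (by norm_num) (by norm_num) (Nat.le_succ k)
      rw [if_pos h1, if_pos h2]
    · rw [if_neg h1]
      exact zero_le
  · simpa using h.ne
  · have hae := ae_lt_top ((measurable_count x).comp (Metric.continuous_infDist_pt E).measurable) h.ne
    filter_upwards [hae] with y hy
    have hpos : 0 < Metric.infDist y E := by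
      rcases (Metric.infDist_nonneg : 0 ≤ Metric.infDist y E).lt_or_eq with h1 | h1
      · exact h1
      · exfalso
        have h2 : count x (Metric.infDist y E) = ∞ := by
          rw [← h1]
          unfold count
          have : (fun n => if (0 : ℝ) ≤ |x n| then (1 : ℝ≥0∞) else 0) = fun _ => 1 := by
            funext n
            rw [if_pos (abs_nonneg _)]
          rw [this]
          exact ENNReal.tsum_const_eq_top_of_ne_zero one_ne_zero
        rw [Function.comp_apply, h2] at hy
        exact lt_irrefl _ hy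
    have h3 : ∀ᶠ k : ℕ in atTop, count x (Metric.infDist y E / (1 / 2 : ℝ) ^ k) = 0 := by
      have h4 : Tendsto (fun k : ℕ => Metric.infDist y E / (1 / 2 : ℝ) ^ k) atTop atTop := by
        have : (fun k : ℕ => Metric.infDist y E / (1 / 2 : ℝ) ^ k) = fun k : ℕ => Metric.infDist y E * 2 ^ k := by
          funext k
          rw [one_div, inv_pow, div_inv_eq_mul]
        rw [this]
        exact (tendsto_pow_atTop_atTop_of_one_lt one_lt_two).const_mul_atTop hpos
      filter_upwards [h4.eventually_gt_atTop M] with k hk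
      unfold count
      rw [ENNReal.tsum_eq_zero]
      intro n
      rw [if_neg]
      exact not_le.2 ((hxM n).trans_lt hk)
    exact tendsto_const_nhds.congr' (h3.mono fun k hk => hk.symm)

/-- almost every point of `E` in `J` admits many ratios. -/
theorem main {x : ℕ → ℝ} (hx : Tendsto x atTop (𝓝 0)) {E J : Set ℝ} (hE : MeasurableSet E) (hJ : IsOpen J)
    (h : ∫⁻ y in J \ E, count x (Metric.infDist y E) < ∞) :
    ∀ᵐ a, a ∈ E ∩ J → ∀ ε : ℝ, 0 < ε → ∃ r : ℝ, 0 < r ∧ r < ε ∧
      volume {b | |b| ≤ r ∧ ∃ n, a + b * x n ∉ E} ≤ ENNReal.ofReal (ε * r) := by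
  obtain ⟨M, hM, hxM⟩ := bounded_of_tendsto hx
  set F : ℕ → Set ℝ := fun m => E ∩ {a | ENNReal.ofReal (1 / (m + 1)) ≤ Metric.infEDist a Jᶜ} with hFdef
  have hFm : ∀ m, MeasurableSet (F m) := fun m =>
    hE.inter (isClosed_Ici.preimage Metric.continuous_infEDist).measurableSet
  have hFJ : ∀ (m : ℕ) (r : ℝ), r * M < 1 / ((m : ℝ) + 1) → ∀ n, ∀ a ∈ F m, ∀ b, |b| ≤ r → a + b * x n ∈ J := by
    intro m r hr n a ha b hb
    by_contra hcon
    have h1 : Metric.infEDist a Jᶜ ≤ edist a (a + b * x n) := Metric.infEDist_le_edist_of_mem hcon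
    have h2 := ha.2.trans h1
    rw [edist_dist, ENNReal.ofReal_le_ofReal_iff dist_nonneg, Real.dist_eq,
      show a - (a + b * x n) = -(b * x n) by ring, abs_neg, abs_mul] at h2
    have h3 : |b| * |x n| ≤ r * M := mul_le_mul hb (hxM n) (abs_nonneg _) ((abs_nonneg b).trans hb)
    linarith
  set G : ℕ → ℝ → ℝ≥0∞ := fun k a => (∑' n, volume (bad x E ((1 / 2 : ℝ) ^ k) n a)) / ENNReal.ofReal ((1 / 2 : ℝ) ^ k)
    with hG
  have hGm : ∀ k, Measurable (G k) := fun k =>
    (Measurable.tsum fun n => measurable_volume_bad x hE _ n).div_const _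
  have hlim : ∀ m, ∀ᵐ a ∂(volume.restrict (F m)), liminf (fun k => G k a) atTop = 0 := by
    intro m
    have h1 : ∫⁻ a in F m, liminf (fun k => G k a) atTop = 0 := by
      refine le_antisymm ?_ zero_le
      refine (lintegral_liminf_le hGm).trans ?_
      have h2 : Tendsto (fun k : ℕ => 2 * ∫⁻ y in J \ E, count x (Metric.infDist y E / (1 / 2 : ℝ) ^ k)) atTop (𝓝 0) := by
        have := ENNReal.Tendsto.const_mul (a := 2) (tendsto_count hx h) (Or.inr (by norm_num))
        simpa using this
      have h3 : ∀ᶠ k : ℕ in atTop, ∫⁻ a in F m, G k a ≤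
          2 * ∫⁻ y in J \ E, count x (Metric.infDist y E / (1 / 2 : ℝ) ^ k) := by
        have h4 : Tendsto (fun k : ℕ => (1 / 2 : ℝ) ^ k * M) atTop (𝓝 0) := by
          have := (tendsto_pow_atTop_nhds_zero_of_lt_one (r := (1 / 2 : ℝ)) (by norm_num) (by norm_num)).mul_const M
          simpa using this
        filter_upwards [h4.eventually_lt_const (show (0 : ℝ) < 1 / (m + 1) by positivity)] with k hk
        have h5 := all_terms x hE inter_subset_left
          (show (0 : ℝ) < (1 / 2 : ℝ) ^ k by positivity) (hFJ m _ hk)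
        have hpos : ENNReal.ofReal ((1 / 2 : ℝ) ^ k) ≠ 0 := by
          rw [Ne, ENNReal.ofReal_eq_zero, not_le]; positivity
        have e1 : ∫⁻ a in F m, G k a =
            (∫⁻ a in F m, ∑' n, volume (bad x E ((1 / 2 : ℝ) ^ k) n a)) / ENNReal.ofReal ((1 / 2 : ℝ) ^ k) := by
          simp only [hG, ENNReal.div_eq_inv_mul]
          rw [lintegral_const_mul]
          exact Measurable.tsum fun n => measurable_volume_bad x hE _ n
        rw [e1]
        refine ENNReal.div_le_of_le_mul ?_
        refine h5.trans (le_of_eq ?_)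
        rw [ENNReal.ofReal_mul (by norm_num : (0 : ℝ) ≤ 2), ENNReal.ofReal_ofNat]
        ring
      have h6 := liminf_le_liminf h3
      rw [h2.liminf_eq] at h6
      exact h6
    have h7 := (lintegral_eq_zero_iff (Measurable.liminf hGm)).1 h1
    filter_upwards [h7] with a ha
    exact ha
  have hall : ∀ᵐ a, ∀ m, a ∈ F m → liminf (fun k => G k a) atTop = 0 :=
    ae_all_iff.2 fun m => (ae_restrict_iff' (hFm m)).1 (hlim m)
  filter_upwards [hall] with a ha haEJ ε hε
  have hm : ∃ m, a ∈ F m := by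
    have h1 : 0 < Metric.infEDist a Jᶜ := by
      rw [Metric.infEDist_pos_iff_notMem_closure, hJ.isClosed_compl.closure_eq]
      exact fun hc => hc haEJ.2
    have h2 : Tendsto (fun m : ℕ => ENNReal.ofReal (1 / ((m : ℝ) + 1))) atTop (𝓝 0) := by
      have := ENNReal.tendsto_ofReal (tendsto_one_div_add_atTop_nhds_zero_nat (𝕜 := ℝ))
      simpa using this
    obtain ⟨m, hm⟩ := (h2.eventually_lt_const h1).exists
    exact ⟨m, haEJ.1, hm.le⟩
  obtain ⟨m, hm⟩ := hm
  have h1 := ha m hm
  have h2 : ∃ᶠ k in atTop, G k a < ENNReal.ofReal ε := by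
    have h8 : liminf (fun k => G k a) atTop < ENNReal.ofReal ε := by
      rw [h1]
      exact ENNReal.ofReal_pos.2 hε
    exact frequently_lt_of_liminf_lt (by isBoundedDefault) h8
  have h3 : ∀ᶠ k : ℕ in atTop, (1 / 2 : ℝ) ^ k < ε :=
    (tendsto_pow_atTop_nhds_zero_of_lt_one (by norm_num) (by norm_num)).eventually_lt_const hε
  obtain ⟨k, hk1, hk2⟩ := (h2.and_eventually h3).exists
  refine ⟨(1 / 2 : ℝ) ^ k, by positivity, hk2, ?_⟩
  have hsub : {b | |b| ≤ (1 / 2 : ℝ) ^ k ∧ ∃ n, a + b * x n ∉ E} ⊆ ⋃ n, bad x E ((1 / 2 : ℝ) ^ k) n a := by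
    rintro b ⟨hb, n, hn⟩
    exact mem_iUnion.2 ⟨n, hb, hn⟩
  refine (measure_mono hsub).trans ((measure_iUnion_le _).trans ?_)
  have hpos : ENNReal.ofReal ((1 / 2 : ℝ) ^ k) ≠ 0 := by
    rw [Ne, ENNReal.ofReal_eq_zero, not_le]; positivity
  have h4 := hk1.le
  simp only [hG] at h4
  rw [ENNReal.div_le_iff hpos ENNReal.ofReal_ne_top] at h4
  rw [ENNReal.ofReal_mul hε.le]
  exact h4

/-- the number of terms of a lacunary sequence which are at least `t` -/
theorem count_le {q : ℝ} (hq : q < 1) {x : ℕ → ℝ} (hx : ∀ n, 0 < x n) (hxq : ∀ n, x (n + 1) ≤ q * x n)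
    {t : ℝ} (ht : 0 < t) :
    count x t ≤ ENNReal.ofReal (1 + (|Real.log (x 0)| + |Real.log t|) / -Real.log q) := by
  have hq0 : 0 < q := by
    by_contra h
    have := (hx 1).trans_le (hxq 0)
    nlinarith [hx 0]
  have hlq : 0 < -Real.log q := neg_pos.2 (Real.log_neg hq0 hq)
  have hpow : ∀ n, x n ≤ q ^ n * x 0 := by
    intro n
    induction n with
    | zero => simp
    | succ n ih =>
      calc x (n + 1) ≤ q * x n := hxq n
        _ ≤ q * (q ^ n * x 0) := mul_le_mul_of_nonneg_left ih hq0.le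
        _ = q ^ (n + 1) * x 0 := by ring
  set K : ℝ := (|Real.log (x 0)| + |Real.log t|) / -Real.log q with hK
  have hK0 : 0 ≤ K := by positivity
  have hn : ∀ n, t ≤ |x n| → n ∈ Finset.range (⌊K⌋₊ + 1) := by
    intro n hn
    rw [abs_of_pos (hx n)] at hn
    have h1 : Real.log t ≤ n * Real.log q + Real.log (x 0) := by
      have := Real.log_le_log ht (hn.trans (hpow n))
      rwa [Real.log_mul (by positivity) (hx 0).ne', Real.log_pow] at this
    have h2 : (n : ℝ) ≤ K := by
      rw [hK, le_div_iff₀ hlq]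
      have := le_abs_self (Real.log (x 0))
      have := neg_abs_le (Real.log t)
      linarith
    exact Finset.mem_range.2 (Nat.lt_succ_of_le (Nat.le_floor h2))
  have h3 : count x t ≤ ∑' n : ℕ, if n ∈ Finset.range (⌊K⌋₊ + 1) then (1 : ℝ≥0∞) else 0 := by
    refine ENNReal.tsum_le_tsum fun n => ?_
    by_cases h : t ≤ |x n|
    · rw [if_pos h, if_pos (hn n h)]
    · rw [if_neg h]
      exact zero_le
  refine h3.trans ?_
  rw [tsum_eq_sum (s := Finset.range (⌊K⌋₊ + 1)) (fun n hn => if_neg hn)]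
  rw [Finset.sum_congr rfl (fun n hn => if_pos hn)]
  simp only [Finset.sum_const, Finset.card_range, nsmul_eq_mul, mul_one]
  rw [← ENNReal.ofReal_natCast]
  refine ENNReal.ofReal_le_ofReal ?_
  push_cast
  have := Nat.floor_le hK0
  linarith

/-- a lacunary sequence tends to zero -/
theorem tendsto_of_lacunary {q : ℝ} (hq : q < 1) {x : ℕ → ℝ} (hx : ∀ n, 0 < x n)
    (hxq : ∀ n, x (n + 1) ≤ q * x n) : Tendsto x atTop (𝓝 0) := by
  have hq0 : 0 < q := by
    by_contra h
    have := (hx 1).trans_le (hxq 0)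
    nlinarith [hx 0]
  have hpow : ∀ n, x n ≤ q ^ n * x 0 := by
    intro n
    induction n with
    | zero => simp
    | succ n ih =>
      calc x (n + 1) ≤ q * x n := hxq n
        _ ≤ q * (q ^ n * x 0) := mul_le_mul_of_nonneg_left ih hq0.le
        _ = q ^ (n + 1) * x 0 := by ring
  have h1 : Tendsto (fun n : ℕ => q ^ n * x 0) atTop (𝓝 0) := by
    have := (tendsto_pow_atTop_nhds_zero_of_lt_one hq0.le hq).mul_const (x 0)
    simpa using this
  exact squeeze_zero (fun n => (hx n).le) hpow h1

/-- sets with integrable logarithm of the distance contain similar copies of lacunary sequences -/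
theorem lacunary {q : ℝ} (hq : q < 1) {x : ℕ → ℝ} (hx : ∀ n, 0 < x n)
    (hxq : ∀ n, x (n + 1) ≤ q * x n) {E J : Set ℝ} (hE : IsClosed E) (hJ : IsOpen J) (hJv : volume J < ∞)
    (hlog : IntegrableOn (fun y => Real.log (Metric.infDist y E)) (J \ E)) :
    ∀ᵐ a, a ∈ E ∩ J → ∀ ρ : ℝ, 0 < ρ → ∃ b : ℝ, 0 < b ∧ b < ρ ∧ ∀ n, a + b * x n ∈ E ∧ a - b * x n ∈ E := by
  rcases E.eq_empty_or_nonempty with hEe | hEne
  · exact Eventually.of_forall fun a ha => absurd ha.1 (by rw [hEe]; exact notMem_empty a)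
  have hmJE : MeasurableSet (J \ E) := hJ.measurableSet.diff hE.measurableSet
  have hfin : volume (J \ E) < ∞ := (measure_mono sdiff_subset).trans_lt hJv
  have hint : IntegrableOn (fun y => 1 + (|Real.log (x 0)| + |Real.log (Metric.infDist y E)|) / -Real.log q)
      (J \ E) := by
    have h1 : IntegrableOn (fun _ : ℝ => (1 : ℝ)) (J \ E) := integrableOn_const hfin.ne
    have h2 : IntegrableOn (fun _ : ℝ => |Real.log (x 0)|) (J \ E) := integrableOn_const hfin.ne
    exact h1.add ((h2.add hlog.abs).div_const _)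
  have hc : ∫⁻ y in J \ E, count x (Metric.infDist y E) < ∞ := by
    refine lt_of_le_of_lt ?_ hint.lintegral_lt_top
    refine lintegral_mono_ae ((ae_restrict_iff' hmJE).2 ?_)
    refine Eventually.of_forall fun y hy => ?_
    exact count_le hq hx hxq ((hE.notMem_iff_infDist_pos hEne).1 hy.2)
  filter_upwards [main (tendsto_of_lacunary hq hx hxq) hE.measurableSet hJ hc] with a ha haEJ ρ hρ
  obtain ⟨r, hr0, hrε, hvol⟩ := ha haEJ (min ρ (1 / 4)) (by positivity)
  have hrρ : r < ρ := hrε.trans_le (min_le_left _ _)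
  set B : Set ℝ := {b | |b| ≤ r ∧ ∃ n, a + b * x n ∉ E} with hB
  have hvolB : volume B ≤ ENNReal.ofReal (r / 4) := by
    refine hvol.trans (ENNReal.ofReal_le_ofReal ?_)
    have := mul_le_mul_of_nonneg_right (min_le_right ρ (1 / 4)) hr0.le
    linarith
  have hneg : volume ((fun b : ℝ => -b) ⁻¹' B) = volume B := by
    exact Measure.measure_preimage_neg volume B
  by_contra hcon
  push Not at hcon
  have hsub : Ioo 0 r ⊆ B ∪ (fun b : ℝ => -b) ⁻¹' B := by
    intro b hb
    obtain ⟨n, hn⟩ := hcon b hb.1 (hb.2.trans hrρ)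
    have habs : |b| ≤ r := by rw [abs_of_pos hb.1]; exact hb.2.le
    by_cases h1 : a + b * x n ∈ E
    · right
      refine ⟨by rw [abs_neg]; exact habs, n, ?_⟩
      have := hn h1
      rwa [show a + -b * x n = a - b * x n by ring]
    · left
      exact ⟨habs, n, h1⟩
  have h1 : volume (Ioo 0 r) ≤ volume B + volume ((fun b : ℝ => -b) ⁻¹' B) :=
    (measure_mono hsub).trans (measure_union_le _ _)
  rw [hneg, Real.volume_Ioo, sub_zero] at h1
  have h2 : ENNReal.ofReal r ≤ ENNReal.ofReal (r / 4) + ENNReal.ofReal (r / 4) :=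
    h1.trans (add_le_add hvolB hvolB)
  rw [← ENNReal.ofReal_add (by positivity) (by positivity), ENNReal.ofReal_le_ofReal_iff (by positivity)] at h2
  linarith

end Pool.Agent.H56.ES
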