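import Pool.Agent.H56.ES.RndE

/-!
MP_6045a2_an. Gaps which are met by `a + b X` for every `b` and almost every `a`.
-/

set_option autoImplicit false

open MeasureTheory Set Filter Topology Metric
open scoped ENNReal

namespace Pool.Agent.H56.ES.Gap

/-- the translates which meet the middle half of a gap -/
def HH (X : Set ℝ) (t b c : ℝ) : Set ℝ := {a | ∃ x ∈ X, a + b * x ∈ Ioo (c + t) (c + 3 * t)}

theorem isOpen_HHprod (X : Set ℝ) (t b : ℝ) : IsOpen {p : ℝ × ℝ | p.2 ∈ HH X t b p.1} := by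
  have h1 : {p : ℝ × ℝ | p.2 ∈ HH X t b p.1} =
      ⋃ x ∈ X, {p : ℝ × ℝ | p.1 + t < p.2 + b * x ∧ p.2 + b * x < p.1 + 3 * t} := by
    ext p
    simp only [HH, mem_ofPred_eq, mem_iUnion, mem_Ioo, exists_prop]
  rw [h1]
  refine isOpen_biUnion fun x _ => ?_
  have h2 : IsOpen {p : ℝ × ℝ | p.1 + t < p.2 + b * x} := isOpen_lt (by fun_prop) (by fun_prop)
  have h3 : IsOpen {p : ℝ × ℝ | p.2 + b * x < p.1 + 3 * t} := isOpen_lt (by fun_prop) (by fun_prop)
  exact h2.inter h3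

theorem volume_HH_le (F : Finset ℝ) {t : ℝ} (b c : ℝ) :
    volume (HH (F : Set ℝ) t b c) ≤ ENNReal.ofReal (2 * t * F.card) := by
  have h1 : HH (F : Set ℝ) t b c = ⋃ x ∈ F, Ioo (c + t - b * x) (c + 3 * t - b * x) := by
    ext a
    simp only [HH, mem_ofPred_eq, mem_iUnion, mem_Ioo, exists_prop, Finset.mem_coe]
    constructor
    · rintro ⟨x, hx, h1, h2⟩
      exact ⟨x, hx, by linarith, by linarith⟩
    · rintro ⟨x, hx, h1, h2⟩
      exact ⟨x, hx, by linarith, by linarith⟩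
  rw [h1]
  refine (measure_biUnion_finset_le _ _).trans ?_
  have h2 : ∀ x ∈ F, volume (Ioo (c + t - b * x) (c + 3 * t - b * x)) ≤ ENNReal.ofReal (2 * t) := by
    intro x _
    rw [Real.volume_Ioo]
    exact ENNReal.ofReal_le_ofReal (by linarith)
  refine (Finset.sum_le_sum h2).trans (le_of_eq ?_)
  rw [Finset.sum_const, nsmul_eq_mul, ← ENNReal.ofReal_natCast, ← ENNReal.ofReal_mul (Nat.cast_nonneg _)]
  congr 1
  ring

theorem exp_neg_le {s : ℝ} (h0 : 0 ≤ s) (h1 : s ≤ 1) : Real.exp (-s) ≤ 1 - s / 2 := by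
  rw [Real.exp_neg, inv_le_iff_one_le_mul₀ (Real.exp_pos s)]
  have h2 := Real.add_one_le_exp s
  nlinarith

/-- a random gap reduces the exponential moment of the measure of the remaining translates -/
theorem step_one (F : Finset ℝ) {t w θ b : ℝ} (ht : 0 < t) (hθ0 : 0 ≤ θ) (hθ : θ * (2 * t * F.card) ≤ 1)
    {U : Set ℝ} (hU : MeasurableSet U) (hUf : volume U ≠ ∞) (hw0 : 0 ≤ w)
    (hlow : ∀ a ∈ U, ENNReal.ofReal w ≤ volume (WW (F : Set ℝ) t a b ∩ Icc 0 1)) :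
    Integrable (fun c => Real.exp (θ * (volume (U \ HH (F : Set ℝ) t b c)).toReal)) (volume.restrict (Icc (0 : ℝ) 1)) ∧
    ∫ c, Real.exp (θ * (volume (U \ HH (F : Set ℝ) t b c)).toReal) ∂(volume.restrict (Icc (0 : ℝ) 1)) ≤
      Real.exp (θ * (1 - w / 2) * (volume U).toReal) := by
  set μ : Measure ℝ := volume.restrict (Icc (0 : ℝ) 1) with hμ
  have hμ1 : μ univ = 1 := by
    rw [hμ, Measure.restrict_apply MeasurableSet.univ, univ_inter, Real.volume_Icc, sub_zero, ENNReal.ofReal_one]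
  have hμp : IsProbabilityMeasure μ := ⟨hμ1⟩
  obtain ⟨u, hu⟩ : ∃ u, u = (volume U).toReal := ⟨_, rfl⟩
  have hu0 : 0 ≤ u := by rw [hu]; exact ENNReal.toReal_nonneg
  have hDm : MeasurableSet {p : ℝ × ℝ | p.2 ∈ HH (F : Set ℝ) t b p.1} := (isOpen_HHprod _ _ _).measurableSet
  have hHm : ∀ c, MeasurableSet (HH (F : Set ℝ) t b c) := fun c => measurable_prodMk_left hDm
  set y : ℝ → ℝ := fun c => (volume (U ∩ HH (F : Set ℝ) t b c)).toReal with hy
  have hvr : ∀ c, (volume.restrict U) (HH (F : Set ℝ) t b c) = volume (U ∩ HH (F : Set ℝ) t b c) := by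
    intro c
    rw [Measure.restrict_apply (hHm c), inter_comm]
  have hym : Measurable fun c => volume (U ∩ HH (F : Set ℝ) t b c) := by
    have h1 : Measurable fun c => (volume.restrict U) (HH (F : Set ℝ) t b c) := measurable_measure_prodMk_left hDm
    rwa [funext hvr] at h1
  have hyf : ∀ c, volume (U ∩ HH (F : Set ℝ) t b c) ≠ ∞ := fun c =>
    ne_top_of_le_ne_top hUf (measure_mono inter_subset_left)
  have hdf : ∀ c, volume (U \ HH (F : Set ℝ) t b c) ≠ ∞ := fun c =>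
    ne_top_of_le_ne_top hUf (measure_mono sdiff_subset)
  have hy1 : ∀ c, y c ≤ 2 * t * F.card := fun c =>
    ENNReal.toReal_le_of_le_ofReal (by positivity) ((measure_mono inter_subset_right).trans (volume_HH_le F b c))
  have hy0 : ∀ c, 0 ≤ y c := fun c => ENNReal.toReal_nonneg
  have hsplit : ∀ c, (volume (U \ HH (F : Set ℝ) t b c)).toReal = u - y c := by
    intro c
    have h1 := measure_inter_add_sdiff (μ := volume) U (hHm c)
    have h2 : u = y c + (volume (U \ HH (F : Set ℝ) t b c)).toReal := by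
      rw [hu, ← h1, ENNReal.toReal_add (hyf c) (hdf c)]
    linarith
  have hyi : Integrable y μ := Integrable.of_bound (C := 2 * t * F.card) hym.ennreal_toReal.aestronglyMeasurable
    (Eventually.of_forall fun c => by rw [Real.norm_eq_abs, abs_of_nonneg (hy0 c)]; exact hy1 c)
  have hmean : w * u ≤ ∫ c, y c ∂μ := by
    have h1 : (μ.prod (volume.restrict U)) {p : ℝ × ℝ | p.2 ∈ HH (F : Set ℝ) t b p.1} =
        ∫⁻ c, volume (U ∩ HH (F : Set ℝ) t b c) ∂μ := by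
      rw [Measure.prod_apply hDm]
      exact lintegral_congr fun c => hvr c
    have h2 : (μ.prod (volume.restrict U)) {p : ℝ × ℝ | p.2 ∈ HH (F : Set ℝ) t b p.1} =
        ∫⁻ a in U, volume (WW (F : Set ℝ) t a b ∩ Icc 0 1) := by
      rw [Measure.prod_apply_symm hDm]
      refine lintegral_congr fun a => ?_
      have h3 : (fun c => (c, a)) ⁻¹' {p : ℝ × ℝ | p.2 ∈ HH (F : Set ℝ) t b p.1} = WW (F : Set ℝ) t a b := rfl
      rw [h3, hμ, Measure.restrict_apply (isOpen_WW _ _ _ _).measurableSet]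
    have h3 : ENNReal.ofReal w * volume U ≤ ∫⁻ a in U, volume (WW (F : Set ℝ) t a b ∩ Icc 0 1) := by
      rw [← setLIntegral_const]
      exact setLIntegral_mono' hU hlow
    have h4 : ∫⁻ c, volume (U ∩ HH (F : Set ℝ) t b c) ∂μ ≠ ∞ := by
      have h5 : ∫⁻ c, volume (U ∩ HH (F : Set ℝ) t b c) ∂μ ≤ ∫⁻ _c, volume U ∂μ :=
        lintegral_mono fun c => measure_mono inter_subset_left
      rw [lintegral_const, hμ1, mul_one] at h5
      exact ne_top_of_le_ne_top hUf h5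
    rw [hy, integral_toReal hym.aemeasurable (Eventually.of_forall fun c => (hyf c).lt_top)]
    refine (ENNReal.ofReal_le_iff_le_toReal h4).1 ?_
    rw [ENNReal.ofReal_mul hw0, hu, ENNReal.ofReal_toReal hUf, ← h1, h2]
    exact h3
  have hbd : ∀ c, Real.exp (θ * (volume (U \ HH (F : Set ℝ) t b c)).toReal) ≤
      Real.exp (θ * u) * (1 - θ * y c / 2) := by
    intro c
    have h1 : θ * (volume (U \ HH (F : Set ℝ) t b c)).toReal = θ * u + -(θ * y c) := by rw [hsplit]; ring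
    rw [h1, Real.exp_add]
    refine mul_le_mul_of_nonneg_left (exp_neg_le (mul_nonneg hθ0 (hy0 c)) ?_) (Real.exp_pos _).le
    exact (mul_le_mul_of_nonneg_left (hy1 c) hθ0).trans hθ
  have hint : Integrable (fun c => Real.exp (θ * (volume (U \ HH (F : Set ℝ) t b c)).toReal)) μ := by
    refine Integrable.of_bound (C := Real.exp (θ * u)) ?_ (Eventually.of_forall fun c => ?_)
    · have h1 : (fun c => Real.exp (θ * (volume (U \ HH (F : Set ℝ) t b c)).toReal)) =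
          fun c => Real.exp (θ * (u - y c)) := funext fun c => by rw [hsplit]
      rw [h1]
      have h2 : Measurable y := hym.ennreal_toReal
      exact (by fun_prop : Measurable fun c => Real.exp (θ * (u - y c))).aestronglyMeasurable
    · rw [Real.norm_eq_abs, abs_of_pos (Real.exp_pos _), hsplit]
      exact Real.exp_le_exp.2 (mul_le_mul_of_nonneg_left (by linarith [hy0 c]) hθ0)
  refine ⟨hint, ?_⟩
  have hint2 : Integrable (fun c => Real.exp (θ * u) * (1 - θ * y c / 2)) μ := by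
    have h1 : Integrable (fun c => θ * y c / 2) μ := (hyi.const_mul θ).div_const 2
    exact ((integrable_const (1 : ℝ)).sub h1).const_mul _
  calc ∫ c, Real.exp (θ * (volume (U \ HH (F : Set ℝ) t b c)).toReal) ∂μ
      ≤ ∫ c, Real.exp (θ * u) * (1 - θ * y c / 2) ∂μ := integral_mono hint hint2 hbd
    _ = Real.exp (θ * u) * (1 - θ / 2 * ∫ c, y c ∂μ) := by
        have h1 : Integrable (fun c => θ * y c / 2) μ := (hyi.const_mul θ).div_const 2
        rw [integral_const_mul, integral_sub (integrable_const (1 : ℝ)) h1, integral_const, probReal_univ, one_smul]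
        congr 2
        rw [show (fun c => θ * y c / 2) = fun c => θ / 2 * y c by funext c; ring, integral_const_mul]
    _ ≤ Real.exp (θ * u) * (1 - θ / 2 * (w * u)) := by
        refine mul_le_mul_of_nonneg_left ?_ (Real.exp_pos _).le
        have := mul_le_mul_of_nonneg_left hmean (by positivity : 0 ≤ θ / 2)
        linarith
    _ ≤ Real.exp (θ * u) * Real.exp (-(θ / 2 * (w * u))) :=
        mul_le_mul_of_nonneg_left (Real.one_sub_le_exp_neg _) (Real.exp_pos _).le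
    _ = Real.exp (θ * (1 - w / 2) * (volume U).toReal) := by
        rw [← Real.exp_add, ← hu]
        congr 1
        ring

/-- many gaps, chosen one after another, for finitely many `b` at once -/
theorem many_steps {ι : Type*} (s : Finset ι) (β : ι → ℝ) (F : Finset ℝ) {t w θ : ℝ} (ht : 0 < t) (hw0 : 0 ≤ w)
    (hw1 : w ≤ 1) (hθ0 : 0 ≤ θ) (hθ : θ * (2 * t * F.card) ≤ 1) (M : ℕ) :
    ∀ U : ι → Set ℝ, (∀ i ∈ s, MeasurableSet (U i)) → (∀ i ∈ s, volume (U i) ≠ ∞) →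
    (∀ i ∈ s, ∀ a ∈ U i, ENNReal.ofReal w ≤ volume (WW (F : Set ℝ) t a (β i) ∩ Icc 0 1)) →
    ∃ c : ℕ → ℝ, ∑ i ∈ s, Real.exp (θ * (volume {a | a ∈ U i ∧ ∀ j < M, a ∉ HH (F : Set ℝ) t (β i) (c j)}).toReal) ≤
      ∑ i ∈ s, Real.exp (θ * (1 - w / 2) ^ M * (volume (U i)).toReal) := by
  induction M with
  | zero =>
    intro U hU hUf hlow
    refine ⟨fun _ => 0, le_of_eq (Finset.sum_congr rfl fun i _ => ?_)⟩
    simp
  | succ M ih =>
    intro U hU hUf hlow
    have hp0 : 0 ≤ (1 - w / 2) ^ M := pow_nonneg (by linarith) M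
    have hp1 : (1 - w / 2) ^ M ≤ 1 := pow_le_one₀ (by linarith) (by linarith)
    have hθM0 : 0 ≤ θ * (1 - w / 2) ^ M := mul_nonneg hθ0 hp0
    have hθM : θ * (1 - w / 2) ^ M * (2 * t * F.card) ≤ 1 := by
      have h1 : 0 ≤ θ * (2 * t * F.card) := by positivity
      calc θ * (1 - w / 2) ^ M * (2 * t * F.card) = θ * (2 * t * F.card) * (1 - w / 2) ^ M := by ring
        _ ≤ θ * (2 * t * F.card) * 1 := mul_le_mul_of_nonneg_left hp1 h1
        _ ≤ 1 := by linarith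
    have h1 := fun i (hi : i ∈ s) => step_one F ht hθM0 hθM (hU i hi) (hUf i hi) hw0 (hlow i hi)
    have hμp : IsProbabilityMeasure (volume.restrict (Icc (0 : ℝ) 1)) :=
      ⟨by rw [Measure.restrict_apply MeasurableSet.univ, univ_inter, Real.volume_Icc, sub_zero, ENNReal.ofReal_one]⟩
    have hint : Integrable (fun c => ∑ i ∈ s, Real.exp (θ * (1 - w / 2) ^ M *
        (volume (U i \ HH (F : Set ℝ) t (β i) c)).toReal)) (volume.restrict (Icc (0 : ℝ) 1)) :=
      integrable_finsetSum _ fun i hi => (h1 i hi).1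
    obtain ⟨c₀, hc₀⟩ := exists_le_integral hint
    rw [integral_finsetSum _ fun i hi => (h1 i hi).1] at hc₀
    have hHm : ∀ i, MeasurableSet (HH (F : Set ℝ) t (β i) c₀) := fun i =>
      measurable_prodMk_left (isOpen_HHprod (F : Set ℝ) t (β i)).measurableSet
    obtain ⟨c, hc⟩ := ih (fun i => U i \ HH (F : Set ℝ) t (β i) c₀) (fun i hi => (hU i hi).diff (hHm i))
      (fun i hi => ne_top_of_le_ne_top (hUf i hi) (measure_mono sdiff_subset)) (fun i hi a ha => hlow i hi a ha.1)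
    refine ⟨fun j => Nat.casesOn j c₀ c, ?_⟩
    calc ∑ i ∈ s, Real.exp (θ * (volume {a | a ∈ U i ∧ ∀ j < M + 1, a ∉ HH (F : Set ℝ) t (β i)
          (Nat.casesOn (motive := fun _ => ℝ) j c₀ c)}).toReal)
        = ∑ i ∈ s, Real.exp (θ * (volume {a | a ∈ U i \ HH (F : Set ℝ) t (β i) c₀ ∧
            ∀ j < M, a ∉ HH (F : Set ℝ) t (β i) (c j)}).toReal) := by
          refine Finset.sum_congr rfl fun i _ => ?_
          congr 4
          ext a
          simp only [mem_ofPred_eq, Set.mem_sdiff]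
          constructor
          · rintro ⟨h2, h3⟩
            exact ⟨⟨h2, h3 0 (Nat.succ_pos M)⟩, fun j hj => h3 (j + 1) (Nat.succ_lt_succ hj)⟩
          · rintro ⟨⟨h2, h3⟩, h4⟩
            refine ⟨h2, fun j hj => ?_⟩
            rcases j with _ | j
            · exact h3
            · exact h4 j (Nat.lt_of_succ_lt_succ hj)
      _ ≤ ∑ i ∈ s, Real.exp (θ * (1 - w / 2) ^ M * (volume (U i \ HH (F : Set ℝ) t (β i) c₀)).toReal) := hc
      _ ≤ ∑ i ∈ s, ∫ c, Real.exp (θ * (1 - w / 2) ^ M * (volume (U i \ HH (F : Set ℝ) t (β i) c)).toReal)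
            ∂(volume.restrict (Icc (0 : ℝ) 1)) := hc₀
      _ ≤ ∑ i ∈ s, Real.exp (θ * (1 - w / 2) ^ M * (1 - w / 2) * (volume (U i)).toReal) :=
          Finset.sum_le_sum fun i hi => (h1 i hi).2
      _ = ∑ i ∈ s, Real.exp (θ * (1 - w / 2) ^ (M + 1) * (volume (U i)).toReal) := by
          refine Finset.sum_congr rfl fun i _ => ?_
          congr 2
          ring

/-- the relevant translates -/
def UU (F : Finset ℝ) (t A β : ℝ) : Set ℝ := {a | |a| ≤ A ∧ ∀ x ∈ F, a + β * x ∈ Icc (-t) (1 + t)}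

theorem measurableSet_UU (F : Finset ℝ) (t A β : ℝ) : MeasurableSet (UU F t A β) := by
  have h1 : UU F t A β = {a | |a| ≤ A} ∩ ⋂ x ∈ F, {a | a + β * x ∈ Icc (-t) (1 + t)} := by
    ext a
    simp only [UU, mem_ofPred_eq, mem_inter_iff, mem_iInter]
  rw [h1]
  refine MeasurableSet.inter (measurableSet_le (by fun_prop) (by fun_prop)) (Finset.measurableSet_biInter _ fun x _ => ?_)
  exact measurableSet_Icc.preimage (f := fun a : ℝ => a + β * x) (by fun_prop)

theorem volume_UU (F : Finset ℝ) (t A β : ℝ) : volume (UU F t A β) ≤ ENNReal.ofReal (2 * A) := by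
  have h1 : UU F t A β ⊆ Icc (-A) A := fun a ha => abs_le.1 ha.1
  refine (measure_mono h1).trans ?_
  rw [Real.volume_Icc]
  exact ENNReal.ofReal_le_ofReal (by linarith)

theorem bad_subset {X : Set ℝ} (hXne : X.Nonempty) {R : ℝ} (hR0 : 0 ≤ R) (hR : ∀ x ∈ X, |x| ≤ R) {F : Finset ℝ}
    (hFX : ∀ x ∈ F, x ∈ X) {t : ℝ} (ht0 : 0 < t) {K : ℝ} (hK : 1 ≤ K) (htK : t * K ≤ 1 / 4) {b : ℝ} (hbK : |b| ≤ K)
    (hb1 : 1 ≤ K * |b|) (c : ℕ → ℝ) (M : ℕ) :
    1 ≤ (2 * K) * |(⌊b / (t / (R + 1))⌋ : ℝ) * (t / (R + 1))| ∧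
    {a | ∀ x ∈ X, a + b * x ∈ Icc (0 : ℝ) 1 ∧ ∀ j < M, a + b * x ∉ Ioo (c j) (c j + 4 * t)} ⊆
      {a | a ∈ UU F t (1 + K * R) (⌊b / (t / (R + 1))⌋ * (t / (R + 1))) ∧
        ∀ j < M, a ∉ HH (F : Set ℝ) t (⌊b / (t / (R + 1))⌋ * (t / (R + 1))) (c j)} := by
  obtain ⟨σ, hσ⟩ : ∃ σ : ℝ, σ = t / (R + 1) := ⟨_, rfl⟩
  rw [← hσ]
  have hσ0 : 0 < σ := by rw [hσ]; positivity
  have hclose : |b - ⌊b / σ⌋ * σ| < σ := net_close hσ0 b
  obtain ⟨β, hβ⟩ : ∃ β : ℝ, β = ⌊b / σ⌋ * σ := ⟨_, rfl⟩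
  rw [← hβ] at hclose ⊢
  have hσt : σ ≤ t := by rw [hσ]; exact div_le_self ht0.le (by linarith)
  have hσR : σ * R < t := by
    rw [hσ, div_mul_eq_mul_div, div_lt_iff₀ (by linarith)]
    linarith
  clear hσ hβ
  constructor
  · have h1 : |b| ≤ |β| + t := by
      have h2 : b = β + (b - β) := by ring
      have h3 : |b| ≤ |β| + |b - β| := by
        calc |b| = |β + (b - β)| := by rw [← h2]
          _ ≤ _ := abs_add_le _ _
      linarith
    have h2 : K * |b| ≤ K * (|β| + t) := mul_le_mul_of_nonneg_left h1 (by linarith)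
    linarith
  · intro a ha
    have hdist : ∀ x ∈ X, |b * x - β * x| < t := by
      intro x hx
      rw [← sub_mul, abs_mul]
      have h2 : |b - β| * |x| ≤ σ * R := mul_le_mul hclose.le (hR x hx) (abs_nonneg x) hσ0.le
      linarith
    refine ⟨⟨?_, fun x hx => ?_⟩, fun j hj h => ?_⟩
    · obtain ⟨x, hx⟩ := hXne
      have h1 := (ha x hx).1
      have h2 : |b * x| ≤ K * R := by
        rw [abs_mul]
        exact mul_le_mul hbK (hR x hx) (abs_nonneg x) (by linarith)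
      have h3 := abs_le.1 h2
      rw [abs_le]
      constructor <;> linarith [h1.1, h1.2]
    · have h1 := (ha x (hFX x hx)).1
      have h2 := abs_lt.1 (hdist x (hFX x hx))
      constructor <;> linarith [h1.1, h1.2]
    · obtain ⟨x, hx, h1, h2⟩ := h
      have hxX := hFX x (Finset.mem_coe.1 hx)
      have h3 := abs_lt.1 (hdist x hxX)
      exact (ha x hxX).2 j hj ⟨by linarith, by linarith⟩

/-- one stage: gaps which almost all translates meet, for all `b` at once -/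
theorem stageE {X : Set ℝ} (hXb : Bornology.IsBounded X) (hX : X.Infinite) {L : ℝ → ℝ≥0∞}
    (hL : ∀ δ : ℝ, 0 < δ → ∃ᶠ t in 𝓝[>] (0 : ℝ), ENNReal.ofReal t * L t ≤
      ENNReal.ofReal δ * min (volume (thickening t X)) (ENNReal.ofReal (1 / |Real.log t|)))
    {K : ℕ} (hK : 0 < K) {η : ℝ} (hη : 0 < η) :
    ∃ (l : ℝ) (M : ℕ) (c : ℕ → ℝ), 0 < l ∧ 0 < M ∧ (M : ℝ≥0∞) * (ENNReal.ofReal l * (1 + L l)) ≤ ENNReal.ofReal η ∧
      ∀ b : ℝ, |b| ≤ K → 1 ≤ K * |b| → volume {a | ∀ x ∈ X, a + b * x ∈ Icc (0 : ℝ) 1 ∧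
        ∀ j < M, a + b * x ∉ Ioo (c j) (c j + l)} ≤ ENNReal.ofReal η := by
  classical
  have hK' : (1 : ℝ) ≤ K := by exact_mod_cast hK
  obtain ⟨R₀, hR₀⟩ := hXb.exists_norm_le
  obtain ⟨R, hRdef⟩ : ∃ R, R = |R₀| := ⟨_, rfl⟩
  have hR0 : 0 ≤ R := by rw [hRdef]; exact abs_nonneg _
  have hR : ∀ x ∈ X, |x| ≤ R := fun x hx => by rw [hRdef]; exact (hR₀ x hx).trans (le_abs_self R₀)
  obtain ⟨Q, hQ⟩ : ∃ Q : ℝ, Q = 2 * (1 + K * R) := ⟨_, rfl⟩
  have hQ2 : 2 ≤ Q := by rw [hQ]; nlinarith [mul_nonneg (by linarith : (0 : ℝ) ≤ K) hR0]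
  obtain ⟨K₂, hK₂⟩ : ∃ K₂ : ℝ, K₂ = 2 * K + 1 := ⟨_, rfl⟩
  have hK₂3 : 3 ≤ K₂ := by rw [hK₂]; linarith
  obtain ⟨D₁, hD₁⟩ : ∃ D₁ : ℝ, D₁ = 8 * K₂ * (4 * Q / η + 1) := ⟨_, rfl⟩
  have hD₁0 : 0 < D₁ := by rw [hD₁]; positivity
  obtain ⟨D₂, hD₂⟩ : ∃ D₂ : ℝ, D₂ = D₁ / η + 6 * K₂ := ⟨_, rfl⟩
  have hD₂0 : 0 < D₂ := by rw [hD₂]; positivity
  obtain ⟨C, hC⟩ : ∃ C : ℝ, C = 4 * K * (R + 1) + 2 := ⟨_, rfl⟩
  have hC0 : 0 < C := by rw [hC]; positivity
  obtain ⟨δ, hδ⟩ : ∃ δ : ℝ, δ = min (1 / (5 * (D₂ + 1))) (η / (16 * (D₂ + 1))) := ⟨_, rfl⟩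
  have hδ0 : 0 < δ := by rw [hδ]; positivity
  have hδ1 : δ * (5 * (D₂ + 1)) ≤ 1 := by
    rw [← le_div_iff₀ (by positivity), hδ]
    exact min_le_left _ _
  have hδ2 : δ * (16 * (D₂ + 1)) ≤ η := by
    rw [← le_div_iff₀ (by positivity), hδ]
    exact min_le_right _ _
  obtain ⟨N₀, hN₀⟩ := exists_nat_ge (2 * (D₂ + 1))
  -- the choice of `l`
  have e1 : ∀ᶠ l : ℝ in 𝓝[>] 0, ∃ S : Finset ℤ, S.card = N₀ ∧ ∀ m ∈ S, m ∈ Cells (l / 4) X := by
    have h1 : Tendsto (fun l : ℝ => l / 4) (𝓝[>] 0) (𝓝[>] 0) := by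
      refine tendsto_nhdsWithin_iff.2 ⟨?_, ?_⟩
      · have : Continuous fun l : ℝ => l / 4 := by fun_prop
        exact ((this.tendsto' 0 0 (by simp)).mono_left nhdsWithin_le_nhds)
      · filter_upwards [self_mem_nhdsWithin] with l hl
        exact div_pos (mem_Ioi.1 hl) (by norm_num)
    exact h1.eventually (cells_tendsto hX N₀)
  have e2 : ∀ᶠ l : ℝ in 𝓝[>] 0, l * |Real.log l| < η / (16 * (D₂ + 1)) := by
    have h1 : Tendsto (fun l : ℝ => l * |Real.log l|) (𝓝[>] 0) (𝓝 0) := by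
      have h2 : Tendsto (fun l : ℝ => -(Real.log l * l)) (𝓝[>] 0) (𝓝 0) := by
        have h3 : Tendsto (fun l : ℝ => Real.log l * l) (𝓝[>] 0) (𝓝 0) := by
          simpa only [Real.rpow_one] using tendsto_log_mul_rpow_nhdsGT_zero zero_lt_one
        simpa using h3.neg
      refine h2.congr' ?_
      filter_upwards [Ioo_mem_nhdsGT (one_pos : (0 : ℝ) < 1)] with l hl
      rw [abs_of_neg (Real.log_neg hl.1 hl.2)]
      ring
    exact h1.eventually_lt_const (by positivity)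
  obtain ⟨l₀, hl₀⟩ : ∃ l₀ : ℝ, l₀ = min (min ((1 : ℝ) / 4) ((1 : ℝ) / (K : ℝ))) (min (Real.exp (-1))
    (min (Real.exp (-η)) (1 / C))) := ⟨_, rfl⟩
  have hl₀0 : 0 < l₀ := by rw [hl₀]; positivity
  have e3 : ∀ᶠ t : ℝ in 𝓝[>] 0, t ∈ Ioo (0 : ℝ) l₀ := Ioo_mem_nhdsGT hl₀0
  obtain ⟨l, ⟨⟨hlL, hcell⟩, hllog⟩, hl0, hll⟩ :=
    ((((hL δ hδ0).and_eventually e1).and_eventually e2).and_eventually e3).exists
  rw [hl₀] at hll
  have hl4 : l < 1 / 4 := hll.trans_le ((min_le_left _ _).trans (min_le_left _ _))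
  have hlK : l < 1 / K := hll.trans_le ((min_le_left _ _).trans (min_le_right _ _))
  have hle : l < Real.exp (-1) := hll.trans_le ((min_le_right _ _).trans (min_le_left _ _))
  have hlη : l < Real.exp (-η) := hll.trans_le ((min_le_right _ _).trans ((min_le_right _ _).trans (min_le_left _ _)))
  have hlC : l < 1 / C := hll.trans_le ((min_le_right _ _).trans ((min_le_right _ _).trans (min_le_right _ _)))
  obtain ⟨lam, hlam⟩ : ∃ lam : ℝ, lam = |Real.log l| := ⟨_, rfl⟩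
  have hlog : Real.log l < 0 := Real.log_neg hl0 (by linarith)
  have hlam' : lam = -Real.log l := by rw [hlam, abs_of_neg hlog]
  have hlam1 : 1 ≤ lam := by
    have := Real.log_lt_log hl0 hle
    rw [Real.log_exp] at this
    linarith
  have hlamη : η ≤ lam := by
    have := Real.log_lt_log hl0 hlη
    rw [Real.log_exp] at this
    linarith
  have hlog4 : Real.log 4 ≤ lam := by
    have := Real.log_lt_log hl0 hl4
    rw [one_div, Real.log_inv] at this
    linarith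
  have hlogC : Real.log C ≤ lam := by
    have := Real.log_lt_log hl0 hlC
    rw [one_div, Real.log_inv] at this
    linarith
  obtain ⟨t, ht⟩ : ∃ t : ℝ, t = l / 4 := ⟨_, rfl⟩
  have ht0 : 0 < t := by rw [ht]; positivity
  have hlt : l = 4 * t := by rw [ht]; ring
  have ht1 : t ≤ 1 := by linarith
  have htK : t * K ≤ 1 / 4 := by
    have h1 : l * K < 1 := by rwa [lt_div_iff₀ (by positivity)] at hlK
    rw [hlt] at h1
    linarith
  have hlogt : Real.log (C / t) ≤ 3 * lam := by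
    have h1 : Real.log t = Real.log l - Real.log 4 := by
      rw [ht, Real.log_div hl0.ne' (by norm_num)]
    rw [Real.log_div hC0.ne' ht0.ne', h1]
    linarith
  rw [← ht] at hcell
  clear ht
  -- the cells and the value of `L`
  obtain ⟨S, hSdef⟩ : ∃ S, S = (finite_cells hXb ht0).toFinset := ⟨_, rfl⟩
  have hSmem : ∀ m, m ∈ S ↔ m ∈ Cells t X := fun m => by rw [hSdef]; exact Set.Finite.mem_toFinset _
  obtain ⟨n, hn⟩ : ∃ n : ℝ, n = (S.card : ℝ) := ⟨_, rfl⟩
  have hn00 : 0 ≤ n := by rw [hn]; exact Nat.cast_nonneg _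
  have hn0 : 2 * (D₂ + 1) ≤ n := by
    obtain ⟨S', hS'c, hS'⟩ := hcell
    have h1 : S'.card ≤ S.card := Finset.card_le_card fun m hm => (hSmem m).2 (hS' m hm)
    rw [hS'c] at h1
    have h2 : (N₀ : ℝ) ≤ S.card := by exact_mod_cast h1
    rw [hn]
    linarith
  have hLfin : L l ≠ ∞ := by
    intro h
    rw [h, ENNReal.mul_top (ENNReal.ofReal_pos.2 hl0).ne'] at hlL
    exact absurd (top_le_iff.1 hlL) (ENNReal.mul_ne_top ENNReal.ofReal_ne_top
      (ne_top_of_le_ne_top ENNReal.ofReal_ne_top (min_le_right _ _)))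
  obtain ⟨Λ, hΛ⟩ : ∃ Λ, Λ = (L l).toReal := ⟨_, rfl⟩
  have hΛ0 : 0 ≤ Λ := by rw [hΛ]; exact ENNReal.toReal_nonneg
  have hLΛ : L l = ENNReal.ofReal Λ := by rw [hΛ, ENNReal.ofReal_toReal hLfin]
  rw [hLΛ, ← ENNReal.ofReal_mul hl0.le] at hlL
  have hΛ1 : l * Λ ≤ δ * (9 * (n * t)) := by
    have h1 : volume (thickening l X) ≤ ENNReal.ofReal (9 * (n * t)) := by
      rw [hlt, hn]
      exact le_cells4 ht0 S fun m hm => (hSmem m).2 hm
    have h2 := hlL.trans (mul_le_mul_right ((min_le_left _ _).trans h1) _)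
    rw [← ENNReal.ofReal_mul hδ0.le] at h2
    exact (ENNReal.ofReal_le_ofReal_iff (by positivity)).1 h2
  have hΛ2 : l * Λ * lam ≤ δ := by
    have h2 := hlL.trans (mul_le_mul_right (min_le_right _ _) _)
    rw [← hlam, ← ENNReal.ofReal_mul hδ0.le, ENNReal.ofReal_le_ofReal_iff (by positivity), mul_one_div,
      le_div_iff₀ (by positivity)] at h2
    exact h2
  -- the number of points
  obtain ⟨N, hN⟩ : ∃ N : ℕ, N = ⌈D₂ * (1 + Λ)⌉₊ := ⟨_, rfl⟩
  have hN1 : D₂ * (1 + Λ) ≤ N := by rw [hN]; exact Nat.le_ceil _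
  have hN2 : (N : ℝ) ≤ (D₂ + 1) * (1 + Λ) := by
    have h1 : (N : ℝ) < D₂ * (1 + Λ) + 1 := by rw [hN]; exact Nat.ceil_lt_add_one (by positivity)
    linarith
  have hNn : (N : ℝ) ≤ n := by
    have h1 : (D₂ + 1) * Λ ≤ n / 2 := by
      have h2 : 4 * Λ ≤ δ * 9 * n := by
        rw [hlt] at hΛ1
        have h3 : t * (4 * Λ) ≤ t * (δ * 9 * n) := by linarith
        exact le_of_mul_le_mul_left h3 ht0
      have h4 : (D₂ + 1) * (4 * Λ) ≤ (D₂ + 1) * (δ * 9 * n) := mul_le_mul_of_nonneg_left h2 (by positivity)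
      have h5 : δ * (5 * (D₂ + 1)) * n ≤ 1 * n := mul_le_mul_of_nonneg_right hδ1 hn00
      nlinarith
    calc (N : ℝ) ≤ (D₂ + 1) * (1 + Λ) := hN2
      _ = (D₂ + 1) + (D₂ + 1) * Λ := by ring
      _ ≤ n / 2 + n / 2 := add_le_add (by linarith) h1
      _ = n := by ring
  have hN6 : 6 * K₂ ≤ N := by
    have h1 : 6 * K₂ ≤ D₂ := by rw [hD₂]; have : 0 < D₁ / η := by positivity
                                linarith
    have h2 : D₂ * 1 ≤ D₂ * (1 + Λ) := mul_le_mul_of_nonneg_left (by linarith) hD₂0.le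
    linarith
  have hNpos : (0 : ℝ) < N := by linarith
  have hNlam : 6 * (t * N) * lam ≤ η / 2 := by
    have h1 : t * N * lam ≤ (D₂ + 1) * (t * lam) + (D₂ + 1) * (t * Λ * lam) := by
      have h2 : t * lam * N ≤ t * lam * ((D₂ + 1) * (1 + Λ)) := mul_le_mul_of_nonneg_left hN2 (by positivity)
      nlinarith
    have h2 : (D₂ + 1) * (t * lam) ≤ η / 64 := by
      have h3 : l * lam < η / (16 * (D₂ + 1)) := by rw [hlam]; exact hllog
      rw [lt_div_iff₀ (by positivity), hlt] at h3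
      linarith
    have h3 : (D₂ + 1) * (t * Λ * lam) ≤ η / 64 := by
      have h4 : 4 * (t * Λ * lam) ≤ δ := by rw [hlt] at hΛ2; linarith
      have h5 : (D₂ + 1) * (4 * (t * Λ * lam)) ≤ (D₂ + 1) * δ := mul_le_mul_of_nonneg_left h4 (by positivity)
      linarith
    linarith
  have htN : t * N ≤ 1 := by
    have h1 : t * N * η ≤ t * N * lam := mul_le_mul_of_nonneg_left hlamη (by positivity)
    have h2 : t * N * (12 * η) ≤ 1 * (12 * η) := by nlinarith
    exact le_of_mul_le_mul_right h2 (by positivity)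
  -- the points
  obtain ⟨S', hS'S, hS'c⟩ : ∃ S' ⊆ S, S'.card = N := by
    have h1 : N ≤ S.card := by
      have : (N : ℝ) ≤ (S.card : ℝ) := by rw [← hn]; exact hNn
      exact_mod_cast this
    exact Finset.exists_subset_card_eq h1
  choose! pt hpt1 hpt2 using fun m (hm : m ∈ S') => (hSmem m).1 (hS'S hm)
  set F : Finset ℝ := S'.image pt with hF
  have hFX : ∀ x ∈ F, x ∈ X := by
    intro x hx
    obtain ⟨m, hm, rfl⟩ := Finset.mem_image.1 hx
    exact hpt2 m hm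
  have hFc : F.card ≤ N := by rw [← hS'c]; exact Finset.card_image_le
  have hFcells : ∀ m ∈ S', m ∈ Cells t (F : Set ℝ) := fun m hm =>
    ⟨pt m, hpt1 m hm, Finset.mem_coe.2 (Finset.mem_image_of_mem _ hm)⟩
  -- the numbers
  obtain ⟨w, hw⟩ : ∃ w : ℝ, w = t * N / (2 * K₂) := ⟨_, rfl⟩
  have hw0 : 0 < w := by rw [hw]; positivity
  have hw1 : w ≤ 1 := by
    rw [hw, div_le_one (by positivity)]
    linarith
  obtain ⟨θ, hθ⟩ : ∃ θ : ℝ, θ = 1 / (2 * t * N) := ⟨_, rfl⟩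
  have hθ0 : 0 < θ := by rw [hθ]; positivity
  have hθ1 : θ * (2 * t * F.card) ≤ 1 := by
    have h1 : (F.card : ℝ) ≤ N := by exact_mod_cast hFc
    calc θ * (2 * t * F.card) ≤ θ * (2 * t * N) := by gcongr
      _ = 1 := by rw [hθ]; field_simp
  obtain ⟨M, hM⟩ : ∃ M : ℕ, M = ⌈4 * Q / (η * w)⌉₊ := ⟨_, rfl⟩
  have hM0 : 0 < M := by rw [hM]; exact Nat.ceil_pos.2 (by positivity)
  have hM1 : 4 * Q ≤ M * (η * w) := by
    have h1 : 4 * Q / (η * w) ≤ M := by rw [hM]; exact Nat.le_ceil _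
    rwa [div_le_iff₀ (by positivity)] at h1
  have hM2 : (M : ℝ) ≤ (4 * Q / η + 1) / w := by
    have h1 : (M : ℝ) < 4 * Q / (η * w) + 1 := by rw [hM]; exact Nat.ceil_lt_add_one (by positivity)
    have h2 : 1 ≤ 1 / w := by rw [le_div_iff₀ hw0]; linarith
    calc (M : ℝ) ≤ 4 * Q / (η * w) + 1 / w := by linarith
      _ = (4 * Q / η + 1) / w := by field_simp
  have hMw : (1 - w / 2) ^ M * Q ≤ η / 2 := by
    have h1 : (1 - w / 2) ^ M ≤ Real.exp (-(M * (w / 2))) := by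
      calc (1 - w / 2) ^ M ≤ Real.exp (-(w / 2)) ^ M :=
            pow_le_pow_left₀ (by linarith) (Real.one_sub_le_exp_neg _) M
        _ = Real.exp (-(M * (w / 2))) := by rw [← Real.exp_nat_mul]; congr 1; ring
    have h2 : 2 * Q / η ≤ M * (w / 2) := by
      rw [div_le_iff₀ hη]
      linarith
    have h3 : Real.exp (-(M * (w / 2))) ≤ η / (2 * Q) := by
      have h4 := Real.add_one_le_exp (M * (w / 2))
      rw [Real.exp_neg, inv_le_comm₀ (Real.exp_pos _) (by positivity), inv_div]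
      linarith
    calc (1 - w / 2) ^ M * Q ≤ η / (2 * Q) * Q := mul_le_mul_of_nonneg_right (h1.trans h3) (by linarith)
      _ = η / 2 := by field_simp
  -- the net
  obtain ⟨σ, hσ⟩ : ∃ σ : ℝ, σ = t / (R + 1) := ⟨_, rfl⟩
  have hσ0 : 0 < σ := by rw [hσ]; positivity
  set net : Finset ℤ := (Finset.Icc ⌊-(K : ℝ) / σ⌋ ⌊(K : ℝ) / σ⌋).filter fun m : ℤ => 1 ≤ (2 * K : ℝ) * |(m : ℝ) * σ|
    with hnet
  have hnetc : (net.card : ℝ) ≤ C / t := by
    have h1 : (net.card : ℝ) ≤ ((Finset.Icc ⌊-(K : ℝ) / σ⌋ ⌊(K : ℝ) / σ⌋).card : ℝ) := by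
      exact Nat.cast_le.2 (Finset.card_le_card (Finset.filter_subset _ _))
    refine h1.trans ((net_card (by positivity) hσ0).trans ?_)
    rw [le_div_iff₀ ht0, hσ, hC]
    have h2 : 2 * (K : ℝ) / (t / (R + 1)) * t = 2 * K * (R + 1) := by field_simp
    rw [add_mul, h2]
    nlinarith [mul_nonneg (by linarith : (0 : ℝ) ≤ K) hR0]
  set U : ℤ → Set ℝ := fun m => UU F t (1 + K * R) (m * σ) with hU
  have hUm : ∀ m, MeasurableSet (U m) := fun m => measurableSet_UU _ _ _ _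
  have hUQ : ∀ m, volume (U m) ≤ ENNReal.ofReal Q := by
    intro m
    rw [hQ]
    exact volume_UU _ _ _ _
  have hUf : ∀ m, volume (U m) ≠ ∞ := fun m => ne_top_of_le_ne_top ENNReal.ofReal_ne_top (hUQ m)
  have hUr : ∀ m, (volume (U m)).toReal ≤ Q := fun m => ENNReal.toReal_le_of_le_ofReal (by linarith) (hUQ m)
  have hlow : ∀ m ∈ net, ∀ a ∈ U m, ENNReal.ofReal w ≤ volume (WW (F : Set ℝ) t a (m * σ) ∩ Icc 0 1) := by
    intro m hm a ha
    have h1 := WW_lower (X := (F : Set ℝ)) ht0 (K := 2 * K) (a := a) (b := m * σ)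
      (by push_cast; exact (Finset.mem_filter.1 hm).2) S' hFcells (fun x hx => ha.2 x (Finset.mem_coe.1 hx))
    refine le_trans (ENNReal.ofReal_le_ofReal ?_) h1
    rw [hS'c, hw]
    push_cast
    rw [← hK₂]
    have h2 : 3 ≤ (N : ℝ) / (2 * K₂) := by
      rw [le_div_iff₀ (by positivity)]
      linarith
    have h3 : (N : ℝ) / K₂ = 2 * (N / (2 * K₂)) := by field_simp
    rw [h3, mul_div_assoc]
    exact mul_le_mul_of_nonneg_left (by linarith) ht0.le
  obtain ⟨c, hc⟩ := many_steps net (fun m => (m : ℝ) * σ) F ht0 hw0.le hw1 hθ0.le hθ1 M U (fun m _ => hUm m)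
    (fun m _ => hUf m) hlow
  have hbound : ∀ m ∈ net, (volume {a | a ∈ U m ∧ ∀ j < M, a ∉ HH (F : Set ℝ) t (m * σ) (c j)}).toReal ≤ η := by
    intro m hm
    have h1 : Real.exp (θ * (volume {a | a ∈ U m ∧ ∀ j < M, a ∉ HH (F : Set ℝ) t (m * σ) (c j)}).toReal) ≤
        C / t * Real.exp (θ * ((1 - w / 2) ^ M * Q)) := by
      refine (Finset.single_le_sum (f := fun m : ℤ => Real.exp (θ * (volume {a | a ∈ U m ∧ ∀ j < M,
        a ∉ HH (F : Set ℝ) t (m * σ) (c j)}).toReal)) (fun i _ => (Real.exp_pos _).le) hm).trans (hc.trans ?_)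
      calc ∑ i ∈ net, Real.exp (θ * (1 - w / 2) ^ M * (volume (U i)).toReal)
          ≤ ∑ _i ∈ net, Real.exp (θ * ((1 - w / 2) ^ M * Q)) := by
            refine Finset.sum_le_sum fun i _ => Real.exp_le_exp.2 ?_
            rw [mul_assoc]
            refine mul_le_mul_of_nonneg_left (mul_le_mul_of_nonneg_left (hUr i) ?_) hθ0.le
            exact pow_nonneg (by linarith) M
        _ = net.card * Real.exp (θ * ((1 - w / 2) ^ M * Q)) := by rw [Finset.sum_const, nsmul_eq_mul]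
        _ ≤ C / t * Real.exp (θ * ((1 - w / 2) ^ M * Q)) := mul_le_mul_of_nonneg_right hnetc (Real.exp_pos _).le
    have h2 : C / t * Real.exp (θ * ((1 - w / 2) ^ M * Q)) = Real.exp (Real.log (C / t) + θ * ((1 - w / 2) ^ M * Q)) := by
      rw [Real.exp_add, Real.exp_log (by positivity)]
    rw [h2, Real.exp_le_exp] at h1
    have h3 : θ * (volume {a | a ∈ U m ∧ ∀ j < M, a ∉ HH (F : Set ℝ) t (m * σ) (c j)}).toReal ≤ θ * η := by
      have h4 : θ * ((1 - w / 2) ^ M * Q) ≤ θ * (η / 2) := mul_le_mul_of_nonneg_left hMw hθ0.le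
      have h5 : Real.log (C / t) ≤ θ * (η / 2) := by
        refine hlogt.trans ?_
        rw [hθ, one_div, inv_mul_eq_div, le_div_iff₀ (by positivity)]
        linarith
      linarith
    exact le_of_mul_le_mul_left h3 hθ0
  refine ⟨l, M, c, hl0, hM0, ?_, ?_⟩
  · rw [hLΛ, show (1 : ℝ≥0∞) = ENNReal.ofReal 1 by simp, ← ENNReal.ofReal_add one_pos.le hΛ0,
      ← ENNReal.ofReal_mul hl0.le, ← ENNReal.ofReal_natCast, ← ENNReal.ofReal_mul (Nat.cast_nonneg _)]
    refine ENNReal.ofReal_le_ofReal ?_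
    calc (M : ℝ) * (l * (1 + Λ)) ≤ (4 * Q / η + 1) / w * (l * (1 + Λ)) :=
          mul_le_mul_of_nonneg_right hM2 (by positivity)
      _ = D₁ * (1 + Λ) / N := by
          rw [hw, hD₁, hlt]
          field_simp
          ring
      _ ≤ η := by
          rw [div_le_iff₀ hNpos]
          have h1 : D₁ / η ≤ D₂ := by rw [hD₂]; linarith
          have h2 : D₁ ≤ η * D₂ := by rw [div_le_iff₀ hη] at h1; linarith
          calc D₁ * (1 + Λ) ≤ η * D₂ * (1 + Λ) := mul_le_mul_of_nonneg_right h2 (by linarith)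
            _ = η * (D₂ * (1 + Λ)) := by ring
            _ ≤ η * N := mul_le_mul_of_nonneg_left hN1 hη.le
  · intro b hbK hb1
    obtain ⟨h1, h2⟩ := bad_subset hX.nonempty hR0 hR hFX ht0 hK' htK hbK hb1 c M
    rw [← hσ] at h1 h2
    have hmnet : ⌊b / σ⌋ ∈ net := Finset.mem_filter.2 ⟨net_mem hσ0 hbK, h1⟩
    rw [hlt]
    refine (measure_mono h2).trans ?_
    have hf : volume {a | a ∈ U ⌊b / σ⌋ ∧ ∀ j < M, a ∉ HH (F : Set ℝ) t (⌊b / σ⌋ * σ) (c j)} ≠ ∞ :=
      ne_top_of_le_ne_top (hUf _) (measure_mono fun a ha => ha.1)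
    exact (ENNReal.le_ofReal_iff_toReal_le hf hη.le).2 (hbound _ hmnet)

end Pool.Agent.H56.ES.Gap
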