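import Mathlib

/-!
MP_6045a2_an. The potential method: a point which avoids a countable family of intervals.
-/

set_option autoImplicit false

open Set Filter Topology
open scoped ENNReal

namespace Pool.Agent.H56.ES

variable {T : Type*}

/-- the weight of the interval `(z - r, z + r)` at scale `N ^ (-m)` -/
noncomputable def wt (N : ℕ) (c : ℝ) (m : ℕ) (r : ℝ) : ℝ≥0∞ := ENNReal.ofReal ((r * (N : ℝ) ^ m) ^ c)

/-- `(z - r, z + r)` meets the interval with centre `v` and length `N ^ (-m)` -/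
def Meets (N m : ℕ) (z r v : ℝ) : Prop := |v - z| < r + ((N : ℝ) ^ m)⁻¹ / 2

theorem wt_succ {N : ℕ} (hN : 0 < N) (c : ℝ) (m : ℕ) {r : ℝ} (hr : 0 < r) :
    wt N c (m + 1) r = ENNReal.ofReal ((N : ℝ) ^ c) * wt N c m r := by
  unfold wt
  rw [← ENNReal.ofReal_mul (by positivity), ← Real.mul_rpow (by positivity) (by positivity)]
  congr 2
  ring

/-- an interval of length less than three contains at most three integers -/
theorem card_three (N : ℕ) (y : ℝ) : ((Finset.range N).filter fun i : ℕ => |(i : ℝ) - y| < 3 / 2).card ≤ 3 := by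
  classical
  have h1 : (((Finset.range N).filter fun i : ℕ => |(i : ℝ) - y| < 3 / 2).image fun i : ℕ => (i : ℤ)) ⊆
      Finset.Icc (⌊y - 3 / 2⌋ + 1) (⌊y - 3 / 2⌋ + 3) := by
    intro k hk
    obtain ⟨i, hi, rfl⟩ := Finset.mem_image.1 hk
    have h2 := abs_lt.1 (Finset.mem_filter.1 hi).2
    have h3 := Int.floor_le (y - 3 / 2)
    have h4 := Int.lt_floor_add_one (y - 3 / 2)
    rw [Finset.mem_Icc]
    constructor
    · have : ((⌊y - 3 / 2⌋ : ℤ) : ℝ) < ((i : ℤ) : ℝ) := by push_cast; linarith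
      have := Int.cast_lt.1 this
      omega
    · have : (((i : ℤ)) : ℝ) < ((⌊y - 3 / 2⌋ + 4 : ℤ) : ℝ) := by push_cast; linarith
      have := Int.cast_lt.1 this
      omega
  have h2 := Finset.card_le_card h1
  rw [Finset.card_image_of_injective _ (fun a b hab => by exact_mod_cast hab), Int.card_Icc] at h2
  omega

/-- the centre of the `i`-th child -/
noncomputable def child (N m : ℕ) (v : ℝ) (i : ℕ) : ℝ := v + ((i : ℝ) - ((N : ℝ) - 1) / 2) * ((N : ℝ) ^ (m + 1))⁻¹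

theorem child_dist {N m : ℕ} (v : ℝ) {i : ℕ} (hi : i < N) :
    |child N m v i - v| ≤ (((N : ℝ) ^ m)⁻¹ - ((N : ℝ) ^ (m + 1))⁻¹) / 2 := by
  have hN : (0 : ℝ) < N := by exact_mod_cast (Nat.zero_le i).trans_lt hi
  have hpos : (0 : ℝ) < ((N : ℝ) ^ (m + 1))⁻¹ := by positivity
  have h1 : child N m v i - v = ((i : ℝ) - ((N : ℝ) - 1) / 2) * ((N : ℝ) ^ (m + 1))⁻¹ := by
    unfold child; ring
  have h2 : ((N : ℝ) ^ m)⁻¹ = N * ((N : ℝ) ^ (m + 1))⁻¹ := by
    rw [pow_succ]; field_simp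
  rw [h1, abs_mul, abs_of_pos hpos, h2]
  have h3 : |(i : ℝ) - ((N : ℝ) - 1) / 2| ≤ ((N : ℝ) - 1) / 2 := by
    have hi' : (i : ℝ) + 1 ≤ N := by exact_mod_cast hi
    have hi0 : (0 : ℝ) ≤ i := Nat.cast_nonneg i
    rw [abs_le]
    constructor <;> linarith
  calc |(i : ℝ) - ((N : ℝ) - 1) / 2| * ((N : ℝ) ^ (m + 1))⁻¹
      ≤ ((N : ℝ) - 1) / 2 * ((N : ℝ) ^ (m + 1))⁻¹ := mul_le_mul_of_nonneg_right h3 hpos.le
    _ = (N * ((N : ℝ) ^ (m + 1))⁻¹ - ((N : ℝ) ^ (m + 1))⁻¹) / 2 := by ring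

/-- a child can only meet what the parent meets -/
theorem Meets.parent {N m : ℕ} {z r v : ℝ} {i : ℕ} (hi : i < N) (h : Meets N (m + 1) z r (child N m v i)) :
    Meets N m z r v := by
  unfold Meets at h ⊢
  have h1 := child_dist (m := m) v hi
  have h2 : |v - z| ≤ |child N m v i - v| + |child N m v i - z| := by
    have := abs_sub_le v (child N m v i) z
    rwa [abs_sub_comm v (child N m v i)] at this
  linarith

/-- a short interval meets at most three children -/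
theorem card_children {N m : ℕ} (hN : 0 < N) {z r v : ℝ} (hr : r * (N : ℝ) ^ (m + 1) ≤ 1)
    [DecidablePred fun i : ℕ => Meets N (m + 1) z r (child N m v i)] :
    ((Finset.range N).filter fun i : ℕ => Meets N (m + 1) z r (child N m v i)).card ≤ 3 := by
  classical
  have hN' : (0 : ℝ) < N := by exact_mod_cast hN
  refine le_trans (Finset.card_le_card ?_)
    (card_three N (((N : ℝ) - 1) / 2 + (z - v) * (N : ℝ) ^ (m + 1)))
  intro i hi
  obtain ⟨hi1, hi2⟩ := Finset.mem_filter.1 hi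
  refine Finset.mem_filter.2 ⟨hi1, ?_⟩
  unfold Meets at hi2
  have hP : (0 : ℝ) < (N : ℝ) ^ (m + 1) := by positivity
  have h1 : child N m v i - z =
      ((i : ℝ) - (((N : ℝ) - 1) / 2 + (z - v) * (N : ℝ) ^ (m + 1))) * ((N : ℝ) ^ (m + 1))⁻¹ := by
    unfold child; field_simp; ring
  rw [h1, abs_mul, abs_of_pos (inv_pos.2 hP)] at hi2
  have h2 := mul_lt_mul_of_pos_right hi2 hP
  rw [mul_assoc, inv_mul_cancel₀ hP.ne', mul_one, add_mul, div_mul_eq_mul_div, inv_mul_cancel₀ hP.ne'] at h2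
  linarith

open Classical in
/-- one step of the construction: the intervals which are already counted -/
theorem step {N : ℕ} {c : ℝ} (hN0 : 0 < N) (hc : 0 < c) (hN : 6 ≤ (N : ℝ) ^ (1 - c)) (z r : T → ℝ) (hr : ∀ τ, 0 < r τ)
    (e : T → ℕ) (m : ℕ) (v : ℝ)
    (h : ∑' τ, (if e τ ≤ m ∧ Meets N m (z τ) (r τ) v then wt N c m (r τ) else 0) ≤
      ENNReal.ofReal ((N : ℝ) ^ (-c))) :
    ∃ i < N, ∑' τ, (if e τ ≤ m ∧ Meets N (m + 1) (z τ) (r τ) (child N m v i) then wt N c (m + 1) (r τ) else 0) ≤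
      ENNReal.ofReal ((N : ℝ) ^ (-c) / 2) := by
  have hN' : (0 : ℝ) < N := by exact_mod_cast hN0
  -- each counted interval is short
  have hshort : ∀ τ, e τ ≤ m → Meets N m (z τ) (r τ) v → r τ * (N : ℝ) ^ (m + 1) ≤ 1 := by
    intro τ h1 h2
    have h3 : wt N c m (r τ) ≤ ENNReal.ofReal ((N : ℝ) ^ (-c)) := by
      refine le_trans ?_ ((ENNReal.le_tsum τ).trans h)
      rw [if_pos ⟨h1, h2⟩]
    unfold wt at h3
    rw [ENNReal.ofReal_le_ofReal_iff (by positivity)] at h3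
    have h4 : (N : ℝ) ^ (-c) = ((N : ℝ)⁻¹) ^ c := by
      rw [Real.rpow_neg hN'.le, Real.inv_rpow hN'.le]
    rw [h4] at h3
    have h5 : r τ * (N : ℝ) ^ m ≤ (N : ℝ)⁻¹ :=
      (Real.rpow_le_rpow_iff (by have := hr τ; positivity) (by positivity) hc).1 h3
    calc r τ * (N : ℝ) ^ (m + 1) = r τ * (N : ℝ) ^ m * N := by ring
      _ ≤ (N : ℝ)⁻¹ * N := mul_le_mul_of_nonneg_right h5 hN'.le
      _ = 1 := inv_mul_cancel₀ hN'.ne'
  have hsum : ∑ i ∈ Finset.range N, ∑' τ, (if e τ ≤ m ∧ Meets N (m + 1) (z τ) (r τ) (child N m v i) then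
      wt N c (m + 1) (r τ) else 0) ≤ ∑ i ∈ Finset.range N, ENNReal.ofReal ((N : ℝ) ^ (-c) / 2) := by
    have h1 : ∑ i ∈ Finset.range N, ∑' τ, (if e τ ≤ m ∧ Meets N (m + 1) (z τ) (r τ) (child N m v i) then
        wt N c (m + 1) (r τ) else 0) =
        ∑' τ, ∑ i ∈ Finset.range N, (if e τ ≤ m ∧ Meets N (m + 1) (z τ) (r τ) (child N m v i) then
        wt N c (m + 1) (r τ) else 0) :=
      (Summable.tsum_finsetSum fun i _ => ENNReal.summable).symm
    rw [h1]
    have h2 : ∀ τ, ∑ i ∈ Finset.range N, (if e τ ≤ m ∧ Meets N (m + 1) (z τ) (r τ) (child N m v i) then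
        wt N c (m + 1) (r τ) else 0) ≤
        ENNReal.ofReal (3 * (N : ℝ) ^ c) * (if e τ ≤ m ∧ Meets N m (z τ) (r τ) v then wt N c m (r τ) else 0) := by
      intro τ
      by_cases h3 : e τ ≤ m ∧ Meets N m (z τ) (r τ) v
      · rw [if_pos h3]
        have h4 : ∑ i ∈ Finset.range N, (if e τ ≤ m ∧ Meets N (m + 1) (z τ) (r τ) (child N m v i) then
            wt N c (m + 1) (r τ) else 0) =
            (((Finset.range N).filter fun i : ℕ => Meets N (m + 1) (z τ) (r τ) (child N m v i)).card : ℝ≥0∞) *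
              wt N c (m + 1) (r τ) := by
          rw [← nsmul_eq_mul, ← Finset.sum_const, Finset.sum_filter]
          refine Finset.sum_congr rfl fun i _ => ?_
          by_cases h5 : Meets N (m + 1) (z τ) (r τ) (child N m v i)
          · rw [if_pos ⟨h3.1, h5⟩, if_pos h5]
          · rw [if_neg fun h6 => h5 h6.2, if_neg h5]
        rw [h4, wt_succ hN0 c m (hr τ), ENNReal.ofReal_mul (by norm_num : (0 : ℝ) ≤ 3), mul_assoc]
        refine mul_le_mul_left ?_ _
        have h7 := card_children (m := m) hN0 (z := z τ) (v := v) (hshort τ h3.1 h3.2)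
        rw [ENNReal.ofReal_ofNat]
        exact_mod_cast h7
      · rw [if_neg h3, mul_zero]
        refine le_of_eq (Finset.sum_eq_zero fun i hi => if_neg ?_)
        rintro ⟨h4, h5⟩
        exact h3 ⟨h4, h5.parent (Finset.mem_range.1 hi)⟩
    refine (ENNReal.tsum_le_tsum h2).trans ?_
    rw [ENNReal.tsum_mul_left]
    refine (mul_le_mul_right h _).trans ?_
    rw [← ENNReal.ofReal_mul (by positivity), Finset.sum_const, Finset.card_range, nsmul_eq_mul,
      ← ENNReal.ofReal_natCast, ← ENNReal.ofReal_mul (by positivity)]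
    refine ENNReal.ofReal_le_ofReal ?_
    have e1 : 3 * (N : ℝ) ^ c * (N : ℝ) ^ (-c) = 3 := by
      rw [mul_assoc, ← Real.rpow_add hN']
      simp
    have e2 : (N : ℝ) * ((N : ℝ) ^ (-c) / 2) = (N : ℝ) ^ (1 - c) / 2 := by
      rw [sub_eq_add_neg, Real.rpow_add hN', Real.rpow_one]; ring
    rw [e1, e2]
    linarith
  obtain ⟨i, hi, h1⟩ := ENNReal.exists_le_of_sum_le (Finset.nonempty_range_iff.2 hN0.ne') hsum
  exact ⟨i, Finset.mem_range.1 hi, h1⟩

open Classical in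
/-- **the potential method**: if few intervals enter at each stage, some point avoids all of them -/
theorem avoid {N : ℕ} {c : ℝ} (hN0 : 1 < N) (hc : 0 < c) (hN : 6 ≤ (N : ℝ) ^ (1 - c)) (z r : T → ℝ)
    (hr : ∀ τ, 0 < r τ) (e : T → ℕ) (v₀ : ℝ)
    (h0 : ∑' τ, (if e τ = 0 ∧ Meets N 0 (z τ) (r τ) v₀ then wt N c 0 (r τ) else 0) ≤
      ENNReal.ofReal ((N : ℝ) ^ (-c)))
    (h1 : ∀ m v, ∑' τ, (if e τ = m + 1 ∧ Meets N (m + 1) (z τ) (r τ) v then wt N c (m + 1) (r τ) else 0) ≤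
      ENNReal.ofReal ((N : ℝ) ^ (-c) / 2)) :
    ∃ b, |b - v₀| ≤ 1 / 2 ∧ ∀ τ, r τ ≤ |b - z τ| := by
  have hN' : (0 : ℝ) < N := by positivity
  -- the sequence of centres
  have hex : ∀ m v, ∑' τ, (if e τ ≤ m ∧ Meets N m (z τ) (r τ) v then wt N c m (r τ) else 0) ≤
      ENNReal.ofReal ((N : ℝ) ^ (-c)) → ∃ v', |v' - v| ≤ (((N : ℝ) ^ m)⁻¹ - ((N : ℝ) ^ (m + 1))⁻¹) / 2 ∧
      ∑' τ, (if e τ ≤ m + 1 ∧ Meets N (m + 1) (z τ) (r τ) v' then wt N c (m + 1) (r τ) else 0) ≤
      ENNReal.ofReal ((N : ℝ) ^ (-c)) := by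
    intro m v h
    obtain ⟨i, hi, h2⟩ := step (by omega) hc hN z r hr e m v h
    refine ⟨child N m v i, child_dist v hi, ?_⟩
    have h3 : ∀ τ, (if e τ ≤ m + 1 ∧ Meets N (m + 1) (z τ) (r τ) (child N m v i) then wt N c (m + 1) (r τ) else 0) =
        (if e τ ≤ m ∧ Meets N (m + 1) (z τ) (r τ) (child N m v i) then wt N c (m + 1) (r τ) else 0) +
        (if e τ = m + 1 ∧ Meets N (m + 1) (z τ) (r τ) (child N m v i) then wt N c (m + 1) (r τ) else 0) := by
      intro τ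
      by_cases h4 : Meets N (m + 1) (z τ) (r τ) (child N m v i)
      · rcases lt_trichotomy (e τ) (m + 1) with h5 | h5 | h5
        · rw [if_pos ⟨h5.le, h4⟩, if_pos ⟨by omega, h4⟩, if_neg (fun h6 => by omega), add_zero]
        · rw [if_pos ⟨h5.le, h4⟩, if_neg (fun h6 => by omega), if_pos ⟨h5, h4⟩, zero_add]
        · rw [if_neg (fun h6 => by omega), if_neg (fun h6 => by omega), if_neg (fun h6 => by omega), add_zero]
      · rw [if_neg (fun h6 => h4 h6.2), if_neg (fun h6 => h4 h6.2), if_neg (fun h6 => h4 h6.2), add_zero]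
    simp only [h3]
    rw [ENNReal.tsum_add]
    refine (add_le_add h2 (h1 m (child N m v i))).trans (le_of_eq ?_)
    rw [← ENNReal.ofReal_add (by positivity) (by positivity), add_halves]
  choose! g hg1 hg2 using hex
  set V : ℕ → ℝ := fun m => Nat.rec v₀ (fun k v => g k v) m with hV
  have hV0 : V 0 = v₀ := rfl
  have hVs : ∀ m, V (m + 1) = g m (V m) := fun _ => rfl
  have hpot : ∀ m, ∑' τ, (if e τ ≤ m ∧ Meets N m (z τ) (r τ) (V m) then wt N c m (r τ) else 0) ≤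
      ENNReal.ofReal ((N : ℝ) ^ (-c)) := by
    intro m
    induction m with
    | zero =>
      rw [hV0]
      simpa only [Nat.le_zero] using h0
    | succ m ih =>
      rw [hVs]
      exact hg2 m _ ih
  have hdist : ∀ m, |V (m + 1) - V m| ≤ (((N : ℝ) ^ m)⁻¹ - ((N : ℝ) ^ (m + 1))⁻¹) / 2 := by
    intro m
    rw [hVs]
    exact hg1 m _ (hpot m)
  have hnest : ∀ m, Icc (V (m + 1) - ((N : ℝ) ^ (m + 1))⁻¹ / 2) (V (m + 1) + ((N : ℝ) ^ (m + 1))⁻¹ / 2) ⊆
      Icc (V m - ((N : ℝ) ^ m)⁻¹ / 2) (V m + ((N : ℝ) ^ m)⁻¹ / 2) := by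
    intro m
    have := abs_le.1 (hdist m)
    refine Icc_subset_Icc ?_ ?_ <;> linarith
  obtain ⟨b, hb⟩ := IsCompact.nonempty_iInter_of_sequence_nonempty_isCompact_isClosed
    (fun m => Icc (V m - ((N : ℝ) ^ m)⁻¹ / 2) (V m + ((N : ℝ) ^ m)⁻¹ / 2)) hnest
    (fun m => nonempty_Icc.2 (by have : (0 : ℝ) < ((N : ℝ) ^ m)⁻¹ := by positivity
                                 linarith)) isCompact_Icc (fun m => isClosed_Icc)
  have hb' : ∀ m, |b - V m| ≤ ((N : ℝ) ^ m)⁻¹ / 2 := by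
    intro m
    have h2 := mem_iInter.1 hb m
    rw [mem_Icc] at h2
    rw [abs_le]
    constructor <;> linarith [h2.1, h2.2]
  refine ⟨b, ?_, ?_⟩
  · have := hb' 0
    rw [hV0, pow_zero, inv_one] at this
    exact this
  · intro τ
    by_contra hlt
    push Not at hlt
    have hmeets : ∀ m, Meets N m (z τ) (r τ) (V m) := by
      intro m
      unfold Meets
      have h2 : |V m - z τ| ≤ |b - V m| + |b - z τ| := by
        have := abs_sub_le (V m) b (z τ)
        rwa [abs_sub_comm (V m) b] at this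
      have := hb' m
      linarith
    have h2 : ∀ m, e τ ≤ m → r τ * (N : ℝ) ^ m ≤ 1 := by
      intro m hm
      have h3 : wt N c m (r τ) ≤ ENNReal.ofReal ((N : ℝ) ^ (-c)) := by
        refine le_trans ?_ ((ENNReal.le_tsum τ).trans (hpot m))
        rw [if_pos ⟨hm, hmeets m⟩]
      unfold wt at h3
      rw [ENNReal.ofReal_le_ofReal_iff (by positivity)] at h3
      have h4 : (N : ℝ) ^ (-c) ≤ 1 := Real.rpow_le_one_of_one_le_of_nonpos (by exact_mod_cast hN0.le) (by linarith)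
      by_contra h5
      push Not at h5
      have h6 := Real.one_lt_rpow h5 hc
      linarith
    have h3 : Tendsto (fun m : ℕ => r τ * (N : ℝ) ^ m) atTop atTop :=
      (tendsto_pow_atTop_atTop_of_one_lt (by exact_mod_cast hN0)).const_mul_atTop (hr τ)
    obtain ⟨m, hm1, hm2⟩ := ((h3.eventually_gt_atTop 1).and (eventually_ge_atTop (e τ))).exists
    linarith [h2 m hm2]

end Pool.Agent.H56.ES
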