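import Mathlib

/-!
MP_6045a2_an. The complement of intervals of lengths `l i` contains similar copies of the bounded set
`X` if the measures of the `l i`-neighbourhoods of `X` have a finite sum.
-/

set_option autoImplicit false

open MeasureTheory Set Filter Topology Metric
open scoped ENNReal

namespace Pool.Agent.H56.ES.Gap

/-- a cell of the grid of mesh `t` -/
def cell (t : ℝ) (m : ℤ) : Set ℝ := Ico (m * t) ((m + 1) * t)

theorem mem_cell {t : ℝ} (ht : 0 < t) {m : ℤ} {y : ℝ} : y ∈ cell t m ↔ ⌊y / t⌋ = m := by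
  rw [Int.floor_eq_iff, le_div_iff₀ ht, div_lt_iff₀ ht]
  rfl

theorem volume_cell (t : ℝ) (m : ℤ) : volume (cell t m) = ENNReal.ofReal t := by
  unfold cell
  rw [Real.volume_Ico]
  congr 1
  ring

theorem disjoint_cell {t : ℝ} (ht : 0 < t) {m n : ℤ} (h : m ≠ n) : Disjoint (cell t m) (cell t n) := by
  rw [Set.disjoint_left]
  intro y h1 h2
  rw [mem_cell ht] at h1 h2
  exact h (h1.symm.trans h2)

/-- the cells which meet `X` -/
def Cells (t : ℝ) (X : Set ℝ) : Set ℤ := {m | (cell t m ∩ X).Nonempty}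

/-- the cells which meet `X` lie in the neighbourhood of `X` -/
theorem cells_le {t : ℝ} (ht : 0 < t) (X : Set ℝ) :
    ∑' _m : Cells t X, ENNReal.ofReal t ≤ volume (thickening t X) := by
  have h1 : volume (⋃ m : Cells t X, cell t m) = ∑' m : Cells t X, volume (cell t m) := by
    refine measure_iUnion ?_ fun m => measurableSet_Ico
    intro m n h
    exact disjoint_cell ht fun h' => h (Subtype.ext h')
  have h2 : ⋃ m : Cells t X, cell t m ⊆ thickening t X := by
    refine iUnion_subset fun m y hy => ?_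
    obtain ⟨x, hx1, hx2⟩ := m.2
    refine mem_thickening_iff.2 ⟨x, hx2, ?_⟩
    rw [Real.dist_eq, abs_lt]
    have h3 := hy.1
    have h4 := hy.2
    have h5 := hx1.1
    have h6 := hx1.2
    constructor <;> linarith
  calc ∑' _m : Cells t X, ENNReal.ofReal t = ∑' m : Cells t X, volume (cell t m) :=
        tsum_congr fun m => (volume_cell t m).symm
    _ = volume (⋃ m : Cells t X, cell t m) := h1.symm
    _ ≤ _ := measure_mono h2

/-- the translates which hit an interval of length `t` -/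
theorem hit_le {t : ℝ} (ht : 0 < t) (X : Set ℝ) (c : ℝ) {b : ℝ} (hb : |b| ≤ 1) :
    volume {a | ∃ x ∈ X, a + b * x ∈ Ioo c (c + t)} ≤ 3 * volume (thickening t X) := by
  have hb' := abs_le.1 hb
  have h1 : {a | ∃ x ∈ X, a + b * x ∈ Ioo c (c + t)} ⊆
      ⋃ m : Cells t X, Ioo (c - t - b * (m * t)) (c + 2 * t - b * (m * t)) := by
    rintro a ⟨x, hx, hx1, hx2⟩
    have h2 : x ∈ cell t ⌊x / t⌋ := (mem_cell ht).2 rfl
    refine mem_iUnion.2 ⟨⟨⌊x / t⌋, x, h2, hx⟩, ?_⟩
    have h3 : 0 ≤ x - ⌊x / t⌋ * t := by linarith [h2.1]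
    have h4 : x - ⌊x / t⌋ * t < t := by linarith [h2.2]
    have h5 : b * (x - ⌊x / t⌋ * t) ≤ t := by nlinarith
    have h6 : -t ≤ b * (x - ⌊x / t⌋ * t) := by nlinarith
    constructor
    · show c - t - b * (⌊x / t⌋ * t) < a
      nlinarith
    · show a < c + 2 * t - b * (⌊x / t⌋ * t)
      nlinarith
  calc volume {a | ∃ x ∈ X, a + b * x ∈ Ioo c (c + t)} ≤
        volume (⋃ m : Cells t X, Ioo (c - t - b * (m * t)) (c + 2 * t - b * (m * t))) := measure_mono h1
    _ ≤ ∑' m : Cells t X, volume (Ioo (c - t - b * (m * t)) (c + 2 * t - b * (m * t))) := measure_iUnion_le _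
    _ = ∑' _m : Cells t X, 3 * ENNReal.ofReal t := by
        refine tsum_congr fun m => ?_
        rw [Real.volume_Ioo, show (3 : ℝ≥0∞) = ENNReal.ofReal 3 by simp, ← ENNReal.ofReal_mul (by norm_num)]
        congr 1
        ring
    _ = 3 * ∑' _m : Cells t X, ENNReal.ofReal t := ENNReal.tsum_mul_left
    _ ≤ 3 * volume (thickening t X) := mul_le_mul_right (cells_le ht X) _

/-- the translates which are outside an interval but hit it -/
theorem hit_near {R : ℝ} {X : Set ℝ} (hR : ∀ x ∈ X, |x| ≤ R) (c l : ℝ) (b : ℝ) :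
    volume {a | a ∉ Ioo c (c + l) ∧ ∃ x ∈ X, a + b * x ∈ Ioo c (c + l)} ≤ ENNReal.ofReal (2 * R * |b|) := by
  have h1 : {a | a ∉ Ioo c (c + l) ∧ ∃ x ∈ X, a + b * x ∈ Ioo c (c + l)} ⊆
      Icc (c - R * |b|) c ∪ Icc (c + l) (c + l + R * |b|) := by
    rintro a ⟨ha, x, hx, h1, h2⟩
    have h3 : |b * x| ≤ R * |b| := by
      rw [abs_mul, mul_comm]
      exact mul_le_mul_of_nonneg_right (hR x hx) (abs_nonneg b)
    have h4 := abs_le.1 h3
    rcases le_or_gt a c with h | h
    · left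
      exact ⟨by linarith, h⟩
    · right
      have h5 : c + l ≤ a := by
        by_contra h6
        exact ha ⟨h, not_le.1 h6⟩
      exact ⟨h5, by linarith⟩
  refine (measure_mono h1).trans ((measure_union_le _ _).trans ?_)
  rw [Real.volume_Icc, Real.volume_Icc]
  rcases le_or_gt 0 R with hR0 | hR0
  · rw [← ENNReal.ofReal_add (by have := abs_nonneg b; nlinarith) (by have := abs_nonneg b; nlinarith)]
    refine ENNReal.ofReal_le_ofReal (by linarith)
  · have h2 : R * |b| ≤ 0 := by have := abs_nonneg b; nlinarith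
    rw [ENNReal.ofReal_of_nonpos (by linarith), ENNReal.ofReal_of_nonpos (by linarith)]
    simp

/-- the translates which do not see the gaps although they start outside -/
def miss (X U : Set ℝ) (b : ℝ) : Set ℝ := {a | a ∉ U ∧ ∃ x ∈ X, a + b * x ∈ U}

theorem tendsto_miss {X : Set ℝ} (hX : Bornology.IsBounded X) {c l : ℕ → ℝ} (hl : ∀ i, 0 < l i)
    (hs : ∑' i, volume (thickening (l i) X) < ∞) :
    Tendsto (fun b : ℝ => volume (miss X (⋃ i, Ioo (c i) (c i + l i)) b)) (𝓝 0) (𝓝 0) := by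
  obtain ⟨R, hR⟩ := hX.exists_norm_le
  set B : ℕ → ℝ → Set ℝ := fun i b => {a | a ∉ Ioo (c i) (c i + l i) ∧ ∃ x ∈ X, a + b * x ∈ Ioo (c i) (c i + l i)}
    with hB
  have h1 : ∀ b, miss X (⋃ i, Ioo (c i) (c i + l i)) b ⊆ ⋃ i, B i b := by
    rintro b a ⟨ha, x, hx, hax⟩
    obtain ⟨i, hi⟩ := mem_iUnion.1 hax
    exact mem_iUnion.2 ⟨i, fun h => ha (mem_iUnion.2 ⟨i, h⟩), x, hx, hi⟩
  have h2 : ∀ i b, |b| ≤ 1 → volume (B i b) ≤ 3 * volume (thickening (l i) X) := fun i b hb =>
    (measure_mono fun a ha => ha.2).trans (hit_le (hl i) X (c i) hb)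
  have h3 : ∀ i b, volume (B i b) ≤ ENNReal.ofReal (2 * R * |b|) := fun i b => hit_near hR (c i) (l i) b
  have h4 : ∑' i, 3 * volume (thickening (l i) X) ≠ ∞ := by
    rw [ENNReal.tsum_mul_left]
    exact ENNReal.mul_ne_top (by simp) hs.ne
  rw [ENNReal.tendsto_nhds_zero]
  intro ε hε
  have hε2 : 0 < ε / 2 := ENNReal.half_pos hε.ne'
  obtain ⟨N, hN⟩ := ((ENNReal.tendsto_nhds_zero.1 (ENNReal.tendsto_sum_nat_add _ h4)) (ε / 2) hε2).exists
  have h5 : Tendsto (fun b : ℝ => (N : ℝ≥0∞) * ENNReal.ofReal (2 * R * |b|)) (𝓝 0) (𝓝 0) := by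
    have h6 : Tendsto (fun b : ℝ => 2 * R * |b|) (𝓝 0) (𝓝 0) := by
      have : Continuous fun b : ℝ => 2 * R * |b| := by fun_prop
      simpa using this.tendsto 0
    have h7 := ENNReal.tendsto_ofReal h6
    rw [ENNReal.ofReal_zero] at h7
    have h8 := ENNReal.Tendsto.const_mul (a := (N : ℝ≥0∞)) h7 (Or.inr (ENNReal.natCast_ne_top N))
    rwa [mul_zero] at h8
  have h9 : ∀ᶠ b : ℝ in 𝓝 0, |b| ≤ 1 := by
    have : Metric.closedBall (0 : ℝ) 1 ∈ 𝓝 (0 : ℝ) := Metric.closedBall_mem_nhds 0 one_pos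
    filter_upwards [this] with b hb
    simpa [Real.dist_eq] using hb
  filter_upwards [h9, (ENNReal.tendsto_nhds_zero.1 h5) (ε / 2) hε2] with b hb1 hb2
  calc volume (miss X (⋃ i, Ioo (c i) (c i + l i)) b) ≤ volume (⋃ i, B i b) := measure_mono (h1 b)
    _ ≤ ∑' i, volume (B i b) := measure_iUnion_le _
    _ = ∑ i ∈ Finset.range N, volume (B i b) + ∑' i, volume (B (i + N) b) :=
        (ENNReal.summable (f := fun n => volume (B (n + N) b))).sum_add_tsum_nat_add'.symm
    _ ≤ ∑ i ∈ Finset.range N, ENNReal.ofReal (2 * R * |b|) + ∑' i, 3 * volume (thickening (l (i + N)) X) :=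
        add_le_add (Finset.sum_le_sum fun i _ => h3 i b) (ENNReal.tsum_le_tsum fun i => h2 (i + N) b hb1)
    _ ≤ ε / 2 + ε / 2 := by
        refine add_le_add ?_ hN
        rw [Finset.sum_const, Finset.card_range, nsmul_eq_mul]
        exact hb2
    _ = ε := ENNReal.add_halves ε

theorem common {X U : Set ℝ} (h : Tendsto (fun b : ℝ => volume (miss X U b)) (𝓝 0) (𝓝 0)) :
    ∃ b : ℕ → ℝ, (∀ k, 0 < b k) ∧ Tendsto b atTop (𝓝 0) ∧
      ∀ᵐ a, a ∉ U → ∀ᶠ k in atTop, ∀ x ∈ X, a + b k * x ∉ U ∧ a - b k * x ∉ U := by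
  have h1 : Tendsto (fun b : ℝ => volume (miss X U (-b))) (𝓝 0) (𝓝 0) := by
    have : Tendsto (fun b : ℝ => -b) (𝓝 0) (𝓝 0) := by
      simpa using (continuous_neg (G := ℝ)).tendsto 0
    exact h.comp this
  have h2 : ∀ k : ℕ, ∃ b : ℝ, 0 < b ∧ b < 1 / (k + 1) ∧ volume (miss X U b) ≤ (2⁻¹ : ℝ≥0∞) ^ k ∧
      volume (miss X U (-b)) ≤ (2⁻¹ : ℝ≥0∞) ^ k := by
    intro k
    have hpos : (0 : ℝ≥0∞) < (2⁻¹ : ℝ≥0∞) ^ k := ENNReal.pow_pos (by simp) k
    have e1 := ((ENNReal.tendsto_nhds_zero.1 h) _ hpos).filter_mono (nhdsWithin_le_nhds (s := Ioi 0))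
    have e2 := ((ENNReal.tendsto_nhds_zero.1 h1) _ hpos).filter_mono (nhdsWithin_le_nhds (s := Ioi 0))
    have e3 : ∀ᶠ b : ℝ in 𝓝[>] 0, b ∈ Ioo (0 : ℝ) (1 / (k + 1)) := Ioo_mem_nhdsGT (by positivity)
    obtain ⟨b, ⟨h3, h4⟩, h5⟩ := ((e1.and e2).and e3).exists
    exact ⟨b, h5.1, h5.2, h3, h4⟩
  choose b hb0 hb1 hb2 hb3 using h2
  refine ⟨b, hb0, ?_, ?_⟩
  · refine squeeze_zero (fun k => (hb0 k).le) (fun k => (hb1 k).le) ?_
    exact tendsto_one_div_add_atTop_nhds_zero_nat
  · have h3 : ∑' k, volume (miss X U (b k) ∪ miss X U (-b k)) ≠ ∞ := by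
      refine ne_top_of_le_ne_top ?_ (ENNReal.tsum_le_tsum fun k =>
        (measure_union_le _ _).trans (add_le_add (hb2 k) (hb3 k)))
      rw [ENNReal.tsum_add, ENNReal.tsum_geometric, ENNReal.one_sub_inv_two, inv_inv]
      simp
    filter_upwards [ae_eventually_notMem h3] with a ha haU
    filter_upwards [ha] with k hk x hx
    constructor
    · intro h4
      exact hk (Or.inl ⟨haU, x, hx, h4⟩)
    · intro h4
      refine hk (Or.inr ⟨haU, x, hx, ?_⟩)
      rwa [neg_mul, ← sub_eq_add_neg]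

/-- the number of terms of the sequence which are at least `t` in absolute value -/
noncomputable def count (x : ℕ → ℝ) (t : ℝ) : ℝ≥0∞ := ∑' n, if t ≤ |x n| then 1 else 0

/-- the neighbourhood of a sequence -/
theorem vol_seq {x : ℕ → ℝ} (hx : ∀ n, 0 < x n) {t : ℝ} (ht : 0 < t) :
    volume (thickening t (range x)) ≤ ENNReal.ofReal t * (3 + 2 * count x t) := by
  have h1 : thickening t (range x) ⊆
      Ioo (-t) (2 * t) ∪ ⋃ n, (if t ≤ |x n| then Ioo (x n - t) (x n + t) else ∅) := by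
    intro y hy
    obtain ⟨_, ⟨n, rfl⟩, hn⟩ := mem_thickening_iff.1 hy
    rw [Real.dist_eq, abs_lt] at hn
    by_cases h : t ≤ |x n|
    · right
      refine mem_iUnion.2 ⟨n, ?_⟩
      rw [if_pos h]
      constructor <;> linarith
    · left
      rw [abs_of_pos (hx n), not_le] at h
      have := hx n
      constructor <;> linarith
  refine (measure_mono h1).trans ((measure_union_le _ _).trans ?_)
  have h2 : volume (⋃ n, (if t ≤ |x n| then Ioo (x n - t) (x n + t) else ∅)) ≤
      ENNReal.ofReal t * (2 * count x t) := by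
    refine (measure_iUnion_le _).trans ?_
    unfold count
    rw [← ENNReal.tsum_mul_left, ← ENNReal.tsum_mul_left]
    refine ENNReal.tsum_le_tsum fun n => ?_
    split_ifs
    · rw [Real.volume_Ioo, mul_one, show (2 : ℝ≥0∞) = ENNReal.ofReal 2 by simp, ← ENNReal.ofReal_mul ht.le]
      exact ENNReal.ofReal_le_ofReal (by linarith)
    · simp
  rw [mul_add]
  refine add_le_add ?_ h2
  rw [Real.volume_Ioo, show (3 : ℝ≥0∞) = ENNReal.ofReal 3 by simp, ← ENNReal.ofReal_mul ht.le]
  exact ENNReal.ofReal_le_ofReal (by linarith)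

theorem lac {q : ℝ} (hq : q < 1) {x : ℕ → ℝ} (hx : ∀ n, 0 < x n) (hxq : ∀ n, x (n + 1) ≤ q * x n) {n m : ℕ}
    (h : n < m) : x m ≤ q * x n := by
  induction m, (Nat.succ_le_of_lt h) using Nat.le_induction with
  | base => exact hxq n
  | succ m _ ih =>
    have h1 : x (m + 1) ≤ x m := by
      have := hxq m
      nlinarith [hx m]
    exact h1.trans (ih (by omega))

/-- the neighbourhood of a lacunary sequence, lower bound -/
theorem vol_seq_ge {q : ℝ} (hq : q < 1) {x : ℕ → ℝ} (hx : ∀ n, 0 < x n) (hxq : ∀ n, x (n + 1) ≤ q * x n)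
    {t : ℝ} (ht : 0 < t) :
    ENNReal.ofReal ((1 - q) * t) * count x t ≤ volume (thickening t (range x)) := by
  have hq0 : 0 < q := by
    by_contra h
    have := (hx 1).trans_le (hxq 0)
    nlinarith [hx 0]
  set A : ℕ → Set ℝ := fun n => if t ≤ |x n| then Ioo (x n) (x n + (1 - q) * t) else ∅ with hA
  have hsep : ∀ n m, n < m → t ≤ |x n| → t ≤ |x m| → x m + (1 - q) * t ≤ x n := by
    intro n m hnm h1 h2
    rw [abs_of_pos (hx _)] at h1 h2
    have h3 := lac hq hx hxq hnm
    have h4 : (1 - q) * t ≤ (1 - q) * x m := mul_le_mul_of_nonneg_left h2 (by linarith)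
    have h5 : (2 - q) * x m ≤ (2 - q) * (q * x n) := mul_le_mul_of_nonneg_left h3 (by linarith)
    have h6 : (2 - q) * q ≤ 1 := by nlinarith [sq_nonneg (1 - q)]
    have h7 : (2 - q) * q * x n ≤ 1 * x n := mul_le_mul_of_nonneg_right h6 (hx n).le
    linarith
  have hdis : Pairwise (Function.onFun Disjoint A) := by
    have key : ∀ n m, n < m → Disjoint (A n) (A m) := by
      intro n m hnm
      simp only [hA]
      split_ifs with h1 h2
      · rw [Set.disjoint_left]
        intro y hy1 hy2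
        have := hsep n m hnm h1 h2
        linarith [hy1.1, hy2.2]
      · exact disjoint_bot_right
      · exact disjoint_bot_left
      · exact disjoint_bot_left
    intro n m hnm
    rcases lt_or_gt_of_ne hnm with h | h
    · exact key n m h
    · exact (key m n h).symm
  have hmeas : ∀ n, MeasurableSet (A n) := by
    intro n
    simp only [hA]
    split_ifs
    · exact measurableSet_Ioo
    · exact MeasurableSet.empty
  have hsub : ⋃ n, A n ⊆ thickening t (range x) := by
    refine iUnion_subset fun n y hy => ?_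
    simp only [hA] at hy
    split_ifs at hy
    · refine mem_thickening_iff.2 ⟨x n, mem_range_self n, ?_⟩
      rw [Real.dist_eq, abs_lt]
      have h1 : (1 - q) * t < t := by nlinarith
      constructor <;> linarith [hy.1, hy.2]
    · exact absurd hy (notMem_empty y)
  refine le_trans (le_of_eq ?_) ((measure_iUnion hdis hmeas).symm.le.trans (measure_mono hsub))
  unfold count
  rw [← ENNReal.tsum_mul_left]
  refine tsum_congr fun n => ?_
  simp only [hA]
  split_ifs
  · rw [Real.volume_Ioo, mul_one]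
    congr 1
    ring
  · simp

/-- the number of terms of a lacunary sequence which are at least `t` -/
theorem count_le {q : ℝ} (hq : q < 1) {x : ℕ → ℝ} (hx : ∀ n, 0 < x n) (hxq : ∀ n, x (n + 1) ≤ q * x n)
    {t : ℝ} (ht : 0 < t) :
    count x t ≤ ENNReal.ofReal (1 + (|Real.log (x 0)| + |Real.log t|) / -Real.log q) := by
  have hq0 : 0 < q := by
    by_contra h
    have := (hx 1).trans_le (hxq 0)
    nlinarith [hx 0]
  have hlq : 0 < -Real.log q := neg_pos.2 (Real.log_neg hq0 hq)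
  have hpow : ∀ n, x n ≤ q ^ n * x 0 := by
    intro n
    induction n with
    | zero => simp
    | succ n ih =>
      calc x (n + 1) ≤ q * x n := hxq n
        _ ≤ q * (q ^ n * x 0) := mul_le_mul_of_nonneg_left ih hq0.le
        _ = q ^ (n + 1) * x 0 := by ring
  set K : ℝ := (|Real.log (x 0)| + |Real.log t|) / -Real.log q with hK
  have hK0 : 0 ≤ K := by positivity
  have hn : ∀ n, t ≤ |x n| → n ∈ Finset.range (⌊K⌋₊ + 1) := by
    intro n hn
    rw [abs_of_pos (hx n)] at hn
    have h1 : Real.log t ≤ n * Real.log q + Real.log (x 0) := by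
      have := Real.log_le_log ht (hn.trans (hpow n))
      rwa [Real.log_mul (by positivity) (hx 0).ne', Real.log_pow] at this
    have h2 : (n : ℝ) ≤ K := by
      rw [hK, le_div_iff₀ hlq]
      have := le_abs_self (Real.log (x 0))
      have := neg_abs_le (Real.log t)
      linarith
    exact Finset.mem_range.2 (Nat.lt_succ_of_le (Nat.le_floor h2))
  have h3 : count x t ≤ ∑' n : ℕ, if n ∈ Finset.range (⌊K⌋₊ + 1) then (1 : ℝ≥0∞) else 0 := by
    refine ENNReal.tsum_le_tsum fun n => ?_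
    by_cases h : t ≤ |x n|
    · rw [if_pos h, if_pos (hn n h)]
    · rw [if_neg h]
      exact zero_le
  refine h3.trans ?_
  rw [tsum_eq_sum (s := Finset.range (⌊K⌋₊ + 1)) (fun n hn => if_neg hn)]
  rw [Finset.sum_congr rfl (fun n hn => if_pos hn)]
  simp only [Finset.sum_const, Finset.card_range, nsmul_eq_mul, mul_one]
  rw [← ENNReal.ofReal_natCast]
  refine ENNReal.ofReal_le_ofReal ?_
  push_cast
  have := Nat.floor_le hK0
  linarith


end Pool.Agent.H56.ES.Gap
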