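import Pool.Agent.H56.ES.Gap

/-!
MP_6045a2_an. Random gaps: the condition on the gaps cannot be relaxed.
-/

set_option autoImplicit false

open MeasureTheory Set Filter Topology Metric
open scoped ENNReal

namespace Pool.Agent.H56.ES.Gap

/-- averaging over a finite family -/
theorem avg {ι : Type*} (s : Finset ι) (hs : s.Nonempty) (Bad : ι → Set (ℝ × ℝ)) (B : Set (ℝ × ℝ))
    (hBm : MeasurableSet B) (hm : ∀ i, MeasurableSet (Bad i)) (hsub : ∀ i, Bad i ⊆ B) (θ : ℝ≥0∞)
    (h : ∀ p ∈ B, ∑ i ∈ s, (Bad i).indicator (fun _ => (1 : ℝ≥0∞)) p ≤ s.card * θ) :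
    ∃ i ∈ s, volume (Bad i) ≤ θ * volume B := by
  by_contra hcon
  push Not at hcon
  have h1 : ∑ _i ∈ s, θ * volume B < ∑ i ∈ s, volume (Bad i) := ENNReal.sum_lt_sum_of_nonempty hs hcon
  have h2 : ∑ i ∈ s, volume (Bad i) ≤ ∑ _i ∈ s, θ * volume B := by
    calc ∑ i ∈ s, volume (Bad i) = ∑ i ∈ s, ∫⁻ p, (Bad i).indicator (fun _ => (1 : ℝ≥0∞)) p := by
          refine Finset.sum_congr rfl fun i _ => ?_
          rw [lintegral_indicator_const (hm i), one_mul]
      _ = ∫⁻ p, ∑ i ∈ s, (Bad i).indicator (fun _ => (1 : ℝ≥0∞)) p :=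
          (lintegral_finsetSum s fun i _ => measurable_const.indicator (hm i)).symm
      _ ≤ ∫⁻ p, B.indicator (fun _ => (s.card * θ : ℝ≥0∞)) p := by
          refine lintegral_mono fun p => ?_
          by_cases hp : p ∈ B
          · rw [indicator_of_mem hp]
            exact h p hp
          · rw [indicator_of_notMem hp]
            refine le_of_eq (Finset.sum_eq_zero fun i _ => ?_)
            exact indicator_of_notMem (fun h' => hp (hsub i h')) _
      _ = ∑ _i ∈ s, θ * volume B := by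
          rw [lintegral_indicator_const hBm, Finset.sum_const, nsmul_eq_mul, mul_assoc]
  exact absurd (h1.trans_le h2) (lt_irrefl _)

/-- the similar copy meets many cells -/
theorem many {X : Set ℝ} {t : ℝ} (ht : 0 < t) {K : ℕ} {a b : ℝ} (hb : 1 ≤ K * |b|) (S : Finset ℤ)
    (hS : ∀ m ∈ S, m ∈ Cells t X) (H : Finset ℤ) (hH : ∀ x ∈ X, ⌊(a + b * x) / t⌋ ∈ H) :
    S.card ≤ (K + 1) * H.card := by
  classical
  have h1 : ∀ m : ℤ, ∃ x : ℝ, m ∈ S → x ∈ cell t m ∩ X := by
    intro m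
    by_cases hm : m ∈ S
    · obtain ⟨x, hx⟩ := hS m hm
      exact ⟨x, fun _ => hx⟩
    · exact ⟨0, fun h => absurd h hm⟩
  choose x hx using h1
  set f : ℤ → ℤ := fun m => ⌊(a + b * x m) / t⌋ with hf
  have h2 : S.image f ⊆ H := by
    intro j hj
    obtain ⟨m, hm, rfl⟩ := Finset.mem_image.1 hj
    exact hH _ (hx m hm).2
  have hclose : ∀ m ∈ S, ∀ m' ∈ S, f m = f m' → m' ≤ m + K := by
    intro m hm m' hm' he
    have e1 : a + b * x m ∈ cell t (f m) := (mem_cell ht).2 rfl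
    have e2 : a + b * x m' ∈ cell t (f m) := (mem_cell ht).2 he.symm
    have e3 : |b * (x m' - x m)| < t := by
      rw [abs_lt]
      have h3 := e1.1
      have h4 := e1.2
      have h5 := e2.1
      have h6 := e2.2
      constructor <;> nlinarith
    have e4 : |x m' - x m| < K * t := by
      rw [abs_mul] at e3
      calc |x m' - x m| ≤ (K * |b|) * |x m' - x m| := le_mul_of_one_le_left (abs_nonneg _) hb
        _ = K * (|b| * |x m' - x m|) := by ring
        _ < K * t := by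
            refine mul_lt_mul_of_pos_left e3 ?_
            by_contra hcon
            have : (K : ℝ) * |b| ≤ 0 := mul_nonpos_of_nonpos_of_nonneg (not_lt.1 hcon) (abs_nonneg b)
            linarith
    have e5 := (abs_lt.1 e4).2
    have e6 := (hx m hm).1.2
    have e7 := (hx m' hm').1.1
    have e8 : (m' : ℝ) * t < (m + 1 + K) * t := by nlinarith
    have e9 : (m' : ℝ) < m + 1 + K := lt_of_mul_lt_mul_right e8 ht.le
    have e10 : m' < m + 1 + K := by exact_mod_cast e9
    omega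
  have h3 : S.card ≤ (K + 1) * (S.image f).card := by
    refine Finset.card_le_mul_card_image S (K + 1) fun j hj => ?_
    have hne : (S.filter fun m => f m = j).Nonempty := by
      obtain ⟨m, hm, he⟩ := Finset.mem_image.1 hj
      exact ⟨m, Finset.mem_filter.2 ⟨hm, he⟩⟩
    set m0 := (S.filter fun m => f m = j).min' hne with hm0
    have hm0m := Finset.min'_mem _ hne
    rw [← hm0, Finset.mem_filter] at hm0m
    have hsub : (S.filter fun m => f m = j) ⊆ Finset.Icc m0 (m0 + K) := by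
      intro m hm
      have hmin : m0 ≤ m := Finset.min'_le _ _ hm
      rw [Finset.mem_filter] at hm
      exact Finset.mem_Icc.2 ⟨hmin, hclose m0 hm0m.1 m hm.1 (hm0m.2.trans hm.2.symm)⟩
    refine (Finset.card_le_card hsub).trans (le_of_eq ?_)
    rw [Int.card_Icc]
    omega
  exact h3.trans (Nat.mul_le_mul_left _ (Finset.card_le_card h2))

/-- an infinite set meets many cells of a fine grid -/
theorem cells_tendsto {X : Set ℝ} (hX : X.Infinite) (N₀ : ℕ) :
    ∀ᶠ t : ℝ in 𝓝[>] 0, ∃ S : Finset ℤ, S.card = N₀ ∧ ∀ m ∈ S, m ∈ Cells t X := by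
  classical
  obtain ⟨F, hF, hFc⟩ := hX.exists_subset_card_eq N₀
  -- a lower bound of the distances
  obtain ⟨d, hd0, hd⟩ : ∃ d : ℝ, 0 < d ∧ ∀ x ∈ F, ∀ y ∈ F, x ≠ y → d ≤ |x - y| := by
    have h1 : ∀ p : ℝ × ℝ, ∃ d : ℝ, 0 < d ∧ (p.1 ≠ p.2 → d ≤ |p.1 - p.2|) := by
      intro p
      by_cases hp : p.1 = p.2
      · exact ⟨1, one_pos, fun h => absurd hp h⟩
      · exact ⟨|p.1 - p.2|, abs_pos.2 (sub_ne_zero.2 hp), fun _ => le_rfl⟩
    choose D hD0 hD using h1
    rcases F.eq_empty_or_nonempty with hFe | hFne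
    · exact ⟨1, one_pos, fun x hx => by rw [hFe] at hx; exact absurd hx (Finset.notMem_empty x)⟩
    · have hne : (F ×ˢ F).Nonempty := hFne.product hFne
      refine ⟨(F ×ˢ F).inf' hne D, ?_, ?_⟩
      · obtain ⟨p, -, hp⟩ := Finset.exists_mem_eq_inf' hne D
        rw [hp]
        exact hD0 p
      · intro x hx y hy hxy
        exact (Finset.inf'_le D (Finset.mk_mem_product hx hy)).trans (hD (x, y) hxy)
  have h2 : ∀ᶠ t : ℝ in 𝓝[>] 0, t ∈ Ioo (0 : ℝ) d := Ioo_mem_nhdsGT hd0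
  filter_upwards [h2] with t ht
  refine ⟨F.image fun x => ⌊x / t⌋, ?_, ?_⟩
  · rw [Finset.card_image_of_injOn, hFc]
    intro x hx y hy he
    by_contra hxy
    have h3 := hd x hx y hy hxy
    have h4 : x ∈ cell t ⌊x / t⌋ := (mem_cell ht.1).2 rfl
    have h5 : y ∈ cell t ⌊x / t⌋ := (mem_cell ht.1).2 he.symm
    have h6 : |x - y| < t := by
      rw [abs_lt]
      have e3 := h4.1
      have e4 := h4.2
      have e5 := h5.1
      have e6 := h5.2
      constructor <;> linarith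
    linarith [ht.2]
  · intro m hm
    obtain ⟨x, hx, rfl⟩ := Finset.mem_image.1 hm
    exact ⟨x, (mem_cell ht.1).2 rfl, hF hx⟩

/-- the cells meeting a bounded set -/
theorem finite_cells {X : Set ℝ} (hX : Bornology.IsBounded X) {t : ℝ} (ht : 0 < t) : (Cells t X).Finite := by
  obtain ⟨R, hR⟩ := hX.exists_norm_le
  refine (Set.finite_Icc ⌊-R / t⌋ ⌊R / t⌋).subset ?_
  rintro m ⟨x, hx1, hx2⟩
  rw [mem_cell ht] at hx1
  have h1 := abs_le.1 (hR x hx2)
  rw [← hx1]
  exact ⟨Int.floor_le_floor (div_le_div_of_nonneg_right h1.1 ht.le),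
    Int.floor_le_floor (div_le_div_of_nonneg_right h1.2 ht.le)⟩

/-- upper bound of the measure of the neighbourhood by the number of cells -/
theorem le_cells {X : Set ℝ} {t : ℝ} (ht : 0 < t) (S : Finset ℤ) (hS : ∀ m ∈ Cells t X, m ∈ S) :
    volume (thickening (2 * t) X) ≤ ENNReal.ofReal (5 * (S.card * t)) := by
  have h1 : thickening (2 * t) X ⊆ ⋃ m ∈ S, Ioo ((m : ℝ) * t - 2 * t) (m * t + 3 * t) := by
    intro y hy
    obtain ⟨x, hx, hxy⟩ := mem_thickening_iff.1 hy
    rw [Real.dist_eq, abs_lt] at hxy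
    have h2 : x ∈ cell t ⌊x / t⌋ := (mem_cell ht).2 rfl
    simp only [mem_iUnion]
    refine ⟨⌊x / t⌋, hS _ ⟨x, h2, hx⟩, ?_, ?_⟩
    · linarith [h2.1]
    · linarith [h2.2]
  refine (measure_mono h1).trans ((measure_biUnion_finset_le _ _).trans ?_)
  have h3 : ∀ m ∈ S, volume (Ioo ((m : ℝ) * t - 2 * t) (m * t + 3 * t)) ≤ ENNReal.ofReal (5 * t) := by
    intro m _
    rw [Real.volume_Ioo]
    exact ENNReal.ofReal_le_ofReal (by linarith)
  refine (Finset.sum_le_sum h3).trans (le_of_eq ?_)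
  rw [Finset.sum_const, nsmul_eq_mul, ← ENNReal.ofReal_natCast, ← ENNReal.ofReal_mul (Nat.cast_nonneg _)]
  congr 1
  ring

/-- the parameters considered at a stage -/
def Box (K : ℕ) : Set (ℝ × ℝ) := {p | |p.1| ≤ K ∧ |p.2| ≤ K ∧ 1 ≤ K * |p.2|}

theorem isClosed_Box (K : ℕ) : IsClosed (Box K) := by
  have h1 : IsClosed {p : ℝ × ℝ | |p.1| ≤ K} := isClosed_le (by fun_prop) continuous_const
  have h2 : IsClosed {p : ℝ × ℝ | |p.2| ≤ K} := isClosed_le (by fun_prop) continuous_const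
  have h3 : IsClosed {p : ℝ × ℝ | 1 ≤ K * |p.2|} := isClosed_le continuous_const (by fun_prop)
  exact h1.inter (h2.inter h3)

theorem volume_Box (K : ℕ) : volume (Box K) ≤ ENNReal.ofReal ((2 * K) ^ 2) := by
  have h1 : Box K ⊆ Icc (-(K : ℝ)) K ×ˢ Icc (-(K : ℝ)) K := by
    rintro p ⟨h1, h2, -⟩
    exact ⟨abs_le.1 h1, abs_le.1 h2⟩
  refine (measure_mono h1).trans (le_of_eq ?_)
  rw [show (volume : Measure (ℝ × ℝ)) = (volume : Measure ℝ).prod volume from rfl, Measure.prod_prod,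
    Real.volume_Icc, ← ENNReal.ofReal_mul (by have : (0 : ℝ) ≤ K := Nat.cast_nonneg K; linarith)]
  congr 1
  ring

/-- the parameters of a stage whose copies lie in `[0, 1]` and miss the gaps -/
def Bad (X : Set ℝ) (K : ℕ) {M : ℕ} (l : ℝ) (c : Fin M → ℝ) : Set (ℝ × ℝ) :=
  {p | p ∈ Box K ∧ ∀ x ∈ X, p.1 + p.2 * x ∈ Icc (0 : ℝ) 1 ∧ ∀ j, p.1 + p.2 * x ∉ Ioo (c j) (c j + l)}

theorem isClosed_Bad (X : Set ℝ) (K : ℕ) {M : ℕ} (l : ℝ) (c : Fin M → ℝ) : IsClosed (Bad X K l c) := by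
  have h1 : Bad X K l c = Box K ∩ ⋂ x ∈ X, ({p : ℝ × ℝ | p.1 + p.2 * x ∈ Icc (0 : ℝ) 1} ∩
      ⋂ j, {p : ℝ × ℝ | p.1 + p.2 * x ∉ Ioo (c j) (c j + l)}) := by
    ext p
    simp only [Bad, mem_ofPred_eq, mem_inter_iff, mem_iInter]
  rw [h1]
  refine (isClosed_Box K).inter (isClosed_biInter fun x _ => ?_)
  have hc : Continuous fun p : ℝ × ℝ => p.1 + p.2 * x := by fun_prop
  refine (isClosed_Icc.preimage hc).inter (isClosed_iInter fun j => ?_)
  exact (isOpen_Ioo.preimage hc).isClosed_compl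

theorem pow_bound {n h M : ℕ} (hn : 0 < n) (hh : h ≤ n) {A : ℝ} (hA : A ≤ M * (h / n)) :
    ((n - h : ℕ) : ℝ) ^ M ≤ n ^ M * Real.exp (-A) := by
  have hn' : (0 : ℝ) < n := by exact_mod_cast hn
  have hh' : (h : ℝ) ≤ n := by exact_mod_cast hh
  have h1 : ((n - h : ℕ) : ℝ) = n * (1 - h / n) := by
    rw [Nat.cast_sub hh]
    field_simp
  have h2 : 0 ≤ 1 - (h : ℝ) / n := by
    rw [sub_nonneg, div_le_one hn']
    exact hh'
  rw [h1, mul_pow]
  refine mul_le_mul_of_nonneg_left ?_ (by positivity)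
  calc (1 - (h : ℝ) / n) ^ M ≤ Real.exp (-(h / n)) ^ M :=
        pow_le_pow_left₀ h2 (by have := Real.one_sub_le_exp_neg ((h : ℝ) / n); exact this) M
    _ = Real.exp (-(M * (h / n))) := by
        rw [← Real.exp_nat_mul]
        congr 1
        ring
    _ ≤ Real.exp (-A) := Real.exp_le_exp.2 (by linarith)

/-- one stage of the construction -/
theorem stage {X : Set ℝ} (hXb : Bornology.IsBounded X) (hX : X.Infinite) {L : ℝ → ℝ≥0∞}
    (hL : ∀ δ : ℝ, 0 < δ → ∃ᶠ t in 𝓝[>] (0 : ℝ), ENNReal.ofReal t * L t ≤ ENNReal.ofReal δ * volume (thickening t X))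
    (K : ℕ) {η : ℝ} (hη : 0 < η) :
    ∃ (l : ℝ) (M : ℕ) (c : Fin M → ℝ), 0 < l ∧ 0 < M ∧ M * l ≤ η ∧ (M : ℝ≥0∞) * (ENNReal.ofReal l * L l) ≤ ENNReal.ofReal η ∧
      volume (Bad X K l c) ≤ ENNReal.ofReal η := by
  classical
  -- the parameter `A`
  obtain ⟨A, hA0, hA⟩ : ∃ A : ℝ, 0 < A ∧ Real.exp (-A) * (2 * K) ^ 2 ≤ η := by
    have h1 : Tendsto (fun A : ℝ => Real.exp (-A) * (2 * K) ^ 2) atTop (𝓝 0) := by
      have := (Real.tendsto_exp_neg_atTop_nhds_zero).mul_const ((2 * (K : ℝ)) ^ 2)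
      simpa using this
    obtain ⟨A, h2, h3⟩ := ((h1.eventually_le_const hη).and (eventually_gt_atTop 0)).exists
    exact ⟨A, h3, h2⟩
  set D : ℝ := A * (K + 1) with hD
  have hD0 : 0 < D := by positivity
  have hV : volume (thickening 1 X) ≠ ∞ := (hXb.thickening (δ := 1)).measure_lt_top.ne
  set V : ℝ := (volume (thickening 1 X)).toReal with hVdef
  have hV0 : 0 ≤ V := ENNReal.toReal_nonneg
  set δ : ℝ := η / (5 * (2 * D + V)) with hδ
  have hδ0 : 0 < δ := by positivity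
  obtain ⟨N₀, hN₀⟩ := exists_nat_gt (8 * D / η + 1)
  have e1 : ∀ᶠ t : ℝ in 𝓝[>] 0, t ∈ Ioo (0 : ℝ) (min 1 (η / 4)) := Ioo_mem_nhdsGT (by positivity)
  have hhalf : Tendsto (fun t : ℝ => t / 2) (𝓝[>] 0) (𝓝[>] 0) := by
    refine tendsto_nhdsWithin_iff.2 ⟨?_, ?_⟩
    · have : Continuous fun t : ℝ => t / 2 := by fun_prop
      have h := this.tendsto 0
      simp only [zero_div] at h
      exact h.mono_left nhdsWithin_le_nhds
    · filter_upwards [self_mem_nhdsWithin] with t ht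
      exact half_pos (show (0 : ℝ) < t from ht)
  have e2 := hhalf.eventually (cells_tendsto hX N₀)
  obtain ⟨l, hl1, ⟨hl0, hl2⟩, S₀, hS₀c, hS₀⟩ := ((hL δ hδ0).and_eventually (e1.and e2)).exists
  obtain ⟨t, ht⟩ : ∃ t : ℝ, t = l / 2 := ⟨_, rfl⟩
  rw [← ht] at hS₀
  have ht0 : 0 < t := by rw [ht]; exact half_pos hl0
  have hlt : l = 2 * t := by rw [ht]; ring
  have ht1 : t ≤ 1 := by have := hl2.trans_le (min_le_left _ _); linarith
  have htη : 2 * t ≤ η / 4 := by have := hl2.trans_le (min_le_right _ _); linarith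
  clear ht
  -- the cells
  set S : Finset ℤ := (finite_cells hXb ht0).toFinset with hS
  have hSmem : ∀ m, m ∈ S ↔ m ∈ Cells t X := fun m => Set.Finite.mem_toFinset _
  have hSc : N₀ ≤ S.card := by
    rw [← hS₀c]
    exact Finset.card_le_card fun m hm => (hSmem m).2 (hS₀ m hm)
  obtain ⟨N, hN⟩ : ∃ N : ℝ, N = (S.card : ℝ) := ⟨_, rfl⟩
  have hN1 : 8 * D / η + 1 < N := hN₀.trans_le (by rw [hN]; exact_mod_cast hSc)
  have hNpos : 0 < N := lt_trans (by positivity) hN1
  have hNt : N * t ≤ V := by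
    have h1 := cells_le ht0 X
    have h2 : ∑' _m : Cells t X, ENNReal.ofReal t = ENNReal.ofReal (N * t) := by
      rw [ENNReal.tsum_const, ENNReal.ofReal_mul hNpos.le, hN, ENNReal.ofReal_natCast]
      congr 1
      have h3 : ENat.card (Cells t X) = (S.card : ℕ∞) := by
        rw [← Set.encard_coe_eq_coe_finsetCard, hS, Set.Finite.coe_toFinset]
        rfl
      rw [h3]
      rfl
    rw [h2] at h1
    have h3 : ENNReal.ofReal (N * t) ≤ volume (thickening 1 X) := h1.trans (measure_mono (thickening_mono ht1 X))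
    rw [hVdef]
    exact (ENNReal.ofReal_le_iff_le_toReal hV).1 h3
  set T : Finset ℤ := Finset.Icc 0 ⌊1 / t⌋ with hT
  have hfl : (0 : ℤ) ≤ ⌊1 / t⌋ := Int.floor_nonneg.2 (by positivity)
  have hTc : (T.card : ℝ) ≤ 1 / t + 1 := by
    rw [hT, Int.card_Icc]
    have h1 : (((⌊1 / t⌋ + 1 - 0).toNat : ℤ) : ℝ) = ⌊1 / t⌋ + 1 := by
      rw [Int.toNat_of_nonneg (by omega)]
      push_cast
      ring
    rw [← Int.cast_natCast, h1]
    linarith [Int.floor_le (1 / t)]
  have hTpos : 0 < T.card := Finset.card_pos.2 ⟨0, Finset.mem_Icc.2 ⟨le_rfl, hfl⟩⟩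
  obtain ⟨n, hn⟩ : ∃ n : ℝ, n = (T.card : ℝ) := ⟨_, rfl⟩
  rw [← hn] at hTc
  have hnpos : 0 < n := by rw [hn]; exact_mod_cast hTpos
  have hnt : n * t ≤ 2 := by
    calc n * t ≤ (1 / t + 1) * t := mul_le_mul_of_nonneg_right hTc ht0.le
      _ = 1 + t := by field_simp
      _ ≤ 2 := by linarith
  -- the number of gaps
  obtain ⟨M, hM⟩ : ∃ M : ℕ, M = ⌈D * n / N⌉₊ := ⟨_, rfl⟩
  have hDnN : 0 < D * n / N := by positivity
  have hM0 : 0 < M := by rw [hM]; exact Nat.ceil_pos.2 hDnN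
  have hM1 : D * n / N ≤ M := by rw [hM]; exact Nat.le_ceil _
  have hM2 : (M : ℝ) < D * n / N + 1 := by rw [hM]; exact Nat.ceil_lt_add_one hDnN.le
  -- the averaging
  set Ω : Finset (Fin M → ℤ) := Fintype.piFinset fun _ => T with hΩ
  have hΩc : Ω.card = T.card ^ M := by
    rw [hΩ, Fintype.card_piFinset_const]
  have hΩne : Ω.Nonempty := by
    rw [← Finset.card_pos, hΩc]
    positivity
  obtain ⟨ω, -, hω⟩ := avg Ω hΩne (fun ω => Bad X K l fun j => (ω j : ℝ) * t - t) (Box K)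
    (isClosed_Box K).measurableSet (fun ω => (isClosed_Bad _ _ _ _).measurableSet) (fun ω p hp => hp.1)
    (ENNReal.ofReal (Real.exp (-A))) (by
      intro p hp
      by_cases hp2 : ∀ x ∈ X, p.1 + p.2 * x ∈ Icc (0 : ℝ) 1
      · set H : Finset ℤ := T.filter fun j => ∃ x ∈ X, ⌊(p.1 + p.2 * x) / t⌋ = j with hH
        have hHmem : ∀ x ∈ X, ⌊(p.1 + p.2 * x) / t⌋ ∈ H := by
          intro x hx
          have h1 := hp2 x hx
          refine Finset.mem_filter.2 ⟨Finset.mem_Icc.2 ⟨Int.floor_nonneg.2 (div_nonneg h1.1 ht0.le), ?_⟩, x, hx, rfl⟩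
          exact Int.floor_le_floor (div_le_div_of_nonneg_right h1.2 ht0.le)
        have hHc : S.card ≤ (K + 1) * H.card := many ht0 hp.2.2 S (fun m hm => (hSmem m).1 hm) H hHmem
        have hHT : H ⊆ T := Finset.filter_subset _ _
        have hAH : A ≤ M * ((H.card : ℝ) / T.card) := by
          have h1 : N ≤ (K + 1) * (H.card : ℝ) := by rw [hN]; exact_mod_cast hHc
          have h2 : A * n ≤ M * H.card := by
            have h3 : D * n ≤ M * N := by rwa [div_le_iff₀ hNpos] at hM1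
            have h4 : (K + 1 : ℝ) * (A * n) ≤ (K + 1) * (M * H.card) := by
              calc (K + 1 : ℝ) * (A * n) = D * n := by rw [hD]; ring
                _ ≤ M * N := h3
                _ ≤ M * ((K + 1) * (H.card : ℝ)) := mul_le_mul_of_nonneg_left h1 (Nat.cast_nonneg M)
                _ = (K + 1) * (M * H.card) := by ring
            exact le_of_mul_le_mul_left h4 (by positivity)
          rw [← hn, ← mul_div_assoc, le_div_iff₀ hnpos]
          exact h2
        have hcount : ∑ i ∈ Ω, (Bad X K l fun j => (i j : ℝ) * t - t).indicator (fun _ => (1 : ℝ≥0∞)) p ≤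
            ((T.card - H.card : ℕ) : ℝ≥0∞) ^ M := by
          have h1 : ∀ i ∈ Ω, (Bad X K l fun j => (i j : ℝ) * t - t).indicator (fun _ => (1 : ℝ≥0∞)) p ≤
              if i ∈ (Fintype.piFinset fun _ : Fin M => T \ H) then (1 : ℝ≥0∞) else 0 := by
            intro i hi
            by_cases h2 : p ∈ Bad X K l fun j => (i j : ℝ) * t - t
            · rw [indicator_of_mem h2, if_pos]
              rw [Fintype.mem_piFinset] at hi ⊢
              intro j
              rw [Finset.mem_sdiff]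
              refine ⟨hi j, fun h3 => ?_⟩
              obtain ⟨x, hx, hxj⟩ := (Finset.mem_filter.1 h3).2
              refine (h2.2 x hx).2 j ?_
              have h4 : p.1 + p.2 * x ∈ cell t (i j) := (mem_cell ht0).2 hxj
              have h5 := h4.1
              have h6 := h4.2
              rw [hlt]
              constructor <;> linarith
            · rw [indicator_of_notMem h2]
              exact zero_le
          refine (Finset.sum_le_sum h1).trans ?_
          rw [Finset.sum_ite_mem, Finset.sum_const, nsmul_eq_mul, mul_one]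
          have h7 : (Ω ∩ Fintype.piFinset fun _ : Fin M => T \ H).card ≤ (T.card - H.card) ^ M := by
            refine (Finset.card_le_card Finset.inter_subset_right).trans (le_of_eq ?_)
            rw [Fintype.card_piFinset_const, Finset.card_sdiff_of_subset hHT]
          exact_mod_cast h7
        refine hcount.trans ?_
        rw [hΩc]
        have h8 := pow_bound hTpos (Finset.card_le_card hHT) hAH
        have h9 := ENNReal.ofReal_le_ofReal h8
        rw [ENNReal.ofReal_pow (Nat.cast_nonneg _), ENNReal.ofReal_natCast, ENNReal.ofReal_mul (by positivity),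
          ENNReal.ofReal_pow (Nat.cast_nonneg _), ENNReal.ofReal_natCast] at h9
        exact_mod_cast h9
      · refine le_trans (le_of_eq (Finset.sum_eq_zero fun i _ => ?_)) zero_le
        refine indicator_of_notMem (fun h => hp2 fun x hx => (h.2 x hx).1) _)
  refine ⟨l, M, fun j => (ω j : ℝ) * t - t, hl0, hM0, ?_, ?_, ?_⟩
  · have h1 : D * n / N * l ≤ η / 2 := by
      rw [hlt, div_mul_eq_mul_div, div_le_iff₀ hNpos]
      have h2 : D * n * (2 * t) ≤ 4 * D := by nlinarith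
      have h3 : 4 * D ≤ η / 2 * N := by
        have h4 : 8 * D / η ≤ N := by linarith
        rw [div_le_iff₀ hη] at h4
        linarith
      linarith
    calc (M : ℝ) * l ≤ (D * n / N + 1) * l := mul_le_mul_of_nonneg_right hM2.le hl0.le
      _ = D * n / N * l + l := by ring
      _ ≤ η := by rw [hlt] at h1 ⊢; linarith
  · have h1 : volume (thickening l X) ≤ ENNReal.ofReal (5 * (S.card * t)) := by
      rw [hlt]
      exact le_cells ht0 S fun m hm => (hSmem m).2 hm
    calc (M : ℝ≥0∞) * (ENNReal.ofReal l * L l) ≤ M * (ENNReal.ofReal δ * ENNReal.ofReal (5 * (S.card * t))) :=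
          mul_le_mul_right (hl1.trans (mul_le_mul_right h1 _)) _
      _ = ENNReal.ofReal (M * (δ * (5 * (N * t)))) := by
          rw [← ENNReal.ofReal_natCast, ← ENNReal.ofReal_mul hδ0.le, ← ENNReal.ofReal_mul (Nat.cast_nonneg _), hN]
      _ ≤ ENNReal.ofReal η := by
          refine ENNReal.ofReal_le_ofReal ?_
          have h2 : (M : ℝ) * (N * t) ≤ 2 * D + V := by
            calc (M : ℝ) * (N * t) ≤ (D * n / N + 1) * (N * t) := mul_le_mul_of_nonneg_right hM2.le (by positivity)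
              _ = D * (n * t) + N * t := by field_simp
              _ ≤ 2 * D + V := by nlinarith
          calc (M : ℝ) * (δ * (5 * (N * t))) = 5 * δ * (M * (N * t)) := by ring
            _ ≤ 5 * δ * (2 * D + V) := mul_le_mul_of_nonneg_left h2 (by positivity)
            _ = η := by rw [hδ]; field_simp
  · refine hω.trans ?_
    refine (mul_le_mul_right (volume_Box K) _).trans ?_
    rw [← ENNReal.ofReal_mul (Real.exp_pos _).le]
    exact ENNReal.ofReal_le_ofReal hA

theorem Box_mono {K k : ℕ} (h : K ≤ k) : Box K ⊆ Box k := by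
  have h' : (K : ℝ) ≤ k := by exact_mod_cast h
  rintro p ⟨h1, h2, h3⟩
  exact ⟨h1.trans h', h2.trans h', h3.trans (mul_le_mul_of_nonneg_right h' (abs_nonneg _))⟩

theorem volume_snd_zero : volume {p : ℝ × ℝ | p.2 = 0} = 0 := by
  have h1 : {p : ℝ × ℝ | p.2 = 0} = univ ×ˢ {0} := by
    ext p
    simp
  rw [h1, show (volume : Measure (ℝ × ℝ)) = (volume : Measure ℝ).prod volume from rfl, Measure.prod_prod,
    Real.volume_singleton, mul_zero]

/-- the condition on the gaps cannot be relaxed -/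
theorem sharp {X : Set ℝ} (hXb : Bornology.IsBounded X) (hX : X.Infinite) {L : ℝ → ℝ≥0∞}
    (hL : ∀ δ : ℝ, 0 < δ → ∃ᶠ t in 𝓝[>] (0 : ℝ), ENNReal.ofReal t * L t ≤ ENNReal.ofReal δ * volume (thickening t X))
    {ε : ℝ} (hε : 0 < ε) :
    ∃ c l : ℕ → ℝ, (∀ i, 0 < l i) ∧ ∑' i, ENNReal.ofReal (l i) ≤ ENNReal.ofReal ε ∧
      ∑' i, ENNReal.ofReal (l i) * L (l i) ≤ ENNReal.ofReal ε ∧
      ∀ᵐ p : ℝ × ℝ, ∃ x ∈ X, p.1 + p.2 * x ∉ Icc (0 : ℝ) 1 \ ⋃ i, Ioo (c i) (c i + l i) := by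
  have hst : ∀ k : ℕ, ∃ (l : ℝ) (M : ℕ) (c : Fin M → ℝ), 0 < l ∧ 0 < M ∧ M * l ≤ ε / 2 / 2 ^ k ∧
      (M : ℝ≥0∞) * (ENNReal.ofReal l * L l) ≤ ENNReal.ofReal (ε / 2 / 2 ^ k) ∧
      volume (Bad X k l c) ≤ ENNReal.ofReal (ε / 2 / 2 ^ k) := fun k =>
    stage hXb hX hL k (by positivity)
  choose l M c hl hM hMl hML hBad using hst
  have hsum : ∑' k : ℕ, ENNReal.ofReal (ε / 2 / 2 ^ k) = ENNReal.ofReal ε := by
    rw [← ENNReal.ofReal_tsum_of_nonneg (fun k => by positivity) (summable_geometric_two' _), tsum_geometric_two']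
  have : Infinite (Σ k : ℕ, Fin (M k)) := by
    refine Infinite.of_injective (fun k : ℕ => (⟨k, ⟨0, hM k⟩⟩ : Σ k : ℕ, Fin (M k))) ?_
    intro k k' h
    exact congrArg Sigma.fst h
  obtain ⟨hden⟩ := nonempty_denumerable (Σ k : ℕ, Fin (M k))
  set e : (Σ k : ℕ, Fin (M k)) ≃ ℕ := Denumerable.eqv _ with he
  have htsum : ∀ g : ℝ → ℝ≥0∞, ∑' i : ℕ, g (l (e.symm i).1) = ∑' k : ℕ, (M k : ℝ≥0∞) * g (l k) := by
    intro g
    rw [e.symm.tsum_eq (fun s : Σ k : ℕ, Fin (M k) => g (l s.1)),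
      ENNReal.tsum_sigma fun (k : ℕ) (_ : Fin (M k)) => g (l k)]
    refine tsum_congr fun k => ?_
    rw [tsum_fintype, Finset.sum_const, Finset.card_univ, Fintype.card_fin, nsmul_eq_mul]
  refine ⟨fun i => c (e.symm i).1 (e.symm i).2, fun i => l (e.symm i).1, fun i => hl _, ?_, ?_, ?_⟩
  · rw [htsum fun t => ENNReal.ofReal t, ← hsum]
    refine ENNReal.tsum_le_tsum fun k => ?_
    rw [← ENNReal.ofReal_natCast, ← ENNReal.ofReal_mul (Nat.cast_nonneg _)]
    exact ENNReal.ofReal_le_ofReal (hMl k)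
  · rw [htsum fun t => ENNReal.ofReal t * L t, ← hsum]
    exact ENNReal.tsum_le_tsum fun k => hML k
  · have hK : ∀ K : ℕ, volume {p : ℝ × ℝ | p ∈ Box K ∧ ∀ x ∈ X,
        p.1 + p.2 * x ∈ Icc (0 : ℝ) 1 \ ⋃ i, Ioo (c (e.symm i).1 (e.symm i).2) (c (e.symm i).1 (e.symm i).2 +
          l (e.symm i).1)} = 0 := by
      intro K
      refine le_antisymm ?_ zero_le
      have h1 : ∀ k : ℕ, K ≤ k → volume {p : ℝ × ℝ | p ∈ Box K ∧ ∀ x ∈ X,
          p.1 + p.2 * x ∈ Icc (0 : ℝ) 1 \ ⋃ i, Ioo (c (e.symm i).1 (e.symm i).2) (c (e.symm i).1 (e.symm i).2 +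
            l (e.symm i).1)} ≤ ENNReal.ofReal (ε / 2 / 2 ^ k) := by
        intro k hk
        refine (measure_mono ?_).trans (hBad k)
        rintro p ⟨hp1, hp2⟩
        refine ⟨Box_mono hk hp1, fun x hx => ⟨(hp2 x hx).1, fun j hj => (hp2 x hx).2 ?_⟩⟩
        refine mem_iUnion.2 ⟨e ⟨k, j⟩, ?_⟩
        rw [Equiv.symm_apply_apply]
        exact hj
      have h2 : Tendsto (fun k : ℕ => ENNReal.ofReal (ε / 2 / 2 ^ k)) atTop (𝓝 0) := by
        have h3 : Tendsto (fun k : ℕ => ε / 2 / 2 ^ k) atTop (𝓝 0) :=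
          (summable_geometric_two' ε).tendsto_atTop_zero
        have := ENNReal.tendsto_ofReal h3
        simpa using this
      exact ge_of_tendsto h2 (eventually_atTop.2 ⟨K, h1⟩)
    rw [ae_iff]
    push Not
    refine measure_mono_null ?_ (measure_union_null (measure_iUnion_null hK) volume_snd_zero)
    intro p hp
    by_cases hp0 : p.2 = 0
    · exact Or.inr hp0
    · left
      have hpos : 0 < |p.2| := abs_pos.2 hp0
      obtain ⟨K, hK1⟩ := exists_nat_ge (max (max |p.1| |p.2|) (1 / |p.2|))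
      have h1 := (le_max_left _ _).trans ((le_max_left _ _).trans hK1)
      have h2 := (le_max_right _ _).trans ((le_max_left _ _).trans hK1)
      have h3 := (le_max_right _ _).trans hK1
      rw [div_le_iff₀ hpos] at h3
      exact mem_iUnion.2 ⟨K, ⟨h1, h2, h3⟩, hp⟩

end Pool.Agent.H56.ES.Gap
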