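import Pool.Agent.H56.ES.Gap

/-!
MP_6045a2_an. Random gaps: the deterministic estimates.
-/

set_option autoImplicit false

open MeasureTheory Set Filter Topology Metric
open scoped ENNReal

namespace Pool.Agent.H56.ES.Gap

/-- the left end points of the intervals of length `l` which meet `B • X` -/
def U (X : Set ℝ) (B l : ℝ) : Set ℝ := {c | ∃ x ∈ X, B * x ∈ Ioo c (c + l)}

theorem isOpen_U (X : Set ℝ) (B l : ℝ) : IsOpen (U X B l) := by
  have : U X B l = ⋃ x ∈ X, Ioo (B * x - l) (B * x) := by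
    ext c
    simp only [U, mem_ofPred_eq, mem_iUnion, mem_Ioo, exists_prop]
    constructor
    · rintro ⟨x, hx, h1, h2⟩
      exact ⟨x, hx, by linarith, h1⟩
    · rintro ⟨x, hx, h1, h2⟩
      exact ⟨x, hx, h2, by linarith⟩
  rw [this]
  exact isOpen_biUnion fun x _ => isOpen_Ioo

theorem volume_U_le (X : Set ℝ) {B l : ℝ} (hB : 0 < B) :
    volume (U X B l) ≤ ENNReal.ofReal B * volume (thickening (l / B) X) := by
  have h1 : U X B l ⊆ (B⁻¹ * ·) ⁻¹' thickening (l / B) X := by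
    rintro c ⟨x, hx, h1, h2⟩
    refine mem_thickening_iff.2 ⟨x, hx, ?_⟩
    rw [Real.dist_eq]
    have h3 : B⁻¹ * c - x = (c - B * x) / B := by field_simp
    rw [h3, abs_div, abs_of_pos hB]
    refine div_lt_div_of_pos_right ?_ hB
    rw [abs_lt]
    constructor <;> linarith
  refine (measure_mono h1).trans (le_of_eq ?_)
  rw [Real.volume_preimage_mul_left (inv_ne_zero hB.ne'), inv_inv, abs_of_pos hB]

/-- the overlap of a set with its translate, as a number in `[0, ∞]` -/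
noncomputable def GG (A : Set ℝ) (δ : ℝ) : ℝ≥0∞ := volume (A ∩ {y | y - δ ∈ A})

theorem measurable_GG {A : Set ℝ} (hA : MeasurableSet A) : Measurable (GG A) := by
  have hs : MeasurableSet {p : ℝ × ℝ | p.2 ∈ A ∧ p.2 - p.1 ∈ A} :=
    (hA.preimage measurable_snd).inter (hA.preimage (f := fun p : ℝ × ℝ => p.2 - p.1) (by fun_prop))
  exact measurable_measure_prodMk_left hs

theorem GG_le (A : Set ℝ) (δ : ℝ) : GG A δ ≤ volume A := measure_mono inter_subset_left

theorem lintegral_GG {A : Set ℝ} (hA : MeasurableSet A) : ∫⁻ δ, GG A δ = volume A * volume A := by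
  have hs : MeasurableSet {p : ℝ × ℝ | p.2 ∈ A ∧ p.2 - p.1 ∈ A} :=
    (hA.preimage measurable_snd).inter (hA.preimage (f := fun p : ℝ × ℝ => p.2 - p.1) (by fun_prop))
  have h1 : ∫⁻ δ, GG A δ = (volume.prod volume) {p : ℝ × ℝ | p.2 ∈ A ∧ p.2 - p.1 ∈ A} := by
    rw [Measure.prod_apply hs]
    rfl
  rw [h1, Measure.prod_apply_symm hs]
  have h2 : ∀ y : ℝ, volume ((fun x : ℝ => (x, y)) ⁻¹' {p : ℝ × ℝ | p.2 ∈ A ∧ p.2 - p.1 ∈ A}) =
      A.indicator (fun _ => volume A) y := by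
    intro y
    by_cases hy : y ∈ A
    · rw [indicator_of_mem hy]
      have h3 : (fun x : ℝ => (x, y)) ⁻¹' {p : ℝ × ℝ | p.2 ∈ A ∧ p.2 - p.1 ∈ A} = (fun x => y - x) ⁻¹' A := by
        ext x
        exact ⟨fun h => h.2, fun h => ⟨hy, h⟩⟩
      rw [h3]
      exact (Measure.measurePreserving_sub_left volume y).measure_preimage hA.nullMeasurableSet
    · rw [indicator_of_notMem hy]
      have h3 : (fun x : ℝ => (x, y)) ⁻¹' {p : ℝ × ℝ | p.2 ∈ A ∧ p.2 - p.1 ∈ A} = ∅ := by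
        ext x
        exact ⟨fun h => absurd h.1 hy, fun h => absurd h (notMem_empty x)⟩
      rw [h3, measure_empty]
  simp only [h2]
  rw [lintegral_indicator_const hA]

/-- the overlap as a real number -/
noncomputable def G (A : Set ℝ) (δ : ℝ) : ℝ := (GG A δ).toReal

theorem measurable_G {A : Set ℝ} (hA : MeasurableSet A) : Measurable (G A) := (measurable_GG hA).ennreal_toReal

theorem ofReal_G {A : Set ℝ} (hAf : volume A ≠ ∞) (δ : ℝ) : ENNReal.ofReal (G A δ) = GG A δ :=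
  ENNReal.ofReal_toReal (ne_top_of_le_ne_top hAf (GG_le A δ))

theorem G_nonneg (A : Set ℝ) (δ : ℝ) : 0 ≤ G A δ := ENNReal.toReal_nonneg

theorem G_le {A : Set ℝ} (hAf : volume A ≠ ∞) (δ : ℝ) : G A δ ≤ (volume A).toReal :=
  ENNReal.toReal_mono hAf (GG_le A δ)

/-- convexity of the exponential function -/
theorem exp_bound {s : Finset ℕ} (hs : s.Nonempty) {l h γ : ℕ → ℝ} (hl : ∀ i, 0 < l i) (hγ : ∀ i, 0 ≤ γ i)
    (hγh : ∀ i, γ i ≤ h i) :
    Real.exp (4 * ∑ i ∈ s, γ i) - 1 ≤ ∑ i ∈ s, 4 * γ i * Real.exp (4 * (∑ j ∈ s, l j) * (h i / l i)) := by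
  obtain ⟨Λ, hΛ⟩ : ∃ Λ, Λ = ∑ j ∈ s, l j := ⟨_, rfl⟩
  have hΛ0 : 0 < Λ := by rw [hΛ]; exact Finset.sum_pos (fun i _ => hl i) hs
  rw [← hΛ]
  have h1 : ∑ i ∈ s, l i / Λ = 1 := by rw [← Finset.sum_div, ← hΛ, div_self hΛ0.ne']
  have h2 := convexOn_exp.map_sum_le (t := s) (w := fun i => l i / Λ) (p := fun i => 4 * Λ * (γ i / l i))
    (fun i _ => div_nonneg (hl i).le hΛ0.le) h1 (fun i _ => mem_univ _)
  simp only [smul_eq_mul] at h2
  have h3 : ∑ i ∈ s, l i / Λ * (4 * Λ * (γ i / l i)) = 4 * ∑ i ∈ s, γ i := by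
    rw [Finset.mul_sum]
    refine Finset.sum_congr rfl fun i _ => ?_
    have := (hl i).ne'
    field_simp
  rw [h3] at h2
  have h4 : ∀ i ∈ s, l i / Λ * Real.exp (4 * Λ * (γ i / l i)) - l i / Λ ≤
      4 * γ i * Real.exp (4 * Λ * (h i / l i)) := by
    intro i _
    obtain ⟨z, hz⟩ : ∃ z, z = 4 * Λ * (γ i / l i) := ⟨_, rfl⟩
    have hli := hl i
    have hz0 : 0 ≤ z := by rw [hz]; exact mul_nonneg (by positivity) (div_nonneg (hγ i) hli.le)
    have hzh : z ≤ 4 * Λ * (h i / l i) := by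
      rw [hz]
      exact mul_le_mul_of_nonneg_left (div_le_div_of_nonneg_right (hγh i) hli.le) (by positivity)
    rw [← hz]
    have h5 : Real.exp z - 1 ≤ z * Real.exp z := by
      have h6 := Real.one_sub_le_exp_neg z
      have h7 := mul_le_mul_of_nonneg_left h6 (Real.exp_pos z).le
      rw [← Real.exp_add, add_neg_cancel, Real.exp_zero] at h7
      linarith
    calc l i / Λ * Real.exp z - l i / Λ = l i / Λ * (Real.exp z - 1) := by ring
      _ ≤ l i / Λ * (z * Real.exp z) := mul_le_mul_of_nonneg_left h5 (div_nonneg hli.le hΛ0.le)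
      _ = 4 * γ i * Real.exp z := by rw [hz]; field_simp
      _ ≤ 4 * γ i * Real.exp (4 * Λ * (h i / l i)) :=
          mul_le_mul_of_nonneg_left (Real.exp_le_exp.2 hzh) (by have := hγ i; positivity)
  have h5 := Finset.sum_le_sum h4
  rw [Finset.sum_sub_distrib, h1] at h5
  linarith

/-- the integral of the overlaps -/
theorem int_overlap {s : Finset ℕ} (hs : s.Nonempty) {m : ℕ → ℝ} {A : ℕ → Set ℝ} {K w D : ℝ} (hw : 0 < w)
    (hm : ∀ i, 0 < m i) (hD0 : 0 ≤ D) (hK : 0 ≤ K) (hA : ∀ i, MeasurableSet (A i)) (hAf : ∀ i, volume (A i) ≠ ∞)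
    (hterm : ∀ i ∈ s, 4 * Real.exp (4 * (∑ j ∈ s, m j) * (D * (volume (A i)).toReal / m i)) *
      (D * min ((volume (A i)).toReal * (volume (A i)).toReal) (2 * w * (volume (A i)).toReal)) ≤ K * m i * w) :
    ∫⁻ δ in Icc (-w) w, ENNReal.ofReal (Real.exp (4 * ∑ i ∈ s, D * G (A i) δ) - 1) ≤
      ENNReal.ofReal (K * (∑ i ∈ s, m i) * w) := by
  obtain ⟨Λ, hΛ⟩ : ∃ Λ, Λ = ∑ j ∈ s, m j := ⟨_, rfl⟩
  have h1 : ∀ δ, ENNReal.ofReal (Real.exp (4 * ∑ i ∈ s, D * G (A i) δ) - 1) ≤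
      ∑ i ∈ s, ENNReal.ofReal (4 * Real.exp (4 * Λ * (D * (volume (A i)).toReal / m i)) * D) * GG (A i) δ := by
    intro δ
    have h2 := exp_bound hs hm (fun i => mul_nonneg hD0 (G_nonneg (A i) δ))
      (fun i => mul_le_mul_of_nonneg_left (G_le (hAf i) δ) hD0)
    rw [← hΛ] at h2
    refine (ENNReal.ofReal_le_ofReal h2).trans ?_
    rw [ENNReal.ofReal_sum_of_nonneg fun i _ => by have := G_nonneg (A i) δ; positivity]
    refine Finset.sum_le_sum fun i _ => le_of_eq ?_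
    rw [← ofReal_G (hAf i), ← ENNReal.ofReal_mul (by positivity)]
    congr 1
    ring
  refine (lintegral_mono h1).trans ?_
  rw [lintegral_finsetSum s fun i _ => (measurable_GG (hA i)).const_mul _]
  have h3 : ∀ i ∈ s, ∫⁻ δ in Icc (-w) w, ENNReal.ofReal (4 * Real.exp (4 * Λ * (D * (volume (A i)).toReal / m i)) * D) *
      GG (A i) δ ≤ ENNReal.ofReal (K * m i * w) := by
    intro i hi
    rw [lintegral_const_mul _ (measurable_GG (hA i))]
    have h5 := hterm i hi
    rw [← hΛ] at h5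
    obtain ⟨h, hh'⟩ : ∃ h, h = (volume (A i)).toReal := ⟨_, rfl⟩
    have hh0 : 0 ≤ h := by rw [hh']; exact ENNReal.toReal_nonneg
    have hv : volume (A i) = ENNReal.ofReal h := by rw [hh', ENNReal.ofReal_toReal (hAf i)]
    have h4 : ∫⁻ δ in Icc (-w) w, GG (A i) δ ≤ ENNReal.ofReal (min (h * h) (2 * w * h)) := by
      rw [ENNReal.ofReal_min]
      refine le_min ?_ ?_
      · refine (setLIntegral_le_lintegral _ _).trans (le_of_eq ?_)
        rw [lintegral_GG (hA i), hv, ENNReal.ofReal_mul hh0]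
      · refine (lintegral_mono fun δ => GG_le (A i) δ).trans (le_of_eq ?_)
        rw [lintegral_const, Measure.restrict_apply MeasurableSet.univ, univ_inter, Real.volume_Icc, hv,
          ← ENNReal.ofReal_mul hh0]
        congr 1
        ring
    rw [← hh'] at h5 ⊢
    refine (mul_le_mul_right h4 _).trans ?_
    rw [← ENNReal.ofReal_mul (by positivity), mul_assoc]
    exact ENNReal.ofReal_le_ofReal h5
  refine (Finset.sum_le_sum h3).trans (le_of_eq ?_)
  rw [← ENNReal.ofReal_sum_of_nonneg fun i _ => by have := hm i; positivity]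
  congr 1
  rw [Finset.mul_sum, Finset.sum_mul]

/-- the double integral -/
theorem int_pair {s : Finset ℕ} (hs : s.Nonempty) {m : ℕ → ℝ} {A : ℕ → Set ℝ} {K w D : ℝ} (hK : 0 ≤ K) (hw : 0 < w)
    (hm : ∀ i, 0 < m i) (hD0 : 0 ≤ D) (hA : ∀ i, MeasurableSet (A i)) (hAf : ∀ i, volume (A i) ≠ ∞)
    (hterm : ∀ i ∈ s, 4 * Real.exp (4 * (∑ j ∈ s, m j) * (D * (volume (A i)).toReal / m i)) *
      (D * min ((volume (A i)).toReal * (volume (A i)).toReal) (2 * w * (volume (A i)).toReal)) ≤ K * m i * w) (r : ℝ) :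
    ∫⁻ p, ENNReal.ofReal (Real.exp (4 * ∑ i ∈ s, D * G (A i) (p.2 - p.1)))
      ∂((volume.restrict (Icc r (r + w))).prod (volume.restrict (Icc r (r + w)))) ≤
      ENNReal.ofReal (w ^ 2 * (1 + K * (∑ i ∈ s, m i))) := by
  obtain ⟨κ, hκ⟩ : ∃ κ, κ = K * (∑ i ∈ s, m i) := ⟨_, rfl⟩
  have hκ0 : 0 ≤ κ := by
    rw [hκ]
    exact mul_nonneg (by positivity) (Finset.sum_nonneg fun i _ => (hm i).le)
  have hGm : Measurable fun δ : ℝ => Real.exp (4 * ∑ i ∈ s, D * G (A i) δ) := by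
    refine Real.measurable_exp.comp (Measurable.const_mul ?_ _)
    exact Finset.measurable_sum _ fun i _ => (measurable_G (hA i)).const_mul D
  set F : ℝ → ℝ≥0∞ := fun δ => ENNReal.ofReal (Real.exp (4 * ∑ i ∈ s, D * G (A i) δ) - 1) with hF
  have hFm : Measurable F := (hGm.sub_const 1).ennreal_ofReal
  have h1 : ∀ δ : ℝ, ENNReal.ofReal (Real.exp (4 * ∑ i ∈ s, D * G (A i) δ)) = 1 + F δ := by
    intro δ
    have h2 : (1 : ℝ) ≤ Real.exp (4 * ∑ i ∈ s, D * G (A i) δ) := by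
      refine Real.one_le_exp ?_
      have := Finset.sum_nonneg (s := s) fun i _ => mul_nonneg hD0 (G_nonneg (A i) δ)
      linarith
    rw [hF, ← ENNReal.ofReal_one, ← ENNReal.ofReal_add zero_le_one (by linarith)]
    congr 1
    ring
  have hm2 : Measurable fun p : ℝ × ℝ => ENNReal.ofReal (Real.exp (4 * ∑ i ∈ s, D * G (A i) (p.2 - p.1))) :=
    (hGm.comp (measurable_snd.sub measurable_fst)).ennreal_ofReal
  rw [lintegral_prod _ hm2.aemeasurable]
  have h2 : ∀ a ∈ Icc r (r + w), ∫⁻ a' in Icc r (r + w), ENNReal.ofReal (Real.exp (4 * ∑ i ∈ s, D * G (A i) (a' - a))) ≤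
      ENNReal.ofReal (w * (1 + κ)) := by
    intro a ha
    simp only [h1]
    rw [lintegral_add_left measurable_const, lintegral_const, Measure.restrict_apply MeasurableSet.univ,
      univ_inter, Real.volume_Icc, one_mul, mul_add, mul_one, ENNReal.ofReal_add hw.le (by positivity)]
    refine add_le_add (ENNReal.ofReal_le_ofReal (by linarith)) ?_
    have h3 : ∫⁻ a' in Icc r (r + w), F (a' - a) ≤ ∫⁻ δ in Icc (-w) w, F δ := by
      rw [← lintegral_indicator measurableSet_Icc, ← lintegral_indicator measurableSet_Icc,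
        ← lintegral_sub_right_eq_self ((Icc (-w) w).indicator F) a]
      refine lintegral_mono fun a' => ?_
      by_cases h4 : a' ∈ Icc r (r + w)
      · rw [indicator_of_mem h4, indicator_of_mem]
        exact ⟨by linarith [ha.2, h4.1], by linarith [ha.1, h4.2]⟩
      · rw [indicator_of_notMem h4]
        exact zero_le
    refine h3.trans ((int_overlap hs hw hm hD0 hK hA hAf hterm).trans (le_of_eq ?_))
    rw [hκ]
    congr 1
    ring
  refine (setLIntegral_mono' measurableSet_Icc h2).trans (le_of_eq ?_)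
  rw [lintegral_const, Measure.restrict_apply MeasurableSet.univ, univ_inter, Real.volume_Icc,
    ← ENNReal.ofReal_mul (by positivity), ← hκ]
  congr 1
  ring

/-- a large gap -/
theorem term_large {C w h l m Λ : ℝ} (hC : 0 < C) (hw : 0 < w) (hl : 0 < l) (hh0 : 0 ≤ h)
    (hh : h ≤ C * l) (hlm : l ≤ m) (hΛ : 0 ≤ Λ) (hΛC : 8 * Λ * C ≤ 1) :
    4 * Real.exp (4 * Λ * (h / m)) * min (h * h) (2 * w * h) ≤ 16 * C * m * w := by
  have he : Real.exp (1 / 2) ≤ 2 := by
    have h1 : Real.exp (1 / 2) ^ 2 ≤ 2 ^ 2 := by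
      rw [← Real.exp_nat_mul]
      have := Real.exp_one_lt_three
      norm_num
      linarith
    exact le_of_sq_le_sq h1 (by norm_num)
  have hm : 0 < m := hl.trans_le hlm
  have hhm : h ≤ C * m := hh.trans (mul_le_mul_of_nonneg_left hlm hC.le)
  have h2 : 4 * Λ * (h / m) ≤ 1 / 2 := by
    have h3 : h / m ≤ C := by rw [div_le_iff₀ hm]; exact hhm
    calc 4 * Λ * (h / m) ≤ 4 * Λ * C := mul_le_mul_of_nonneg_left h3 (by positivity)
      _ ≤ 1 / 2 := by linarith
  calc 4 * Real.exp (4 * Λ * (h / m)) * min (h * h) (2 * w * h)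
      ≤ 4 * 2 * (2 * w * (C * m)) :=
        mul_le_mul (mul_le_mul_of_nonneg_left ((Real.exp_le_exp.2 h2).trans he) (by norm_num))
          ((min_le_right _ _).trans (mul_le_mul_of_nonneg_left hhm (by positivity)))
          (le_min (by positivity) (by positivity)) (by norm_num)
    _ = 16 * C * m * w := by ring

/-- a small gap -/
theorem term_small {C σ w h l v m Λ : ℝ} (hσ : 0 < σ) (hC : 0 < C) (hw : 0 < w) (hl : 0 < l) (hl1 : l < 1) (hh0 : 0 ≤ h)
    (hh : h ≤ 3 * v) (hv : v ≤ C * l ^ σ) (hvm : v / |Real.log l| ≤ m) (hm0 : 0 < m) (hΛ : 0 ≤ Λ)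
    (hΛσ : 48 * Λ ≤ σ) (hlw : l ^ (σ / 4) ≤ w) :
    4 * Real.exp (4 * Λ * (h / m)) * min (h * h) (2 * w * h) ≤ 72 * C / σ * m * w := by
  obtain ⟨y, hy⟩ : ∃ y, y = -Real.log l := ⟨_, rfl⟩
  have hy0 : 0 < y := by rw [hy]; exact neg_pos.2 (Real.log_neg hl hl1)
  have hly : ∀ s : ℝ, l ^ s = Real.exp (-(s * y)) := by
    intro s
    rw [Real.rpow_def_of_pos hl, hy]
    congr 1
    ring
  have hyabs : |Real.log l| = y := by rw [hy, abs_of_neg (Real.log_neg hl hl1)]
  rw [hyabs, div_le_iff₀ hy0] at hvm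
  have hv0 : 0 ≤ v := by linarith
  have h1 : 4 * Λ * (h / m) ≤ σ / 4 * y := by
    have h2 : h / m ≤ 3 * y := by
      rw [div_le_iff₀ hm0]
      linarith
    calc 4 * Λ * (h / m) ≤ 4 * Λ * (3 * y) := mul_le_mul_of_nonneg_left h2 (by positivity)
      _ = 48 * Λ * (y / 4) := by ring
      _ ≤ σ * (y / 4) := mul_le_mul_of_nonneg_right hΛσ (by positivity)
      _ = σ / 4 * y := by ring
  have h2 : h * h ≤ 9 * v * v := by nlinarith
  have h3 : v * Real.exp (σ / 4 * y) ≤ C * (Real.exp (-(σ / 2 * y)) * w) := by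
    rw [hly] at hv hlw
    calc v * Real.exp (σ / 4 * y) ≤ C * Real.exp (-(σ * y)) * Real.exp (σ / 4 * y) :=
          mul_le_mul_of_nonneg_right hv (Real.exp_pos _).le
      _ = C * (Real.exp (-(σ / 2 * y)) * Real.exp (-(σ / 4 * y))) := by
          rw [mul_assoc, ← Real.exp_add, ← Real.exp_add]
          congr 2
          ring
      _ ≤ C * (Real.exp (-(σ / 2 * y)) * w) :=
          mul_le_mul_of_nonneg_left (mul_le_mul_of_nonneg_left hlw (Real.exp_pos _).le) hC.le
  have h4 : y * Real.exp (-(σ / 2 * y)) ≤ 2 / σ := by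
    have h5 := Real.add_one_le_exp (σ / 2 * y)
    have h6 : σ / 2 * y ≤ Real.exp (σ / 2 * y) := by linarith
    have h7 : σ / 2 * y * Real.exp (-(σ / 2 * y)) ≤ 1 := by
      calc σ / 2 * y * Real.exp (-(σ / 2 * y)) ≤ Real.exp (σ / 2 * y) * Real.exp (-(σ / 2 * y)) :=
            mul_le_mul_of_nonneg_right h6 (Real.exp_pos _).le
        _ = 1 := by rw [← Real.exp_add, add_neg_cancel, Real.exp_zero]
    rw [le_div_iff₀ hσ]
    nlinarith
  calc 4 * Real.exp (4 * Λ * (h / m)) * min (h * h) (2 * w * h)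
      ≤ 4 * Real.exp (σ / 4 * y) * (9 * v * v) :=
        mul_le_mul (mul_le_mul_of_nonneg_left (Real.exp_le_exp.2 h1) (by norm_num))
          ((min_le_left _ _).trans h2) (le_min (by positivity) (by positivity)) (by positivity)
    _ = 36 * v * (v * Real.exp (σ / 4 * y)) := by ring
    _ ≤ 36 * v * (C * (Real.exp (-(σ / 2 * y)) * w)) := mul_le_mul_of_nonneg_left h3 (by positivity)
    _ ≤ 36 * (m * y) * (C * (Real.exp (-(σ / 2 * y)) * w)) :=
        mul_le_mul_of_nonneg_right (by linarith) (by positivity)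
    _ = 36 * C * m * w * (y * Real.exp (-(σ / 2 * y))) := by ring
    _ ≤ 36 * C * m * w * (2 / σ) := mul_le_mul_of_nonneg_left h4 (by positivity)
    _ = 72 * C / σ * m * w := by ring

end Pool.Agent.H56.ES.Gap
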