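import Pool.Agent.H56.ES.RndA

/-!
MP_6045a2_an. Random gaps: the second moment method.
-/

set_option autoImplicit false

open MeasureTheory Set Filter Topology Metric ProbabilityTheory
open scoped ENNReal

namespace Pool.Agent.H56.ES.Gap

section

variable {Ω : Type*} [MeasurableSpace Ω] {P : Measure Ω} [IsProbabilityMeasure P]

omit [IsProbabilityMeasure P] in
/-- the probability that a uniform variable lies in a set -/
theorem prob_mem {Y : Ω → ℝ} (hY : Measurable Y) (hu : P.map Y = volume.restrict (Icc 0 1)) {T : Set ℝ}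
    (hT : MeasurableSet T) : P (Y ⁻¹' T) = volume (T ∩ Icc 0 1) := by
  rw [← Measure.map_apply hY hT, hu, Measure.restrict_apply hT]

theorem volume_shift {A : Set ℝ} (hA : MeasurableSet A) (a : ℝ) : volume {c : ℝ | c - a ∈ A} = volume A :=
  (measurePreserving_sub_right volume a).measure_preimage hA.nullMeasurableSet

omit [IsProbabilityMeasure P] in
theorem measurableSet_hit {Y : Ω → ℝ} (hY : Measurable Y) {A : Set ℝ} (hA : MeasurableSet A) (a : ℝ) :
    MeasurableSet {ω | Y ω - a ∈ A} := hA.preimage (hY.sub_const a)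

/-- the probability that a gap meets two translates -/
theorem avoid_two {Y : Ω → ℝ} (hY : Measurable Y) {D : ℝ} (hD0 : 0 ≤ D)
    (hD : ∀ T : Set ℝ, MeasurableSet T → P (Y ⁻¹' T) ≤ ENNReal.ofReal D * volume T) {A : Set ℝ} (hA : MeasurableSet A)
    (hAf : volume A ≠ ∞) (hA2 : D * (volume A).toReal ≤ 1 / 2) (a a' : ℝ) :
    P {ω | Y ω - a ∉ A ∧ Y ω - a' ∉ A} ≤
      P {ω | Y ω - a ∉ A} * P {ω | Y ω - a' ∉ A} * ENNReal.ofReal (Real.exp (4 * (D * G A (a' - a)))) := by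
  have hm := measurableSet_hit hY hA
  set E₁ : Set Ω := {ω | Y ω - a ∈ A} with hE₁
  set E₂ : Set Ω := {ω | Y ω - a' ∈ A} with hE₂
  have hbound : ∀ b, (P {ω | Y ω - b ∈ A}).toReal ≤ 1 / 2 := by
    intro b
    have h1 : P {ω | Y ω - b ∈ A} ≤ ENNReal.ofReal D * volume A := by
      have h2 := hD {y | y - b ∈ A} (hA.preimage (f := fun y : ℝ => y - b) (by fun_prop))
      rw [volume_shift hA] at h2
      exact h2
    have h3 := ENNReal.toReal_mono (ENNReal.mul_ne_top ENNReal.ofReal_ne_top hAf) h1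
    rw [ENNReal.toReal_mul, ENNReal.toReal_ofReal hD0] at h3
    linarith
  have hp : (P (E₁ ∩ E₂)).toReal ≤ D * G A (a' - a) := by
    have h5 : E₁ ∩ E₂ = Y ⁻¹' {c : ℝ | c - a ∈ A ∩ {y | y - (a' - a) ∈ A}} := by
      ext ω
      simp only [hE₁, hE₂, mem_inter_iff, mem_ofPred_eq, mem_preimage]
      rw [show Y ω - a - (a' - a) = Y ω - a' by ring]
    have hm2 : MeasurableSet (A ∩ {y | y - (a' - a) ∈ A}) :=
      hA.inter (hA.preimage (f := fun y : ℝ => y - (a' - a)) (by fun_prop))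
    have h6 := hD {c : ℝ | c - a ∈ A ∩ {y | y - (a' - a) ∈ A}} (hm2.preimage (f := fun c : ℝ => c - a) (by fun_prop))
    rw [← h5, volume_shift hm2] at h6
    have h7 : volume (A ∩ {y | y - (a' - a) ∈ A}) ≠ ∞ := ne_top_of_le_ne_top hAf (measure_mono inter_subset_left)
    have h8 := ENNReal.toReal_mono (ENNReal.mul_ne_top ENNReal.ofReal_ne_top h7) h6
    rw [ENNReal.toReal_mul, ENNReal.toReal_ofReal hD0] at h8
    exact h8
  have hc1 : {ω | Y ω - a ∉ A} = E₁ᶜ := rfl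
  have hc2 : {ω | Y ω - a' ∉ A} = E₂ᶜ := rfl
  have hc3 : {ω | Y ω - a ∉ A ∧ Y ω - a' ∉ A} = (E₁ ∪ E₂)ᶜ := by
    rw [compl_union]
    rfl
  have hH := hbound a
  have hH' := hbound a'
  rw [← hE₁] at hH
  rw [← hE₂] at hH'
  have q1 : (P E₁ᶜ).toReal = 1 - (P E₁).toReal := by
    have := probReal_compl_eq_one_sub (μ := P) (hm a)
    exact this
  have q2 : (P E₂ᶜ).toReal = 1 - (P E₂).toReal := by
    have := probReal_compl_eq_one_sub (μ := P) (hm a')
    exact this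
  have q3 : (P (E₁ ∪ E₂)ᶜ).toReal = 1 - (P (E₁ ∪ E₂)).toReal := by
    have := probReal_compl_eq_one_sub (μ := P) ((hm a).union (hm a'))
    exact this
  have q4 : (P (E₁ ∪ E₂)).toReal + (P (E₁ ∩ E₂)).toReal = (P E₁).toReal + (P E₂).toReal := by
    have h1 := measure_union_add_inter (μ := P) E₁ (hm a')
    rw [← hE₂] at h1
    rw [← ENNReal.toReal_add (measure_ne_top P _) (measure_ne_top P _),
      ← ENNReal.toReal_add (measure_ne_top P _) (measure_ne_top P _), h1]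
  rw [hc1, hc2, hc3, ← ENNReal.ofReal_toReal (measure_ne_top P (E₁ ∪ E₂)ᶜ),
    ← ENNReal.ofReal_toReal (measure_ne_top P E₁ᶜ), ← ENNReal.ofReal_toReal (measure_ne_top P E₂ᶜ), q1, q2, q3,
    ← ENNReal.ofReal_mul (by linarith), ← ENNReal.ofReal_mul (mul_nonneg (by linarith) (by linarith))]
  refine ENNReal.ofReal_le_ofReal ?_
  obtain ⟨H, hHd⟩ : ∃ H, H = (P E₁).toReal := ⟨_, rfl⟩
  obtain ⟨H', hHd'⟩ : ∃ H', H' = (P E₂).toReal := ⟨_, rfl⟩
  obtain ⟨p, hpd⟩ : ∃ p, p = (P (E₁ ∩ E₂)).toReal := ⟨_, rfl⟩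
  have hH0 : 0 ≤ H := by rw [hHd]; exact ENNReal.toReal_nonneg
  have hH0' : 0 ≤ H' := by rw [hHd']; exact ENNReal.toReal_nonneg
  have hp0 : 0 ≤ p := by rw [hpd]; exact ENNReal.toReal_nonneg
  rw [← hHd] at hH q4 ⊢
  rw [← hHd'] at hH' q4 ⊢
  rw [← hpd] at hp q4
  have h7 : 1 + 4 * p ≤ Real.exp (4 * (D * G A (a' - a))) := by
    have h8 : Real.exp (4 * p) ≤ Real.exp (4 * (D * G A (a' - a))) := Real.exp_le_exp.2 (by linarith)
    have := Real.add_one_le_exp (4 * p)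
    linarith
  have h9 : 1 / 4 ≤ (1 - H) * (1 - H') := by nlinarith
  calc 1 - (P (E₁ ∪ E₂)).toReal = 1 - H - H' + p := by linarith
    _ ≤ (1 - H) * (1 - H') + p := by nlinarith
    _ ≤ (1 - H) * (1 - H') * (1 + 4 * p) := by nlinarith
    _ ≤ (1 - H) * (1 - H') * Real.exp (4 * (D * G A (a' - a))) := mul_le_mul_of_nonneg_left h7 (by linarith)

/-- the second moment method -/
theorem second_moment {Z : Ω → ℝ≥0∞} (hZ : Measurable Z) {B m κ : ℝ} (hm : 0 < m)
    (hZB : ∀ ω, Z ω ≤ ENNReal.ofReal B) (h1 : ∫⁻ ω, Z ω ∂P = ENNReal.ofReal m)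
    (h2 : ∫⁻ ω, Z ω * Z ω ∂P ≤ ENNReal.ofReal (m ^ 2 * (1 + κ))) (hκ : 0 ≤ κ) :
    P {ω | Z ω = 0} ≤ ENNReal.ofReal κ := by
  set f : Ω → ℝ := fun ω => (Z ω).toReal with hf
  have hfm : Measurable f := hZ.ennreal_toReal
  have hZt : ∀ ω, Z ω ≠ ∞ := fun ω => ne_top_of_le_ne_top ENNReal.ofReal_ne_top (hZB ω)
  have hf0 : ∀ ω, 0 ≤ f ω := fun ω => ENNReal.toReal_nonneg
  have hfB : ∀ ω, f ω ≤ max B 0 := by
    intro ω
    have := ENNReal.toReal_mono ENNReal.ofReal_ne_top (hZB ω)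
    rwa [ENNReal.toReal_ofReal'] at this
  have hfi : Integrable f P := Integrable.of_bound (C := max B 0) hfm.aestronglyMeasurable
    (Eventually.of_forall fun ω => by rw [Real.norm_eq_abs, abs_of_nonneg (hf0 ω)]; exact hfB ω)
  have hf2i : Integrable (fun ω => f ω * f ω) P := Integrable.of_bound (C := max B 0 * max B 0)
    (hfm.mul hfm).aestronglyMeasurable
    (Eventually.of_forall fun ω => by
      rw [Real.norm_eq_abs, abs_of_nonneg (mul_nonneg (hf0 ω) (hf0 ω))]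
      exact mul_le_mul (hfB ω) (hfB ω) (hf0 ω) (le_max_right _ _))
  have e1 : ∫ ω, f ω ∂P = m := by
    rw [hf, integral_toReal hZ.aemeasurable (Eventually.of_forall fun ω => (hZt ω).lt_top), h1,
      ENNReal.toReal_ofReal hm.le]
  have e2 : ∫ ω, f ω * f ω ∂P ≤ m ^ 2 * (1 + κ) := by
    have h3 : (fun ω => f ω * f ω) = fun ω => (Z ω * Z ω).toReal := by
      funext ω
      rw [ENNReal.toReal_mul]
    have h4 := integral_toReal (μ := P) (f := fun ω => Z ω * Z ω) (hZ.mul hZ).aemeasurable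
      (Eventually.of_forall fun ω => (ENNReal.mul_ne_top (hZt ω) (hZt ω)).lt_top)
    rw [h3, h4]
    exact ENNReal.toReal_le_of_le_ofReal (by positivity) h2
  have e3 : ∫ ω, (f ω - m) ^ 2 ∂P ≤ m ^ 2 * κ := by
    have h3 : (fun ω => (f ω - m) ^ 2) = fun ω => f ω * f ω - 2 * m * f ω + m ^ 2 := by
      funext ω
      ring
    have i1 : Integrable (fun ω => 2 * m * f ω) P := hfi.const_mul _
    have i2 : Integrable (fun ω => f ω * f ω - 2 * m * f ω) P := hf2i.sub i1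
    rw [h3, integral_add i2 (integrable_const _),
      integral_sub hf2i i1, integral_const_mul, e1, integral_const, probReal_univ, one_smul]
    linarith
  have e4 := mul_meas_ge_le_integral_of_nonneg (μ := P) (f := fun ω => (f ω - m) ^ 2)
    (Eventually.of_forall fun ω => sq_nonneg _)
    (by
      have h3 : (fun ω => (f ω - m) ^ 2) = fun ω => f ω * f ω - 2 * m * f ω + m ^ 2 := by
        funext ω
        ring
      rw [h3]
      exact (hf2i.sub (hfi.const_mul _)).add (integrable_const _)) (m ^ 2)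
  have e5 : P.real {ω | m ^ 2 ≤ (f ω - m) ^ 2} ≤ κ := by
    have h3 : m ^ 2 * P.real {ω | m ^ 2 ≤ (f ω - m) ^ 2} ≤ m ^ 2 * κ := e4.trans e3
    exact le_of_mul_le_mul_left h3 (by positivity)
  have e6 : {ω | Z ω = 0} ⊆ {ω | m ^ 2 ≤ (f ω - m) ^ 2} := by
    intro ω hω
    have h3 : f ω = 0 := by
      show (Z ω).toReal = 0
      rw [show Z ω = 0 from hω, ENNReal.toReal_zero]
    show m ^ 2 ≤ (f ω - m) ^ 2
    rw [h3]
    nlinarith
  refine (measure_mono e6).trans ?_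
  rw [← ENNReal.ofReal_toReal (measure_ne_top P {ω | m ^ 2 ≤ (f ω - m) ^ 2})]
  exact ENNReal.ofReal_le_ofReal e5

end

/-- the translates which miss the gaps -/
def Kset {Ω : Type*} (c : ℕ → Ω → ℝ) (A : ℕ → Set ℝ) (s : Finset ℕ) (ω : Ω) : Set ℝ :=
  {a | ∀ i ∈ s, c i ω - a ∉ A i}

/-- the measure of the translates in a window which miss the gaps -/
noncomputable def ZZ {Ω : Type*} (c : ℕ → Ω → ℝ) (A : ℕ → Set ℝ) (s : Finset ℕ) (r B : ℝ) (ω : Ω) : ℝ≥0∞ :=
  (volume.restrict (Icc r (r + B))) (Kset c A s ω)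

theorem measurableSet_D {Ω : Type*} [MeasurableSpace Ω] {c : ℕ → Ω → ℝ} {A : ℕ → Set ℝ} {s : Finset ℕ}
    (hc : ∀ i ∈ s, Measurable (c i)) (hA : ∀ i, MeasurableSet (A i)) :
    MeasurableSet {p : Ω × ℝ | p.2 ∈ Kset c A s p.1} := by
  have h1 : {p : Ω × ℝ | p.2 ∈ Kset c A s p.1} = ⋂ i ∈ s, {p : Ω × ℝ | c i p.1 - p.2 ∉ A i} := by
    ext p
    simp only [Kset, mem_ofPred_eq, mem_iInter]
  rw [h1]
  refine Finset.measurableSet_biInter _ fun i hi => ?_
  exact (hA i).compl.preimage (((hc i hi).comp measurable_fst).sub measurable_snd)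

theorem measurable_ZZ {Ω : Type*} [MeasurableSpace Ω] {c : ℕ → Ω → ℝ} {A : ℕ → Set ℝ} {s : Finset ℕ}
    (hc : ∀ i ∈ s, Measurable (c i)) (hA : ∀ i, MeasurableSet (A i)) (r B : ℝ) : Measurable (ZZ c A s r B) :=
  measurable_measure_prodMk_left (measurableSet_D hc hA)

theorem ZZ_le {Ω : Type*} (c : ℕ → Ω → ℝ) (A : ℕ → Set ℝ) (s : Finset ℕ) (r B : ℝ) (ω : Ω) :
    ZZ c A s r B ω ≤ ENNReal.ofReal B := by
  unfold ZZ
  refine (measure_mono (subset_univ _)).trans (le_of_eq ?_)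
  rw [Measure.restrict_apply MeasurableSet.univ, univ_inter, Real.volume_Icc]
  congr 1
  ring

/-- the probability that a gap does not meet a translate -/
noncomputable def qq {Ω : Type*} [MeasurableSpace Ω] (P : Measure Ω) (c : ℕ → Ω → ℝ) (A : ℕ → Set ℝ) (i : ℕ) (a : ℝ) :
    ℝ≥0∞ := P {ω | c i ω - a ∉ A i}

theorem measurable_qq {Ω : Type*} [MeasurableSpace Ω] {P : Measure Ω} [IsProbabilityMeasure P] {c : ℕ → Ω → ℝ}
    {A : ℕ → Set ℝ} (hc : ∀ i, Measurable (c i)) (hA : ∀ i, MeasurableSet (A i)) (i : ℕ) : Measurable (qq P c A i) := by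
  have hs : MeasurableSet {p : ℝ × Ω | c i p.2 - p.1 ∉ A i} :=
    (hA i).compl.preimage (((hc i).comp measurable_snd).sub measurable_fst)
  exact measurable_measure_prodMk_left hs

theorem prob_zero_le {Ω : Type*} [MeasurableSpace Ω] {P : Measure Ω} [IsProbabilityMeasure P] {c : ℕ → Ω → ℝ}
    (hc : ∀ i, Measurable (c i)) {D : ℝ} (hD0 : 0 ≤ D)
    (hD : ∀ i, ∀ T : Set ℝ, MeasurableSet T → P (c i ⁻¹' T) ≤ ENNReal.ofReal D * volume T) (hind : iIndepFun c P)
    {s : Finset ℕ} (hs : s.Nonempty) {m : ℕ → ℝ} {A : ℕ → Set ℝ} {K B : ℝ} (hK : 0 ≤ K) (hB : 0 < B)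
    (hm : ∀ i, 0 < m i) (hA : ∀ i, MeasurableSet (A i)) (hAf : ∀ i, volume (A i) ≠ ∞)
    (hterm : ∀ i ∈ s, 4 * Real.exp (4 * (∑ j ∈ s, m j) * (D * (volume (A i)).toReal / m i)) *
      (D * min ((volume (A i)).toReal * (volume (A i)).toReal) (2 * B * (volume (A i)).toReal)) ≤ K * m i * B)
    (r : ℝ) (hhalf : ∀ i ∈ s, D * (volume (A i)).toReal ≤ 1 / 2) :
    P {ω | ZZ c A s r B ω = 0} ≤ ENNReal.ofReal (K * ∑ i ∈ s, m i) := by
  set Wd : Measure ℝ := volume.restrict (Icc r (r + B)) with hWd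
  have hWfin : Wd univ = ENNReal.ofReal B := by
    rw [hWd, Measure.restrict_apply MeasurableSet.univ, univ_inter, Real.volume_Icc]
    congr 1
    ring
  -- the weight
  set ρ : ℝ → ℝ≥0∞ := fun a => (∏ i ∈ s, qq P c A i a)⁻¹ with hρ
  have hprodm : Measurable fun a => ∏ i ∈ s, qq P c A i a :=
    Finset.measurable_prod s fun i _ => measurable_qq hc hA i
  have hρm : Measurable ρ := hprodm.inv
  have hq2 : ∀ i ∈ s, ∀ a, (2⁻¹ : ℝ≥0∞) ≤ qq P c A i a := by
    intro i hi a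
    have h1 : P {ω | c i ω - a ∈ A i} ≤ ENNReal.ofReal D * volume (A i) := by
      have h2 := hD i {y | y - a ∈ A i} ((hA i).preimage (f := fun y : ℝ => y - a) (by fun_prop))
      rw [volume_shift (hA i)] at h2
      exact h2
    have h3 : ENNReal.ofReal D * volume (A i) ≤ 2⁻¹ := by
      rw [← ENNReal.ofReal_toReal (hAf i), ← ENNReal.ofReal_mul hD0,
        show (2⁻¹ : ℝ≥0∞) = ENNReal.ofReal (1 / 2) by
          rw [one_div, ENNReal.ofReal_inv_of_pos (by norm_num), ENNReal.ofReal_ofNat]]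
      exact ENNReal.ofReal_le_ofReal (hhalf i hi)
    have h4 : qq P c A i a = 1 - P {ω | c i ω - a ∈ A i} :=
      prob_compl_eq_one_sub (measurableSet_hit (hc i) (hA i) a)
    rw [h4]
    calc (2⁻¹ : ℝ≥0∞) = 1 - 2⁻¹ := by rw [ENNReal.one_sub_inv_two]
      _ ≤ 1 - P {ω | c i ω - a ∈ A i} := tsub_le_tsub_left (h1.trans h3) _
  have hprod0 : ∀ a, (∏ i ∈ s, qq P c A i a) ≠ 0 := fun a =>
    Finset.prod_ne_zero_iff.2 fun i hi => (lt_of_lt_of_le (by simp) (hq2 i hi a)).ne'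
  have hprodt : ∀ a, (∏ i ∈ s, qq P c A i a) ≠ ∞ := fun a =>
    ENNReal.prod_ne_top fun i _ => measure_ne_top P _
  have hρle : ∀ a, ρ a ≤ 2 ^ s.card := by
    intro a
    have h1 : (2⁻¹ : ℝ≥0∞) ^ s.card ≤ ∏ i ∈ s, qq P c A i a := by
      rw [← Finset.prod_const]
      exact Finset.prod_le_prod' fun i hi => hq2 i hi a
    calc ρ a ≤ ((2⁻¹ : ℝ≥0∞) ^ s.card)⁻¹ := ENNReal.inv_le_inv.2 h1
      _ = 2 ^ s.card := by rw [ENNReal.inv_pow, inv_inv]
  have hDm := measurableSet_D (s := s) (fun i _ => hc i) hA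
  set f : Ω × ℝ → ℝ≥0∞ := {p : Ω × ℝ | p.2 ∈ Kset c A s p.1}.indicator fun p => ρ p.2 with hf
  have hfm : Measurable f := (hρm.comp measurable_snd).indicator hDm
  set Z : Ω → ℝ≥0∞ := fun ω => ∫⁻ a, f (ω, a) ∂Wd with hZ
  have hZm : Measurable Z := hfm.lintegral_prod_right'
  have hZle : ∀ ω, Z ω ≤ ENNReal.ofReal (2 ^ s.card * B) := by
    intro ω
    calc Z ω ≤ ∫⁻ _a, (2 : ℝ≥0∞) ^ s.card ∂Wd := by
          refine lintegral_mono fun a => ?_
          exact (indicator_le_self' (fun _ _ => zero_le) _).trans (hρle a)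
      _ = ENNReal.ofReal (2 ^ s.card * B) := by
          rw [lintegral_const, hWfin, ENNReal.ofReal_mul (by positivity), ENNReal.ofReal_pow (by norm_num)]
          simp
  have hsub : {ω | ZZ c A s r B ω = 0} ⊆ {ω | Z ω = 0} := by
    intro ω hω
    have h1 : Wd (Kset c A s ω) = 0 := hω
    show ∫⁻ a, f (ω, a) ∂Wd = 0
    have h2 : (fun a => f (ω, a)) = (Kset c A s ω).indicator ρ := by
      funext a
      rfl
    have hKm : MeasurableSet (Kset c A s ω) := measurable_prodMk_left hDm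
    rw [h2, lintegral_indicator hKm]
    exact setLIntegral_measure_zero _ _ h1
  refine (measure_mono hsub).trans ?_
  refine second_moment hZm (B := 2 ^ s.card * B) (m := B) hB hZle ?_ ?_
    (mul_nonneg (by positivity) (Finset.sum_nonneg fun i _ => (hm i).le))
  · -- the first moment
    rw [hZ, lintegral_lintegral_swap (f := fun ω a => f (ω, a)) (show AEMeasurable
      (Function.uncurry fun ω a => f (ω, a)) (P.prod Wd) from hfm.aemeasurable)]
    have h2 : ∀ a : ℝ, ∫⁻ ω, f (ω, a) ∂P = 1 := by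
      intro a
      have h3 : (fun ω => f (ω, a)) = (⋂ i ∈ s, c i ⁻¹' {y | y - a ∉ A i}).indicator fun _ => ρ a := by
        funext ω
        have h4 : (ω, a) ∈ {p : Ω × ℝ | p.2 ∈ Kset c A s p.1} ↔ ω ∈ ⋂ i ∈ s, c i ⁻¹' {y | y - a ∉ A i} := by
          simp only [Kset, mem_preimage, mem_ofPred_eq, mem_iInter]
        by_cases h5 : ω ∈ ⋂ i ∈ s, c i ⁻¹' {y | y - a ∉ A i}
        · rw [indicator_of_mem h5, hf, indicator_of_mem (h4.2 h5)]
        · rw [indicator_of_notMem h5, hf, indicator_of_notMem (fun h => h5 (h4.1 h))]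
      have h4 : ∀ i, MeasurableSet {y : ℝ | y - a ∉ A i} := fun i =>
        (hA i).compl.preimage (f := fun y : ℝ => y - a) (by fun_prop)
      rw [h3, lintegral_indicator_const (Finset.measurableSet_biInter _ fun i _ => hc i (h4 i)),
        hind.measure_inter_preimage_eq_mul s fun i _ => h4 i]
      exact ENNReal.inv_mul_cancel (hprod0 a) (hprodt a)
    simp only [h2]
    rw [lintegral_const, one_mul, hWfin]
  · -- the second moment
    have h1 : ∀ ω, Z ω * Z ω = ∫⁻ p, f (ω, p.1) * f (ω, p.2) ∂(Wd.prod Wd) := by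
      intro ω
      have hfω : Measurable fun a => f (ω, a) := hfm.comp measurable_prodMk_left
      exact (lintegral_prod_mul hfω.aemeasurable hfω.aemeasurable).symm
    simp only [h1]
    have hFm : Measurable fun q : Ω × (ℝ × ℝ) => f (q.1, q.2.1) * f (q.1, q.2.2) :=
      (hfm.comp (measurable_fst.prodMk (measurable_fst.comp measurable_snd))).mul
        (hfm.comp (measurable_fst.prodMk (measurable_snd.comp measurable_snd)))
    rw [lintegral_lintegral_swap (f := fun ω (p : ℝ × ℝ) => f (ω, p.1) * f (ω, p.2)) (show AEMeasurable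
      (Function.uncurry fun ω (p : ℝ × ℝ) => f (ω, p.1) * f (ω, p.2)) (P.prod (Wd.prod Wd)) from hFm.aemeasurable)]
    have h2 : ∀ p : ℝ × ℝ, ∫⁻ ω, f (ω, p.1) * f (ω, p.2) ∂P ≤
        ENNReal.ofReal (Real.exp (4 * ∑ i ∈ s, D * G (A i) (p.2 - p.1))) := by
      intro p
      have h4 : ∀ i, MeasurableSet {y : ℝ | y - p.1 ∉ A i ∧ y - p.2 ∉ A i} := fun i =>
        ((hA i).compl.preimage (f := fun y : ℝ => y - p.1) (by fun_prop)).inter
          ((hA i).compl.preimage (f := fun y : ℝ => y - p.2) (by fun_prop))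
      have h3 : (fun ω => f (ω, p.1) * f (ω, p.2)) =
          (⋂ i ∈ s, c i ⁻¹' {y | y - p.1 ∉ A i ∧ y - p.2 ∉ A i}).indicator fun _ => ρ p.1 * ρ p.2 := by
        funext ω
        have h5 : ω ∈ (⋂ i ∈ s, c i ⁻¹' {y | y - p.1 ∉ A i ∧ y - p.2 ∉ A i}) ↔
            (ω, p.1) ∈ {p : Ω × ℝ | p.2 ∈ Kset c A s p.1} ∧ (ω, p.2) ∈ {p : Ω × ℝ | p.2 ∈ Kset c A s p.1} := by
          simp only [Kset, mem_preimage, mem_ofPred_eq, mem_iInter]
          exact ⟨fun h => ⟨fun i hi => (h i hi).1, fun i hi => (h i hi).2⟩, fun h i hi => ⟨h.1 i hi, h.2 i hi⟩⟩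
        by_cases h6 : ω ∈ ⋂ i ∈ s, c i ⁻¹' {y | y - p.1 ∉ A i ∧ y - p.2 ∉ A i}
        · rw [indicator_of_mem h6, hf, indicator_of_mem (h5.1 h6).1, indicator_of_mem (h5.1 h6).2]
        · rw [indicator_of_notMem h6, hf]
          by_cases h7 : (ω, p.1) ∈ {p : Ω × ℝ | p.2 ∈ Kset c A s p.1}
          · have h8 : (ω, p.2) ∉ {p : Ω × ℝ | p.2 ∈ Kset c A s p.1} := fun h => h6 (h5.2 ⟨h7, h⟩)
            rw [indicator_of_notMem h8, mul_zero]
          · rw [indicator_of_notMem h7, zero_mul]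
      rw [h3, lintegral_indicator_const (Finset.measurableSet_biInter _ fun i _ => hc i (h4 i)),
        hind.measure_inter_preimage_eq_mul s fun i _ => h4 i]
      have h5 : ∀ i ∈ s, P (c i ⁻¹' {y | y - p.1 ∉ A i ∧ y - p.2 ∉ A i}) ≤
          qq P c A i p.1 * qq P c A i p.2 * ENNReal.ofReal (Real.exp (4 * (D * G (A i) (p.2 - p.1)))) := fun i hi =>
        avoid_two (hc i) hD0 (hD i) (hA i) (hAf i) (hhalf i hi) p.1 p.2
      refine (mul_le_mul_right (Finset.prod_le_prod' h5) _).trans (le_of_eq ?_)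
      rw [Finset.prod_mul_distrib, Finset.prod_mul_distrib, ← ENNReal.ofReal_prod_of_nonneg fun i _ => by positivity,
        ← Real.exp_sum, ← Finset.mul_sum]
      have h6 : ρ p.1 * ∏ i ∈ s, qq P c A i p.1 = 1 := ENNReal.inv_mul_cancel (hprod0 p.1) (hprodt p.1)
      have h7 : ρ p.2 * ∏ i ∈ s, qq P c A i p.2 = 1 := ENNReal.inv_mul_cancel (hprod0 p.2) (hprodt p.2)
      calc ρ p.1 * ρ p.2 * ((∏ i ∈ s, qq P c A i p.1) * (∏ i ∈ s, qq P c A i p.2) *
            ENNReal.ofReal (Real.exp (4 * ∑ i ∈ s, D * G (A i) (p.2 - p.1))))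
          = (ρ p.1 * ∏ i ∈ s, qq P c A i p.1) * (ρ p.2 * ∏ i ∈ s, qq P c A i p.2) *
            ENNReal.ofReal (Real.exp (4 * ∑ i ∈ s, D * G (A i) (p.2 - p.1))) := by ring
        _ = ENNReal.ofReal (Real.exp (4 * ∑ i ∈ s, D * G (A i) (p.2 - p.1))) := by rw [h6, h7, one_mul, one_mul]
    refine (lintegral_mono h2).trans ?_
    exact int_pair hs hK hB hm hD0 hA hAf hterm r

end Pool.Agent.H56.ES.Gap
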