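import Pool.Agent.H56.ES.RndB

/-!
MP_6045a2_an. Random gaps of finite total length: almost surely the complement contains similar copies.
-/

set_option autoImplicit false

open MeasureTheory Set Filter Topology Metric ProbabilityTheory
open scoped ENNReal

namespace Pool.Agent.H56.ES.Gap

theorem volume_U_le3 (X : Set ℝ) {B l : ℝ} (hB : 0 < B) (hB1 : B ≤ 1) (hl : 0 < l) :
    volume (U X B l) ≤ 3 * volume (thickening l X) := by
  have h1 : U X B l = (fun c : ℝ => -c) ⁻¹' {a | ∃ x ∈ X, a + B * x ∈ Ioo 0 (0 + l)} := by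
    ext c
    simp only [U, mem_ofPred_eq, mem_preimage, mem_Ioo, zero_add]
    constructor
    · rintro ⟨x, hx, h1, h2⟩
      exact ⟨x, hx, by linarith, by linarith⟩
    · rintro ⟨x, hx, h1, h2⟩
      exact ⟨x, hx, by linarith, by linarith⟩
  have h2 : volume (U X B l) = volume {a | ∃ x ∈ X, a + B * x ∈ Ioo 0 (0 + l)} := by
    rw [h1]
    exact Measure.measure_preimage_neg volume _
  rw [h2]
  exact hit_le hl X 0 (by rw [abs_of_pos hB]; exact hB1)

theorem volume_U_large {X : Set ℝ} {R : ℝ} (hR0 : 0 ≤ R) (hR : ∀ x ∈ X, |x| ≤ R) {B l : ℝ} (hB : 0 < B) (hBl : B ≤ l) :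
    volume (U X B l) ≤ ENNReal.ofReal ((2 * R + 1) * l) := by
  have h1 : U X B l ⊆ Ioo (-(B * R) - l) (B * R) := by
    rintro c ⟨x, hx, h1, h2⟩
    have h3 : |B * x| ≤ B * R := by
      rw [abs_mul, abs_of_pos hB]
      exact mul_le_mul_of_nonneg_left (hR x hx) hB.le
    have h4 := abs_le.1 h3
    constructor <;> linarith
  refine (measure_mono h1).trans ?_
  rw [Real.volume_Ioo]
  refine ENNReal.ofReal_le_ofReal ?_
  have : B * R ≤ l * R := mul_le_mul_of_nonneg_right hBl hR0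
  linarith

/-- the window lies in `(u, v)` and is not met by the first gaps -/
def Free {Ω : Type*} (c : ℕ → Ω → ℝ) (l : ℕ → ℝ) (m : ℕ) (u v R r B : ℝ) : Set Ω :=
  {ω | (0 < B ∧ B ≤ 1 ∧ u < r - B * R ∧ r + B + B * R < v) ∧
    ∀ i ∈ Finset.range m, ∀ y ∈ Icc (r - B * R) (r + B + B * R), y ∉ Ioo (c i ω) (c i ω + l i)}

theorem measurableSet_Free {Ω : Type*} [MeasurableSpace Ω] {c : ℕ → Ω → ℝ} {m : ℕ}
    (hc : ∀ i ∈ Finset.range m, Measurable (c i)) (l : ℕ → ℝ) (u v R r B : ℝ) :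
    MeasurableSet (Free c l m u v R r B) := by
  have h1 : Free c l m u v R r B = {_ω | 0 < B ∧ B ≤ 1 ∧ u < r - B * R ∧ r + B + B * R < v} ∩
      ⋂ i ∈ Finset.range m, c i ⁻¹' (⋃ y ∈ Icc (r - B * R) (r + B + B * R), Ioo (y - l i) y)ᶜ := by
    ext ω
    simp only [Free, mem_ofPred_eq, mem_inter_iff, mem_iInter, mem_preimage, mem_compl_iff, mem_iUnion, not_exists]
    refine and_congr_right fun _ => forall₂_congr fun i _ => forall₂_congr fun y _ => not_congr ?_
    exact ⟨fun h => ⟨by linarith [h.2], h.1⟩, fun h => ⟨h.2, by linarith [h.1]⟩⟩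
  rw [h1]
  refine MeasurableSet.inter (MeasurableSet.const _) (Finset.measurableSet_biInter _ fun i hi => ?_)
  exact (hc i hi) (isOpen_biUnion fun y _ => isOpen_Ioo).measurableSet.compl

/-- there is a window which is not met by the first gaps -/
theorem exists_free {Ω : Type*} (c : ℕ → Ω → ℝ) (l : ℕ → ℝ) (m : ℕ) {u v R : ℝ} (hR : 0 ≤ R)
    {β : ℕ → ℝ} (hβ : ∀ k, 0 < β k) (hβ0 : Tendsto β atTop (𝓝 0))
    (ω : Ω) (hω : 0 < volume (Ioo u v \ ⋃ i, Ioo (c i ω) (c i ω + l i))) :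
    ∃ (r : ℚ) (k : ℕ), ω ∈ Free c l m u v R r (β k) := by
  set Q : Set ℝ := Ioo u v ∩ ⋂ i ∈ Finset.range m, (Icc (c i ω) (c i ω + l i))ᶜ with hQ
  have hQo : IsOpen Q := isOpen_Ioo.inter (isOpen_biInter_finset fun i _ => isClosed_Icc.isOpen_compl)
  have hQne : Q.Nonempty := by
    by_contra hcon
    rw [not_nonempty_iff_eq_empty] at hcon
    have h1 : Ioo u v \ ⋃ i, Ioo (c i ω) (c i ω + l i) ⊆ ⋃ i : ℕ, {c i ω, c i ω + l i} := by
      rintro y ⟨hy1, hy2⟩
      by_contra h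
      have h2 : y ∈ Q := by
        refine ⟨hy1, mem_iInter₂.2 fun i hi h' => ?_⟩
        rcases h'.1.eq_or_lt with h3 | h3
        · exact h (mem_iUnion.2 ⟨i, Or.inl h3.symm⟩)
        · rcases h'.2.eq_or_lt with h4 | h4
          · exact h (mem_iUnion.2 ⟨i, Or.inr h4⟩)
          · exact hy2 (mem_iUnion.2 ⟨i, h3, h4⟩)
      rw [hcon] at h2
      exact h2
    have h2 : volume (⋃ i : ℕ, ({c i ω, c i ω + l i} : Set ℝ)) = 0 :=
      (countable_iUnion fun i => (Set.toFinite _).countable).measure_zero _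
    exact absurd (measure_mono_null h1 h2) hω.ne'
  obtain ⟨y, hy⟩ := hQne
  obtain ⟨ρ, hρ0, hρ⟩ := Metric.isOpen_iff.1 hQo y hy
  have e1 : ∀ᶠ k in atTop, β k < min 1 (ρ / (2 * (1 + R))) := hβ0.eventually_lt_const (by positivity)
  obtain ⟨k, hk⟩ := e1.exists
  obtain ⟨r, hr1, hr2⟩ := exists_rat_btwn (show y - ρ / 2 < y + ρ / 2 by linarith)
  have hB1 : β k ≤ 1 := (hk.trans_le (min_le_left _ _)).le
  have hBρ : β k * (1 + R) < ρ / 2 := by
    have h1 := hk.trans_le (min_le_right _ _)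
    rw [lt_div_iff₀ (by positivity)] at h1
    linarith
  have hBR : 0 ≤ β k * R := mul_nonneg (hβ k).le hR
  have hsub : Icc ((r : ℝ) - β k * R) (r + β k + β k * R) ⊆ Q := by
    intro z hz
    refine hρ ?_
    rw [Metric.mem_ball, Real.dist_eq, abs_lt]
    have := hβ k
    constructor <;> linarith [hz.1, hz.2]
  have hle : (r : ℝ) - β k * R ≤ r + β k + β k * R := by have := hβ k; linarith
  refine ⟨r, k, ⟨hβ k, hB1, ?_, ?_⟩, ?_⟩
  · exact (hsub (left_mem_Icc.2 hle)).1.1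
  · exact (hsub (right_mem_Icc.2 hle)).1.2
  · intro i hi z hz h1
    have h2 := mem_iInter₂.1 (hsub hz).2 i hi
    exact h2 ⟨h1.1.le, h1.2.le⟩

theorem Free_anti {Ω : Type*} (c : ℕ → Ω → ℝ) (l : ℕ → ℝ) (m : ℕ) (u v : ℝ) {R : ℝ} (hR : 0 ≤ R) (r : ℝ) {B B' : ℝ}
    (hB' : 0 < B') (h : B' ≤ B) : Free c l m u v R r B ⊆ Free c l m u v R r B' := by
  rintro ω ⟨⟨h1, h2, h3, h4⟩, h5⟩
  have h6 : B' * R ≤ B * R := mul_le_mul_of_nonneg_right h hR
  refine ⟨⟨hB', h.trans h2, by linarith, by linarith⟩, fun i hi y hy => h5 i hi y ⟨?_, ?_⟩⟩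
  · linarith [hy.1]
  · linarith [hy.2]

/-- the part of `(u, v)` outside the gaps contains a similar copy with ratio `B` -/
def Copy {Ω : Type*} (c : ℕ → Ω → ℝ) (l : ℕ → ℝ) (X : Set ℝ) (u v B : ℝ) : Set Ω :=
  {ω | ∃ a : ℝ, ∀ x ∈ X, a + B * x ∈ Ioo u v \ ⋃ i, Ioo (c i ω) (c i ω + l i)}

/-- the part of `(u, v)` outside the gaps has positive measure -/
def Pos {Ω : Type*} (c : ℕ → Ω → ℝ) (l : ℕ → ℝ) (u v : ℝ) : Set Ω :=
  {ω | 0 < volume (Ioo u v \ ⋃ i, Ioo (c i ω) (c i ω + l i))}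

/-- **random gaps**: the probability that the complement contains a similar copy with a given small ratio -/
theorem random_gaps {Ω : Type*} [mΩ : MeasurableSpace Ω] {P : Measure Ω} [IsProbabilityMeasure P] {c : ℕ → Ω → ℝ}
    (hc : ∀ i, Measurable (c i)) {D : ℝ} (hD0 : 0 < D)
    (hD : ∀ i, ∀ T : Set ℝ, MeasurableSet T → P (c i ⁻¹' T) ≤ ENNReal.ofReal D * volume T) (hind : iIndepFun c P)
    {X : Set ℝ} (hXb : Bornology.IsBounded X) {σ C₀ : ℝ} (hσ : 0 < σ)
    (hV : ∀ t : ℝ, 0 < t → t ≤ 1 → volume (thickening t X) ≤ ENNReal.ofReal (C₀ * t ^ σ))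
    {l : ℕ → ℝ} (hl : ∀ i, 0 < l i) (hls : Summable l)
    (hlV : Summable fun i => (volume (thickening (l i) X)).toReal / |Real.log (l i)|)
    (u v : ℝ) {ε : ℝ} (hε : 0 < ε) :
    ∃ b₀ : ℝ, 0 < b₀ ∧ ∀ B : ℝ, 0 < B → B ≤ b₀ → P (Pos c l u v \ Copy c l X u v B) ≤ ENNReal.ofReal (2 * ε) := by
  obtain ⟨R₀, hR₀⟩ := hXb.exists_norm_le
  obtain ⟨R, hRdef⟩ : ∃ R, R = |R₀| := ⟨_, rfl⟩
  have hR0 : 0 ≤ R := by rw [hRdef]; exact abs_nonneg _
  have hR : ∀ x ∈ X, |x| ≤ R := fun x hx => by rw [hRdef]; exact (hR₀ x hx).trans (le_abs_self R₀)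
  obtain ⟨C, hCdef⟩ : ∃ C : ℝ, C = |C₀| + 1 := ⟨_, rfl⟩
  have hC : 0 < C := by rw [hCdef]; positivity
  have hVt : ∀ t : ℝ, volume (thickening t X) ≠ ∞ := fun t => (hXb.thickening (δ := t)).measure_lt_top.ne
  have hVC : ∀ t : ℝ, 0 < t → t ≤ 1 → (volume (thickening t X)).toReal ≤ C * t ^ σ := by
    intro t ht ht1
    refine ENNReal.toReal_le_of_le_ofReal (by positivity) ((hV t ht ht1).trans (ENNReal.ofReal_le_ofReal ?_))
    refine mul_le_mul_of_nonneg_right ?_ (by positivity)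
    rw [hCdef]
    linarith [le_abs_self C₀]
  obtain ⟨κ, hκ⟩ : ∃ κ : ℝ, κ = D * (16 * (2 * R + 1) + 72 * C / σ) := ⟨_, rfl⟩
  have hκ0 : 0 < κ := by rw [hκ]; positivity
  set wt : ℕ → ℝ := fun i => l i + (volume (thickening (l i) X)).toReal / |Real.log (l i)| with hwt
  have hwt0 : ∀ i, 0 < wt i := fun i => add_pos_of_pos_of_nonneg (hl i) (by positivity)
  have hwts : Summable wt := hls.add hlV
  -- the choice of `m`
  have e1 : ∀ᶠ m in atTop, ∑' i, wt (i + m) < min (min (1 / (8 * D * (2 * R + 1))) (σ / (48 * D))) (ε / κ) :=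
    (tendsto_sum_nat_add wt).eventually_lt_const (by positivity)
  have e2 : ∀ᶠ i in atTop, l i < 1 :=
    hls.tendsto_atTop_zero.eventually_lt_const one_pos
  have e3 : ∀ᶠ i in atTop, D * (3 * (C * l i ^ σ)) < 1 / 2 := by
    have h1 : Tendsto (fun i => D * (3 * (C * l i ^ σ))) atTop (𝓝 (D * (3 * (C * 0 ^ σ)))) :=
      (((hls.tendsto_atTop_zero.rpow_const (Or.inr hσ.le)).const_mul C).const_mul 3).const_mul D
    rw [Real.zero_rpow hσ.ne', mul_zero, mul_zero, mul_zero] at h1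
    exact h1.eventually_lt_const (by norm_num)
  obtain ⟨m₁, hm₁⟩ := eventually_atTop.1 (e2.and e3)
  obtain ⟨m, hm, hmm₁⟩ := (e1.and (eventually_ge_atTop m₁)).exists
  have hli : ∀ i, m ≤ i → l i < 1 := fun i hi => (hm₁ i (hmm₁.trans hi)).1
  have hlC : ∀ i, m ≤ i → D * (3 * (C * l i ^ σ)) < 1 / 2 := fun i hi => (hm₁ i (hmm₁.trans hi)).2
  have htail : ∀ M, ∑ i ∈ Finset.Ico m M, wt i ≤ ∑' i, wt (i + m) := by
    intro M
    rw [Finset.sum_Ico_eq_sum_range]
    have h1 := ((summable_nat_add_iff m).2 hwts).sum_le_tsum (Finset.range (M - m)) (fun i _ => (hwt0 _).le)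
    refine le_trans (le_of_eq (Finset.sum_congr rfl fun i _ => ?_)) h1
    rw [add_comm]
  have hΛC : ∀ M, 8 * ((∑ i ∈ Finset.Ico m M, wt i) * D) * (2 * R + 1) ≤ 1 := by
    intro M
    have h1 := (htail M).trans (hm.le.trans ((min_le_left _ _).trans (min_le_left _ _)))
    rw [le_div_iff₀ (by positivity)] at h1
    refine le_trans (le_of_eq ?_) h1
    ring
  have hΛσ : ∀ M, 48 * ((∑ i ∈ Finset.Ico m M, wt i) * D) ≤ σ := by
    intro M
    have h1 := (htail M).trans (hm.le.trans ((min_le_left _ _).trans (min_le_right _ _)))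
    rw [le_div_iff₀ (by positivity)] at h1
    refine le_trans (le_of_eq ?_) h1
    ring
  have hκΛ : ∀ M, κ * ∑ i ∈ Finset.Ico m M, wt i ≤ ε := by
    intro M
    have h1 := (htail M).trans (hm.le.trans (min_le_right _ _))
    rwa [le_div_iff₀ hκ0, mul_comm] at h1
  -- the windows
  obtain ⟨hden⟩ := nonempty_denumerable ℚ
  set e : ℚ ≃ ℕ := Denumerable.eqv _ with he
  set F : ℝ → ℕ → Set Ω := fun w n => Free c l m u v R (e.symm n : ℝ) w with hF
  have hFmΩ : ∀ w n, MeasurableSet (F w n) := fun w n => measurableSet_Free (fun i _ => hc i) l u v R _ _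
  -- free windows exist with high probability
  obtain ⟨w, hw, hΦ⟩ : ∃ w : ℝ, 0 < w ∧ P (Pos c l u v \ ⋃ n, F w n) ≤ ENNReal.ofReal ε := by
    have hβ : ∀ k : ℕ, (0 : ℝ) < 1 / (k + 1) := fun k => by positivity
    set Θ : Set Ω := ⋃ k : ℕ, ⋃ n, F (1 / ((k : ℝ) + 1)) n with hΘ
    have hΘm : MeasurableSet Θ := MeasurableSet.iUnion fun k => MeasurableSet.iUnion fun n => hFmΩ _ n
    have hanti : Antitone fun k : ℕ => Θ \ ⋃ n, F (1 / ((k : ℝ) + 1)) n := by
      intro k k' hkk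
      refine sdiff_subset_sdiff_right (iUnion_mono fun n => ?_)
      refine Free_anti c l m u v hR0 _ (hβ k') ?_
      exact one_div_le_one_div_of_le (by positivity) (by have : (k : ℝ) ≤ k' := by exact_mod_cast hkk
                                                         linarith)
    have h1 := tendsto_measure_iInter_atTop (μ := P)
      (fun k : ℕ => (hΘm.diff (MeasurableSet.iUnion fun n => hFmΩ (1 / ((k : ℝ) + 1)) n)).nullMeasurableSet)
      hanti ⟨0, measure_ne_top _ _⟩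
    have h2 : ⋂ k : ℕ, (Θ \ ⋃ n, F (1 / ((k : ℝ) + 1)) n) = ∅ := by
      refine eq_empty_of_forall_notMem fun ω hω => ?_
      obtain ⟨k, hk⟩ := mem_iUnion.1 (mem_iInter.1 hω 0).1
      exact (mem_iInter.1 hω k).2 hk
    rw [h2, measure_empty] at h1
    have h3 : (0 : ℝ≥0∞) < ENNReal.ofReal ε := ENNReal.ofReal_pos.2 hε
    obtain ⟨k, hk⟩ := (h1.eventually_le_const h3).exists
    refine ⟨1 / (k + 1), hβ k, (measure_mono ?_).trans hk⟩
    refine sdiff_subset_sdiff_left fun ω hω => ?_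
    obtain ⟨r, k, h⟩ := exists_free c l m hR0 hβ tendsto_one_div_add_atTop_nhds_zero_nat ω hω
    refine mem_iUnion.2 ⟨k, mem_iUnion.2 ⟨e r, ?_⟩⟩
    simp only [hF, Equiv.symm_apply_apply]
    exact h
  refine ⟨min (min 1 w) (w ^ (4 / σ)), by positivity, fun B hB hBb => ?_⟩
  have hB1 : B ≤ 1 := hBb.trans ((min_le_left _ _).trans (min_le_left _ _))
  have hBw : B ≤ w := hBb.trans ((min_le_left _ _).trans (min_le_right _ _))
  have hBσ : B ≤ w ^ (4 / σ) := hBb.trans (min_le_right _ _)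
  set A : ℕ → Set ℝ := fun i => U X B (l i) with hAdef
  have hA : ∀ i, MeasurableSet (A i) := fun i => (isOpen_U X _ _).measurableSet
  have hA3 : ∀ i, volume (A i) ≤ 3 * volume (thickening (l i) X) := fun i => volume_U_le3 X hB hB1 (hl i)
  have hAf : ∀ i, volume (A i) ≠ ∞ := fun i =>
    ne_top_of_le_ne_top (ENNReal.mul_ne_top (by simp) (hVt _)) (hA3 i)
  have hA3' : ∀ i, (volume (A i)).toReal ≤ 3 * (volume (thickening (l i) X)).toReal := by
    intro i
    have h1 := ENNReal.toReal_mono (ENNReal.mul_ne_top (by simp) (hVt (l i))) (hA3 i)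
    rw [ENNReal.toReal_mul] at h1
    simpa using h1
  have hterm : ∀ M, ∀ i ∈ Finset.Ico m M, 4 * Real.exp (4 * (∑ j ∈ Finset.Ico m M, wt j) *
      (D * (volume (A i)).toReal / wt i)) * (D * min ((volume (A i)).toReal * (volume (A i)).toReal)
        (2 * w * (volume (A i)).toReal)) ≤ κ * wt i * w := by
    intro M i hi
    have him := (Finset.mem_Ico.1 hi).1
    have hΛ0 : 0 ≤ (∑ j ∈ Finset.Ico m M, wt j) * D :=
      mul_nonneg (Finset.sum_nonneg fun j _ => (hwt0 j).le) hD0.le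
    have hwti := hwt0 i
    have hgoal : 4 * Real.exp (4 * ((∑ j ∈ Finset.Ico m M, wt j) * D) * ((volume (A i)).toReal / wt i)) *
        min ((volume (A i)).toReal * (volume (A i)).toReal) (2 * w * (volume (A i)).toReal) ≤
        (16 * (2 * R + 1) + 72 * C / σ) * wt i * w → 4 * Real.exp (4 * (∑ j ∈ Finset.Ico m M, wt j) *
      (D * (volume (A i)).toReal / wt i)) * (D * min ((volume (A i)).toReal * (volume (A i)).toReal)
        (2 * w * (volume (A i)).toReal)) ≤ κ * wt i * w := by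
      intro h
      have h1 := mul_le_mul_of_nonneg_left h hD0.le
      rw [show 4 * (∑ j ∈ Finset.Ico m M, wt j) * (D * (volume (A i)).toReal / wt i) =
        4 * ((∑ j ∈ Finset.Ico m M, wt j) * D) * ((volume (A i)).toReal / wt i) by ring, hκ]
      refine le_trans (le_of_eq ?_) (h1.trans (le_of_eq ?_)) <;> ring
    refine hgoal ?_
    rcases le_or_gt B (l i) with h | h
    · have h1 : (volume (A i)).toReal ≤ (2 * R + 1) * l i := by
        refine ENNReal.toReal_le_of_le_ofReal (by have := hl i; positivity) (volume_U_large hR0 hR hB h)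
      refine (term_large (by positivity) hw (hl i) ENNReal.toReal_nonneg h1 (le_add_of_nonneg_right (by positivity)) hΛ0
        (hΛC M)).trans ?_
      have h2 : 0 ≤ 72 * C / σ * wt i * w := by positivity
      linarith
    · have hl1 : l i < 1 := h.trans_le hB1
      refine (term_small hσ hC hw (hl i) hl1 ENNReal.toReal_nonneg (hA3' i) (hVC _ (hl i) hl1.le)
        (le_add_of_nonneg_left (hl i).le) hwti hΛ0 (hΛσ M) ?_).trans ?_
      · have h1 : l i ^ (σ / 4) ≤ (w ^ (4 / σ)) ^ (σ / 4) :=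
          Real.rpow_le_rpow (hl i).le (h.le.trans hBσ) (by positivity)
        rwa [← Real.rpow_mul hw.le, show 4 / σ * (σ / 4) = 1 by field_simp, Real.rpow_one] at h1
      · have h2 : 0 ≤ 16 * (2 * R + 1) * wt i * w := by positivity
        linarith
  set Nn : ℕ → Set Ω := fun n => ⋃ M : ℕ,
    {ω | ZZ c A (Finset.Ico m (m + 1 + M)) (e.symm n : ℝ) w ω = 0} with hNn
  -- the probability of a failure in a window
  have hprob : ∀ n, P (Nn n) ≤ ENNReal.ofReal ε := by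
    intro n
    have hmono : Monotone fun M : ℕ =>
        {ω | ZZ c A (Finset.Ico m (m + 1 + M)) (e.symm n : ℝ) w ω = 0} := by
      intro M M' hMM ω hω
      refine le_antisymm (le_trans (measure_mono ?_) (le_of_eq hω)) zero_le
      intro a ha i hi
      refine ha i ?_
      rw [Finset.mem_Ico] at hi ⊢
      exact ⟨hi.1, by omega⟩
    rw [hNn, hmono.measure_iUnion]
    refine iSup_le fun M => ?_
    refine (prob_zero_le hc hD0.le hD hind (s := Finset.Ico m (m + 1 + M)) ⟨m, Finset.mem_Ico.2 ⟨le_rfl, by omega⟩⟩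
      hκ0.le hw hwt0 hA hAf (hterm _) _ ?_).trans (ENNReal.ofReal_le_ofReal (hκΛ _))
    intro i hi
    have him := (Finset.mem_Ico.1 hi).1
    have h1 := hVC _ (hl i) (hli i him).le
    have h2 := hlC i him
    have h3 := hA3' i
    have h4 : D * (volume (A i)).toReal ≤ D * (3 * (C * l i ^ σ)) := mul_le_mul_of_nonneg_left (by linarith) hD0.le
    linarith
  -- independence
  set G₁ : MeasurableSpace Ω := ⨆ i ∈ Iio m, MeasurableSpace.comap (c i) inferInstance with hG₁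
  set G₂ : MeasurableSpace Ω := ⨆ i ∈ Ici m, MeasurableSpace.comap (c i) inferInstance with hG₂
  have hindep : Indep G₁ G₂ P := by
    refine indep_iSup_of_disjoint (fun i => (hc i).comap_le) hind ?_
    rw [Set.disjoint_left]
    intro i h1 h2
    exact absurd (mem_Iio.1 h1) (not_lt.2 (mem_Ici.1 h2))
  have hc1 : ∀ i ∈ Finset.range m, Measurable[G₁] (c i) := by
    intro i hi
    have h1 : MeasurableSpace.comap (c i) inferInstance ≤ G₁ :=
      le_iSup₂_of_le i (mem_Iio.2 (Finset.mem_range.1 hi)) le_rfl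
    exact measurable_iff_comap_le.2 h1
  have hc2 : ∀ i, m ≤ i → Measurable[G₂] (c i) := by
    intro i hi
    have h1 : MeasurableSpace.comap (c i) inferInstance ≤ G₂ := le_iSup₂_of_le i (mem_Ici.2 hi) le_rfl
    exact measurable_iff_comap_le.2 h1
  have hFm : ∀ n, MeasurableSet[G₁] (F w n) := fun n =>
    @measurableSet_Free Ω G₁ c m hc1 l u v R _ _
  have hNm : ∀ n, MeasurableSet[G₂] (Nn n) := by
    intro n
    refine @MeasurableSet.iUnion Ω ℕ G₂ _ _ fun M => ?_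
    have h1 : Measurable[G₂] (ZZ c A (Finset.Ico m (m + 1 + M)) (e.symm n : ℝ) w) :=
      @measurable_ZZ Ω G₂ c A _ (fun i hi => hc2 i (Finset.mem_Ico.1 hi).1) hA _ _
    exact h1 (measurableSet_singleton 0)
  have hG₁le : G₁ ≤ mΩ := iSup₂_le fun i _ => (hc i).comap_le
  have hDm : ∀ n, MeasurableSet[G₁] (disjointed (F w) n) := fun n =>
    @MeasurableSet.disjointed Ω G₁ (F w) hFm n
  have hDN : ∀ n, P (disjointed (F w) n ∩ Nn n) ≤ P (disjointed (F w) n) * ENNReal.ofReal ε := by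
    intro n
    rcases (disjointed (F w) n).eq_empty_or_nonempty with h | h
    · rw [h, empty_inter, measure_empty, zero_mul]
    · have h1 := (Indep_iff G₁ G₂ P).1 hindep _ _ (hDm n) (hNm n)
      rw [h1]
      exact mul_le_mul_right (hprob n) _
  have hsub : Pos c l u v \ Copy c l X u v B ⊆
      (Pos c l u v \ ⋃ n, F w n) ∪ ⋃ n, disjointed (F w) n ∩ Nn n := by
    rintro ω ⟨hωP, hω⟩
    by_cases h0 : ω ∈ ⋃ n, F w n
    swap
    · exact Or.inl ⟨hωP, h0⟩
    right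
    rw [← iUnion_disjointed] at h0
    obtain ⟨n, hn⟩ := mem_iUnion.1 h0
    refine mem_iUnion.2 ⟨n, hn, ?_⟩
    by_contra hN
    refine hω ?_
    obtain ⟨⟨-, hw1, hτ2, hτ3⟩, hfree⟩ : ω ∈ F w n := disjointed_subset (F w) n hn
    set r : ℝ := (e.symm n : ℝ) with hr
    set T : ℕ → Set ℝ := fun M => Kset c A (Finset.Ico m (m + 1 + M)) ω ∩ Icc r (r + w) with hT
    have hcl : ∀ M, IsClosed (T M) := by
      intro M
      refine IsClosed.inter ?_ isClosed_Icc
      have h2 : Kset c A (Finset.Ico m (m + 1 + M)) ω =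
          ⋂ i ∈ Finset.Ico m (m + 1 + M), {a : ℝ | c i ω - a ∉ A i} := by
        ext a
        simp only [Kset, mem_ofPred_eq, mem_iInter]
      rw [h2]
      refine isClosed_biInter fun i _ => ?_
      exact ((isOpen_U X B (l i)).preimage (f := fun a : ℝ => c i ω - a) (by fun_prop)).isClosed_compl
    have hne : ∀ M, (T M).Nonempty := by
      intro M
      by_contra hcon
      rw [not_nonempty_iff_eq_empty] at hcon
      refine hN (mem_iUnion.2 ⟨M, ?_⟩)
      show (volume.restrict (Icc r (r + w))) (Kset c A (Finset.Ico m (m + 1 + M)) ω) = 0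
      rw [Measure.restrict_apply' measurableSet_Icc]
      show volume (T M) = 0
      rw [hcon, measure_empty]
    have hanti : ∀ M, T (M + 1) ⊆ T M := by
      intro M a ha
      refine ⟨fun i hi => ha.1 i ?_, ha.2⟩
      rw [Finset.mem_Ico] at hi ⊢
      exact ⟨hi.1, by omega⟩
    obtain ⟨a, ha⟩ := IsCompact.nonempty_iInter_of_sequence_nonempty_isCompact_isClosed T hanti hne
      (isCompact_Icc.of_isClosed_subset (hcl 0) inter_subset_right) hcl
    have ha' := mem_iInter.1 ha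
    have haI : a ∈ Icc r (r + w) := (ha' 0).2
    refine ⟨a, fun x hx => ?_⟩
    have h2 : |B * x| ≤ w * R := by
      rw [abs_mul, abs_of_pos hB]
      exact mul_le_mul hBw (hR x hx) (abs_nonneg x) hw.le
    have h3 := abs_le.1 h2
    have h4 : a + B * x ∈ Icc (r - w * R) (r + w + w * R) := ⟨by linarith [haI.1], by linarith [haI.2]⟩
    refine ⟨⟨by linarith [h4.1], by linarith [h4.2]⟩, fun h5 => ?_⟩
    obtain ⟨i, hi⟩ := mem_iUnion.1 h5
    rcases lt_or_ge i m with him | him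
    · exact hfree i (Finset.mem_range.2 him) _ h4 hi
    · have h6 := (ha' i).1 i (Finset.mem_Ico.2 ⟨him, by omega⟩)
      exact h6 ⟨x, hx, by linarith [hi.1], by linarith [hi.2]⟩
  have hlast : P (⋃ n, disjointed (F w) n ∩ Nn n) ≤ ENNReal.ofReal ε := by
    calc P (⋃ n, disjointed (F w) n ∩ Nn n) ≤ ∑' n, P (disjointed (F w) n ∩ Nn n) := measure_iUnion_le _
      _ ≤ ∑' n, P (disjointed (F w) n) * ENNReal.ofReal ε := ENNReal.tsum_le_tsum hDN
      _ = (∑' n, P (disjointed (F w) n)) * ENNReal.ofReal ε := ENNReal.tsum_mul_right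
      _ = P (⋃ n, disjointed (F w) n) * ENNReal.ofReal ε := by
          rw [measure_iUnion (disjoint_disjointed (F w)) fun n => hG₁le _ (hDm n)]
      _ ≤ 1 * ENNReal.ofReal ε := mul_le_mul_left prob_le_one _
      _ = ENNReal.ofReal ε := one_mul _
  calc P (Pos c l u v \ Copy c l X u v B)
      ≤ P ((Pos c l u v \ ⋃ n, F w n) ∪ ⋃ n, disjointed (F w) n ∩ Nn n) := measure_mono hsub
    _ ≤ P (Pos c l u v \ ⋃ n, F w n) + P (⋃ n, disjointed (F w) n ∩ Nn n) := measure_union_le _ _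
    _ ≤ ENNReal.ofReal ε + ENNReal.ofReal ε := add_le_add hΦ hlast
    _ = ENNReal.ofReal (2 * ε) := by rw [← ENNReal.ofReal_add hε.le hε.le]; congr 1; ring

/-- for a given sequence of ratios, almost surely infinitely many occur in each part of positive measure -/
theorem random_often {Ω : Type*} [mΩ : MeasurableSpace Ω] {P : Measure Ω} [IsProbabilityMeasure P]
    {c : ℕ → Ω → ℝ}
    (hc : ∀ i, Measurable (c i)) {D : ℝ} (hD0 : 0 < D)
    (hD : ∀ i, ∀ T : Set ℝ, MeasurableSet T → P (c i ⁻¹' T) ≤ ENNReal.ofReal D * volume T) (hind : iIndepFun c P)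
    {X : Set ℝ} (hXb : Bornology.IsBounded X) {σ C₀ : ℝ} (hσ : 0 < σ)
    (hV : ∀ t : ℝ, 0 < t → t ≤ 1 → volume (thickening t X) ≤ ENNReal.ofReal (C₀ * t ^ σ))
    {l : ℕ → ℝ} (hl : ∀ i, 0 < l i) (hls : Summable l)
    (hlV : Summable fun i => (volume (thickening (l i) X)).toReal / |Real.log (l i)|) {β : ℕ → ℝ} (hβ : ∀ k, 0 < β k)
    (hβ0 : Tendsto β atTop (𝓝 0)) :
    ∀ᵐ ω ∂P, ∀ J : Set ℝ, IsOpen J → 0 < volume (J \ ⋃ i, Ioo (c i ω) (c i ω + l i)) →
      ∃ᶠ k in atTop, ∃ a : ℝ, ∀ x ∈ X, a + β k * x ∈ J \ ⋃ i, Ioo (c i ω) (c i ω + l i) := by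
  have h1 : ∀ u v : ℚ, ∀ᵐ ω ∂P, ω ∈ Pos c l u v → ∃ᶠ k in atTop, ω ∈ Copy c l X u v (β k) := by
    intro u v
    have h2 : Tendsto (fun k => P (Pos c l u v \ Copy c l X u v (β k))) atTop (𝓝 0) := by
      rw [ENNReal.tendsto_nhds_zero]
      intro ε hε
      obtain ⟨δ, hδ0, hδ⟩ : ∃ δ : ℝ, 0 < δ ∧ ENNReal.ofReal (2 * δ) ≤ ε := by
        rcases eq_or_ne ε ∞ with h | h
        · exact ⟨1, one_pos, by rw [h]; exact le_top⟩
        · refine ⟨ε.toReal / 2, half_pos (ENNReal.toReal_pos hε.ne' h), ?_⟩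
          rw [mul_div_cancel₀ _ (by norm_num : (2 : ℝ) ≠ 0), ENNReal.ofReal_toReal h]
      obtain ⟨b₀, hb₀, h⟩ := random_gaps hc hD0 hD hind hXb hσ hV hl hls hlV u v hδ0
      filter_upwards [hβ0.eventually_lt_const hb₀] with k hk
      exact (h (β k) (hβ k) hk.le).trans hδ
    have h3 : ∀ K : ℕ, P {ω | ω ∈ Pos c l u v ∧ ∀ k, K ≤ k → ω ∉ Copy c l X u v (β k)} = 0 := by
      intro K
      refine le_antisymm ?_ zero_le
      exact ge_of_tendsto h2 (eventually_atTop.2 ⟨K, fun k hk => measure_mono fun ω hω => ⟨hω.1, hω.2 k hk⟩⟩)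
    rw [ae_iff]
    refine measure_mono_null ?_ (measure_iUnion_null h3)
    intro ω hω
    have h4 : ω ∈ Pos c l u v ∧ ¬ ∃ᶠ k in atTop, ω ∈ Copy c l X u v (β k) := by
      by_contra h5
      refine hω fun h6 => ?_
      by_contra h7
      exact h5 ⟨h6, h7⟩
    obtain ⟨K, hK⟩ := eventually_atTop.1 (not_frequently.1 h4.2)
    exact mem_iUnion.2 ⟨K, h4.1, hK⟩
  filter_upwards [ae_all_iff.2 fun u => ae_all_iff.2 fun v => h1 u v] with ω hω J hJ hpos
  set gp : Set ℝ := ⋃ i, Ioo (c i ω) (c i ω + l i) with hgp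
  -- a rational interval
  obtain ⟨u, v, hsub, hvol⟩ : ∃ u v : ℚ, Ioo (u : ℝ) v ⊆ J ∧ 0 < volume (Ioo (u : ℝ) v \ gp) := by
    by_contra hcon
    push Not at hcon
    have h2 : J \ gp ⊆ ⋃ p : {p : ℚ × ℚ // Ioo (p.1 : ℝ) p.2 ⊆ J}, Ioo (p.1.1 : ℝ) p.1.2 \ gp := by
      rintro y ⟨hyJ, hy2⟩
      obtain ⟨ρ, hρ0, hρ⟩ := Metric.isOpen_iff.1 hJ y hyJ
      obtain ⟨p, hp1, hp2⟩ := exists_rat_btwn (show y - ρ < y by linarith)
      obtain ⟨q, hq1, hq2⟩ := exists_rat_btwn (show y < y + ρ by linarith)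
      refine mem_iUnion.2 ⟨⟨(p, q), ?_⟩, ⟨hp2, hq1⟩, hy2⟩
      intro z hz
      refine hρ ?_
      rw [Metric.mem_ball, Real.dist_eq, abs_lt]
      constructor <;> linarith [hz.1, hz.2]
    have h3 : volume (⋃ p : {p : ℚ × ℚ // Ioo (p.1 : ℝ) p.2 ⊆ J}, Ioo (p.1.1 : ℝ) p.1.2 \ gp) = 0 :=
      measure_iUnion_null fun p => le_antisymm (hcon p.1.1 p.1.2 p.2) zero_le
    exact absurd (measure_mono_null h2 h3) hpos.ne'
  refine (hω u v hvol).mono ?_
  rintro k ⟨a, ha⟩
  refine ⟨a, fun x hx => ?_⟩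
  obtain ⟨h2, h3⟩ := ha x hx
  exact ⟨hsub h2, h3⟩

end Pool.Agent.H56.ES.Gap
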