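import Pool.Agent.H56.ES.RndC
import Pool.Agent.H56.ES.Slow

/-!
MP_6045a2_an. Random gaps: if the neighbourhoods of `X` are large then suitable random gaps meet all
similar copies.
-/

set_option autoImplicit false

open MeasureTheory Set Filter Topology Metric ProbabilityTheory
open scoped ENNReal

namespace Pool.Agent.H56.ES.Gap

theorem prob_avoid {Ω : Type*} [MeasurableSpace Ω] {P : Measure Ω} [IsProbabilityMeasure P] {c : ℕ → Ω → ℝ}
    (hc : ∀ i, Measurable (c i)) (hu : ∀ i, P.map (c i) = volume.restrict (Icc 0 1)) (hind : iIndepFun c P)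
    {W : Set ℝ} (hW : MeasurableSet W) {q : ℝ} (hq0 : 0 ≤ q) (hq : ENNReal.ofReal q ≤ volume (W ∩ Icc 0 1))
    (J : Finset ℕ) : P (⋂ j ∈ J, c j ⁻¹' Wᶜ) ≤ ENNReal.ofReal (Real.exp (-(J.card * q))) := by
  rw [hind.measure_inter_preimage_eq_mul J fun i _ => hW.compl]
  have h1 : ∀ j ∈ J, P (c j ⁻¹' Wᶜ) ≤ ENNReal.ofReal (Real.exp (-q)) := by
    intro j _
    rw [prob_mem (hc j) (hu j) hW.compl]
    have h2 : volume (Wᶜ ∩ Icc 0 1) + volume (W ∩ Icc 0 1) = 1 := by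
      have h3 := measure_inter_add_sdiff (μ := volume) (Icc (0 : ℝ) 1) hW
      rw [Real.volume_Icc, sub_zero, ENNReal.ofReal_one] at h3
      rw [← h3, add_comm]
      congr 1
      · rw [inter_comm]
      · congr 1
        ext y
        exact ⟨fun h => ⟨h.2, h.1⟩, fun h => ⟨h.2, h.1⟩⟩
    have h3 : volume (Wᶜ ∩ Icc 0 1) ≤ 1 - ENNReal.ofReal q := by
      refine ENNReal.le_sub_of_add_le_right ENNReal.ofReal_ne_top ?_
      rw [← h2]
      exact add_le_add le_rfl hq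
    refine h3.trans ?_
    rw [← ENNReal.ofReal_one, ← ENNReal.ofReal_sub _ hq0]
    exact ENNReal.ofReal_le_ofReal (Real.one_sub_le_exp_neg q)
  refine (Finset.prod_le_prod' h1).trans (le_of_eq ?_)
  rw [Finset.prod_const, ← ENNReal.ofReal_pow (Real.exp_pos _).le, ← Real.exp_nat_mul]
  congr 2
  ring

/-- the left end points of the gaps whose middle half is met by `a + b X` -/
def WW (X : Set ℝ) (t a b : ℝ) : Set ℝ := {c | ∃ x ∈ X, a + b * x ∈ Ioo (c + t) (c + 3 * t)}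

theorem isOpen_WW (X : Set ℝ) (t a b : ℝ) : IsOpen (WW X t a b) := by
  have : WW X t a b = ⋃ x ∈ X, Ioo (a + b * x - 3 * t) (a + b * x - t) := by
    ext c
    simp only [WW, mem_ofPred_eq, mem_iUnion, mem_Ioo, exists_prop]
    constructor
    · rintro ⟨x, hx, h1, h2⟩
      exact ⟨x, hx, by linarith, by linarith⟩
    · rintro ⟨x, hx, h1, h2⟩
      exact ⟨x, hx, by linarith, by linarith⟩
  rw [this]
  exact isOpen_biUnion fun x _ => isOpen_Ioo

theorem WW_lower {X : Set ℝ} {t a b : ℝ} (ht : 0 < t) {K : ℕ} (hb : 1 ≤ K * |b|) (S : Finset ℤ)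
    (hS : ∀ m ∈ S, m ∈ Cells t X) (hin : ∀ x ∈ X, a + b * x ∈ Icc (-t) (1 + t)) :
    ENNReal.ofReal (t * ((S.card : ℝ) / (K + 1) - 3)) ≤ volume (WW X t a b ∩ Icc 0 1) := by
  classical
  set T : Finset ℤ := Finset.Icc (-1) (⌊1 / t⌋ + 1) with hT
  set H : Finset ℤ := T.filter fun j => ∃ x ∈ X, ⌊(a + b * x) / t⌋ = j with hH
  have hHmem : ∀ x ∈ X, ⌊(a + b * x) / t⌋ ∈ H := by
    intro x hx
    have h1 := hin x hx
    refine Finset.mem_filter.2 ⟨Finset.mem_Icc.2 ⟨?_, ?_⟩, x, hx, rfl⟩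
    · rw [Int.le_floor, le_div_iff₀ ht]
      push_cast
      linarith [h1.1]
    · have h2 : (a + b * x) / t ≤ 1 / t + 1 := by
        rw [div_le_iff₀ ht, add_mul, div_mul_cancel₀ _ ht.ne']
        linarith [h1.2]
      have h3 := Int.floor_le_floor h2
      rwa [Int.floor_add_one] at h3
  have hcard : S.card ≤ (K + 1) * H.card := many ht hb S hS H hHmem
  set H' : Finset ℤ := H.filter fun j => 2 ≤ j with hH'
  have hcard' : H.card ≤ H'.card + 3 := by
    have h1 : H ⊆ H' ∪ {-1, 0, 1} := by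
      intro j hj
      by_cases h2 : 2 ≤ j
      · exact Finset.mem_union_left _ (Finset.mem_filter.2 ⟨hj, h2⟩)
      · refine Finset.mem_union_right _ ?_
        have h3 := (Finset.mem_Icc.1 (Finset.mem_filter.1 hj).1).1
        simp only [Finset.mem_insert, Finset.mem_singleton]
        omega
    refine (Finset.card_le_card h1).trans ((Finset.card_union_le _ _).trans ?_)
    exact Nat.add_le_add_left Finset.card_le_three _
  have hlow : (S.card : ℝ) / (K + 1) - 3 ≤ H'.card := by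
    have h1 : (S.card : ℝ) ≤ (K + 1) * (H'.card + 3) := by
      have h2 : S.card ≤ (K + 1) * (H'.card + 3) := hcard.trans (Nat.mul_le_mul_left _ hcard')
      exact_mod_cast h2
    rw [sub_le_iff_le_add, div_le_iff₀ (by positivity)]
    linarith
  have hsub : ⋃ j ∈ H', Ioo ((j : ℝ) * t - 2 * t) (j * t - t) ⊆ WW X t a b ∩ Icc 0 1 := by
    refine iUnion₂_subset fun j hj c hcj => ?_
    rw [hH', Finset.mem_filter] at hj
    obtain ⟨hjH, hj2⟩ := hj
    obtain ⟨hjT, x, hx, hxj⟩ := Finset.mem_filter.1 hjH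
    have h1 : a + b * x ∈ cell t j := (mem_cell ht).2 hxj
    have h2 := h1.1
    have h3 := h1.2
    have h4 := hcj.1
    have h5 := hcj.2
    have h6 : (2 : ℝ) ≤ j := by exact_mod_cast hj2
    have h7 : (j : ℝ) ≤ 1 / t + 1 := by
      have h8 := (Finset.mem_Icc.1 hjT).2
      have h9 : (j : ℝ) ≤ ⌊1 / t⌋ + 1 := by exact_mod_cast h8
      linarith [Int.floor_le (1 / t)]
    have h8 : (j : ℝ) * t ≤ 1 + t := by
      calc (j : ℝ) * t ≤ (1 / t + 1) * t := mul_le_mul_of_nonneg_right h7 ht.le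
        _ = 1 + t := by field_simp
    refine ⟨⟨x, hx, by linarith, by linarith⟩, ?_, by linarith⟩
    have : 2 * t ≤ j * t := mul_le_mul_of_nonneg_right h6 ht.le
    linarith
  have hdis : (H' : Set ℤ).PairwiseDisjoint fun j : ℤ => Ioo ((j : ℝ) * t - 2 * t) (j * t - t) := by
    have key : ∀ i j : ℤ, i < j → Disjoint (Ioo ((i : ℝ) * t - 2 * t) (i * t - t)) (Ioo ((j : ℝ) * t - 2 * t) (j * t - t)) := by
      intro i j hij
      rw [Set.disjoint_left]
      intro y hy1 hy2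
      have h1 : (i : ℝ) + 1 ≤ j := by exact_mod_cast hij
      have h2 := mul_le_mul_of_nonneg_right h1 ht.le
      linarith [hy1.2, hy2.1]
    intro i _ j _ hij
    rcases lt_or_gt_of_ne hij with h | h
    · exact key i j h
    · exact (key j i h).symm
  refine le_trans ?_ (measure_mono hsub)
  rw [measure_biUnion_finset hdis fun j _ => measurableSet_Ioo]
  have h1 : ∀ j ∈ H', volume (Ioo ((j : ℝ) * t - 2 * t) (j * t - t)) = ENNReal.ofReal t := by
    intro j _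
    rw [Real.volume_Ioo]
    congr 1
    ring
  rw [Finset.sum_congr rfl h1, Finset.sum_const, nsmul_eq_mul, ← ENNReal.ofReal_natCast,
    ← ENNReal.ofReal_mul (Nat.cast_nonneg _)]
  refine ENNReal.ofReal_le_ofReal ?_
  rw [mul_comm]
  exact mul_le_mul_of_nonneg_right hlow ht.le

/-- the number of points of a net -/
theorem net_card {A s : ℝ} (hA : 0 ≤ A) (hs : 0 < s) : ((Finset.Icc ⌊-A / s⌋ ⌊A / s⌋).card : ℝ) ≤ 2 * A / s + 2 := by
  rw [Int.card_Icc]
  have h0 : ⌊-A / s⌋ ≤ ⌊A / s⌋ := Int.floor_le_floor (div_le_div_of_nonneg_right (by linarith) hs.le)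
  have h1 : (((⌊A / s⌋ + 1 - ⌊-A / s⌋).toNat : ℤ) : ℝ) = ⌊A / s⌋ + 1 - ⌊-A / s⌋ := by
    rw [Int.toNat_of_nonneg (by omega)]
    push_cast
    ring
  rw [← Int.cast_natCast, h1]
  have h2 := Int.floor_le (A / s)
  have h3 := Int.lt_floor_add_one (-A / s)
  have h4 : 2 * A / s = A / s + A / s := by ring
  have h5 : -A / s = -(A / s) := by ring
  linarith

theorem net_mem {A s a : ℝ} (hs : 0 < s) (ha : |a| ≤ A) : ⌊a / s⌋ ∈ Finset.Icc ⌊-A / s⌋ ⌊A / s⌋ := by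
  have h1 := abs_le.1 ha
  exact Finset.mem_Icc.2 ⟨Int.floor_le_floor (div_le_div_of_nonneg_right h1.1 hs.le),
    Int.floor_le_floor (div_le_div_of_nonneg_right h1.2 hs.le)⟩

theorem net_close {s : ℝ} (hs : 0 < s) (a : ℝ) : |a - ⌊a / s⌋ * s| < s := by
  have h1 := Int.floor_le (a / s)
  have h2 := Int.lt_floor_add_one (a / s)
  rw [le_div_iff₀ hs] at h1
  rw [div_lt_iff₀ hs] at h2
  rw [abs_lt]
  constructor <;> nlinarith

/-- the union bound -/
theorem union_bound {Ω : Type*} [MeasurableSpace Ω] {P : Measure Ω} [IsProbabilityMeasure P] {c : ℕ → Ω → ℝ}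
    (hc : ∀ i, Measurable (c i)) (hu : ∀ i, P.map (c i) = volume.restrict (Icc 0 1)) (hind : iIndepFun c P)
    {X : Set ℝ} {R : ℝ} (hR0 : 0 ≤ R) (hR : ∀ x ∈ X, |x| ≤ R) (hXne : X.Nonempty) {t : ℝ} (ht : 0 < t) (ht1 : t ≤ 1)
    {K : ℕ} (hK : 0 < K) (htK : t * K ≤ 1) (S : Finset ℤ) (hS : ∀ m ∈ S, m ∈ Cells t X)
    (hS3 : 3 ≤ (S.card : ℝ) / (2 * K + 1)) (J : Finset ℕ) :
    P {ω | ∃ a b : ℝ, |b| ≤ K ∧ 1 ≤ K * |b| ∧ ∀ x ∈ X, a + b * x ∈ Icc (0 : ℝ) 1 ∧
      ∀ j ∈ J, a + b * x ∉ Ioo (c j ω) (c j ω + 4 * t)} ≤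
      ENNReal.ofReal ((4 * (1 + K * R) + 2) * (4 * K * (R + 1) + 2) / t ^ 2 *
        Real.exp (-(J.card * (t * ((S.card : ℝ) / (2 * K + 1) - 3))))) := by
  classical
  have hK' : (1 : ℝ) ≤ K := by exact_mod_cast hK
  obtain ⟨s₁, hs₁⟩ : ∃ s₁ : ℝ, s₁ = t / 2 := ⟨_, rfl⟩
  obtain ⟨s₂, hs₂⟩ : ∃ s₂ : ℝ, s₂ = t / (2 * (R + 1)) := ⟨_, rfl⟩
  have hs₁0 : 0 < s₁ := by rw [hs₁]; positivity
  have hs₂0 : 0 < s₂ := by rw [hs₂]; positivity
  have hs₂R : s₂ * R ≤ t / 2 := by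
    rw [hs₂, div_mul_eq_mul_div, div_le_div_iff₀ (by positivity) (by norm_num)]
    nlinarith
  have hs₂t : s₂ ≤ t / 2 := by
    rw [hs₂]
    exact div_le_div_of_nonneg_left ht.le (by norm_num) (by linarith)
  set NA : Finset ℤ := Finset.Icc ⌊-(1 + K * R) / s₁⌋ ⌊(1 + K * R) / s₁⌋ with hNA
  set NB : Finset ℤ := Finset.Icc ⌊-(K : ℝ) / s₂⌋ ⌊(K : ℝ) / s₂⌋ with hNB
  set good : Finset (ℤ × ℤ) := (NA ×ˢ NB).filter fun p =>
    (∀ x ∈ X, (p.1 : ℝ) * s₁ + p.2 * s₂ * x ∈ Icc (-t) (1 + t)) ∧ 1 ≤ ((2 * K : ℕ) : ℝ) * |(p.2 : ℝ) * s₂| with hgood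
  have hsub : {ω | ∃ a b : ℝ, |b| ≤ K ∧ 1 ≤ K * |b| ∧ ∀ x ∈ X, a + b * x ∈ Icc (0 : ℝ) 1 ∧
      ∀ j ∈ J, a + b * x ∉ Ioo (c j ω) (c j ω + 4 * t)} ⊆
      ⋃ p ∈ good, ⋂ j ∈ J, c j ⁻¹' (WW X t ((p.1 : ℝ) * s₁) (p.2 * s₂))ᶜ := by
    rintro ω ⟨a, b, hb1, hb2, hab⟩
    have hbpos : (0 : ℝ) ≤ |b| := abs_nonneg b
    have ha : |a| ≤ 1 + K * R := by
      obtain ⟨x, hx⟩ := hXne
      have h1 := (hab x hx).1
      have h2 : |b * x| ≤ K * R := by
        rw [abs_mul]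
        exact mul_le_mul hb1 (hR x hx) (abs_nonneg x) (by positivity)
      have h3 := abs_le.1 h2
      rw [abs_le]
      constructor <;> linarith [h1.1, h1.2]
    have hclose : ∀ x ∈ X, |(a + b * x) - ((⌊a / s₁⌋ : ℝ) * s₁ + ⌊b / s₂⌋ * s₂ * x)| < t := by
      intro x hx
      have h1 := net_close hs₁0 a
      have h2 : |(b - ⌊b / s₂⌋ * s₂) * x| ≤ t / 2 := by
        rw [abs_mul]
        calc |b - ⌊b / s₂⌋ * s₂| * |x| ≤ s₂ * R :=
              mul_le_mul (net_close hs₂0 b).le (hR x hx) (abs_nonneg x) hs₂0.le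
          _ ≤ t / 2 := hs₂R
      have h3 : (a + b * x) - ((⌊a / s₁⌋ : ℝ) * s₁ + ⌊b / s₂⌋ * s₂ * x) =
          (a - ⌊a / s₁⌋ * s₁) + (b - ⌊b / s₂⌋ * s₂) * x := by ring
      rw [h3]
      have h4 := abs_add_le (a - ⌊a / s₁⌋ * s₁) ((b - ⌊b / s₂⌋ * s₂) * x)
      rw [← hs₁] at h2
      have h5 : s₁ + s₁ = t := by rw [hs₁]; ring
      linarith
    refine mem_iUnion₂.2 ⟨(⌊a / s₁⌋, ⌊b / s₂⌋), ?_, ?_⟩
    · rw [hgood, Finset.mem_filter]
      refine ⟨Finset.mk_mem_product (net_mem hs₁0 ha) (net_mem hs₂0 hb1), ?_, ?_⟩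
      · intro x hx
        have h1 := abs_lt.1 (hclose x hx)
        have h2 := (hab x hx).1
        constructor <;> linarith [h2.1, h2.2]
      · have h1 := net_close hs₂0 b
        have h2 : |b| ≤ |(⌊b / s₂⌋ : ℝ) * s₂| + s₂ := by
          have h3 := abs_sub_abs_le_abs_sub b (⌊b / s₂⌋ * s₂)
          linarith
        have h3 : K * |b| ≤ K * (|(⌊b / s₂⌋ : ℝ) * s₂| + s₂) := mul_le_mul_of_nonneg_left h2 (by positivity)
        have h4 : K * s₂ ≤ 1 / 2 := by nlinarith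
        push_cast
        linarith
    · refine mem_iInter₂.2 fun j hj => ?_
      rintro ⟨x, hx, h1, h2⟩
      have h3 := abs_lt.1 (hclose x hx)
      refine (hab x hx).2 j hj ⟨?_, ?_⟩
      · simp only at h1
        linarith
      · simp only at h2
        linarith
  have hcardN : ((NA ×ˢ NB).card : ℝ) ≤ (4 * (1 + K * R) + 2) * (4 * K * (R + 1) + 2) / t ^ 2 := by
    rw [Finset.card_product, Nat.cast_mul]
    have h1 : (NA.card : ℝ) ≤ (4 * (1 + K * R) + 2) / t := by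
      refine (net_card (A := 1 + K * R) (by positivity) hs₁0).trans ?_
      rw [hs₁, le_div_iff₀ ht]
      have h2 : 2 * (1 + K * R) / (t / 2) * t = 4 * (1 + K * R) := by field_simp; ring
      nlinarith
    have h2 : (NB.card : ℝ) ≤ (4 * K * (R + 1) + 2) / t := by
      refine (net_card (A := K) (by positivity) hs₂0).trans ?_
      rw [hs₂, le_div_iff₀ ht]
      have h3 : 2 * (K : ℝ) / (t / (2 * (R + 1))) * t = 4 * K * (R + 1) := by field_simp; ring
      nlinarith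
    calc (NA.card : ℝ) * NB.card ≤ (4 * (1 + K * R) + 2) / t * ((4 * K * (R + 1) + 2) / t) :=
          mul_le_mul h1 h2 (Nat.cast_nonneg _) (by positivity)
      _ = _ := by field_simp
  have hq : ∀ p ∈ good, P (⋂ j ∈ J, c j ⁻¹' (WW X t ((p.1 : ℝ) * s₁) (p.2 * s₂))ᶜ) ≤
      ENNReal.ofReal (Real.exp (-(J.card * (t * ((S.card : ℝ) / (2 * K + 1) - 3))))) := by
    intro p hp
    rw [hgood, Finset.mem_filter] at hp
    refine prob_avoid hc hu hind (isOpen_WW _ _ _ _).measurableSet (mul_nonneg ht.le (by linarith)) ?_ J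
    have h1 := WW_lower (a := (p.1 : ℝ) * s₁) ht hp.2.2 S hS hp.2.1
    push_cast at h1
    exact h1
  refine (measure_mono hsub).trans ((measure_biUnion_finset_le _ _).trans ((Finset.sum_le_sum hq).trans ?_))
  rw [Finset.sum_const, nsmul_eq_mul, ← ENNReal.ofReal_natCast, ← ENNReal.ofReal_mul (Nat.cast_nonneg _)]
  refine ENNReal.ofReal_le_ofReal (mul_le_mul_of_nonneg_right ?_ (Real.exp_pos _).le)
  refine le_trans ?_ hcardN
  exact_mod_cast Finset.card_filter_le _ _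

end Pool.Agent.H56.ES.Gap
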