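import Pool.Agent.H56.ES.RndD

/-!
MP_6045a2_an. Random gaps which meet all similar copies: the choice of the lengths.
-/

set_option autoImplicit false

open MeasureTheory Set Filter Topology Metric ProbabilityTheory
open scoped ENNReal

namespace Pool.Agent.H56.ES.Gap

theorem le_cells4 {X : Set ℝ} {t : ℝ} (ht : 0 < t) (S : Finset ℤ) (hS : ∀ m ∈ Cells t X, m ∈ S) :
    volume (thickening (4 * t) X) ≤ ENNReal.ofReal (9 * (S.card * t)) := by
  have h1 : thickening (4 * t) X ⊆ ⋃ m ∈ S, Ioo ((m : ℝ) * t - 4 * t) (m * t + 5 * t) := by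
    intro y hy
    obtain ⟨x, hx, hxy⟩ := mem_thickening_iff.1 hy
    rw [Real.dist_eq, abs_lt] at hxy
    have h2 : x ∈ cell t ⌊x / t⌋ := (mem_cell ht).2 rfl
    simp only [mem_iUnion]
    refine ⟨⌊x / t⌋, hS _ ⟨x, h2, hx⟩, ?_, ?_⟩
    · linarith [h2.1]
    · linarith [h2.2]
  refine (measure_mono h1).trans ((measure_biUnion_finset_le _ _).trans ?_)
  have h3 : ∀ m ∈ S, volume (Ioo ((m : ℝ) * t - 4 * t) (m * t + 5 * t)) ≤ ENNReal.ofReal (9 * t) := by
    intro m _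
    rw [Real.volume_Ioo]
    exact ENNReal.ofReal_le_ofReal (by linarith)
  refine (Finset.sum_le_sum h3).trans (le_of_eq ?_)
  rw [Finset.sum_const, nsmul_eq_mul, ← ENNReal.ofReal_natCast, ← ENNReal.ofReal_mul (Nat.cast_nonneg _)]
  congr 1
  ring

theorem card_mul_le {X : Set ℝ} (hXb : Bornology.IsBounded X) {t : ℝ} (ht : 0 < t) (ht1 : t ≤ 1) :
    ((finite_cells hXb ht).toFinset.card : ℝ) * t ≤ (volume (thickening 1 X)).toReal := by
  have hV : volume (thickening 1 X) ≠ ∞ := (hXb.thickening (δ := 1)).measure_lt_top.ne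
  obtain ⟨S, hS⟩ : ∃ S, S = (finite_cells hXb ht).toFinset := ⟨_, rfl⟩
  rw [← hS]
  have h1 := cells_le ht X
  have h2 : ∑' _m : Cells t X, ENNReal.ofReal t = ENNReal.ofReal (S.card * t) := by
    rw [ENNReal.tsum_const, ENNReal.ofReal_mul (Nat.cast_nonneg _), ENNReal.ofReal_natCast]
    congr 1
    have h3 : ENat.card (Cells t X) = (S.card : ℕ∞) := by
      rw [← Set.encard_coe_eq_coe_finsetCard, hS, Set.Finite.coe_toFinset]
      rfl
    rw [h3]
    rfl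
  rw [h2] at h1
  have h3 : ENNReal.ofReal (S.card * t) ≤ volume (thickening 1 X) := h1.trans (measure_mono (thickening_mono ht1 X))
  exact (ENNReal.ofReal_le_iff_le_toReal hV).1 h3

/-- one stage -/
theorem stageR {Ω : Type*} [MeasurableSpace Ω] {P : Measure Ω} [IsProbabilityMeasure P] {c : ℕ → Ω → ℝ}
    (hc : ∀ i, Measurable (c i)) (hu : ∀ i, P.map (c i) = volume.restrict (Icc 0 1)) (hind : iIndepFun c P)
    {X : Set ℝ} (hXb : Bornology.IsBounded X) {L : ℝ → ℝ≥0∞}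
    (hL : ∀ δ : ℝ, 0 < δ → ∃ᶠ t in 𝓝[>] (0 : ℝ),
      ENNReal.ofReal (t * |Real.log t|) * (1 + L t) ≤ ENNReal.ofReal δ * volume (thickening t X))
    {K : ℕ} (hK : 0 < K) {η : ℝ} (hη : 0 < η) :
    ∃ (l : ℝ) (M : ℕ), 0 < l ∧ 0 < M ∧ (M : ℝ≥0∞) * (ENNReal.ofReal l * (1 + L l)) ≤ ENNReal.ofReal η ∧
      ∀ J : Finset ℕ, J.card = M → P {ω | ∃ a b : ℝ, |b| ≤ K ∧ 1 ≤ K * |b| ∧ ∀ x ∈ X, a + b * x ∈ Icc (0 : ℝ) 1 ∧
        ∀ j ∈ J, a + b * x ∉ Ioo (c j ω) (c j ω + l)} ≤ ENNReal.ofReal η := by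
  have hK' : (1 : ℝ) ≤ K := by exact_mod_cast hK
  obtain ⟨R₀, hR₀⟩ := hXb.exists_norm_le
  obtain ⟨R, hRdef⟩ : ∃ R, R = |R₀| := ⟨_, rfl⟩
  have hR0 : 0 ≤ R := by rw [hRdef]; exact abs_nonneg _
  have hR : ∀ x ∈ X, |x| ≤ R := fun x hx => by rw [hRdef]; exact (hR₀ x hx).trans (le_abs_self R₀)
  obtain ⟨V₁, hV₁⟩ : ∃ V₁, V₁ = (volume (thickening 1 X)).toReal := ⟨_, rfl⟩
  have hV₁0 : 0 ≤ V₁ := by rw [hV₁]; exact ENNReal.toReal_nonneg
  obtain ⟨C₃, hC₃⟩ : ∃ C₃ : ℝ, C₃ = (4 * (1 + K * R) + 2) * (4 * K * (R + 1) + 2) := ⟨_, rfl⟩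
  have hC₃0 : 0 < C₃ := by rw [hC₃]; positivity
  obtain ⟨Q₀, hQ₀⟩ : ∃ Q₀ : ℝ, Q₀ = |Real.log (C₃ / η)| := ⟨_, rfl⟩
  have hQ₀0 : 0 ≤ Q₀ := by rw [hQ₀]; exact abs_nonneg _
  obtain ⟨δ, hδ⟩ : ∃ δ : ℝ, δ = min ((1 : ℝ) / (27 * (2 * (K : ℝ) + 1))) (η / (90 * (2 * (K : ℝ) + 1) + 18 * V₁)) :=
    ⟨_, rfl⟩
  have hδ0 : 0 < δ := by rw [hδ]; positivity
  have hδ1 : δ * (27 * (2 * (K : ℝ) + 1)) ≤ 1 := by
    rw [← le_div_iff₀ (by positivity), hδ]
    exact min_le_left _ _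
  have hδ2 : δ * (90 * (2 * (K : ℝ) + 1) + 18 * V₁) ≤ η := by
    rw [← le_div_iff₀ (by positivity), hδ]
    exact min_le_right _ _
  -- the choice of `l`
  obtain ⟨l₀, hl₀⟩ : ∃ l₀ : ℝ, l₀ = min (min ((1 : ℝ) / 4) ((1 : ℝ) / (K : ℝ))) (min (Real.exp (-1)) (Real.exp (-Q₀))) := ⟨_, rfl⟩
  have hl₀0 : 0 < l₀ := by rw [hl₀]; positivity
  have e1 : ∀ᶠ t : ℝ in 𝓝[>] 0, t ∈ Ioo (0 : ℝ) l₀ := Ioo_mem_nhdsGT hl₀0
  obtain ⟨l, hlL, hl0, hll⟩ := ((hL δ hδ0).and_eventually e1).exists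
  rw [hl₀] at hll
  have hl4 : l < 1 / 4 := hll.trans_le ((min_le_left _ _).trans (min_le_left _ _))
  have hlK : l < 1 / K := hll.trans_le ((min_le_left _ _).trans (min_le_right _ _))
  have hle : l < Real.exp (-1) := hll.trans_le ((min_le_right _ _).trans (min_le_left _ _))
  have hlQ : l < Real.exp (-Q₀) := hll.trans_le ((min_le_right _ _).trans (min_le_right _ _))
  obtain ⟨lam, hlam⟩ : ∃ lam : ℝ, lam = |Real.log l| := ⟨_, rfl⟩
  have hlog : Real.log l < 0 := Real.log_neg hl0 (by linarith)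
  have hlam' : lam = -Real.log l := by rw [hlam, abs_of_neg hlog]
  have hlam1 : 1 ≤ lam := by
    have := Real.log_lt_log hl0 hle
    rw [Real.log_exp] at this
    linarith
  have hlamQ : Q₀ ≤ lam := by
    have := Real.log_lt_log hl0 hlQ
    rw [Real.log_exp] at this
    linarith
  have hlog4 : Real.log 4 ≤ lam := by
    have := Real.log_lt_log hl0 hl4
    rw [one_div, Real.log_inv] at this
    linarith
  obtain ⟨t, ht⟩ : ∃ t : ℝ, t = l / 4 := ⟨_, rfl⟩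
  have ht0 : 0 < t := by rw [ht]; positivity
  have hlt : l = 4 * t := by rw [ht]; ring
  have ht1 : t ≤ 1 := by linarith
  have htK : t * K ≤ 1 := by
    have h1 : l * K < 1 := by rwa [lt_div_iff₀ (by positivity)] at hlK
    rw [hlt] at h1
    nlinarith
  have hlogt : -Real.log t ≤ 2 * lam := by
    have h1 : Real.log t = Real.log l - Real.log 4 := by
      rw [ht, Real.log_div hl0.ne' (by norm_num)]
    rw [h1]
    linarith
  clear ht
  obtain ⟨Q, hQ⟩ : ∃ Q : ℝ, Q = 2 * -Real.log t + Q₀ := ⟨_, rfl⟩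
  have hlogt0 : 0 ≤ -Real.log t := by
    have := Real.log_nonpos ht0.le ht1
    linarith
  have hQ5 : Q ≤ 5 * lam := by rw [hQ]; linarith
  have hQpos : 0 ≤ Q := by rw [hQ]; linarith
  -- the cells
  obtain ⟨S, hSdef⟩ : ∃ S, S = (finite_cells hXb ht0).toFinset := ⟨_, rfl⟩
  have hSmem : ∀ m, m ∈ S ↔ m ∈ Cells t X := fun m => by rw [hSdef]; exact Set.Finite.mem_toFinset _
  obtain ⟨N, hN⟩ : ∃ N : ℝ, N = (S.card : ℝ) := ⟨_, rfl⟩
  have hN0 : 0 ≤ N := by rw [hN]; exact Nat.cast_nonneg _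
  have hNt : N * t ≤ V₁ := by
    rw [hN, hV₁, hSdef]
    exact card_mul_le hXb ht0 ht1
  have hVl : volume (thickening l X) ≤ ENNReal.ofReal (9 * (N * t)) := by
    rw [hlt, hN]
    exact le_cells4 ht0 S fun m hm => (hSmem m).2 hm
  have hmain : ENNReal.ofReal (l * lam) * (1 + L l) ≤ ENNReal.ofReal (δ * (9 * (N * t))) := by
    rw [ENNReal.ofReal_mul hδ0.le, hlam]
    exact hlL.trans (mul_le_mul_right hVl _)
  have hlamN : lam * 4 ≤ 9 * δ * N := by
    have h1 : ENNReal.ofReal (l * lam) ≤ ENNReal.ofReal (δ * (9 * (N * t))) := by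
      refine le_trans ?_ hmain
      exact le_mul_of_one_le_right zero_le le_self_add
    rw [ENNReal.ofReal_le_ofReal_iff (by positivity)] at h1
    rw [hlt] at h1
    have h2 : t * (lam * 4) ≤ t * (9 * δ * N) := by linarith
    exact le_of_mul_le_mul_left h2 ht0
  have hNpos : 0 < N := by
    by_contra h
    have : 9 * δ * N ≤ 0 := mul_nonpos_of_nonneg_of_nonpos (by positivity) (not_lt.1 h)
    linarith
  have hN6 : 6 * (2 * K + 1) ≤ N := by
    have h1 : 6 * (2 * K + 1) * (27 * δ) ≤ 6 := by nlinarith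
    have h2 : (6 * (2 * K + 1)) * (27 * δ) ≤ N * (27 * δ) := by
      have h3 : 12 ≤ N * (27 * δ) := by nlinarith
      linarith
    exact le_of_mul_le_mul_right h2 (by positivity)
  obtain ⟨h₀, hh₀⟩ : ∃ h₀ : ℝ, h₀ = N / (2 * K + 1) - 3 := ⟨_, rfl⟩
  have hh₀l : N / (2 * (2 * K + 1)) ≤ h₀ := by
    have h1 : N / (2 * K + 1) = 2 * (N / (2 * (2 * K + 1))) := by field_simp
    have h2 : 3 ≤ N / (2 * (2 * K + 1)) := by
      rw [le_div_iff₀ (by positivity)]
      linarith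
    rw [hh₀, h1]
    linarith
  have hh₀pos : 0 < h₀ := lt_of_lt_of_le (by positivity) hh₀l
  have hS3 : 3 ≤ (S.card : ℝ) / (2 * K + 1) := by
    rw [← hN]
    linarith
  obtain ⟨M, hM⟩ : ∃ M : ℕ, M = ⌈Q / (t * h₀)⌉₊ + 1 := ⟨_, rfl⟩
  have hM0 : 0 < M := by omega
  have hM1 : Q ≤ M * (t * h₀) := by
    have h1 : Q / (t * h₀) ≤ M := by
      rw [hM]
      push_cast
      linarith [Nat.le_ceil (Q / (t * h₀))]
    rwa [div_le_iff₀ (by positivity)] at h1
  have hM2 : (M : ℝ) ≤ Q / (t * h₀) + 2 := by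
    have h1 : ((⌈Q / (t * h₀)⌉₊ : ℕ) : ℝ) < Q / (t * h₀) + 1 := Nat.ceil_lt_add_one (by positivity)
    rw [hM]
    push_cast
    linarith
  have hM3 : (M : ℝ) ≤ lam * (10 * (2 * K + 1) / (t * N) + 2) := by
    have h1 : Q / (t * h₀) ≤ lam * (10 * (2 * K + 1) / (t * N)) := by
      calc Q / (t * h₀) ≤ 5 * lam / (t * h₀) := div_le_div_of_nonneg_right hQ5 (by positivity)
        _ ≤ 5 * lam / (t * (N / (2 * (2 * K + 1)))) := by
            refine div_le_div_of_nonneg_left (by positivity) (by positivity) ?_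
            exact mul_le_mul_of_nonneg_left hh₀l ht0.le
        _ = lam * (10 * (2 * K + 1) / (t * N)) := by field_simp; ring
    calc (M : ℝ) ≤ Q / (t * h₀) + 2 := hM2
      _ ≤ lam * (10 * (2 * K + 1) / (t * N)) + lam * 2 := add_le_add h1 (by linarith)
      _ = _ := by ring
  refine ⟨l, M, hl0, hM0, ?_, ?_⟩
  · calc (M : ℝ≥0∞) * (ENNReal.ofReal l * (1 + L l))
        ≤ ENNReal.ofReal (lam * (10 * (2 * K + 1) / (t * N) + 2)) * (ENNReal.ofReal l * (1 + L l)) := by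
          refine mul_le_mul_left ?_ _
          rw [← ENNReal.ofReal_natCast]
          exact ENNReal.ofReal_le_ofReal hM3
      _ = ENNReal.ofReal (10 * (2 * K + 1) / (t * N) + 2) * (ENNReal.ofReal (l * lam) * (1 + L l)) := by
          rw [ENNReal.ofReal_mul (by positivity), ENNReal.ofReal_mul hl0.le]
          ring
      _ ≤ ENNReal.ofReal (10 * (2 * K + 1) / (t * N) + 2) * ENNReal.ofReal (δ * (9 * (N * t))) :=
          mul_le_mul_right hmain _
      _ = ENNReal.ofReal (δ * (90 * (2 * K + 1) + 18 * (N * t))) := by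
          rw [← ENNReal.ofReal_mul (by positivity)]
          congr 1
          field_simp
          ring
      _ ≤ ENNReal.ofReal η := by
          refine ENNReal.ofReal_le_ofReal (le_trans ?_ hδ2)
          exact mul_le_mul_of_nonneg_left (by linarith) hδ0.le
  · intro J hJ
    have h1 := union_bound hc hu hind hR0 hR (X := X) ?_ ht0 ht1 hK htK S (fun m hm => (hSmem m).1 hm) hS3 J
    · rw [← hlt] at h1
      refine h1.trans (ENNReal.ofReal_le_ofReal ?_)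
      rw [← hC₃, ← hN, ← hh₀, hJ]
      have h2 : Real.exp (-(M * (t * h₀))) ≤ Real.exp (-Q) := Real.exp_le_exp.2 (by linarith)
      have h3 : Real.exp (-Q) ≤ t ^ 2 * (η / C₃) := by
        have h4 : -Q = 2 * Real.log t + -Q₀ := by rw [hQ]; ring
        have h5 : Real.exp (2 * Real.log t) = t ^ 2 := by
          rw [two_mul, Real.exp_add, Real.exp_log ht0, sq]
        have h6 : Real.exp (-Q₀) ≤ η / C₃ := by
          have h7 : Real.log (C₃ / η) ≤ Q₀ := by rw [hQ₀]; exact le_abs_self _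
          calc Real.exp (-Q₀) ≤ Real.exp (-Real.log (C₃ / η)) := Real.exp_le_exp.2 (by linarith)
            _ = η / C₃ := by rw [Real.exp_neg, Real.exp_log (by positivity), inv_div]
        rw [h4, Real.exp_add, h5]
        exact mul_le_mul_of_nonneg_left h6 (by positivity)
      calc C₃ / t ^ 2 * Real.exp (-(M * (t * h₀))) ≤ C₃ / t ^ 2 * (t ^ 2 * (η / C₃)) :=
            mul_le_mul_of_nonneg_left (h2.trans h3) (by positivity)
        _ = η := by field_simp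
    · by_contra hcon
      rw [not_nonempty_iff_eq_empty] at hcon
      have h2 : S = ∅ := by
        refine Finset.eq_empty_of_forall_notMem fun m hm => ?_
        obtain ⟨x, -, hx⟩ := (hSmem m).1 hm
        rw [hcon] at hx
        exact hx
      rw [hN, h2, Finset.card_empty, Nat.cast_zero] at hNpos
      exact lt_irrefl _ hNpos

/-- **random gaps which meet all similar copies** -/
theorem random_none {Ω : Type*} [MeasurableSpace Ω] {P : Measure Ω} [IsProbabilityMeasure P] {c : ℕ → Ω → ℝ}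
    (hc : ∀ i, Measurable (c i)) (hu : ∀ i, P.map (c i) = volume.restrict (Icc 0 1)) (hind : iIndepFun c P)
    {X : Set ℝ} (hXb : Bornology.IsBounded X) {L : ℝ → ℝ≥0∞}
    (hL : ∀ δ : ℝ, 0 < δ → ∃ᶠ t in 𝓝[>] (0 : ℝ),
      ENNReal.ofReal (t * |Real.log t|) * (1 + L t) ≤ ENNReal.ofReal δ * volume (thickening t X))
    {ε : ℝ} (hε : 0 < ε) :
    ∃ l : ℕ → ℝ, (∀ i, 0 < l i) ∧ ∑' i, ENNReal.ofReal (l i) * (1 + L (l i)) ≤ ENNReal.ofReal ε ∧
      ∀ᵐ ω ∂P, ∀ a b : ℝ, b ≠ 0 → ∃ x ∈ X,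
        a + b * x ∉ Icc (0 : ℝ) 1 \ ⋃ i, Ioo (c i ω) (c i ω + l i) := by
  classical
  have hst := fun k : ℕ => stageR hc hu hind hXb hL (Nat.succ_pos k) (show (0 : ℝ) < ε / 2 / 2 ^ k by positivity)
  choose l M hl hM hMl hP using hst
  have hsum : ∑' k : ℕ, ENNReal.ofReal (ε / 2 / 2 ^ k) = ENNReal.ofReal ε := by
    rw [← ENNReal.ofReal_tsum_of_nonneg (fun k => by positivity) (summable_geometric_two' _), tsum_geometric_two']
  have : Infinite (Σ k : ℕ, Fin (M k)) := by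
    refine Infinite.of_injective (fun k : ℕ => (⟨k, ⟨0, hM k⟩⟩ : Σ k : ℕ, Fin (M k))) ?_
    intro k k' h
    exact congrArg Sigma.fst h
  obtain ⟨hden⟩ := nonempty_denumerable (Σ k : ℕ, Fin (M k))
  set e : (Σ k : ℕ, Fin (M k)) ≃ ℕ := Denumerable.eqv _ with he
  set J : ℕ → Finset ℕ := fun k => Finset.univ.image fun j : Fin (M k) => e ⟨k, j⟩ with hJ
  have hJc : ∀ k, (J k).card = M k := by
    intro k
    rw [hJ, Finset.card_image_of_injective _ ?_, Finset.card_univ, Fintype.card_fin]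
    intro j j' h
    have h1 := e.injective h
    simpa using h1
  have hJl : ∀ k, ∀ i ∈ J k, l (e.symm i).1 = l k := by
    intro k i hi
    obtain ⟨j, -, rfl⟩ := Finset.mem_image.1 hi
    rw [Equiv.symm_apply_apply]
  refine ⟨fun i => l (e.symm i).1, fun i => hl _, ?_, ?_⟩
  · rw [e.symm.tsum_eq (fun s : Σ k : ℕ, Fin (M k) => ENNReal.ofReal (l s.1) * (1 + L (l s.1))),
      ENNReal.tsum_sigma fun (k : ℕ) (_ : Fin (M k)) => ENNReal.ofReal (l k) * (1 + L (l k)), ← hsum]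
    refine ENNReal.tsum_le_tsum fun k => ?_
    rw [tsum_fintype, Finset.sum_const, Finset.card_univ, Fintype.card_fin, nsmul_eq_mul]
    exact hMl k
  · set Bk : ℕ → Set Ω := fun k => {ω | ∃ a b : ℝ, |b| ≤ ((k + 1 : ℕ) : ℝ) ∧ 1 ≤ ((k + 1 : ℕ) : ℝ) * |b| ∧
      ∀ x ∈ X, a + b * x ∈ Icc (0 : ℝ) 1 ∧ ∀ j ∈ J k, a + b * x ∉ Ioo (c j ω) (c j ω + l k)} with hBk
    have h1 : ∑' k, P (Bk k) ≠ ∞ := by
      refine ne_top_of_le_ne_top ?_ (ENNReal.tsum_le_tsum fun k => hP k (J k) (hJc k))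
      rw [hsum]
      exact ENNReal.ofReal_ne_top
    filter_upwards [ae_eventually_notMem h1] with ω hω a b hb
    by_contra hcon
    push Not at hcon
    have hpos : 0 < |b| := abs_pos.2 hb
    obtain ⟨K, hK⟩ := exists_nat_ge (max |b| (1 / |b|))
    obtain ⟨k, hk1, hk2⟩ := (hω.and (eventually_ge_atTop K)).exists
    have hkK : (K : ℝ) ≤ ((k + 1 : ℕ) : ℝ) := by exact_mod_cast hk2.trans (Nat.le_succ k)
    have e1 := (le_max_left _ _).trans (hK.trans hkK)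
    have e2 := (le_max_right _ _).trans (hK.trans hkK)
    rw [div_le_iff₀ hpos] at e2
    refine hk1 ⟨a, b, e1, e2, fun x hx => ⟨(hcon x hx).1, fun j hj h => (hcon x hx).2 ?_⟩⟩
    refine mem_iUnion.2 ⟨j, ?_⟩
    rw [hJl k j hj]
    exact h

end Pool.Agent.H56.ES.Gap
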