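import Pool.Agent.H56.ES.RndE
import Mathlib.Probability.Independence.InfinitePi

/-!
MP_6045a2_an. Random gaps: the canonical model; lacunary sequences.
-/

set_option autoImplicit false

open MeasureTheory Set Filter Topology Metric ProbabilityTheory
open scoped ENNReal

namespace Pool.Agent.H56.ES.Gap

instance prob01 : IsProbabilityMeasure (volume.restrict (Icc (0 : ℝ) 1)) :=
  ⟨by rw [Measure.restrict_apply MeasurableSet.univ, univ_inter, Real.volume_Icc, sub_zero, ENNReal.ofReal_one]⟩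

theorem coord_meas (i : ℕ) : Measurable fun ω : ℕ → ℝ => ω i := measurable_pi_apply i

theorem coord_map (μ : ℕ → Measure ℝ) [∀ i, IsProbabilityMeasure (μ i)] (i : ℕ) :
    (Measure.infinitePi μ).map (fun ω : ℕ → ℝ => ω i) = μ i :=
  Measure.infinitePi_map_eval μ i

theorem coord_indep (μ : ℕ → Measure ℝ) [∀ i, IsProbabilityMeasure (μ i)] :
    iIndepFun (fun (i : ℕ) (ω : ℕ → ℝ) => ω i) (Measure.infinitePi μ) :=
  iIndepFun_infinitePi (P := μ) (X := fun (_ : ℕ) (y : ℝ) => y) fun _ => measurable_id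

theorem coord_bound (μ : ℕ → Measure ℝ) [∀ i, IsProbabilityMeasure (μ i)] {D : ℝ}
    (hμ : ∀ i, μ i ≤ ENNReal.ofReal D • volume) (i : ℕ) (T : Set ℝ) (hT : MeasurableSet T) :
    (Measure.infinitePi μ) ((fun ω : ℕ → ℝ => ω i) ⁻¹' T) ≤ ENNReal.ofReal (max D 1) * volume T := by
  rw [← Measure.map_apply (coord_meas i) hT, coord_map μ i]
  calc μ i T ≤ (ENNReal.ofReal D • volume) T := hμ i T
    _ = ENNReal.ofReal D * volume T := rfl
    _ ≤ ENNReal.ofReal (max D 1) * volume T := mul_le_mul_left (ENNReal.ofReal_le_ofReal (le_max_left _ _)) _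

/-- random positions with bounded densities -/
theorem often_product (μ : ℕ → Measure ℝ) [∀ i, IsProbabilityMeasure (μ i)] {D : ℝ}
    (hμ : ∀ i, μ i ≤ ENNReal.ofReal D • volume) {X : Set ℝ} (hXb : Bornology.IsBounded X) {σ C₀ : ℝ} (hσ : 0 < σ)
    (hV : ∀ t : ℝ, 0 < t → t ≤ 1 → volume (thickening t X) ≤ ENNReal.ofReal (C₀ * t ^ σ))
    {l : ℕ → ℝ} (hl : ∀ i, 0 < l i) (hls : Summable l)
    (hlV : Summable fun i => (volume (thickening (l i) X)).toReal / |Real.log (l i)|) {β : ℕ → ℝ} (hβ : ∀ k, 0 < β k)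
    (hβ0 : Tendsto β atTop (𝓝 0)) :
    ∀ᵐ c ∂(Measure.infinitePi μ), ∀ J : Set ℝ, IsOpen J → 0 < volume (J \ ⋃ i, Ioo (c i) (c i + l i)) →
      ∃ᶠ k in atTop, ∃ a : ℝ, ∀ x ∈ X, a + β k * x ∈ J \ ⋃ i, Ioo (c i) (c i + l i) :=
  random_often (P := Measure.infinitePi μ) coord_meas (lt_of_lt_of_le one_pos (le_max_right D 1))
    (coord_bound μ hμ) (coord_indep μ) hXb hσ hV hl hls hlV hβ hβ0

/-- the neighbourhoods of a lacunary sequence -/
theorem vol_lac {q : ℝ} (hq : q < 1) {x : ℕ → ℝ} (hx : ∀ n, 0 < x n) (hxq : ∀ n, x (n + 1) ≤ q * x n) :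
    ∃ C : ℝ, ∀ t : ℝ, 0 < t → volume (thickening t (range x)) ≤ ENNReal.ofReal (C * t * (1 + |Real.log t|)) := by
  have hq0 : 0 < q := by
    by_contra h
    have := (hx 1).trans_le (hxq 0)
    nlinarith [hx 0]
  have hlq : 0 < -Real.log q := neg_pos.2 (Real.log_neg hq0 hq)
  refine ⟨5 + 2 * |Real.log (x 0)| / -Real.log q + 2 / -Real.log q, fun t ht => ?_⟩
  have h1 := vol_seq hx ht
  have h2 := count_le hq hx hxq ht
  refine h1.trans ((mul_le_mul_right (add_le_add le_rfl (mul_le_mul_right h2 2)) _).trans ?_)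
  have h3 : (0 : ℝ) ≤ 1 + (|Real.log (x 0)| + |Real.log t|) / -Real.log q := by positivity
  rw [show (3 : ℝ≥0∞) = ENNReal.ofReal 3 by simp, show (2 : ℝ≥0∞) = ENNReal.ofReal 2 by simp,
    ← ENNReal.ofReal_mul (by norm_num), ← ENNReal.ofReal_add (by norm_num) (by positivity),
    ← ENNReal.ofReal_mul ht.le]
  refine ENNReal.ofReal_le_ofReal ?_
  have h4 : 3 + 2 * (1 + (|Real.log (x 0)| + |Real.log t|) / -Real.log q) =
      5 + 2 * |Real.log (x 0)| / -Real.log q + 2 / -Real.log q * |Real.log t| := by ring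
  rw [h4]
  have h5 : 0 ≤ 2 * |Real.log (x 0)| / -Real.log q := by positivity
  have h6 : 0 ≤ 2 / -Real.log q := by positivity
  have h7 := abs_nonneg (Real.log t)
  calc t * (5 + 2 * |Real.log (x 0)| / -Real.log q + 2 / -Real.log q * |Real.log t|)
      ≤ t * ((5 + 2 * |Real.log (x 0)| / -Real.log q + 2 / -Real.log q) * (1 + |Real.log t|)) := by
        refine mul_le_mul_of_nonneg_left ?_ ht.le
        nlinarith
    _ = _ := by ring

/-- a power bound from a logarithmic one -/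
theorem pow_of_log {C t : ℝ} (hC : 0 ≤ C) (ht : 0 < t) (ht1 : t ≤ 1) :
    C * t * (1 + |Real.log t|) ≤ 2 * C * t ^ (1 / 2 : ℝ) := by
  obtain ⟨y, hy⟩ : ∃ y, y = -Real.log t := ⟨_, rfl⟩
  have hlog := Real.log_nonpos ht.le ht1
  have hy0 : 0 ≤ y := by linarith
  have habs : |Real.log t| = y := by rw [abs_of_nonpos hlog, hy]
  have e1 : t = Real.exp (-y) := by rw [hy, neg_neg, Real.exp_log ht]
  have e2 : t ^ (1 / 2 : ℝ) = Real.exp (-(y / 2)) := by
    rw [Real.rpow_def_of_pos ht]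
    congr 1
    rw [hy]
    ring
  have h1 : 1 + y ≤ 2 * Real.exp (y / 2) := by
    have := Real.add_one_le_exp (y / 2)
    linarith
  rw [habs, e2]
  calc C * t * (1 + y) ≤ C * t * (2 * Real.exp (y / 2)) := mul_le_mul_of_nonneg_left h1 (by positivity)
    _ = 2 * C * (Real.exp (-y) * Real.exp (y / 2)) := by rw [e1]; ring
    _ = 2 * C * Real.exp (-(y / 2)) := by
        rw [← Real.exp_add]
        congr 2
        ring

/-- if the neighbourhoods have measure `O(t log (1 / t))` the condition on the lengths is the summability -/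
theorem summable_of_log {X : Set ℝ} {C : ℝ} (hC : 0 ≤ C)
    (hV : ∀ t : ℝ, 0 < t → volume (thickening t X) ≤ ENNReal.ofReal (C * t * (1 + |Real.log t|)))
    {l : ℕ → ℝ} (hl : ∀ i, 0 < l i) (hls : Summable l) :
    Summable fun i => (volume (thickening (l i) X)).toReal / |Real.log (l i)| := by
  have e1 : ∀ᶠ i in atTop, l i < Real.exp (-1) :=
    hls.tendsto_atTop_zero.eventually_lt_const (Real.exp_pos _)
  refine summable_of_isBigO_nat hls ?_
  refine Asymptotics.IsBigO.of_bound (2 * C) ?_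
  filter_upwards [e1] with i hi
  have hli := hl i
  have h1 : 1 ≤ |Real.log (l i)| := by
    have h2 := Real.log_lt_log hli hi
    rw [Real.log_exp] at h2
    have := neg_le_abs (Real.log (l i))
    linarith
  have h3 : (volume (thickening (l i) X)).toReal ≤ C * l i * (1 + |Real.log (l i)|) :=
    ENNReal.toReal_le_of_le_ofReal (by positivity) (hV _ hli)
  rw [Real.norm_eq_abs, Real.norm_eq_abs, abs_of_pos hli, abs_of_nonneg (by positivity), div_le_iff₀ (by linarith)]
  refine h3.trans ?_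
  have h4 : 0 ≤ C * l i := by positivity
  nlinarith

end Pool.Agent.H56.ES.Gap
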